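import Mathlib

set_option autoImplicit false

/-! Definitions: the Edwards-Anderson model on `ℤ²`. -/

namespace Pool.H66.EAM

/-- Vertices of the square lattice. -/
abbrev V := Fin 2 → ℤ

/-- Edges of the square lattice: `(x, i)` joins `x` and `x + e_i`. -/
abbrev E := V × Fin 2

/-- The bond variable `σ_x σ_y` of the edge `e = xy`. -/
def bond (σ : V → ℝ) (e : E) : ℝ :=
  σ e.1 * σ (e.1 + (Pi.single e.2 (1 : ℤ) : Fin 2 → ℤ))

/-- Infinite-volume ground states of the two-dimensional Edwards-Anderson model with couplings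
`J`, exactly as in the frozen statements (for `d = 2`): `±1` configurations such that every `±1`
configuration which differs from `σ` at finitely many (and at least one) vertices has strictly
larger energy. -/
def IsGroundState (J : E → ℝ) (σ : V → ℝ) : Prop :=
  (∀ x, σ x = 1 ∨ σ x = -1) ∧
  ∀ ρ : V → ℝ, (∀ x, ρ x = 1 ∨ ρ x = -1) → {x | ρ x ≠ σ x}.Finite → ρ ≠ σ →
    0 < ∑ᶠ e : E, J e *
      (σ e.1 * σ (e.1 + (Pi.single e.2 (1 : ℤ) : Fin 2 → ℤ))
        - ρ e.1 * ρ (e.1 + (Pi.single e.2 (1 : ℤ) : Fin 2 → ℤ)))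

/-- `σ` is a ground state in the finite volume `B` for its own (arbitrary) boundary condition:
no `±1` configuration which agrees with `σ` outside `B` has smaller energy. -/
def IsGroundIn (B : Finset V) (J : E → ℝ) (σ : V → ℝ) : Prop :=
  (∀ x, σ x = 1 ∨ σ x = -1) ∧
  ∀ ρ : V → ℝ, (∀ x, ρ x = 1 ∨ ρ x = -1) → (∀ x, x ∉ B → ρ x = σ x) →
    0 ≤ ∑ᶠ e : E, J e *
      (σ e.1 * σ (e.1 + (Pi.single e.2 (1 : ℤ) : Fin 2 → ℤ))
        - ρ e.1 * ρ (e.1 + (Pi.single e.2 (1 : ℤ) : Fin 2 → ℤ)))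

/-- The box `[-N, N]²`. -/
noncomputable def box (N : ℕ) : Finset V := Fintype.piFinset (fun _ => Finset.Icc (-(N : ℤ)) N)

/-- Translate of a field on the edges by the vector `v`. -/
def shJ {Y : Type*} (v : V) (ω : E → Y) : E → Y := fun e => ω (e.1 + v, e.2)

/-- Translate of a spin configuration by the vector `v`. -/
def shS (v : V) (σ : V → ℝ) : V → ℝ := fun x => σ (x + v)

end Pool.H66.EAM
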