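import Pool.Agent.Helper66.EAM.Defs

set_option autoImplicit false

/-! Definition: covariant choices of a ground state. -/

namespace Pool.H66.EAM

open MeasureTheory

/-- A translation covariant measurable choice `Φ` of a ground state (up to a global flip).
The `ω e` are i.i.d. with law `ν`; `q (ω e)` is the coupling of the edge `e`, and `ω e` may carry
additional independent randomness. -/
structure Covariant {Y : Type*} [MeasurableSpace Y] (ν : Measure Y) [IsProbabilityMeasure ν]
    (q : Y → ℝ) (Φ : (E → Y) → V → ℝ) : Prop where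
  meas : Measurable Φ
  ground : ∀ᵐ ω ∂(Measure.infinitePi fun _ : E => ν), IsGroundState (fun e => q (ω e)) (Φ ω)
  cov : ∀ v : V, ∀ᵐ ω ∂(Measure.infinitePi fun _ : E => ν),
    Φ (shJ v ω) = shS v (Φ ω) ∨ Φ (shJ v ω) = -shS v (Φ ω)

end Pool.H66.EAM
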