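import Pool.Agent.Helper66.EAM.Defs

set_option autoImplicit false

/-! Definition: number of disagreements. -/

namespace Pool.H66.EAM

/-- The number of the bonds `(x, x + e_i)`, `x ∈ [-M, M]²`, on which `σ` and `τ` disagree, that is
`σ_x σ_{x + e_i} ≠ τ_x τ_{x + e_i}`. -/
noncomputable def disagree (i : Fin 2) (M : ℕ) (σ τ : V → ℝ) : ℕ :=
  Set.ncard {x : V | x ∈ box M ∧ bond σ (x, i) ≠ bond τ (x, i)}

end Pool.H66.EAM
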