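import Pool.Agent.Helper66.EAM.StatDefs
import Pool.Agent.Helper66.EAM.CovDefs
import Pool.Agent.Helper66.EAM.DisDefs

set_option autoImplicit false

/-! Definitions: the two cases of the dichotomy. -/

namespace Pool.H66.EAM

open MeasureTheory

/-- Case A: there is a covariant ground state `α`; every translation invariant law of a pair
(couplings, ground state) is carried by `±α`; all ground states, even in finite volume with
arbitrary boundary conditions, agree with `α` up to a set of bonds of density zero, uniformly; and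
the number of ground states is two or infinite. -/
def CaseA (μ : Measure ℝ) [IsProbabilityMeasure μ] : Prop :=
  ∃ α : (E → ℝ) → V → ℝ, Covariant μ id α ∧
    (∀ Q : Measure ((E → ℝ) × (V → ℝ)), StationaryLaw μ Q →
      ∀ᵐ p ∂Q, p.2 = α p.1 ∨ p.2 = -α p.1) ∧
    (∀ᵐ J ∂(Measure.infinitePi fun _ : E => μ), ∀ ε > 0, ∃ M₀ : ℕ, ∀ M ≥ M₀, ∀ σ : V → ℝ,
      IsGroundIn (box (2 * M)) J σ → ∀ i : Fin 2,
        (disagree i M σ (α J) : ℝ) ≤ ε * ((box M).card : ℝ)) ∧
    ((∀ᵐ J ∂(Measure.infinitePi fun _ : E => μ), {σ | IsGroundState J σ} = {α J, -α J}) ∨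
      (∀ᵐ J ∂(Measure.infinitePi fun _ : E => μ), {σ | IsGroundState J σ}.Infinite))

/-- Case B: almost surely there are two ground states which disagree on a set of bonds of positive
upper density, and there is no covariant ground state, even if it may use extra randomness (i.i.d.
marks on the edges, independent of the couplings). -/
def CaseB (μ : Measure ℝ) [IsProbabilityMeasure μ] : Prop :=
  (∀ᵐ J ∂(Measure.infinitePi fun _ : E => μ), ∃ σ τ : V → ℝ,
    IsGroundState J σ ∧ IsGroundState J τ ∧ ∃ i : Fin 2, ∃ ε > 0, ∀ M₀ : ℕ, ∃ M ≥ M₀,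
      ε * ((box M).card : ℝ) ≤ (disagree i M σ τ : ℝ)) ∧
  ∀ (Z : Type) [MeasurableSpace Z] [StandardBorelSpace Z] (lam : Measure Z)
    [IsProbabilityMeasure lam] (Φ : (E → ℝ × Z) → V → ℝ), ¬ Covariant (μ.prod lam) Prod.fst Φ

end Pool.H66.EAM
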