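import Pool.Agent.Helper66.EAM.Conc

set_option autoImplicit false

/-! Covariant ground states, final form. -/

namespace Pool.H66.EAM

open MeasureTheory

lemma IsGroundState.neg {J : E → ℝ} {σ : V → ℝ} (h : IsGroundState J σ) :
    IsGroundState J (-σ) := by
  have hneg : ∀ {ρ : V → ℝ}, (∀ x, ρ x = 1 ∨ ρ x = -1) → ∀ x, (-ρ) x = 1 ∨ (-ρ) x = -1 := by
    intro ρ hρ x
    rw [Pi.neg_apply]
    rcases hρ x with h1 | h1 <;> rw [h1]
    · exact Or.inr rfl
    · exact Or.inl (neg_neg 1)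
  refine ⟨hneg h.1, fun ρ hρ hfin hne => ?_⟩
  have h1 := h.2 (-ρ) (hneg hρ) (by
    refine hfin.subset (fun x hx h2 => hx ?_)
    rw [Pi.neg_apply, h2, Pi.neg_apply, neg_neg]) (by
    intro h2
    apply hne
    rw [← h2, neg_neg])
  refine lt_of_lt_of_eq h1 (finsum_congr (fun e => ?_))
  simp only [Pi.neg_apply]
  ring

theorem main2 (μ : Measure ℝ) [IsProbabilityMeasure μ] (hμ : ∀ x : ℝ, μ {x} = 0)
    {Z : Type*} [MeasurableSpace Z] [StandardBorelSpace Z] (lam : Measure Z)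
    [IsProbabilityMeasure lam] (Φ : (E → ℝ × Z) → V → ℝ)
    (hΦ : Covariant (μ.prod lam) Prod.fst Φ) :
    ∃ α : (E → ℝ) → V → ℝ, Covariant μ id α ∧
      (∀ᵐ ω ∂(Measure.infinitePi fun _ : E => μ.prod lam),
        Φ ω = α (fun e => (ω e).1) ∨ Φ ω = -α (fun e => (ω e).1)) ∧
      (∀ Q : Measure ((E → ℝ) × (V → ℝ)), StationaryLaw μ Q →
        ∀ᵐ p ∂Q, p.2 = α p.1 ∨ p.2 = -α p.1) ∧
      (∀ᵐ J ∂(Measure.infinitePi fun _ : E => μ), ∀ ε > 0, ∃ M₀ : ℕ, ∀ M ≥ M₀, ∀ σ : V → ℝ,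
        IsGroundIn (box (2 * M)) J σ → ∀ i : Fin 2,
          ((((box M).filter (fun x => bond σ (x, i) ≠ bond (α J) (x, i))).card : ℕ) : ℝ)
            ≤ ε * ((box M).card : ℝ)) ∧
      ((∀ᵐ J ∂(Measure.infinitePi fun _ : E => μ),
          {σ | IsGroundState J σ} = {α J, -α J}) ∨
        (∀ᵐ J ∂(Measure.infinitePi fun _ : E => μ), {σ | IsGroundState J σ}.Infinite)) := by
  have hν : ∀ x : ℝ, μ (id ⁻¹' {x}) = 0 := hμ
  obtain ⟨α, hα, h1⟩ := exists_nonrandom hμ hΦ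
  refine ⟨α, hα, h1, fun Q hQ => stat_conc hν measurable_id hα (Q := Q) hQ,
    density_zero hν measurable_id hα, ?_⟩
  rcases two_or_infinite hν measurable_id hα with h | h
  · left
    filter_upwards [h, hα.ground] with J h2 h3
    have h3' : IsGroundState J (α J) := h3
    ext σ
    constructor
    · intro h4
      exact h2 σ h4
    · intro h4
      rcases h4 with h4 | h4
      · rw [h4]; exact h3'
      · rw [Set.mem_singleton_iff] at h4
        rw [h4]; exact h3'.neg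
  · exact Or.inr h

end Pool.H66.EAM
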