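import Pool.Agent.Helper66.EAM.PosDen
import Pool.Agent.Helper66.EAM.Res2
import Pool.Agent.Helper66.EAM.CaseDefs

set_option autoImplicit false

/-! The unconditional dichotomy. -/

namespace Pool.H66.EAM

open MeasureTheory Filter Topology

lemma disagree_eq (i : Fin 2) (M : ℕ) (σ τ : V → ℝ) :
    disagree i M σ τ = ((box M).filter (fun x => bond σ (x, i) ≠ bond τ (x, i))).card := by
  unfold disagree
  rw [← Set.ncard_coe_finset]
  congr 1
  ext x
  simp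

lemma dn_disagree (i : Fin 2) (M : ℕ) (σ τ : V → ℝ) :
    dn i M σ τ = (disagree i M σ τ : ℝ) / ((box M).card : ℝ) := by
  rw [disagree_eq, dn_eq, Finset.card_filter]
  push_cast
  congr 1

lemma disagree_tri (i : Fin 2) (M : ℕ) (σ τ α : V → ℝ) :
    disagree i M σ τ ≤ disagree i M σ α + disagree i M τ α := by
  classical
  rw [disagree_eq, disagree_eq, disagree_eq]
  have hsub : (box M).filter (fun x => bond σ (x, i) ≠ bond τ (x, i))
      ⊆ (box M).filter (fun x => bond σ (x, i) ≠ bond α (x, i)) ∪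
        (box M).filter (fun x => bond τ (x, i) ≠ bond α (x, i)) := by
    intro x hx
    rw [Finset.mem_filter] at hx
    rw [Finset.mem_union, Finset.mem_filter, Finset.mem_filter]
    by_contra hcon
    push Not at hcon
    have a1 := hcon.1 hx.1
    have a2 := hcon.2 hx.1
    exact hx.2 (a1.trans a2.symm)
  exact (Finset.card_le_card hsub).trans (Finset.card_union_le _ _)

lemma pos_of_not_tendsto {i : Fin 2} {σ τ : V → ℝ}
    (h : ¬ Tendsto (fun M => dn i M σ τ) atTop (𝓝 0)) :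
    ∃ ε > 0, ∀ M₀ : ℕ, ∃ M ≥ M₀, ε * ((box M).card : ℝ) ≤ (disagree i M σ τ : ℝ) := by
  rw [Metric.tendsto_atTop] at h
  push Not at h
  obtain ⟨ε, hε, h1⟩ := h
  refine ⟨ε, hε, fun M₀ => ?_⟩
  obtain ⟨M, hM, h2⟩ := h1 M₀
  refine ⟨M, hM, ?_⟩
  rw [Real.dist_eq, sub_zero, abs_of_nonneg (dn_nonneg _ _ _ _), dn_disagree,
    le_div_iff₀ (box_pos M)] at h2
  exact h2

variable {μ : Measure ℝ} [IsProbabilityMeasure μ]

lemma density_zero' (hμ : ∀ x : ℝ, μ {x} = 0) {α : (E → ℝ) → V → ℝ} (hα : Covariant μ id α) :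
    ∀ᵐ J ∂(Measure.infinitePi fun _ : E => μ), ∀ ε > 0, ∃ M₀ : ℕ, ∀ M ≥ M₀, ∀ σ : V → ℝ,
      IsGroundIn (box (2 * M)) J σ → ∀ i : Fin 2,
        (disagree i M σ (α J) : ℝ) ≤ ε * ((box M).card : ℝ) := by
  have hν : ∀ x : ℝ, μ (id ⁻¹' {x}) = 0 := hμ
  filter_upwards [density_zero hν measurable_id hα] with J hJ ε hε
  obtain ⟨M0, hM0⟩ := hJ ε hε
  refine ⟨M0, fun M hM σ hσ i => ?_⟩
  have h1 := hM0 M hM σ hσ i
  rw [disagree_eq]
  refine le_trans (le_of_eq ?_) h1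
  rw [Finset.card_filter]

lemma no_pair {α : (E → ℝ) → V → ℝ} {J : E → ℝ}
    (h : ∀ ε > 0, ∃ M₀ : ℕ, ∀ M ≥ M₀, ∀ σ : V → ℝ, IsGroundIn (box (2 * M)) J σ → ∀ i : Fin 2,
      (disagree i M σ (α J) : ℝ) ≤ ε * ((box M).card : ℝ)) {σ τ : V → ℝ}
    (hσ : IsGroundState J σ) (hτ : IsGroundState J τ) {i : Fin 2} {ε : ℝ} (hε : 0 < ε)
    (hpos : ∀ M₀ : ℕ, ∃ M ≥ M₀, ε * ((box M).card : ℝ) ≤ (disagree i M σ τ : ℝ)) : False := by
  obtain ⟨M0, hM0⟩ := h (ε / 4) (by positivity)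
  obtain ⟨M, hM, h1⟩ := hpos M0
  have e1 := hM0 M hM σ (hσ.groundIn _) i
  have e2 := hM0 M hM τ (hτ.groundIn _) i
  have e3 : (disagree i M σ τ : ℝ) ≤ (disagree i M σ (α J) : ℝ) + (disagree i M τ (α J) : ℝ) := by
    exact_mod_cast disagree_tri i M σ τ (α J)
  have e4 := box_pos M
  nlinarith

theorem caseA_of_cov (hμ : ∀ x : ℝ, μ {x} = 0) {α : (E → ℝ) → V → ℝ} (hα : Covariant μ id α) :
    CaseA μ := by
  have hν : ∀ x : ℝ, μ (id ⁻¹' {x}) = 0 := hμ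
  refine ⟨α, hα, fun Q hQ => stat_conc hν measurable_id hα (Q := Q) hQ, density_zero' hμ hα, ?_⟩
  rcases two_or_infinite hν measurable_id hα with h | h
  · left
    filter_upwards [h, hα.ground] with J h2 h3
    have h3' : IsGroundState J (α J) := h3
    ext σ
    constructor
    · intro h4
      exact h2 σ h4
    · intro h4
      rcases h4 with h4 | h4
      · rw [h4]; exact h3'
      · rw [Set.mem_singleton_iff] at h4
        rw [h4]; exact h3'.neg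
  · exact Or.inr h

theorem main3 (μ : Measure ℝ) [IsProbabilityMeasure μ] (hμ : ∀ x : ℝ, μ {x} = 0) :
    (CaseA μ ∨ CaseB μ) ∧ ¬ (CaseA μ ∧ CaseB μ) := by
  constructor
  · by_cases H : Agree μ
    · left
      obtain ⟨α, hα⟩ := exists_cov hμ H
      exact caseA_of_cov hμ hα
    · right
      have h1 := exists_incongruent hμ H
      have h1' : ∀ᵐ J ∂(Measure.infinitePi fun _ : E => μ), ∃ σ τ : V → ℝ,
          IsGroundState J σ ∧ IsGroundState J τ ∧ ∃ i : Fin 2, ∃ ε > 0, ∀ M₀ : ℕ, ∃ M ≥ M₀,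
            ε * ((box M).card : ℝ) ≤ (disagree i M σ τ : ℝ) := by
        filter_upwards [h1] with J hJ
        obtain ⟨σ, τ, h2, h3, i, h4⟩ := hJ
        exact ⟨σ, τ, h2, h3, i, pos_of_not_tendsto h4⟩
      refine ⟨h1', ?_⟩
      intro Z _ _ lam _ Φ hΦ
      obtain ⟨α, hα, -⟩ := exists_nonrandom hμ hΦ
      obtain ⟨J, h3, h4⟩ := (h1'.and (density_zero' hμ hα)).exists
      obtain ⟨σ, τ, h5, h6, i, ε, hε, h7⟩ := h3
      exact no_pair h4 h5 h6 hε h7
  · rintro ⟨⟨α, hα, -, h2, -⟩, h1, -⟩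
    obtain ⟨J, h3, h4⟩ := (h1.and h2).exists
    obtain ⟨σ, τ, h5, h6, i, ε, hε, h7⟩ := h3
    exact no_pair h4 h5 h6 hε h7

end Pool.H66.EAM
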