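import Pool.Agent.Helper66.EAM.Cluster

set_option autoImplicit false

/-! Existence of the region families for every law of the couplings. -/

namespace Pool.H66.EAM

open MeasureTheory Set ProbabilityTheory Filter Topology
open scoped ENNReal

/-- The region. -/
noncomputable def Rgn (K : ℝ) (B k : ℕ) (J : E → ℝ) : Finset V := by
  classical exact (box (B + k)).filter (fun x => inR K B k J x)

/-- The good event: no strong coupling leaves the region. -/
def GG (K : ℝ) (B k : ℕ) : Set (E → ℝ) := {J | ∀ e ∈ cut (Rgn K B k J), |J e| ≤ K}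

variable {K : ℝ} {B k : ℕ}

lemma mem_Rgn {J : E → ℝ} {x : V} : x ∈ Rgn K B k J ↔ inR K B k J x := by
  classical
  unfold Rgn
  rw [Finset.mem_filter]
  exact ⟨fun h => h.2, fun h => ⟨inR_box h, h⟩⟩

lemma meas_Rgn (s : Finset V) : MeasurableSet {J : E → ℝ | Rgn K B k J = s} := by
  have : {J : E → ℝ | Rgn K B k J = s} = ⋂ x : V, {J | inR K B k J x ↔ x ∈ s} := by
    ext J
    simp only [mem_iInter, mem_ofPred_eq]
    constructor
    · intro h x; rw [← h, mem_Rgn]
    · intro h; ext x; rw [mem_Rgn, h x]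
  rw [this]
  apply MeasurableSet.iInter
  intro x
  by_cases hx : x ∈ s
  · have : {J : E → ℝ | inR K B k J x ↔ x ∈ s} = {J | inR K B k J x} := by
      ext J; simp [hx]
    rw [this]; exact measurableSet_inR k x
  · have : {J : E → ℝ | inR K B k J x ↔ x ∈ s} = {J | inR K B k J x}ᶜ := by
      ext J; simp [hx]
    rw [this]; exact (measurableSet_inR k x).compl

lemma meas_cost : Measurable (fun J : E → ℝ => ∑ e ∈ cut (Rgn K B k J), |J e|) :=
  measurable_of_sel (sel := Rgn K B k) meas_Rgn (fun s J => ∑ e ∈ cut s, |J e|)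
    (fun _ => Finset.measurable_sum _ (fun _ _ => (measurable_pi_apply _).abs))

lemma meas_GG : MeasurableSet (GG K B k) := by
  have : GG K B k = ⋃ s : Finset V, ({J : E → ℝ | Rgn K B k J = s} ∩
      ⋂ e ∈ cut s, {J : E → ℝ | |J e| ≤ K}) := by
    ext J
    simp only [mem_iUnion, mem_inter_iff, mem_iInter, mem_ofPred_eq]
    constructor
    · intro h; exact ⟨_, rfl, h⟩
    · rintro ⟨s, hs, h⟩
      intro e he
      rw [hs] at he
      exact h e he
  rw [this]
  apply MeasurableSet.iUnion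
  intro s
  apply (meas_Rgn s).inter
  apply Finset.measurableSet_biInter
  intro e _
  exact measurableSet_le (measurable_pi_apply _).abs measurable_const

lemma Rgn_congr {J J' : E → ℝ} (h : ∀ e, K < |J e| ↔ K < |J' e|) :
    Rgn K B k J = Rgn K B k J' := by
  ext x
  rw [mem_Rgn, mem_Rgn, inR_congr h]

lemma box_subset_Rgn (J : E → ℝ) : box B ⊆ Rgn K B k J := by
  intro x hx
  rw [mem_Rgn]
  exact inR_mono (Nat.zero_le k) (show inR K B 0 J x from hx)

lemma Rgn_subset_box (J : E → ℝ) : Rgn K B k J ⊆ box (B + k) := fun _ hx => inR_box (mem_Rgn.1 hx)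

lemma card_cut_le (hB : 1 ≤ B) (J : E → ℝ) :
    ((cut (Rgn K B k J)).card : ℝ≥0∞)
      ≤ 4 * ∑ j ∈ Finset.range (k + 1), ∑ x ∈ box (B + j), (Lay K B j x).indicator 1 J := by
  classical
  have h1 : cut (Rgn K B k J) ⊆ ((Rgn K B k J \ box (B - 1)) ×ˢ (Finset.univ : Finset Dir)).image
      (fun p => stepE p.2 p.1) := by
    intro e he
    obtain ⟨x, hx, d, hd, hd'⟩ := cut_step he
    rw [Finset.mem_image]
    refine ⟨(x, d), ?_, hd⟩
    rw [Finset.mem_product, Finset.mem_sdiff]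
    refine ⟨⟨hx, ?_⟩, Finset.mem_univ _⟩
    intro h
    apply hd'
    apply box_subset_Rgn
    have h5 : stepV (revD d) (stepV d x) ∈ box (B - 1) := by rw [stepV_rev]; exact h
    have h6 := stepV_box h5
    rwa [Nat.sub_add_cancel hB] at h6
  have h2 : Rgn K B k J \ box (B - 1) ⊆ (Finset.range (k + 1)).biUnion
      (fun j => (box (B + j)).filter (fun x => J ∈ Lay K B j x)) := by
    intro x hx
    rw [Finset.mem_sdiff, mem_Rgn] at hx
    obtain ⟨hx1, hx2⟩ := hx
    have hex : ∃ j, inR K B j J x := ⟨k, hx1⟩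
    set j := Nat.find hex with hj
    have hj1 : inR K B j J x := Nat.find_spec hex
    have hj2 : j ≤ k := Nat.find_min' hex hx1
    rw [Finset.mem_biUnion]
    refine ⟨j, Finset.mem_range.2 (by omega), ?_⟩
    rw [Finset.mem_filter]
    refine ⟨inR_box hj1, hj1, ?_⟩
    rcases Nat.eq_zero_or_pos j with h0 | h0
    · rw [h0]; exact hx2
    · obtain ⟨j', hj'⟩ : ∃ j', j = j' + 1 := ⟨j - 1, by omega⟩
      rw [hj']
      exact Nat.find_min hex (show j' < Nat.find hex by omega)
  have h3 : (cut (Rgn K B k J)).card ≤ (Rgn K B k J \ box (B - 1)).card * 4 := by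
    refine (Finset.card_le_card h1).trans (Finset.card_image_le.trans ?_)
    rw [Finset.card_product, Finset.card_univ]
    simp
  have h4 : (Rgn K B k J \ box (B - 1)).card ≤ ∑ j ∈ Finset.range (k + 1),
      ((box (B + j)).filter (fun x => J ∈ Lay K B j x)).card :=
    (Finset.card_le_card h2).trans Finset.card_biUnion_le
  have h5 : ∀ j, (((box (B + j)).filter (fun x => J ∈ Lay K B j x)).card : ℝ≥0∞)
      = ∑ x ∈ box (B + j), (Lay K B j x).indicator 1 J := by
    intro j
    rw [Finset.card_filter]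
    push_cast
    apply Finset.sum_congr rfl
    intro x _
    by_cases h : J ∈ Lay K B j x
    · rw [if_pos h, indicator_of_mem h]; rfl
    · rw [if_neg h, indicator_of_notMem h]
  calc ((cut (Rgn K B k J)).card : ℝ≥0∞)
      ≤ (((Rgn K B k J \ box (B - 1)).card * 4 : ℕ) : ℝ≥0∞) := by exact_mod_cast h3
    _ = 4 * ((Rgn K B k J \ box (B - 1)).card : ℝ≥0∞) := by push_cast; ring
    _ ≤ 4 * ((∑ j ∈ Finset.range (k + 1),
      ((box (B + j)).filter (fun x => J ∈ Lay K B j x)).card : ℕ) : ℝ≥0∞) := by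
        gcongr
    _ = 4 * ∑ j ∈ Finset.range (k + 1), ∑ x ∈ box (B + j), (Lay K B j x).indicator 1 J := by
        push_cast
        simp_rw [h5]

section

variable {μ : Measure ℝ} [IsProbabilityMeasure μ]

lemma cost_le (hK : 0 ≤ K) (hB : 1 ≤ B) (hp : μ {x | K < |x|} ≤ ENNReal.ofReal (1 / 16)) :
    ∫⁻ J in GG K B k, ENNReal.ofReal (∑ e ∈ cut (Rgn K B k J), |J e|) ∂(PJ μ)
      ≤ ENNReal.ofReal (64 * K * B) := by
  have h1 : ∀ J ∈ GG K B k, ENNReal.ofReal (∑ e ∈ cut (Rgn K B k J), |J e|)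
      ≤ ENNReal.ofReal K * (4 * ∑ j ∈ Finset.range (k + 1), ∑ x ∈ box (B + j),
        (Lay K B j x).indicator 1 J) := by
    intro J hJ
    have h2 : ∑ e ∈ cut (Rgn K B k J), |J e| ≤ ((cut (Rgn K B k J)).card : ℝ) * K := by
      calc ∑ e ∈ cut (Rgn K B k J), |J e| ≤ ∑ e ∈ cut (Rgn K B k J), K :=
            Finset.sum_le_sum (fun e he => hJ e he)
        _ = _ := by rw [Finset.sum_const, nsmul_eq_mul]
    calc ENNReal.ofReal (∑ e ∈ cut (Rgn K B k J), |J e|)
        ≤ ENNReal.ofReal (K * ((cut (Rgn K B k J)).card : ℝ)) :=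
          ENNReal.ofReal_le_ofReal (by rw [mul_comm]; exact h2)
      _ = ENNReal.ofReal K * ((cut (Rgn K B k J)).card : ℝ≥0∞) := by
          rw [ENNReal.ofReal_mul hK, ENNReal.ofReal_natCast]
      _ ≤ _ := by
          gcongr
          exact card_cut_le hB J
  have hm : ∀ (j : ℕ) (x : V), Measurable ((Lay K B j x).indicator (1 : (E → ℝ) → ℝ≥0∞)) :=
    fun j x => measurable_one.indicator (measurableSet_Lay j x)
  have hm2 : Measurable (fun J : E → ℝ => ∑ j ∈ Finset.range (k + 1), ∑ x ∈ box (B + j),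
        (Lay K B j x).indicator (1 : (E → ℝ) → ℝ≥0∞) J) :=
    Finset.measurable_sum _ (fun j _ => Finset.measurable_sum _ (fun x _ => hm j x))
  calc ∫⁻ J in GG K B k, ENNReal.ofReal (∑ e ∈ cut (Rgn K B k J), |J e|) ∂(PJ μ)
      ≤ ∫⁻ J in GG K B k, ENNReal.ofReal K * (4 * ∑ j ∈ Finset.range (k + 1),
        ∑ x ∈ box (B + j), (Lay K B j x).indicator 1 J) ∂(PJ μ) :=
        setLIntegral_mono' meas_GG h1
    _ ≤ ∫⁻ J, ENNReal.ofReal K * (4 * ∑ j ∈ Finset.range (k + 1),
        ∑ x ∈ box (B + j), (Lay K B j x).indicator 1 J) ∂(PJ μ) := setLIntegral_le_lintegral _ _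
    _ = ENNReal.ofReal K * (4 * ∑ j ∈ Finset.range (k + 1), aa μ K B j) := by
        rw [lintegral_const_mul _ (hm2.const_mul 4), lintegral_const_mul _ hm2,
          lintegral_finsetSum _ (fun j _ => Finset.measurable_sum _ (fun x _ => hm j x))]
        congr 2
        apply Finset.sum_congr rfl
        intro j _
        rw [lintegral_finsetSum _ (fun x _ => hm j x)]
        unfold aa
        apply Finset.sum_congr rfl
        intro x _
        exact lintegral_indicator_one (measurableSet_Lay j x)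
    _ ≤ ENNReal.ofReal K * (4 * ∑ j ∈ Finset.range (k + 1),
        ENNReal.ofReal (8 * B * (1 / 4) ^ j)) := by
        gcongr with j _
        exact aa_le hB hp j
    _ ≤ ENNReal.ofReal K * (4 * ENNReal.ofReal (16 * B)) := by
        gcongr
        rw [← ENNReal.ofReal_sum_of_nonneg (fun j _ => by positivity)]
        apply ENNReal.ofReal_le_ofReal
        rw [← Finset.mul_sum]
        have hgeo : ∑ j ∈ Finset.range (k + 1), ((1 : ℝ) / 4) ^ j ≤ 2 := by
          rw [geom_sum_eq (by norm_num)]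
          have : (0 : ℝ) < (1 / 4) ^ (k + 1) := by positivity
          rw [div_le_iff_of_neg (by norm_num)]
          linarith
        have hB0 : (0 : ℝ) ≤ 8 * B := by positivity
        nlinarith
    _ = ENNReal.ofReal (64 * K * B) := by
        have : (4 : ℝ≥0∞) = ENNReal.ofReal 4 := by norm_num
        rw [this, ← ENNReal.ofReal_mul (by norm_num), ← ENNReal.ofReal_mul hK]
        congr 1
        ring

lemma prob_GG (hB : 1 ≤ B) (hp : μ {x | K < |x|} ≤ ENNReal.ofReal (1 / 16)) :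
    (PJ μ).real (GG K B k)ᶜ ≤ 8 * B * (1 / 4) ^ (k + 1) := by
  have h1 : (GG K B k)ᶜ ⊆ ⋃ x ∈ box (B + (k + 1)), Lay K B (k + 1) x := by
    intro J hJ
    have hJ' : ¬ ∀ e ∈ cut (Rgn K B k J), |J e| ≤ K := hJ
    push Not at hJ'
    obtain ⟨e, he, hes⟩ := hJ'
    obtain ⟨x, hx, d, hd, hd'⟩ := cut_step he
    rw [mem_Rgn] at hx hd'
    have h2 : inR K B (k + 1) J (stepV d x) := by
      right
      refine ⟨revD d, ?_, ?_⟩
      · rw [stepV_rev]; exact hx
      · rw [stepE_rev, hd]; exact hes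
    rw [mem_iUnion₂]
    exact ⟨stepV d x, inR_box h2, h2, hd'⟩
  have h2 : PJ μ (GG K B k)ᶜ ≤ ENNReal.ofReal (8 * B * (1 / 4) ^ (k + 1)) := by
    calc PJ μ (GG K B k)ᶜ ≤ PJ μ (⋃ x ∈ box (B + (k + 1)), Lay K B (k + 1) x) := measure_mono h1
      _ ≤ ∑ x ∈ box (B + (k + 1)), PJ μ (Lay K B (k + 1) x) := measure_biUnion_finset_le _ _
      _ = aa μ K B (k + 1) := rfl
      _ ≤ _ := aa_le hB hp (k + 1)
  rw [measureReal_def]
  exact ENNReal.toReal_le_of_le_ofReal (by positivity) h2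

lemma exists_threshold (μ : Measure ℝ) [IsProbabilityMeasure μ] (K : ℝ) :
    ∃ K', 0 ≤ K' ∧ K ≤ K' ∧ μ {x | K' < |x|} ≤ ENNReal.ofReal (1 / 16) := by
  have hanti : Antitone (fun m : ℕ => {x : ℝ | (m : ℝ) < |x|}) := by
    intro a b hab x hx
    exact lt_of_le_of_lt (show (a : ℝ) ≤ b by exact_mod_cast hab) hx
  have hm : ∀ m : ℕ, MeasurableSet {x : ℝ | (m : ℝ) < |x|} :=
    fun m => measurableSet_lt measurable_const measurable_id.abs
  have hemp : ⋂ m : ℕ, {x : ℝ | (m : ℝ) < |x|} = ∅ := by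
    rw [eq_empty_iff_forall_notMem]
    intro x hx
    rw [mem_iInter] at hx
    obtain ⟨m, hm⟩ := exists_nat_gt |x|
    exact absurd (hx m) (not_lt.2 hm.le)
  have hlim := tendsto_measure_iInter_atTop (μ := μ) (fun m => (hm m).nullMeasurableSet) hanti
    ⟨0, measure_ne_top _ _⟩
  rw [hemp, measure_empty] at hlim
  have hlt := hlim.eventually_lt_const
    (show (0 : ℝ≥0∞) < ENNReal.ofReal (1 / 16) from ENNReal.ofReal_pos.2 (by norm_num))
  obtain ⟨m, hm1, hm2⟩ := (hlt.and (eventually_ge_atTop ⌈K⌉₊)).exists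
  refine ⟨m, Nat.cast_nonneg m, ?_, hm1.le⟩
  exact (Nat.le_ceil K).trans (by exact_mod_cast hm2)

/-- Passing from marks to couplings. -/
lemma mp_cpl {Y : Type*} [MeasurableSpace Y] (ν : Measure Y) [IsProbabilityMeasure ν]
    {q : Y → ℝ} (hq : Measurable q) [IsProbabilityMeasure (ν.map q)] :
    MeasurePreserving (cpl q) (PJ ν) (PJ (ν.map q)) := by
  refine ⟨measurable_cpl hq, ?_⟩
  exact Measure.infinitePi_map_pi (fun _ : E => ν) (fun _ => hq)

/-- The region families exist for every law. -/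
theorem hasReg {Y : Type*} [MeasurableSpace Y] (ν : Measure Y) [IsProbabilityMeasure ν]
    {q : Y → ℝ} (hq : Measurable q) : HasReg ν q := by
  have hpm : IsProbabilityMeasure (ν.map q) := Measure.isProbabilityMeasure_map hq.aemeasurable
  have hmp := mp_cpl ν hq
  intro n hn
  refine ⟨fun N => n * N + N + 1, ?_, fun N => le_rfl, ?_⟩
  · intro L N hLN
    obtain ⟨m, rfl⟩ : ∃ m, N = L + m := ⟨N - L, by omega⟩
    rw [Nat.add_sub_cancel_left]
    nlinarith
  intro K
  obtain ⟨K', hK0, hKK, hp⟩ := exists_threshold (ν.map q) K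
  have hB : ∀ N, 1 ≤ n * N + 1 := fun N => by omega
  have hstrong : ∀ J J' : E → Y, (∀ e, J e = J' e ∨ (|q (J e)| ≤ K ∧ |q (J' e)| ≤ K)) →
      ∀ e, K' < |cpl q J e| ↔ K' < |cpl q J' e| := by
    intro J J' h e
    unfold cpl
    rcases h e with h | ⟨h1, h2⟩
    · rw [h]
    · constructor
      · intro h; linarith
      · intro h; linarith
  refine ⟨⟨fun N J => Rgn K' (n * N + 1) N (cpl q J), fun N => cpl q ⁻¹' GG K' (n * N + 1) N,
    64 * K' * n, by positivity, fun N => measurable_cpl hq meas_GG, fun N J => box_subset_Rgn _,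
    ?_, ?_, ?_, fun N => ?_, ?_, ?_⟩⟩
  · intro N J _
    refine (Rgn_subset_box _).trans (box_mono ?_)
    show n * N + 1 + N ≤ n * N + N + 1
    omega
  · intro N J J' h
    exact Rgn_congr (hstrong J J' h)
  · intro N J J' h hJ e he
    rw [← Rgn_congr (hstrong J J' h)] at he
    have h1 := hJ e he
    rcases h e with h | ⟨_, h2⟩
    · have : cpl q J' e = cpl q J e := by unfold cpl; rw [h]
      rw [this]; exact h1
    · show |q (J' e)| ≤ K'
      linarith
  · exact meas_cost.comp (measurable_cpl hq)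
  · intro N
    have h1 := hmp.setLIntegral_comp_preimage (s := GG K' (n * N + 1) N) meas_GG
      (f := fun J => ENNReal.ofReal (∑ e ∈ cut (Rgn K' (n * N + 1) N J), |J e|))
      meas_cost.ennreal_ofReal
    have h2 := cost_le (μ := ν.map q) (k := N) hK0 (hB N) hp
    rw [← h1] at h2
    refine h2.trans ?_
    apply ENNReal.ofReal_le_ofReal
    push_cast
    have hn1 : (1 : ℝ) ≤ n := by exact_mod_cast (by omega : 1 ≤ n)
    calc 64 * K' * ((n : ℝ) * N + 1) ≤ 64 * K' * ((n : ℝ) * N + n) := by gcongr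
      _ = 64 * K' * n * ((N : ℝ) + 1) := by ring
  · have hbound : ∀ N : ℕ, (PJ ν).real (cpl q ⁻¹' GG K' (n * N + 1) N)ᶜ
        ≤ 8 * ((n : ℝ) + 1) * (1 / 2) ^ (N + 1) := by
      intro N
      have h0 : (PJ ν).real (cpl q ⁻¹' GG K' (n * N + 1) N)ᶜ
          = (PJ (ν.map q)).real (GG K' (n * N + 1) N)ᶜ := by
        rw [measureReal_def, measureReal_def, ← preimage_compl,
          hmp.measure_preimage meas_GG.compl.nullMeasurableSet]
      rw [h0]
      refine (prob_GG (hB N) hp).trans ?_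
      push_cast
      have h2 : ((N : ℝ) + 1) ≤ 2 ^ (N + 1) := by
        have := Nat.lt_two_pow_self (n := N + 1)
        have h3 : N + 1 ≤ 2 ^ (N + 1) := this.le
        exact_mod_cast h3
      have h3 : (n : ℝ) * N + 1 ≤ ((n : ℝ) + 1) * ((N : ℝ) + 1) := by
        have h4 : (0 : ℝ) ≤ n := Nat.cast_nonneg n
        have h5 : (0 : ℝ) ≤ N := Nat.cast_nonneg N
        nlinarith
      have h6 : ((1 : ℝ) / 4) ^ (N + 1) = (1 / 2) ^ (N + 1) * (1 / 2) ^ (N + 1) := by
        rw [← mul_pow]; norm_num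
      have h7 : (2 : ℝ) ^ (N + 1) * (1 / 2) ^ (N + 1) = 1 := by
        rw [← mul_pow]; norm_num
      rw [h6]
      calc 8 * ((n : ℝ) * N + 1) * ((1 / 2) ^ (N + 1) * (1 / 2) ^ (N + 1))
          ≤ 8 * (((n : ℝ) + 1) * 2 ^ (N + 1)) * ((1 / 2) ^ (N + 1) * (1 / 2) ^ (N + 1)) := by
            gcongr
            exact h3.trans (by gcongr)
        _ = 8 * ((n : ℝ) + 1) * (2 ^ (N + 1) * (1 / 2) ^ (N + 1)) * (1 / 2) ^ (N + 1) := by ring
        _ = 8 * ((n : ℝ) + 1) * (1 / 2) ^ (N + 1) := by rw [h7, mul_one]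
    have hlim : Tendsto (fun N : ℕ => 8 * ((n : ℝ) + 1) * (1 / 2) ^ (N + 1)) atTop (𝓝 0) := by
      have h1 := (tendsto_pow_atTop_nhds_zero_of_lt_one (by norm_num : (0 : ℝ) ≤ 1 / 2)
        (by norm_num)).comp (tendsto_add_atTop_nat 1)
      have h2 := h1.const_mul (8 * ((n : ℝ) + 1))
      rw [mul_zero] at h2
      exact h2
    exact squeeze_zero (fun N => measureReal_nonneg) hbound hlim

end

end Pool.H66.EAM
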