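import Pool.Agent.Helper66.EAM.Alpha

set_option autoImplicit false

/-! The universal bond function. -/

namespace Pool.H66.EAM

open MeasureTheory Filter Topology

lemma measurableSet_WG {Ω : Type*} [MeasurableSpace Ω] {W : Ω → E → ℝ} (hW : Measurable W)
    {g : Ω → V → ℝ} (hg : Measurable g) : MeasurableSet {p : Ω | WG (W p) (g p)} := by
  have e1 : {p : Ω | WG (W p) (g p)} = g ⁻¹' {σ | IsSpin σ} ∩ ⋂ B : Finset V,
      ⋂ D ∈ B.powerset, {p : Ω | 0 ≤ ∑ e ∈ cut D, W p e * bond (g p) e} := by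
    ext p
    simp only [Set.mem_inter_iff, Set.mem_preimage, Set.mem_ofPred_eq, Set.mem_iInter,
      Finset.mem_powerset]
    rfl
  rw [e1]
  refine (hg isClosed_spin.measurableSet).inter (MeasurableSet.iInter (fun B => ?_))
  apply Finset.measurableSet_biInter
  intro D _
  apply measurableSet_le measurable_const
  apply Finset.measurable_sum
  intro e _
  exact ((measurable_pi_apply e).comp hW).mul (measurable_bond hg e)

/-- Stationary laws exist. -/
theorem exists_stationary (μ : Measure ℝ) [IsProbabilityMeasure μ] (hμ : ∀ x : ℝ, μ {x} = 0) :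
    ∃ Q : Measure ((E → ℝ) × (V → ℝ)), StationaryLaw μ Q := by
  obtain ⟨U, Q, -, -, hQ⟩ := exists_limit μ (Mk := id) (Mk' := id) tendsto_id tendsto_id
  have hf : Measurable (fun p : X2 => (p.1, p.2.1)) :=
    measurable_fst.prodMk (measurable_fst.comp measurable_snd)
  have hmarg : ((Q : Measure X2).map (fun p => (p.1, p.2.1))).map Prod.fst = PJ μ := by
    rw [Measure.map_map measurable_fst hf]
    exact hQ.marg
  refine ⟨(Q : Measure X2).map (fun p => (p.1, p.2.1)), hmarg, fun v => ?_, ?_⟩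
  · have hg : Measurable (fun p : (E → ℝ) × (V → ℝ) => (shJ v p.1, shS v p.2)) :=
      ((measurable_shJ v).comp measurable_fst).prodMk ((measurable_shS v).comp measurable_snd)
    rw [Measure.map_map hg hf]
    have h1 : (fun p : (E → ℝ) × (V → ℝ) => (shJ v p.1, shS v p.2)) ∘
        (fun p : X2 => (p.1, p.2.1)) = (fun p : X2 => (p.1, p.2.1)) ∘ tr v := rfl
    rw [h1, ← Measure.map_map hf (measurable_tr v), hQ.inv v]
  · have h2 : ∀ᵐ J ∂(((Q : Measure X2).map (fun p => (p.1, p.2.1))).map Prod.fst), ∀ σ : V → ℝ,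
        WG (cpl id J) σ → IsGroundState (cpl id J) σ := by
      rw [hmarg]
      exact generic (ν := μ) (q := id) hμ measurable_id
    have h3 : ∀ᵐ p ∂((Q : Measure X2).map (fun p => (p.1, p.2.1))), WG p.1 p.2 := by
      rw [ae_map_iff hf.aemeasurable (measurableSet_WG measurable_fst measurable_snd)]
      filter_upwards [hQ.wg] with p hp
      exact hp.1
    filter_upwards [ae_of_ae_map measurable_fst.aemeasurable h2, h3] with p h4 h5
    exact h4 _ h5

/-- The universal bond function. -/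
theorem main4 (μ : Measure ℝ) [IsProbabilityMeasure μ] (hμ : ∀ x : ℝ, μ {x} = 0) :
    (∃ Q : Measure ((E → ℝ) × (V → ℝ)), StationaryLaw μ Q) ∧
    ∃ m : Fin 2 → (E → ℝ) → ℝ, (∀ i, Measurable (m i)) ∧ (∀ i J, |m i J| ≤ 1) ∧
      ∀ (i : Fin 2) (g : (E → ℝ) → ℝ), Measurable g → (∃ C : ℝ, ∀ J, |g J| ≤ C) →
        (∀ Q : Measure ((E → ℝ) × (V → ℝ)), StationaryLaw μ Q →
          ∫ p, g p.1 * bond p.2 (0, i) ∂Q
            = ∫ J, g J * m i J ∂(Measure.infinitePi fun _ : E => μ)) ∧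
        ((∃ S : Finset E, ∀ J J' : E → ℝ, (∀ e ∈ S, J e = J' e) → g J = g J') →
          ∀ᵐ J ∂(Measure.infinitePi fun _ : E => μ), ∀ ε > 0, ∃ M₀ : ℕ, ∀ M ≥ M₀, ∀ σ : V → ℝ,
            IsGroundIn (box (2 * M)) J σ →
              |(∑ x ∈ box M, g (shJ x J) * bond σ (x, i)) / ((box M).card : ℝ)
                - ∫ J', g J' * m i J' ∂(Measure.infinitePi fun _ : E => μ)| ≤ ε) := by
  have hν : ∀ x : ℝ, μ (id ⁻¹' {x}) = 0 := hμ
  obtain ⟨Q0, hQ0⟩ := exists_stationary μ hμ
  have hS0 : StatLaw μ id Q0 := hQ0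
  have hprob := hS0.prob
  have hclb : ∀ i : Fin 2, Measurable (fun p : (E → ℝ) × (V → ℝ) => cl (bond p.2 (0, i))) :=
    fun i => continuous_cl.measurable.comp (measurable_bond measurable_snd _)
  set m : Fin 2 → (E → ℝ) → ℝ := fun i J => ∫ y, cl (bond y (0, i)) ∂(Q0.condKernel J) with hm
  have hmm : ∀ i, Measurable (m i) := by
    intro i
    have h1 : StronglyMeasurable (fun J => ∫ y, (fun p : (E → ℝ) × (V → ℝ) =>
        cl (bond p.2 (0, i))) (J, y) ∂(Q0.condKernel J)) :=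
      StronglyMeasurable.integral_kernel_prod_right' (hclb i).stronglyMeasurable
    exact h1.measurable
  have hm1 : ∀ i J, |m i J| ≤ 1 := by
    intro i J
    have h1 := norm_integral_le_of_norm_le_const (μ := Q0.condKernel J)
      (f := fun y : V → ℝ => cl (bond y (0, i))) (C := 1) (ae_of_all _ (fun y => abs_cl _))
    simpa using h1
  have hQm : ∀ (i : Fin 2) (g : (E → ℝ) → ℝ), Measurable g → (∃ C : ℝ, ∀ J, |g J| ≤ C) →
      ∫ p, g p.1 * bond p.2 (0, i) ∂Q0 = ∫ J, g J * m i J ∂(PJ μ) := by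
    rintro i g hg ⟨C, hC⟩
    have h1 : ∫ p, g p.1 * bond p.2 (0, i) ∂Q0 = ∫ p, g p.1 * cl (bond p.2 (0, i)) ∂Q0 := by
      apply integral_congr_ae
      filter_upwards [hS0.2.2] with p hp
      rw [cl_spin (bond_cases hp.spin _)]
    have hfi : Integrable (fun p : (E → ℝ) × (V → ℝ) => g p.1 * cl (bond p.2 (0, i))) Q0 := by
      apply Integrable.of_bound ((hg.comp measurable_fst).mul (hclb i)).aestronglyMeasurable |C|
      apply ae_of_all
      intro p
      show ‖g p.1 * cl (bond p.2 (0, i))‖ ≤ |C|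
      rw [Real.norm_eq_abs, abs_mul]
      calc |g p.1| * |cl (bond p.2 (0, i))| ≤ |C| * 1 := by
            apply mul_le_mul ((hC _).trans (le_abs_self C)) (abs_cl _) (abs_nonneg _) (abs_nonneg _)
        _ = |C| := mul_one _
    have hfst : Q0.fst = PJ μ := hS0.1
    rw [h1, ← Measure.integral_condKernel hfi, hfst]
    congr 1
    funext J
    exact integral_const_mul (μ := Q0.condKernel J) (g J) (fun y : V → ℝ => cl (bond y (0, i)))
  refine ⟨⟨Q0, hQ0⟩, m, hmm, hm1, fun i g hg hb => ⟨fun Q hQ => ?_, fun hl => ?_⟩⟩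
  · rw [← hQm i g hg hb]
    obtain ⟨C, hC⟩ := hb
    exact stat_unique (ν := μ) (q := id) hν measurable_id hQ hQ0 (0, i) hg hC
  · obtain ⟨C, hC⟩ := hb
    obtain ⟨S, hS⟩ := hl
    obtain ⟨c, hc⟩ := uniform (ν := μ) hν measurable_id i hg hC hS
    have h1 := stat_local hc hg hC hS0
    rw [hQm i g hg ⟨C, hC⟩] at h1
    have h2 : ∫ J', g J' * m i J' ∂(Measure.infinitePi fun _ : E => μ) = c := h1
    rw [h2]
    exact hc

end Pool.H66.EAM
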