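import Pool.Agent.Helper66.EAM.Wgs
import Pool.Agent.Helper66.EAM.CovDefs

set_option autoImplicit false
set_option linter.unusedSectionVars false

/-! Covariant ground states. -/

namespace Pool.H66.EAM

open MeasureTheory Set ProbabilityTheory Filter Topology
open scoped ENNReal symmDiff

variable {Y : Type*} [MeasurableSpace Y] {ν : Measure Y} [IsProbabilityMeasure ν] {q : Y → ℝ}

/-- Approximation by local sets. -/
lemma approx {C : Set (E → Y)} (hC : MeasurableSet C) {κ : ℝ} (hκ : 0 < κ) :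
    ∃ (S : Finset E) (D : Set (E → Y)), MeasurableSet D ∧
      (∀ ω ω' : E → Y, (∀ e ∈ S, ω e = ω' e) → (ω ∈ D ↔ ω' ∈ D)) ∧
      (PJ ν).real (C ∆ D) ≤ κ := by
  have hdense : (PJ ν).MeasureDense (measurableCylinders (fun _ : E => Y)) := by
    apply Measure.MeasureDense.of_generateFrom_isSetAlgebra_finite
    · exact ⟨empty_mem_measurableCylinders _, fun s hs => compl_mem_measurableCylinders hs,
        fun s t hs ht => union_mem_measurableCylinders hs ht⟩
    · exact generateFrom_measurableCylinders.symm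
  obtain ⟨D, hD, hCD⟩ := hdense.approx C hC (measure_ne_top _ _) κ hκ
  obtain ⟨S, T, hT, rfl⟩ := (mem_measurableCylinders D).1 hD
  refine ⟨S, cylinder (α := fun _ : E => Y) S T, hT.cylinder S, ?_, ?_⟩
  · intro ω ω' h
    rw [mem_cylinder, mem_cylinder]
    have : S.restrict ω = S.restrict ω' := by
      funext e; exact h e e.2
    rw [this]
  · exact ENNReal.toReal_le_of_le_ofReal hκ.le hCD.le

lemma Covariant.spin {Φ : (E → Y) → V → ℝ} (h : Covariant ν q Φ) :
    ∀ᵐ ω ∂(PJ ν), IsSpin (Φ ω) := by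
  filter_upwards [h.ground] with ω hω
  exact hω.spin

lemma Covariant.ground' {Φ : (E → Y) → V → ℝ} (h : Covariant ν q Φ) :
    ∀ᵐ ω ∂(PJ ν), IsGroundState (cpl q ω) (Φ ω) := h.ground

lemma Covariant.bond_sh {Φ : (E → Y) → V → ℝ} (h : Covariant ν q Φ) :
    ∀ᵐ ω ∂(PJ ν), ∀ (v : V) (e : E), bond (Φ (shJ v ω)) e = bond (Φ ω) (shE v e) := by
  rw [ae_all_iff]
  intro v
  filter_upwards [h.cov v] with ω hω e
  rcases hω with h1 | h1
  · rw [h1, bond_shS]
  · rw [h1, bond_neg, bond_shS]

lemma shE_zero_vec (x : V) (i : Fin 2) : shE x (0, i) = (x, i) := by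
  unfold shE; simp

lemma Covariant.bond_sh0 {Φ : (E → Y) → V → ℝ} (h : Covariant ν q Φ) :
    ∀ᵐ ω ∂(PJ ν), ∀ (x : V) (i : Fin 2), bond (Φ (shJ x ω)) (0, i) = bond (Φ ω) (x, i) := by
  filter_upwards [h.bond_sh] with ω hω x i
  rw [hω, shE_zero_vec]

/-- Elementary count. -/
lemma count_le {σ τ : V → ℝ} {γ : V → ℝ} (hσ : IsSpin σ) (hτ : IsSpin τ)
    (hγ : ∀ x, γ x = 1 ∨ γ x = -1) (i : Fin 2) (M : ℕ) {c κ : ℝ}
    (h1 : |(∑ x ∈ box M, γ x * bond σ (x, i)) / ((box M).card : ℝ) - c| ≤ κ)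
    (h2 : |(∑ x ∈ box M, γ x * bond τ (x, i)) / ((box M).card : ℝ) - c| ≤ κ)
    (hc : 1 - 2 * κ ≤ c) :
    (((box M).filter (fun x => bond σ (x, i) ≠ bond τ (x, i))).card : ℝ)
      ≤ 3 * κ * ((box M).card : ℝ) := by
  classical
  have hp := box_pos M
  have h3 : (c - κ) * ((box M).card : ℝ) ≤ ∑ x ∈ box M, γ x * bond σ (x, i) := by
    rw [abs_le] at h1
    rw [← le_div_iff₀ hp]; linarith [h1.1]
  have h4 : (c - κ) * ((box M).card : ℝ) ≤ ∑ x ∈ box M, γ x * bond τ (x, i) := by
    rw [abs_le] at h2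
    rw [← le_div_iff₀ hp]; linarith [h2.1]
  have h5 : 2 * (((box M).filter (fun x => bond σ (x, i) ≠ bond τ (x, i))).card : ℝ)
      ≤ ∑ x ∈ box M, ((1 - γ x * bond σ (x, i)) + (1 - γ x * bond τ (x, i))) := by
    have h6 : 2 * (((box M).filter (fun x => bond σ (x, i) ≠ bond τ (x, i))).card : ℝ)
        = ∑ x ∈ box M, (if bond σ (x, i) ≠ bond τ (x, i) then (2 : ℝ) else 0) := by
      rw [← Finset.sum_filter, Finset.sum_const, nsmul_eq_mul, mul_comm]
    rw [h6]
    apply Finset.sum_le_sum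
    intro x _
    rcases hγ x with a | a <;> rcases bond_cases hσ (x, i) with b | b <;>
      rcases bond_cases hτ (x, i) with d | d <;> rw [a, b, d] <;> norm_num
  rw [Finset.sum_add_distrib, Finset.sum_sub_distrib, Finset.sum_sub_distrib, Finset.sum_const,
    nsmul_eq_mul, mul_one] at h5
  nlinarith

/-- In two dimensions every (even finite-volume) ground state agrees with a covariant ground
state outside of a set of edges of density zero. -/
theorem density_zero [MeasurableEq Y] (hν : ∀ x, ν (q ⁻¹' {x}) = 0) (hq : Measurable q)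
    {Φ : (E → Y) → V → ℝ} (hΦ : Covariant ν q Φ) :
    ∀ᵐ ω ∂(PJ ν), ∀ ε > 0, ∃ M0 : ℕ, ∀ M ≥ M0, ∀ σ : V → ℝ,
      IsGroundIn (box (2 * M)) (cpl q ω) σ → ∀ i : Fin 2,
      (((box M).filter (fun x => bond σ (x, i) ≠ bond (Φ ω) (x, i))).card : ℝ)
        ≤ ε * ((box M).card : ℝ) := by
  classical
  -- for every `i`, `κ`
  have key : ∀ (i : Fin 2) (κ : ℝ), 0 < κ → ∀ᵐ ω ∂(PJ ν), ∃ M0 : ℕ, ∀ M ≥ M0, ∀ σ : V → ℝ,
      IsGroundIn (box (2 * M)) (cpl q ω) σ →
      (((box M).filter (fun x => bond σ (x, i) ≠ bond (Φ ω) (x, i))).card : ℝ)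
        ≤ 3 * κ * ((box M).card : ℝ) := by
    intro i κ hκ
    have hbm : Measurable (fun ω => bond (Φ ω) (0, i)) := measurable_bond hΦ.meas _
    set C : Set (E → Y) := {ω | bond (Φ ω) (0, i) = 1} with hCdef
    have hC : MeasurableSet C := measurableSet_eq_fun hbm measurable_const
    obtain ⟨S, D, hD, hloc, hCD⟩ := approx (ν := ν) hC hκ
    set g : (E → Y) → ℝ := fun ω => 2 * D.indicator (1 : (E → Y) → ℝ) ω - 1 with hg
    have hgm : Measurable g := ((measurable_one.indicator hD).const_mul 2).sub_const 1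
    have hg1 : ∀ ω, g ω = 1 ∨ g ω = -1 := by
      intro ω
      simp only [hg]
      by_cases h : ω ∈ D
      · left; rw [indicator_of_mem h]; norm_num
      · right; rw [indicator_of_notMem h]; norm_num
    have hgb : ∀ ω, |g ω| ≤ 1 := by
      intro ω; rcases hg1 ω with h | h <;> rw [h] <;> norm_num
    have hgl : Loc S g := by
      intro ω ω' h
      have hiff := hloc ω ω' h
      simp only [hg]
      by_cases h : ω ∈ D
      · rw [indicator_of_mem h, indicator_of_mem (hiff.1 h)]; rfl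
      · rw [indicator_of_notMem h, indicator_of_notMem (fun h' => h (hiff.2 h'))]
    obtain ⟨c, hc⟩ := uniform hν hq i hgm hgb hgl
    -- the constant
    have hce : ∫ ω, g ω * bond (Φ ω) (0, i) ∂(PJ ν) = c := by
      apply const_eq (W := fun ω => ω) (B := Φ) hc hgm hgb (PJ ν) measurable_id
        (Measure.map_id) hΦ.meas hΦ.ground'
      intro x
      rw [← integral_shJ ν x (φ := fun ω => g ω * bond (Φ ω) (0, i)) (hgm.mul hbm)]
      apply integral_congr_ae
      filter_upwards [hΦ.bond_sh0] with ω hω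
      rw [hω]
    have hcl : 1 - 2 * κ ≤ c := by
      rw [← hce]
      have hDm : MeasurableSet (C ∆ D) := hC.symmDiff hD
      have hint : Integrable (fun ω => g ω * bond (Φ ω) (0, i)) (PJ ν) := by
        apply Integrable.of_bound (hgm.mul hbm).aestronglyMeasurable 1
        filter_upwards [hΦ.spin] with ω hω
        show ‖g ω * bond (Φ ω) (0, i)‖ ≤ 1
        rw [Real.norm_eq_abs, abs_mul, abs_bond hω, mul_one]
        exact hgb ω
      have h1 : ∫ ω, (1 - g ω * bond (Φ ω) (0, i)) ∂(PJ ν)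
          ≤ ∫ ω, 2 * (C ∆ D).indicator (1 : (E → Y) → ℝ) ω ∂(PJ ν) := by
        apply integral_mono_ae ((integrable_const _).sub hint)
        · exact ((integrable_const (1 : ℝ)).indicator hDm).const_mul 2
        · filter_upwards [hΦ.spin] with ω hω
          show 1 - (2 * D.indicator (1 : (E → Y) → ℝ) ω - 1) * bond (Φ ω) (0, i)
            ≤ 2 * (C ∆ D).indicator (1 : (E → Y) → ℝ) ω
          by_cases h2 : ω ∈ D
          · by_cases h3 : ω ∈ C
            · have h4 : bond (Φ ω) (0, i) = 1 := h3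
              have h5 : ω ∉ C ∆ D := by
                rw [Set.mem_symmDiff]; tauto
              rw [indicator_of_mem h2, indicator_of_notMem h5, h4]; norm_num
            · have h4 : bond (Φ ω) (0, i) = -1 := (bond_cases hω _).resolve_left h3
              have h5 : ω ∈ C ∆ D := by
                rw [Set.mem_symmDiff]; tauto
              rw [indicator_of_mem h2, indicator_of_mem h5, h4]; norm_num
          · by_cases h3 : ω ∈ C
            · have h4 : bond (Φ ω) (0, i) = 1 := h3
              have h5 : ω ∈ C ∆ D := by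
                rw [Set.mem_symmDiff]; tauto
              rw [indicator_of_notMem h2, indicator_of_mem h5, h4]; norm_num
            · have h4 : bond (Φ ω) (0, i) = -1 := (bond_cases hω _).resolve_left h3
              have h5 : ω ∉ C ∆ D := by
                rw [Set.mem_symmDiff]; tauto
              rw [indicator_of_notMem h2, indicator_of_notMem h5, h4]; norm_num
      rw [integral_const_mul, integral_indicator_one hDm, integral_sub (integrable_const _) hint] at h1
      simp only [integral_const, probReal_univ, smul_eq_mul, mul_one] at h1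
      linarith
    filter_upwards [hc, hΦ.ground'] with ω hω hgs
    obtain ⟨M0, hM0⟩ := hω κ hκ
    refine ⟨M0, fun M hM σ hσ => ?_⟩
    exact count_le hσ.spin hgs.spin (fun x => hg1 (shJ x ω)) i M (hM0 M hM σ hσ)
      (hM0 M hM _ (hgs.groundIn _)) hcl
  have key2 : ∀ᵐ ω ∂(PJ ν), ∀ (i : Fin 2) (n : ℕ), ∃ M0 : ℕ, ∀ M ≥ M0, ∀ σ : V → ℝ,
      IsGroundIn (box (2 * M)) (cpl q ω) σ →
      (((box M).filter (fun x => bond σ (x, i) ≠ bond (Φ ω) (x, i))).card : ℝ)
        ≤ 3 * (1 / ((n : ℝ) + 1)) * ((box M).card : ℝ) := by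
    rw [ae_all_iff]
    intro i
    rw [ae_all_iff]
    intro n
    exact key i (1 / ((n : ℝ) + 1)) (by positivity)
  filter_upwards [key2] with ω hω ε hε
  obtain ⟨n, hn⟩ := exists_nat_one_div_lt (show (0 : ℝ) < ε / 3 by positivity)
  obtain ⟨M0, hM0⟩ := hω 0 n
  obtain ⟨M1, hM1⟩ := hω 1 n
  refine ⟨max M0 M1, fun M hM σ hσ i => ?_⟩
  have hle : 3 * (1 / ((n : ℝ) + 1)) * ((box M).card : ℝ) ≤ ε * ((box M).card : ℝ) := by
    apply mul_le_mul_of_nonneg_right _ (box_pos M).le
    linarith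
  fin_cases i
  · exact (hM0 M (le_trans (le_max_left _ _) hM) σ hσ).trans hle
  · exact (hM1 M (le_trans (le_max_right _ _) hM) σ hσ).trans hle

end Pool.H66.EAM
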