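import Pool.Agent.Helper66.EAM.Cor

set_option autoImplicit false
set_option linter.unusedSectionVars false

/-! Weak ground states: genericity, compactness, measurability. -/

namespace Pool.H66.EAM

open MeasureTheory Set ProbabilityTheory Filter Topology
open scoped ENNReal

/-- Weak ground states. -/
def WG (J : E → ℝ) (σ : V → ℝ) : Prop := IsSpin σ ∧ ∀ B : Finset V, LG B J σ

lemma IsGroundState.wg {J : E → ℝ} {σ : V → ℝ} (h : IsGroundState J σ) : WG J σ :=
  ⟨h.spin, h.lg⟩

lemma WG.sh {J : E → ℝ} {σ : V → ℝ} (h : WG J σ) (v : V) : WG (shJ v J) (shS v σ) := by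
  classical
  refine ⟨shS_spin h.1, fun B => ?_⟩
  exact LG_sh (B' := B.image (fun x => x + v))
    (fun x hx => Finset.mem_image_of_mem (fun x => x + v) hx) (h.2 _)

lemma bond_neg (σ : V → ℝ) (e : E) : bond (-σ) e = bond σ e := by
  unfold bond; simp only [Pi.neg_apply]; ring

lemma WG.neg {J : E → ℝ} {σ : V → ℝ} (h : WG J σ) : WG J (-σ) := by
  constructor
  · intro x
    rcases h.1 x with hx | hx
    · right; simp [hx]
    · left; simp [hx]
  · intro B D hD
    have := h.2 B D hD
    simpa [bond_neg] using this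

/-- Equal bonds on all edges: the configurations agree up to a global flip. -/
lemma eq_or_neg {σ τ : V → ℝ} (hσ : IsSpin σ) (hτ : IsSpin τ) (h : ∀ e, bond τ e = bond σ e) :
    τ = σ ∨ τ = -σ := by
  set r : V → ℝ := fun x => σ x * τ x with hr
  have hr1 : ∀ x, r x = 1 ∨ r x = -1 := fun x => spin_mul_cases (hσ x) (hτ x)
  have hstep : ∀ (x : V) (i : Fin 2), r (x + Pi.single i 1) = r x := by
    intro x i
    have h1 := h (x, i)
    unfold bond at h1
    simp only at h1
    simp only [hr]
    rcases hσ x with a | a <;> rcases hτ x with b | b <;>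
      rcases hσ (x + Pi.single i 1) with c | c <;> rcases hτ (x + Pi.single i 1) with d | d <;>
      rw [a, b, c, d] at h1 <;> rw [a, b, c, d] <;> first | (norm_num; done) | (exfalso; norm_num at h1)
  have hn : ∀ (i : Fin 2) (n : ℤ) (x : V), r (x + Pi.single i n) = r x := by
    intro i n
    induction n using Int.induction_on with
    | zero => intro x; simp
    | succ n ih =>
      intro x
      have : x + Pi.single i ((n : ℤ) + 1) = (x + Pi.single i (n : ℤ)) + Pi.single i (1 : ℤ) := by
        rw [add_assoc, ← Pi.single_add]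
      rw [this, hstep, ih]
    | pred n ih =>
      intro x
      have : (x + Pi.single i (-(n : ℤ) - 1)) + Pi.single i (1 : ℤ) = x + Pi.single i (-(n : ℤ)) := by
        rw [add_assoc, ← Pi.single_add]; simp
      rw [← hstep, this, ih]
  have hconst : ∀ x, r x = r 0 := by
    intro x
    have hx : x = (0 + Pi.single 0 (x 0)) + Pi.single 1 (x 1) := by
      funext j
      fin_cases j <;> simp
    rw [hx, hn, hn]
  rcases hr1 0 with h0 | h0
  · left
    funext x
    have := hconst x
    rw [h0] at this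
    simp only [hr] at this
    rcases hσ x with a | a <;> rcases hτ x with b | b <;> rw [a, b] at this <;> rw [a, b] <;>
      first | rfl | (exfalso; norm_num at this)
  · right
    funext x
    have := hconst x
    rw [h0] at this
    simp only [hr] at this
    rw [Pi.neg_apply]
    rcases hσ x with a | a <;> rcases hτ x with b | b <;> rw [a, b] at this <;> rw [a, b] <;>
      first | (norm_num; done) | (exfalso; norm_num at this)

lemma cut_nonempty {D : Finset V} (hD : D.Nonempty) : (cut D).Nonempty := by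
  obtain ⟨x, hx, hmax⟩ := D.exists_max_image (fun x => x 0) hD
  refine ⟨(x, 0), ?_⟩
  rw [mem_cut]
  intro h
  have h1 := hmax _ (h.1 hx)
  unfold tip at h1
  simp at h1

section

variable {Y : Type*} [MeasurableSpace Y] {ν : Measure Y} [IsProbabilityMeasure ν] {q : Y → ℝ}

lemma measurableSet_pat (hq : Measurable q) (D s : Finset V) :
    MeasurableSet {ω : E → Y | ∑ e ∈ cut D, cpl q ω e * bond (pat s) e = 0} := by
  apply measurableSet_eq_fun _ measurable_const
  apply Finset.measurable_sum
  intro e _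
  exact ((measurable_pi_apply e).comp (measurable_cpl hq)).mul_const _

lemma generic1 (hν : ∀ x, ν (q ⁻¹' {x}) = 0) (hq : Measurable q) {D : Finset V}
    (hD : D.Nonempty) (s : Finset V) :
    ∀ᵐ ω ∂(PJ ν), ∑ e ∈ cut D, cpl q ω e * bond (pat s) e ≠ 0 := by
  classical
  obtain ⟨e0, he0⟩ := cut_nonempty hD
  have hN := measurableSet_pat (q := q) hq D s
  set N : Set (E → Y) := {ω | ∑ e ∈ cut D, cpl q ω e * bond (pat s) e = 0} with hNdef
  have hb : bond (pat s) e0 ≠ 0 := by
    rcases bond_cases (pat_spin s) e0 with h | h <;> rw [h] <;> norm_num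
  have hz : ∀ ω : E → Y, (Measure.pi fun _ : ({e0} : Finset E) => ν)
      {x | spl {e0} ω x ∈ N} = 0 := by
    intro ω
    set c : ℝ := -(∑ e ∈ (cut D).erase e0, cpl q ω e * bond (pat s) e) / bond (pat s) e0 with hc
    have hsub : {x : ({e0} : Finset E) → Y | spl {e0} ω x ∈ N}
        ⊆ (fun x : ({e0} : Finset E) → Y => x ⟨e0, Finset.mem_singleton_self e0⟩) ⁻¹' (q ⁻¹' {c}) := by
      intro x hx
      have hx1 : ∑ e ∈ cut D, cpl q (spl {e0} ω x) e * bond (pat s) e = 0 := hx
      rw [← Finset.add_sum_erase _ _ he0] at hx1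
      have h1 : cpl q (spl {e0} ω x) e0 = q (x ⟨e0, Finset.mem_singleton_self e0⟩) := by
        unfold cpl
        rw [spl_mem (Finset.mem_singleton_self e0)]
      have h2 : ∑ e ∈ (cut D).erase e0, cpl q (spl {e0} ω x) e * bond (pat s) e
          = ∑ e ∈ (cut D).erase e0, cpl q ω e * bond (pat s) e := by
        apply Finset.sum_congr rfl
        intro e he
        have : e ∉ ({e0} : Finset E) := by
          rw [Finset.mem_singleton]; exact Finset.ne_of_mem_erase he
        unfold cpl
        rw [spl_notMem this]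
      rw [h1, h2] at hx1
      show q (x ⟨e0, _⟩) = c
      rw [hc, eq_div_iff hb]
      linarith
    refine measure_mono_null hsub ?_
    rw [(measurePreserving_eval (fun _ : ({e0} : Finset E) => ν)
      ⟨e0, Finset.mem_singleton_self e0⟩).measure_preimage
      (hq (measurableSet_singleton c)).nullMeasurableSet]
    exact hν c
  have h0 : PJ ν N = 0 := by
    rw [← lintegral_indicator_one hN, lintegral_spl ν {e0} _ (measurable_one.indicator hN)]
    have : ∀ ω : E → Y, ∫⁻ x, N.indicator (1 : (E → Y) → ℝ≥0∞) (spl {e0} ω x)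
        ∂(Measure.pi fun _ : ({e0} : Finset E) => ν) = 0 := by
      intro ω
      have hm : Measurable (fun x : ({e0} : Finset E) → Y => spl {e0} ω x) :=
        (measurable_spl {e0}).comp (measurable_const.prodMk measurable_id)
      have h3 : (fun x : ({e0} : Finset E) → Y => N.indicator (1 : (E → Y) → ℝ≥0∞) (spl {e0} ω x))
          = ({x | spl {e0} ω x ∈ N} : Set (({e0} : Finset E) → Y)).indicator 1 := by
        funext x
        by_cases hx : spl {e0} ω x ∈ N
        · rw [indicator_of_mem hx, indicator_of_mem (show x ∈ {x | spl {e0} ω x ∈ N} from hx)]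
          rfl
        · rw [indicator_of_notMem hx, indicator_of_notMem
            (show x ∉ {x | spl {e0} ω x ∈ N} from hx)]
      have hm' : MeasurableSet {x : ({e0} : Finset E) → Y | spl {e0} ω x ∈ N} := hm hN
      rw [h3, lintegral_indicator_one hm', hz ω]
    simp_rw [this]
    simp
  rw [ae_iff]
  simpa [hNdef] using h0

/-- Almost surely every weak ground state is a ground state. -/
theorem generic (hν : ∀ x, ν (q ⁻¹' {x}) = 0) (hq : Measurable q) :
    ∀ᵐ ω ∂(PJ ν), ∀ σ : V → ℝ, WG (cpl q ω) σ → IsGroundState (cpl q ω) σ := by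
  classical
  have h1 : ∀ᵐ ω ∂(PJ ν), ∀ D s : Finset V, D.Nonempty →
      ∑ e ∈ cut D, cpl q ω e * bond (pat s) e ≠ 0 := by
    rw [ae_all_iff]
    intro D
    rw [ae_all_iff]
    intro s
    by_cases hD : D.Nonempty
    · filter_upwards [generic1 (ν := ν) hν hq hD s] with ω hω _
      exact hω
    · exact ae_of_all _ (fun _ h => absurd h hD)
  filter_upwards [h1] with ω hω σ hσ
  refine ⟨hσ.1, ?_⟩
  intro ρ hρ hfin hne
  set D : Finset V := hfin.toFinset with hD
  have hmem : ∀ x, x ∈ D ↔ ρ x ≠ σ x := fun x => by rw [hD, Set.Finite.mem_toFinset]; rfl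
  have hDne : D.Nonempty := by
    by_contra hcon
    rw [Finset.not_nonempty_iff_eq_empty] at hcon
    apply hne
    funext x
    by_contra hx
    have := (hmem x).2 hx
    rw [hcon] at this
    exact absurd this (Finset.notMem_empty x)
  have hflip : ρ = flip D σ := by
    funext x
    unfold flip
    by_cases hx : x ∈ D
    · rw [if_pos hx]
      have hx' := (hmem x).1 hx
      rcases hρ x with a | a <;> rcases hσ.1 x with b | b <;> rw [a, b] at hx' <;> rw [a, b] <;>
        first | (norm_num; done) | (exfalso; exact hx' rfl)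
    · rw [if_neg hx]
      by_contra hx'
      exact hx ((hmem x).2 hx')
  rw [hflip, finsum_flip_eq]
  have h2 := hσ.2 D D subset_rfl
  obtain ⟨s, -, hs⟩ := exists_pat hσ.1 (clo D)
  have h3 := hω D s hDne
  have h4 : ∑ e ∈ cut D, cpl q ω e * bond (pat s) e = ∑ e ∈ cut D, cpl q ω e * bond σ e := by
    apply Finset.sum_congr rfl
    intro e he
    have he' : e ∈ nbhd D := cut_subset_nbhd D he
    have hb : bond (pat s) e = bond σ e := by
      show pat s e.1 * pat s (tip e) = σ e.1 * σ (tip e)
      rw [hs _ (clo_fst he'), hs _ (clo_tip he')]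
    rw [hb]
  rw [h4] at h3
  have h5 : 0 < ∑ e ∈ cut D, cpl q ω e * bond σ e := lt_of_le_of_ne h2 (Ne.symm h3)
  linarith

end

lemma exists_box (B : Finset V) : ∃ n : ℕ, B ⊆ box n := by
  classical
  refine ⟨∑ x ∈ B, ((x 0).natAbs + (x 1).natAbs), fun x hx => ?_⟩
  rw [mem_box]
  have h1 : (x 0).natAbs + (x 1).natAbs ≤ ∑ x ∈ B, ((x 0).natAbs + (x 1).natAbs) :=
    Finset.single_le_sum (f := fun x : V => (x 0).natAbs + (x 1).natAbs)
      (fun _ _ => Nat.zero_le _) hx
  intro i
  fin_cases i
  · constructor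
    · simp only [Fin.zero_eta, Fin.isValue]; omega
    · simp only [Fin.zero_eta, Fin.isValue]; omega
  · constructor
    · simp only [Fin.mk_one, Fin.isValue]; omega
    · simp only [Fin.mk_one, Fin.isValue]; omega

lemma isClosed_spin : IsClosed {σ : V → ℝ | IsSpin σ} := by
  have : {σ : V → ℝ | IsSpin σ} = Set.pi univ (fun _ : V => ({1, -1} : Set ℝ)) := by
    ext σ
    simp [IsSpin, Set.mem_pi]
  rw [this]
  exact isClosed_set_pi (fun _ _ => (Set.toFinite _).isClosed)

lemma isCompact_spin : IsCompact {σ : V → ℝ | IsSpin σ} := by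
  have : {σ : V → ℝ | IsSpin σ} = Set.pi univ (fun _ : V => ({1, -1} : Set ℝ)) := by
    ext σ
    simp [IsSpin, Set.mem_pi]
  rw [this]
  exact isCompact_univ_pi (fun _ => (Set.toFinite _).isCompact)

lemma continuous_bond (e : E) : Continuous (fun σ : V → ℝ => bond σ e) := by
  unfold bond
  exact (continuous_apply _).mul (continuous_apply _)

lemma isClosed_LG (B : Finset V) (J : E → ℝ) : IsClosed {σ : V → ℝ | LG B J σ} := by
  have : {σ : V → ℝ | LG B J σ} = ⋂ D ∈ B.powerset, {σ : V → ℝ | 0 ≤ ∑ e ∈ cut D, J e * bond σ e} := by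
    ext σ
    simp only [mem_ofPred_eq, mem_iInter, Finset.mem_powerset]
    rfl
  rw [this]
  apply isClosed_biInter
  intro D _
  apply isClosed_le continuous_const
  apply continuous_finsetSum
  intro e _
  exact continuous_const.mul (continuous_bond e)

/-- Compactness. -/
lemma exists_WG_iff (J : E → ℝ) (e : E) (c : ℝ) :
    (∃ σ, WG J σ ∧ bond σ e = c) ↔
      ∀ n : ℕ, ∃ σ, IsSpin σ ∧ LG (box n) J σ ∧ bond σ e = c := by
  constructor
  · rintro ⟨σ, hσ, hc⟩ n
    exact ⟨σ, hσ.1, hσ.2 _, hc⟩
  · intro h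
    set K : ℕ → Set (V → ℝ) := fun n => {σ | IsSpin σ} ∩ ({σ | LG (box n) J σ} ∩ {σ | bond σ e = c})
      with hK
    have hcl : ∀ n, IsClosed (K n) := fun n =>
      isClosed_spin.inter ((isClosed_LG _ _).inter (isClosed_eq (continuous_bond e) continuous_const))
    have hne := IsCompact.nonempty_iInter_of_sequence_nonempty_isCompact_isClosed K
      (fun n σ hσ => ⟨hσ.1, (hσ.2.1 : LG _ J σ).mono (box_mono (Nat.le_succ n)), hσ.2.2⟩)
      (fun n => by
        obtain ⟨σ, h1, h2, h3⟩ := h n
        exact ⟨σ, h1, h2, h3⟩)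
      (isCompact_spin.of_isClosed_subset (hcl 0) (fun σ hσ => hσ.1)) hcl
    obtain ⟨σ, hσ⟩ := hne
    rw [mem_iInter] at hσ
    refine ⟨σ, ⟨(hσ 0).1, fun B => ?_⟩, (hσ 0).2.2⟩
    obtain ⟨n, hn⟩ := exists_box B
    exact LG.mono hn (hσ n).2.1

lemma measurableSet_exists_WG {Y : Type*} [MeasurableSpace Y] {q : Y → ℝ} (hq : Measurable q)
    (e : E) (c : ℝ) : MeasurableSet {ω : E → Y | ∃ σ, WG (cpl q ω) σ ∧ bond σ e = c} := by
  classical
  have h1 : {ω : E → Y | ∃ σ, WG (cpl q ω) σ ∧ bond σ e = c}
      = ⋂ n : ℕ, ⋃ s : Finset V, {ω : E → Y | LG (box n) (cpl q ω) (pat s) ∧ bond (pat s) e = c} := by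
    ext ω
    rw [mem_ofPred_eq, exists_WG_iff]
    simp only [mem_iInter, mem_iUnion, mem_ofPred_eq]
    apply forall_congr'
    intro n
    constructor
    · rintro ⟨σ, h1, h2, h3⟩
      obtain ⟨s, -, hs⟩ := exists_pat h1 (clo (box n) ∪ {e.1, tip e})
      refine ⟨s, LG_congr (fun x hx => hs x (Finset.mem_union_left _ hx)) h2, ?_⟩
      rw [← h3]
      show pat s e.1 * pat s (tip e) = σ e.1 * σ (tip e)
      rw [hs e.1 (by simp), hs (tip e) (by simp)]
    · rintro ⟨s, h1, h2⟩
      exact ⟨pat s, pat_spin s, h1, h2⟩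
  rw [h1]
  apply MeasurableSet.iInter
  intro n
  apply MeasurableSet.iUnion
  intro s
  exact ((measurable_cpl hq) (measurableSet_LG (box n) (pat s))).inter (MeasurableSet.const _)

end Pool.H66.EAM
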