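import Pool.Agent.Helper66.EAM.Region

set_option autoImplicit false
set_option linter.unusedSectionVars false

/-! The main comparison between two disjoint coupling ranges. -/

namespace Pool.H66.EAM

open MeasureTheory Set ProbabilityTheory Filter Topology
open scoped ENNReal

lemma amgm_ennreal (t : ℝ≥0∞) {κ : ℝ} (hκ : 0 < κ) :
    t ≤ ENNReal.ofReal κ * t ^ 2 + ENNReal.ofReal (1 / κ) := by
  by_cases ht : t = ∞
  · subst ht
    have : ENNReal.ofReal κ * (∞ : ℝ≥0∞) ^ 2 = ∞ := by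
      rw [sq, ENNReal.top_mul_top, ENNReal.mul_top]
      exact (ENNReal.ofReal_pos.2 hκ).ne'
    rw [this, top_add]
  · obtain ⟨u, hu0, hu⟩ : ∃ u : ℝ, 0 ≤ u ∧ t = ENNReal.ofReal u :=
      ⟨_, ENNReal.toReal_nonneg, (ENNReal.ofReal_toReal ht).symm⟩
    rw [hu, ← ENNReal.ofReal_pow hu0, ← ENNReal.ofReal_mul hκ.le,
      ← ENNReal.ofReal_add (by positivity) (by positivity)]
    apply ENNReal.ofReal_le_ofReal
    have h1 : κ * u ^ 2 + 1 / κ - u = κ * ((u - 1 / (2 * κ)) ^ 2 + 3 / (4 * κ ^ 2)) := by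
      field_simp
      ring
    have h2 : 0 ≤ κ * ((u - 1 / (2 * κ)) ^ 2 + 3 / (4 * κ ^ 2)) := by positivity
    linarith

lemma M_bound {δ r : ℝ} (hδ : 0 < δ) (hr : 0 < r) (N T : ℕ) (hT : T ≤ (box N).card) :
    (1 + (r / ((N : ℝ) + 1) / δ) ^ 2) ^ T ≤ Real.exp (4 * r ^ 2 / δ ^ 2) := by
  have hN : (0 : ℝ) < (N : ℝ) + 1 := by positivity
  have h1 : 1 + (r / ((N : ℝ) + 1) / δ) ^ 2 ≤ Real.exp ((r / ((N : ℝ) + 1) / δ) ^ 2) := by
    have := Real.add_one_le_exp ((r / ((N : ℝ) + 1) / δ) ^ 2)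
    linarith
  calc (1 + (r / ((N : ℝ) + 1) / δ) ^ 2) ^ T
      ≤ (Real.exp ((r / ((N : ℝ) + 1) / δ) ^ 2)) ^ T := by
        apply pow_le_pow_left₀ (by positivity) h1
    _ = Real.exp (T * (r / ((N : ℝ) + 1) / δ) ^ 2) := by rw [← Real.exp_nat_mul]
    _ ≤ Real.exp (4 * r ^ 2 / δ ^ 2) := by
        apply Real.exp_le_exp.2
        have hT' : (T : ℝ) ≤ (2 * (N : ℝ) + 1) ^ 2 := by
          rw [← box_cast]; exact_mod_cast hT
        have hT2 : (T : ℝ) ≤ 4 * ((N : ℝ) + 1) ^ 2 := by
          have : (0 : ℝ) ≤ N := Nat.cast_nonneg N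
          nlinarith
        calc (T : ℝ) * (r / ((N : ℝ) + 1) / δ) ^ 2
            ≤ (4 * ((N : ℝ) + 1) ^ 2) * (r / ((N : ℝ) + 1) / δ) ^ 2 :=
              mul_le_mul_of_nonneg_right hT2 (sq_nonneg _)
          _ = 4 * r ^ 2 / δ ^ 2 := by field_simp

theorem main_ineq {Y : Type*} [MeasurableSpace Y] [MeasurableEq Y] {μ : Measure Y}
    [IsProbabilityMeasure μ] {q : Y → ℝ} (hq : Measurable q) {n : ℕ} {ρ : ℕ → ℕ} {K : ℝ}
    (Rg : Reg μ q n ρ K) (hn : 0 < n) (i : Fin 2) {A A' : Set Y} {δ : ℝ} (hδ : 0 < δ)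
    (hA : MeasurableSet A) (hA' : MeasurableSet A')
    (h : ∀ x ∈ A, ∀ y ∈ A', q x + δ ≤ q y) (hAK : ∀ x ∈ A, |q x| ≤ K)
    (hAK' : ∀ x ∈ A', |q x| ≤ K)
    {Hset : Set (E → Y)} (hHm : MeasurableSet Hset)
    (hHloc : ∀ J J' : E → Y, (∀ e, (∀ z, e ≠ sub n i z) → J e = J' e) →
      (J ∈ Hset ↔ J' ∈ Hset))
    {S : Finset E} (hS : Loc S (ph i Hset A'))
    (hρ : ∀ L N, L ≤ N → ρ L + n * (N - L) ≤ ρ N) {x y : ℝ}
    (hx : ∀ L, x ≤ xbar μ q n i (ph i Hset A) ρ L)
    (hy1 : ∀ L, ybar μ q n i (ph i Hset A') ρ L ≤ y)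
    (hy2 : ∀ η > 0, ∃ L, y - η ≤ ybar μ q n i (ph i Hset A') ρ L)
    (hy3 : y ≤ 1) :
    μ.real A' * x ≤ μ.real A * y := by
  classical
  have hy0 : 0 ≤ y := by
    refine le_trans ?_ (hy1 0)
    unfold ybar
    apply div_nonneg _ (box_pos 0).le
    exact integral_nonneg (fun J => (YY_bounds hq (measurable_ph i hHm hA')
      (ph_nonneg i Hset A') (ph_le_one i Hset A') J).1)
  -- fixed parameters
  have step : ∀ r > 0, ∀ ε > 0, ∀ κ > 0, μ.real A' * x
      ≤ μ.real A * (y + ε + κ * Real.exp (4 * r ^ 2 / δ ^ 2)) + 2 * Rg.C0 / r := by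
    intro r hr ε hε κ hκ
    have hconc := conc (n := n) (i := i) (ρ := ρ) hq (measurable_ph i hHm hA')
      (ph_nonneg i Hset A') (ph_le_one i Hset A') hS hn hρ hy1 hy2 hy3 hε
    set pB : ℕ → ℝ := fun N => (PJ μ).real
      {J | (y + ε) * ((box N).card : ℝ) < YY q n i (ph i Hset A') (ρ N) N J} with hpB
    have hl : Tendsto (fun N => μ.real A' * (x - (PJ μ).real (Rg.G N)ᶜ)) atTop
        (𝓝 (μ.real A' * (x - 0))) := (Rg.prob.const_sub x).const_mul _
    have hrr : Tendsto (fun N => μ.real A * (y + ε + κ * Real.exp (4 * r ^ 2 / δ ^ 2)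
        + pB N * (1 / κ)) + 2 * Rg.C0 / r) atTop
        (𝓝 (μ.real A * (y + ε + κ * Real.exp (4 * r ^ 2 / δ ^ 2) + 0 * (1 / κ))
          + 2 * Rg.C0 / r)) :=
      (((hconc.mul_const (1 / κ)).const_add _).const_mul _).add_const _
    rw [sub_zero] at hl
    rw [zero_mul, add_zero] at hrr
    refine le_of_tendsto_of_tendsto hl hrr ?_
    have hev : ∀ᶠ N : ℕ in atTop, r / δ ≤ N := tendsto_natCast_atTop_atTop.eventually_ge_atTop _
    filter_upwards [hev] with N hN
    have hN1 : (0 : ℝ) < (N : ℝ) + 1 := by positivity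
    set s : ℝ := r / ((N : ℝ) + 1) with hs
    have hs0 : 0 < s := by positivity
    have hsδ : s ≤ δ := by
      rw [hs, div_le_iff₀ hN1]
      rw [div_le_iff₀ hδ] at hN
      nlinarith
    have hcN := box_pos N
    set cN : ℝ := ((box N).card : ℝ) with hcNdef
    set X := XX q n i (ph i Hset A) (ρ N) N with hX
    set Yf := YY q n i (ph i Hset A') (ρ N) N with hY
    have hXb := fun J => XX_bounds (n := n) (i := i) (R := ρ N) (N := N)
      hq (measurable_ph i hHm hA) (ph_nonneg i Hset A) (ph_le_one i Hset A) J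
    have hYb := fun J => YY_bounds (n := n) (i := i) (R := ρ N) (N := N)
      hq (measurable_ph i hHm hA') (ph_nonneg i Hset A') (ph_le_one i Hset A') J
    have hXm : Measurable X := measurable_XX hq (measurable_ph i hHm hA)
    have hYm : Measurable Yf := measurable_YY hq (measurable_ph i hHm hA')
    have hXi : Integrable X (PJ μ) := integrable_bdd hXm (C := cN) (fun J => by
      rw [abs_of_nonneg (hXb J).1]; exact (hXb J).2)
    have hHSm : ∀ e, MeasurableSet (HS Hset e) := fun e => measurable_shJ e.1 hHm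
    have hHsT : ∀ e ∈ TT n i N, ∀ J J' : E → Y, (∀ j ∉ TT n i N, J j = J' j) →
        (J ∈ HS Hset e ↔ J' ∈ HS Hset e) := by
      intro e he J J' hJ
      unfold TT at he
      rw [Finset.mem_image] at he
      obtain ⟨z, hz, rfl⟩ := he
      apply hHloc
      intro e' he'
      apply hJ
      intro hmem
      unfold TT at hmem
      rw [Finset.mem_image] at hmem
      obtain ⟨w, _, hw⟩ := hmem
      apply he' (w - z)
      have h1 : shE (-((n : ℤ) • z)) (sub n i w) = sub n i (w - z) := by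
        have := shE_sub n i w (-z)
        rw [smul_neg] at this
        rw [this, sub_eq_add_neg]
      have h2 : (sub n i z).1 = (n : ℤ) • z := rfl
      rw [h2] at hw
      have hw' : sub n i w = shE ((n : ℤ) • z) e' := hw
      rw [← h1, hw', shE_add, add_neg_cancel, shE_zero]
    have htm := tilt_main hq Rg hn i hδ hs0.le hsδ hA hA' h hAK hAK' hHm hHloc N
    -- left side
    have hμA' : μ A' = ENNReal.ofReal (μ.real A') := (ENNReal.ofReal_toReal (measure_ne_top _ _)).symm
    have hμA : μ A = ENNReal.ofReal (μ.real A) := (ENNReal.ofReal_toReal (measure_ne_top _ _)).symm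
    have hL : ∫⁻ J in Rg.G N, ENNReal.ofReal (X J) ∂(PJ μ)
        = ENNReal.ofReal (∫ J in Rg.G N, X J ∂(PJ μ)) :=
      (ofReal_integral_eq_lintegral_ofReal hXi.integrableOn (ae_of_all _ (fun J => (hXb J).1))).symm
    -- right side
    set bad := {J : E → Y | (y + ε) * cN < Yf J} with hbad
    have hbadm : MeasurableSet bad := measurableSet_lt measurable_const hYm
    set D := DD μ q A A' s (HS Hset) (TT n i N) with hD
    have hDm : Measurable D := measurable_DD μ hq hA hA' hHSm _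
    have hD1 : ∫⁻ J, D J ∂(PJ μ) = 1 := lintegral_DD μ hδ hs0.le hsδ hq hA hA' h _ _ hHSm hHsT
    have hD2 : ∫⁻ J, D J ^ 2 ∂(PJ μ) ≤ ENNReal.ofReal (Real.exp (4 * r ^ 2 / δ ^ 2)) := by
      refine (lintegral_DD_sq_le μ hδ hs0.le hsδ hq hA hA' h _ _ hHSm hHsT).trans ?_
      apply ENNReal.ofReal_le_ofReal
      exact M_bound hδ hr N _ Finset.card_image_le
    have hR : ∫⁻ J, D J * ENNReal.ofReal (Yf J) ∂(PJ μ)
        ≤ ENNReal.ofReal (cN * (y + ε + κ * Real.exp (4 * r ^ 2 / δ ^ 2) + pB N * (1 / κ))) := by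
      have hpt : ∀ J, D J * ENNReal.ofReal (Yf J)
          ≤ ENNReal.ofReal ((y + ε) * cN) * D J
            + ENNReal.ofReal cN * (ENNReal.ofReal κ * D J ^ 2
              + ENNReal.ofReal (1 / κ) * bad.indicator 1 J) := by
        intro J
        by_cases hJ : J ∈ bad
        · rw [indicator_of_mem hJ]
          calc D J * ENNReal.ofReal (Yf J) ≤ D J * ENNReal.ofReal cN := by
                gcongr; exact (hYb J).2
            _ = ENNReal.ofReal cN * D J := mul_comm _ _
            _ ≤ ENNReal.ofReal cN * (ENNReal.ofReal κ * D J ^ 2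
              + ENNReal.ofReal (1 / κ) * 1) := by
                gcongr
                rw [mul_one]
                exact amgm_ennreal _ hκ
            _ ≤ _ := le_add_self
        · have h1 : Yf J ≤ (y + ε) * cN := not_lt.1 hJ
          calc D J * ENNReal.ofReal (Yf J) ≤ D J * ENNReal.ofReal ((y + ε) * cN) := by gcongr
            _ = ENNReal.ofReal ((y + ε) * cN) * D J := mul_comm _ _
            _ ≤ _ := le_self_add
      have hind : Measurable (bad.indicator (1 : (E → Y) → ℝ≥0∞)) := measurable_one.indicator hbadm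
      have hm2 : Measurable (fun J => ENNReal.ofReal κ * D J ^ 2
              + ENNReal.ofReal (1 / κ) * bad.indicator 1 J) :=
        ((hDm.pow_const 2).const_mul _).add (hind.const_mul _)
      calc ∫⁻ J, D J * ENNReal.ofReal (Yf J) ∂(PJ μ)
          ≤ ∫⁻ J, (ENNReal.ofReal ((y + ε) * cN) * D J
            + ENNReal.ofReal cN * (ENNReal.ofReal κ * D J ^ 2
              + ENNReal.ofReal (1 / κ) * bad.indicator 1 J)) ∂(PJ μ) := lintegral_mono hpt
        _ = ENNReal.ofReal ((y + ε) * cN) * 1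
            + ENNReal.ofReal cN * (ENNReal.ofReal κ * ∫⁻ J, D J ^ 2 ∂(PJ μ)
              + ENNReal.ofReal (1 / κ) * PJ μ bad) := by
            rw [lintegral_add_left (hDm.const_mul _), lintegral_const_mul _ hDm, hD1,
              lintegral_const_mul _ hm2, lintegral_add_left ((hDm.pow_const 2).const_mul _),
              lintegral_const_mul _ (hDm.pow_const 2), lintegral_const_mul _ hind,
              lintegral_indicator_one hbadm]
        _ ≤ ENNReal.ofReal ((y + ε) * cN) * 1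
            + ENNReal.ofReal cN * (ENNReal.ofReal κ *
              ENNReal.ofReal (Real.exp (4 * r ^ 2 / δ ^ 2))
              + ENNReal.ofReal (1 / κ) * ENNReal.ofReal (pB N)) := by
            gcongr
            exact (ENNReal.ofReal_toReal (measure_ne_top _ _)).ge
        _ = _ := by
            have hpB0 : 0 ≤ pB N := measureReal_nonneg
            rw [mul_one, ← ENNReal.ofReal_mul hκ.le, ← ENNReal.ofReal_mul (by positivity),
              ← ENNReal.ofReal_add (by positivity) (by positivity),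
              ← ENNReal.ofReal_mul hcN.le, ← ENNReal.ofReal_add (by positivity) (by positivity)]
            congr 1
            ring
    have hfin : ENNReal.ofReal (s * μ.real A' * ∫ J in Rg.G N, X J ∂(PJ μ))
        ≤ ENNReal.ofReal (s * μ.real A * (cN * (y + ε + κ * Real.exp (4 * r ^ 2 / δ ^ 2)
          + pB N * (1 / κ))) + 2 * (Rg.C0 * ((N : ℝ) + 1))) := by
      have hpB0 : 0 ≤ pB N := measureReal_nonneg
      have hC0 := Rg.hC0
      have hA0 : 0 ≤ μ.real A := measureReal_nonneg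
      have hA0' : 0 ≤ μ.real A' := measureReal_nonneg
      rw [ENNReal.ofReal_mul (by positivity), ENNReal.ofReal_mul hs0.le,
        ENNReal.ofReal_add (by positivity) (by positivity), ENNReal.ofReal_mul (by positivity),
        ENNReal.ofReal_mul hs0.le, ← hμA, ← hμA', ← hL]
      refine htm.trans ?_
      gcongr
    have hfin2 := (ENNReal.ofReal_le_ofReal_iff (by
      have hpB0 : 0 ≤ pB N := measureReal_nonneg
      have hC0 := Rg.hC0
      have hA0 : 0 ≤ μ.real A := measureReal_nonneg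
      positivity)).1 hfin
    -- lower bound for the integral over G
    have hlow : cN * (x - (PJ μ).real (Rg.G N)ᶜ) ≤ ∫ J in Rg.G N, X J ∂(PJ μ) := by
      have h1 := integral_add_compl (Rg.hG N) hXi
      have h2 : ∫ J in (Rg.G N)ᶜ, X J ∂(PJ μ) ≤ cN * (PJ μ).real (Rg.G N)ᶜ := by
        calc ∫ J in (Rg.G N)ᶜ, X J ∂(PJ μ) ≤ ∫ J in (Rg.G N)ᶜ, cN ∂(PJ μ) :=
              integral_mono hXi.integrableOn (integrable_const _) (fun J => (hXb J).2)
          _ = cN * (PJ μ).real (Rg.G N)ᶜ := by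
              rw [setIntegral_const, smul_eq_mul, mul_comm]
      have h3 : x * cN ≤ ∫ J, X J ∂(PJ μ) := by
        have := hx N
        unfold xbar at this
        rwa [le_div_iff₀ hcN] at this
      linarith
    have hA0' : 0 ≤ μ.real A' := measureReal_nonneg
    have h5 : s * μ.real A' * (cN * (x - (PJ μ).real (Rg.G N)ᶜ))
        ≤ s * μ.real A * (cN * (y + ε + κ * Real.exp (4 * r ^ 2 / δ ^ 2)
          + pB N * (1 / κ))) + 2 * (Rg.C0 * ((N : ℝ) + 1)) :=
      (mul_le_mul_of_nonneg_left hlow (by positivity)).trans hfin2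
    have h6 : 2 * (Rg.C0 * ((N : ℝ) + 1)) ≤ s * cN * (2 * Rg.C0 / r) := by
      have h7 : s * cN * (2 * Rg.C0 / r) = 2 * Rg.C0 * (cN / ((N : ℝ) + 1)) := by
        rw [hs]; field_simp
      rw [h7, ← mul_assoc]
      apply mul_le_mul_of_nonneg_left _ (by have := Rg.hC0; positivity)
      rw [le_div_iff₀ hN1, hcNdef, box_cast]
      have : (0 : ℝ) ≤ N := Nat.cast_nonneg N
      nlinarith
    have h8 : (s * cN) * (μ.real A' * (x - (PJ μ).real (Rg.G N)ᶜ))
        ≤ (s * cN) * (μ.real A * (y + ε + κ * Real.exp (4 * r ^ 2 / δ ^ 2)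
          + pB N * (1 / κ)) + 2 * Rg.C0 / r) := by
      have e1 : (s * cN) * (μ.real A' * (x - (PJ μ).real (Rg.G N)ᶜ))
        = s * μ.real A' * (cN * (x - (PJ μ).real (Rg.G N)ᶜ)) := by ring
      have e2 : (s * cN) * (μ.real A * (y + ε + κ * Real.exp (4 * r ^ 2 / δ ^ 2)
          + pB N * (1 / κ)) + 2 * Rg.C0 / r) = s * μ.real A * (cN * (y + ε +
          κ * Real.exp (4 * r ^ 2 / δ ^ 2) + pB N * (1 / κ))) + s * cN * (2 * Rg.C0 / r) := by
        ring
      rw [e1, e2]
      linarith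
    exact le_of_mul_le_mul_left h8 (by positivity)
  -- optimise
  apply le_of_forall_pos_le_add
  intro θ hθ
  have hC0 := Rg.hC0
  have hA0 : 0 ≤ μ.real A := measureReal_nonneg
  have hA1 : μ.real A ≤ 1 := measureReal_le_one
  set r : ℝ := 6 * (Rg.C0 + 1) / θ with hr
  have hr0 : 0 < r := by positivity
  set M : ℝ := Real.exp (4 * r ^ 2 / δ ^ 2) with hM
  have hM0 : 0 < M := Real.exp_pos _
  have h1 := step r hr0 (θ / 3) (by positivity) (θ / (3 * M)) (by positivity)
  have h2 : θ / (3 * M) * M = θ / 3 := by field_simp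
  have h3 : 2 * Rg.C0 / r ≤ θ / 3 := by
    rw [div_le_iff₀ hr0, hr]
    have : θ / 3 * (6 * (Rg.C0 + 1) / θ) = 2 * (Rg.C0 + 1) := by field_simp; ring
    rw [this]; linarith
  rw [h2] at h1
  nlinarith

end Pool.H66.EAM
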