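import Pool.Agent.Helper66.EAM.Pair

set_option autoImplicit false
set_option linter.unusedSectionVars false

/-! Construction of the covariant ground state. -/

namespace Pool.H66.EAM

open MeasureTheory Set ProbabilityTheory Filter Topology
open scoped ENNReal BoundedContinuousFunction

/-- Average over the viewpoints of `σ_0 σ_z`. -/
noncomputable def aM (M : ℕ) (z : V) (J : E → ℝ) : ℝ :=
  (∑ x ∈ box M, bt M x J 0 * bt M x J z) / ((box M).card : ℝ)

lemma measurable_aM (M : ℕ) (z : V) : Measurable (aM M z) := by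
  unfold aM
  exact (Finset.measurable_sum _ (fun x _ => ((measurable_pi_apply _).comp (measurable_bt M x)).mul
    ((measurable_pi_apply _).comp (measurable_bt M x)))).div_const _

lemma bb_cases (M : ℕ) (x z : V) (J : E → ℝ) :
    bt M x J 0 * bt M x J z = 1 ∨ bt M x J 0 * bt M x J z = -1 :=
  spin_mul_cases (bt_spin _ _ _ _) (bt_spin _ _ _ _)

lemma abs_le_one_of_cases {t : ℝ} (h : t = 1 ∨ t = -1) : |t| ≤ 1 := by
  rcases h with h | h <;> rw [h] <;> norm_num

lemma abs_aM (M : ℕ) (z : V) (J : E → ℝ) : |aM M z J| ≤ 1 := by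
  unfold aM
  rw [abs_div, abs_of_pos (box_pos M), div_le_one (box_pos M)]
  calc _ ≤ ∑ x ∈ box M, |bt M x J 0 * bt M x J z| := Finset.abs_sum_le_sum_abs _ _
    _ ≤ ∑ x ∈ box M, (1 : ℝ) := Finset.sum_le_sum (fun _ _ => abs_le_one_of_cases (bb_cases _ _ _ _))
    _ = ((box M).card : ℝ) := by simp

/-- Truncation. -/
noncomputable def cl (t : ℝ) : ℝ := max (-1) (min 1 t)

lemma continuous_cl : Continuous cl := continuous_const.max (continuous_const.min continuous_id)

lemma abs_cl (t : ℝ) : |cl t| ≤ 1 := by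
  unfold cl
  rw [abs_le]
  exact ⟨le_max_left _ _, max_le (by norm_num) (min_le_left _ _)⟩

lemma cl_spin {t : ℝ} (h : t = 1 ∨ t = -1) : cl t = t := by
  unfold cl
  rcases h with h | h <;> rw [h] <;> norm_num

/-- The product of the four spins. -/
noncomputable def ph4 (z : V) : X2 →ᵇ ℝ :=
  BoundedContinuousFunction.ofNormedAddCommGroup
    (fun p : X2 => cl (p.2.1 0) * cl (p.2.1 z) * (cl (p.2.2 0) * cl (p.2.2 z)))
    (by
      have h1 : ∀ y : V, Continuous (fun p : X2 => cl (p.2.1 y)) := fun y =>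
        continuous_cl.comp ((continuous_apply y).comp (continuous_fst.comp continuous_snd))
      have h2 : ∀ y : V, Continuous (fun p : X2 => cl (p.2.2 y)) := fun y =>
        continuous_cl.comp ((continuous_apply y).comp (continuous_snd.comp continuous_snd))
      exact ((h1 0).mul (h1 z)).mul ((h2 0).mul (h2 z))) 1
    (by
      intro p
      rw [Real.norm_eq_abs, abs_mul, abs_mul, abs_mul]
      have h := fun t => abs_cl t
      have h0 := fun t => abs_nonneg (cl t)
      exact mul_le_one₀ (mul_le_one₀ (h _) (h0 _) (h _)) (mul_nonneg (h0 _) (h0 _))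
        (mul_le_one₀ (h _) (h0 _) (h _)))

lemma ph4_apply {z : V} {p : X2} (h1 : IsSpin p.2.1) (h2 : IsSpin p.2.2) :
    ph4 z p = p.2.1 0 * p.2.1 z * (p.2.2 0 * p.2.2 z) := by
  show cl (p.2.1 0) * cl (p.2.1 z) * (cl (p.2.2 0) * cl (p.2.2 z)) = _
  rw [cl_spin (h1 0), cl_spin (h1 z), cl_spin (h2 0), cl_spin (h2 z)]

variable {μ : Measure ℝ} [IsProbabilityMeasure μ]

lemma integral_ph4 (M M' : ℕ) (z : V) :
    ∫ p, ph4 z p ∂(lw μ M M') = ∫ J, aM M z J * aM M' z J ∂(PJ μ) := by
  rw [lw_integral μ M M' (ph4 z).continuous.measurable (C := ‖ph4 z‖)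
    (fun p => (ph4 z).norm_coe_le_norm p)]
  have h1 : ∀ (w : V × V) (J : E → ℝ), ph4 z (Fz M M' w J)
      = bt M w.1 J 0 * bt M w.1 J z * (bt M' w.2 J 0 * bt M' w.2 J z) := fun w J =>
    ph4_apply (bt_spin _ _ _) (bt_spin _ _ _)
  simp_rw [h1]
  rw [← integral_finsetSum, ← integral_div]
  · congr 1
    funext J
    rw [Finset.sum_product, Finset.card_product]
    push_cast
    unfold aM
    rw [div_mul_div_comm, Finset.sum_mul_sum]
  · intro w _
    apply integrable_bdd (C := 1)
    · have hm : ∀ (M : ℕ) (x y : V), Measurable (fun J => bt M x J y) := fun M x y =>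
        (measurable_pi_apply y).comp (measurable_bt M x)
      exact ((hm _ _ _).mul (hm _ _ _)).mul ((hm _ _ _).mul (hm _ _ _))
    · intro J
      rw [abs_mul]
      exact mul_le_one₀ (abs_le_one_of_cases (bb_cases _ _ _ _)) (abs_nonneg _)
        (abs_le_one_of_cases (bb_cases _ _ _ _))

/-- All translation invariant pairs agree. -/
def Agree (μ : Measure ℝ) [IsProbabilityMeasure μ] : Prop :=
  ∀ Q : Measure X2, Stat2 μ Q → ∀ᵐ p ∂Q, p.2.2 = p.2.1 ∨ p.2.2 = -p.2.1

lemma star (H : Agree μ) (z : V) {ε : ℝ} (hε : 0 < ε) :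
    ∃ M0 : ℕ, ∀ M ≥ M0, ∀ M' ≥ M0, 1 - ε ≤ ∫ J, aM M z J * aM M' z J ∂(PJ μ) := by
  by_contra hcon
  push Not at hcon
  choose Mk hMk Mk' hMk' hlt using hcon
  obtain ⟨U, Q, hU, hlim, hQ⟩ := exists_limit μ (tendsto_atTop_mono hMk tendsto_id)
    (tendsto_atTop_mono hMk' tendsto_id)
  have h1 := (ProbabilityMeasure.tendsto_iff_forall_integral_tendsto.1 hlim) (ph4 z)
  have h2 : ∫ p, ph4 z p ∂(Q : Measure X2) = 1 := by
    have h3 : ∫ p, ph4 z p ∂(Q : Measure X2) = ∫ p, (1 : ℝ) ∂(Q : Measure X2) := by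
      apply integral_congr_ae
      filter_upwards [H _ hQ, hQ.wg] with p h4 h5
      rw [ph4_apply h5.1.1 h5.2.1]
      have h6 : ∀ y, p.2.1 y * p.2.1 y = 1 := by
        intro y
        rcases h5.1.1 y with h | h <;> rw [h] <;> norm_num
      rcases h4 with h4 | h4
      · rw [h4]
        calc p.2.1 0 * p.2.1 z * (p.2.1 0 * p.2.1 z) = (p.2.1 0 * p.2.1 0) * (p.2.1 z * p.2.1 z) := by
              ring
          _ = 1 := by rw [h6, h6, mul_one]
      · rw [h4]
        simp only [Pi.neg_apply]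
        calc p.2.1 0 * p.2.1 z * (-p.2.1 0 * -p.2.1 z) = (p.2.1 0 * p.2.1 0) * (p.2.1 z * p.2.1 z) := by
              ring
          _ = 1 := by rw [h6, h6, mul_one]
    rw [h3]
    simp
  have h3 : ∀ k, ∫ p, ph4 z p ∂((lwP μ (Mk k) (Mk' k) : ProbabilityMeasure X2) : Measure X2)
      ≤ 1 - ε := by
    intro k
    have := integral_ph4 (μ := μ) (Mk k) (Mk' k) z
    exact le_of_eq_of_le this (hlt k).le
  have h4 := le_of_tendsto h1 (Eventually.of_forall h3)
  rw [h2] at h4
  linarith

lemma diff_le {a b : ℝ} (ha : |a| ≤ 1) (hb : |b| ≤ 1) : |a - b| ≤ 1 - a * b := by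
  rw [abs_le] at ha hb ⊢
  constructor <;> nlinarith [ha.1, ha.2, hb.1, hb.2, mul_nonneg (sub_nonneg.2 ha.2)
    (neg_le_iff_add_nonneg.1 hb.1), mul_nonneg (sub_nonneg.2 hb.2) (neg_le_iff_add_nonneg.1 ha.1)]

lemma ae_summable {Ω : Type*} [MeasurableSpace Ω] {P : Measure Ω} [IsProbabilityMeasure P]
    {f : ℕ → Ω → ℝ} (hm : ∀ k, Measurable (f k)) (h0 : ∀ k ω, 0 ≤ f k ω) {C : ℝ}
    (hC : ∀ k ω, f k ω ≤ C) {k0 : ℕ} (hle : ∀ k ≥ k0, ∫ ω, f k ω ∂P ≤ (1 / 2 : ℝ) ^ k) :
    ∀ᵐ ω ∂P, Summable (fun k => f k ω) := by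
  have hint : ∀ k, Integrable (f k) P := fun k =>
    Integrable.of_bound (hm k).aestronglyMeasurable C (ae_of_all _ (fun ω => by
      rw [Real.norm_eq_abs, abs_of_nonneg (h0 k ω)]; exact hC k ω))
  have h1 : ∫⁻ ω, ∑' k, ENNReal.ofReal (f (k + k0) ω) ∂P ≠ ∞ := by
    rw [lintegral_tsum (fun k => (hm _).ennreal_ofReal.aemeasurable)]
    have h2 : ∀ k, ∫⁻ ω, ENNReal.ofReal (f (k + k0) ω) ∂P
        ≤ ENNReal.ofReal ((1 / 2 : ℝ) ^ (k + k0)) := by
      intro k
      rw [← ofReal_integral_eq_lintegral_ofReal (hint _) (ae_of_all _ (h0 _))]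
      exact ENNReal.ofReal_le_ofReal (hle _ (Nat.le_add_left _ _))
    refine ne_top_of_le_ne_top ?_ (ENNReal.tsum_le_tsum h2)
    have h3 : Summable (fun k : ℕ => (1 / 2 : ℝ) ^ (k + k0)) :=
      (summable_nat_add_iff k0).2 (summable_geometric_of_lt_one (by norm_num) (by norm_num))
    rw [← ENNReal.ofReal_tsum_of_nonneg (fun _ => by positivity) h3]
    exact ENNReal.ofReal_ne_top
  have h2 := ae_lt_top' ((AEMeasurable.tsum
    (fun k => (hm (k + k0)).ennreal_ofReal.aemeasurable))) h1
  filter_upwards [h2] with ω hω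
  rw [← summable_nat_add_iff k0]
  have h3 := ENNReal.summable_toReal hω.ne
  refine h3.congr (fun k => ?_)
  rw [ENNReal.toReal_ofReal (h0 _ _)]

/-- A good sequence of scales. -/
lemma exists_scales (H : Agree μ) : ∃ N : ℕ → ℕ, (∀ k, k ≤ N k) ∧ Monotone N ∧
    ∀ k, ∀ z ∈ box k, ∀ M ≥ N k, ∀ M' ≥ N k,
      1 - (1 / 2 : ℝ) ^ k ≤ ∫ J, aM M z J * aM M' z J ∂(PJ μ) := by
  classical
  have h1 : ∀ k : ℕ, ∃ n0 : ℕ, ∀ z ∈ box k, ∀ M ≥ n0, ∀ M' ≥ n0,
      1 - (1 / 2 : ℝ) ^ k ≤ ∫ J, aM M z J * aM M' z J ∂(PJ μ) := by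
    intro k
    have h2 : ∀ z : V, ∃ M0 : ℕ, ∀ M ≥ M0, ∀ M' ≥ M0,
        1 - (1 / 2 : ℝ) ^ k ≤ ∫ J, aM M z J * aM M' z J ∂(PJ μ) :=
      fun z => star H z (by positivity)
    choose f hf using h2
    refine ⟨∑ z ∈ box k, f z, fun z hz M hM M' hM' => ?_⟩
    have h3 : f z ≤ ∑ z ∈ box k, f z := Finset.single_le_sum (fun _ _ => Nat.zero_le _) hz
    exact hf z M (h3.trans hM) M' (h3.trans hM')
  choose n0 hn0 using h1
  refine ⟨fun k => (∑ j ∈ Finset.range (k + 1), n0 j) + k, fun k => Nat.le_add_left _ _, ?_, ?_⟩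
  · intro a b hab
    show (∑ j ∈ Finset.range (a + 1), n0 j) + a ≤ (∑ j ∈ Finset.range (b + 1), n0 j) + b
    apply Nat.add_le_add _ hab
    exact Finset.sum_le_sum_of_subset (Finset.range_mono (by omega))
  · intro k z hz M hM M' hM'
    have h3 : n0 k ≤ ∑ j ∈ Finset.range (k + 1), n0 j :=
      Finset.single_le_sum (fun _ _ => Nat.zero_le _) (Finset.mem_range.2 (Nat.lt_succ_self k))
    have hM2 : (∑ j ∈ Finset.range (k + 1), n0 j) + k ≤ M := hM
    have hM3 : (∑ j ∈ Finset.range (k + 1), n0 j) + k ≤ M' := hM'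
    exact hn0 k z hz M (by omega) M' (by omega)

/-- The limiting configuration. -/
noncomputable def al (N : ℕ → ℕ) (J : E → ℝ) (z : V) : ℝ := by
  classical exact if ∀ m : ℕ, ∃ k ≥ m, 0 < aM (N k) z J then 1 else -1

lemma al_spin (N : ℕ → ℕ) (J : E → ℝ) : IsSpin (al N J) := by
  intro z
  unfold al
  split_ifs
  · exact Or.inl rfl
  · exact Or.inr rfl

lemma measurable_al (N : ℕ → ℕ) : Measurable (al N) := by
  apply measurable_pi_lambda
  intro z
  unfold al
  apply Measurable.ite _ measurable_const measurable_const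
  have : {J : E → ℝ | ∀ m : ℕ, ∃ k ≥ m, 0 < aM (N k) z J}
      = ⋂ m : ℕ, ⋃ k : ℕ, ⋃ _ : k ≥ m, {J | 0 < aM (N k) z J} := by
    ext J
    simp only [mem_iInter, mem_iUnion, mem_ofPred_eq, exists_prop]
  rw [this]
  exact MeasurableSet.iInter (fun m => MeasurableSet.iUnion (fun k => MeasurableSet.iUnion
    (fun _ => measurableSet_lt measurable_const (measurable_aM _ _))))

lemma al_tendsto {N : ℕ → ℕ} (hmono : Monotone N)
    (hN : ∀ k, ∀ z ∈ box k, ∀ M ≥ N k, ∀ M' ≥ N k,
      1 - (1 / 2 : ℝ) ^ k ≤ ∫ J, aM M z J * aM M' z J ∂(PJ μ)) :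
    ∀ᵐ J ∂(PJ μ), ∀ z : V, Tendsto (fun k => aM (N k) z J) atTop (𝓝 (al N J z)) := by
  rw [ae_all_iff]
  intro z
  obtain ⟨k0, hk0⟩ := exists_box {z}
  have hz : ∀ k ≥ k0, z ∈ box k := fun k hk =>
    box_mono hk (hk0 (Finset.mem_singleton_self z))
  have hIm : ∀ M M' : ℕ, Integrable (fun J => aM M z J * aM M' z J) (PJ μ) := fun M M' =>
    integrable_bdd ((measurable_aM M z).mul (measurable_aM M' z)) (C := 1) (fun J => by
      rw [abs_mul]; exact mul_le_one₀ (abs_aM _ _ _) (abs_nonneg _) (abs_aM _ _ _))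
  have hone : ∀ M M' : ℕ, ∫ J, (1 - aM M z J * aM M' z J) ∂(PJ μ)
      = 1 - ∫ J, aM M z J * aM M' z J ∂(PJ μ) := by
    intro M M'
    rw [integral_sub (integrable_const _) (hIm M M')]
    simp
  have hbd : ∀ a b : ℝ, |a| ≤ 1 → |b| ≤ 1 → 0 ≤ 1 - a * b ∧ 1 - a * b ≤ 2 := by
    intro a b ha hb
    have : |a * b| ≤ 1 := by rw [abs_mul]; exact mul_le_one₀ ha (abs_nonneg _) hb
    rw [abs_le] at this
    constructor <;> linarith [this.1, this.2]
  have s1 := ae_summable (P := PJ μ) (C := 2) (k0 := k0)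
    (f := fun k J => 1 - aM (N (k + 1)) z J * aM (N k) z J)
    (fun k => ((measurable_aM _ z).mul (measurable_aM _ z)).const_sub 1)
    (fun k J => (hbd _ _ (abs_aM _ _ _) (abs_aM _ _ _)).1)
    (fun k J => (hbd _ _ (abs_aM _ _ _) (abs_aM _ _ _)).2)
    (fun k hk => by
      rw [hone]
      have := hN k z (hz k hk) (N (k + 1)) (hmono (Nat.le_succ k)) (N k) le_rfl
      linarith)
  have s2 := ae_summable (P := PJ μ) (C := 2) (k0 := k0)
    (f := fun k J => 1 - aM (N k) z J * aM (N k) z J)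
    (fun k => ((measurable_aM _ z).mul (measurable_aM _ z)).const_sub 1)
    (fun k J => (hbd _ _ (abs_aM _ _ _) (abs_aM _ _ _)).1)
    (fun k J => (hbd _ _ (abs_aM _ _ _) (abs_aM _ _ _)).2)
    (fun k hk => by
      rw [hone]
      have := hN k z (hz k hk) (N k) le_rfl (N k) le_rfl
      linarith)
  filter_upwards [s1, s2] with J h1 h2
  have hc : CauchySeq (fun k => aM (N k) z J) := by
    apply cauchySeq_of_summable_dist
    refine Summable.of_nonneg_of_le (fun _ => dist_nonneg) (fun k => ?_) h1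
    rw [dist_comm, Real.dist_eq]
    exact diff_le (abs_aM _ _ _) (abs_aM _ _ _)
  obtain ⟨A, hA⟩ := cauchySeq_tendsto_of_complete hc
  have h3 := h2.tendsto_atTop_zero
  have h4 := (hA.mul hA).const_sub 1
  have h5 : 1 - A * A = 0 := tendsto_nhds_unique h4 h3
  have h6 : A = 1 ∨ A = -1 := by
    have : (A - 1) * (A + 1) = 0 := by nlinarith
    rcases mul_eq_zero.1 this with h | h
    · left; linarith
    · right; linarith
  have h7 : al N J z = A := by
    unfold al
    rcases h6 with h | h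
    · rw [h, if_pos]
      intro m
      have h8 : ∀ᶠ k in atTop, 0 < aM (N k) z J := by
        rw [h] at hA
        exact hA.eventually_const_lt one_pos
      obtain ⟨k, hk1, hk2⟩ := (h8.and (eventually_ge_atTop m)).exists
      exact ⟨k, hk2, hk1⟩
    · rw [h, if_neg]
      intro hcon
      have h8 : ∀ᶠ k in atTop, aM (N k) z J < 0 := by
        rw [h] at hA
        exact hA.eventually_lt_const (by norm_num)
      obtain ⟨m, hm⟩ := eventually_atTop.1 h8
      obtain ⟨k, hk1, hk2⟩ := hcon m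
      exact absurd (hm k hk1) (not_lt.2 hk2.le)
  rw [h7]
  exact hA

/-- Along good scales, some viewpoint gives the limiting configuration on a finite set. -/
lemma exists_view {N : ℕ → ℕ} {J : E → ℝ}
    (h : ∀ z : V, Tendsto (fun k => aM (N k) z J) atTop (𝓝 (al N J z)))
    (Z0 : Finset V) (m : ℕ) :
    ∃ k ≥ m, ∃ x ∈ box (N k), ∀ z ∈ Z0, bt (N k) x J 0 * bt (N k) x J z = al N J z := by
  classical
  have h1 : Tendsto (fun k => ∑ z ∈ Z0, (1 - al N J z * aM (N k) z J)) atTop (𝓝 0) := by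
    have h2 : Tendsto (fun k => ∑ z ∈ Z0, (1 - al N J z * aM (N k) z J)) atTop
        (𝓝 (∑ z ∈ Z0, (1 - al N J z * al N J z))) :=
      tendsto_finsetSum _ (fun z _ => ((h z).const_mul (al N J z)).const_sub 1)
    have h3 : ∑ z ∈ Z0, (1 - al N J z * al N J z) = 0 := by
      apply Finset.sum_eq_zero
      intro z _
      rcases al_spin N J z with h | h <;> rw [h] <;> norm_num
    rwa [h3] at h2
  obtain ⟨k, hk1, hk2⟩ := ((h1.eventually_lt_const (show (0 : ℝ) < 2 by norm_num)).and
    (eventually_ge_atTop m)).exists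
  refine ⟨k, hk2, ?_⟩
  by_contra hcon
  push Not at hcon
  have hp := box_pos (N k)
  have h4 : ∑ z ∈ Z0, (1 - al N J z * aM (N k) z J)
      = (∑ x ∈ box (N k), ∑ z ∈ Z0, (1 - al N J z * (bt (N k) x J 0 * bt (N k) x J z)))
        / ((box (N k)).card : ℝ) := by
    rw [eq_div_iff hp.ne', Finset.sum_comm, Finset.sum_mul]
    apply Finset.sum_congr rfl
    intro z _
    unfold aM
    rw [Finset.sum_sub_distrib, ← Finset.mul_sum, Finset.sum_const, nsmul_eq_mul, mul_one, sub_mul,
      one_mul, mul_assoc, div_mul_cancel₀ _ hp.ne']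
  rw [h4, div_lt_iff₀ hp] at hk1
  have h5 : 2 * ((box (N k)).card : ℝ)
      ≤ ∑ x ∈ box (N k), ∑ z ∈ Z0, (1 - al N J z * (bt (N k) x J 0 * bt (N k) x J z)) := by
    calc 2 * ((box (N k)).card : ℝ) = ∑ x ∈ box (N k), (2 : ℝ) := by
          rw [Finset.sum_const, nsmul_eq_mul, mul_comm]
      _ ≤ _ := by
          apply Finset.sum_le_sum
          intro x hx
          obtain ⟨z, hz, hne⟩ := hcon x hx
          have h6 : (2 : ℝ) = 1 - al N J z * (bt (N k) x J 0 * bt (N k) x J z) := by
            rcases al_spin N J z with h | h <;> rcases bb_cases (N k) x z J with h' | h' <;>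
              rw [h, h'] at hne ⊢ <;> first | (norm_num; done) | (exfalso; exact hne rfl)
          calc (2 : ℝ) = 1 - al N J z * (bt (N k) x J 0 * bt (N k) x J z) := h6
            _ ≤ _ := Finset.single_le_sum
              (f := fun z => 1 - al N J z * (bt (N k) x J 0 * bt (N k) x J z))
              (fun z _ => by
                rcases al_spin N J z with h | h <;> rcases bb_cases (N k) x z J with h' | h' <;>
                  rw [h, h'] <;> norm_num) hz
  linarith

lemma al_wg {N : ℕ → ℕ} {J : E → ℝ}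
    (h : ∀ z : V, Tendsto (fun k => aM (N k) z J) atTop (𝓝 (al N J z))) (hk : ∀ k, k ≤ N k) :
    WG J (al N J) := by
  classical
  refine ⟨al_spin N J, fun B => ?_⟩
  obtain ⟨n, hn⟩ := exists_box B
  obtain ⟨k, hk1, x, hx, hz⟩ := exists_view h (clo B) n
  intro D hD
  have h1 : LG B J (bt (N k) x J) :=
    (bt_lg hx J).mono (hn.trans (box_mono (by have := hk k; omega)))
  have h2 := h1 D hD
  have h3 : ∑ e ∈ cut D, J e * bond (al N J) e = ∑ e ∈ cut D, J e * bond (bt (N k) x J) e := by
    apply Finset.sum_congr rfl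
    intro e he
    have he' : e ∈ nbhd B := nbhd_mono hD (cut_subset_nbhd D he)
    have hb : bond (al N J) e = bond (bt (N k) x J) e := by
      show al N J e.1 * al N J (tip e) = bt (N k) x J e.1 * bt (N k) x J (tip e)
      rw [← hz _ (clo_fst he'), ← hz _ (clo_tip he')]
      have h6 : bt (N k) x J 0 * bt (N k) x J 0 = 1 := by
        rcases bt_spin (N k) x J 0 with h | h <;> rw [h] <;> norm_num
      calc _ = (bt (N k) x J 0 * bt (N k) x J 0) * (bt (N k) x J e.1 * bt (N k) x J (tip e)) := by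
            ring
        _ = _ := by rw [h6, one_mul]
    rw [hb]
  rw [h3]
  exact h2

lemma al_sh {N : ℕ → ℕ} {J : E → ℝ}
    (h : ∀ z : V, Tendsto (fun k => aM (N k) z J) atTop (𝓝 (al N J z))) (hk : ∀ k, k ≤ N k)
    (v : V) : al N (shJ v J) = shS v (al N J) ∨ al N (shJ v J) = -shS v (al N J) := by
  classical
  obtain ⟨k0, hk0⟩ := exists_k v
  have hNt : Tendsto N atTop atTop := tendsto_atTop_mono hk tendsto_id
  have key : ∀ z : V, al N (shJ v J) z = al N J v * al N J (z + v) := by
    intro z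
    set c : ℝ := al N J v * al N J (z + v) with hc
    have hc1 : c = 1 ∨ c = -1 := spin_mul_cases (al_spin _ _ _) (al_spin _ _ _)
    have hlim : Tendsto (fun k => aM (N k) z (shJ v J)) atTop (𝓝 c) := by
      rw [tendsto_iff_norm_sub_tendsto_zero]
      have hb : Tendsto (fun k => 1 * bd k0 (N k) + ((1 - al N J v * aM (N k) v J)
          + (1 - al N J (z + v) * aM (N k) (z + v) J))) atTop (𝓝 0) := by
        have h1 := ((bd_tendsto k0).comp hNt).const_mul 1
        have h2 := ((h v).const_mul (al N J v)).const_sub 1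
        have h3 := ((h (z + v)).const_mul (al N J (z + v))).const_sub 1
        have h4 := h1.add (h2.add h3)
        have e1 : 1 - al N J v * al N J v = 0 := by
          rcases al_spin N J v with h | h <;> rw [h] <;> norm_num
        have e2 : 1 - al N J (z + v) * al N J (z + v) = 0 := by
          rcases al_spin N J (z + v) with h | h <;> rw [h] <;> norm_num
        rw [e1, e2, mul_zero, add_zero, add_zero] at h4
        exact h4
      refine squeeze_zero' (Eventually.of_forall (fun _ => norm_nonneg _)) ?_ hb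
      filter_upwards [hNt.eventually_ge_atTop k0] with k hkk
      set M := N k with hM
      have hp := box_pos M
      rw [Real.norm_eq_abs]
      have e0 : aM M z (shJ v J)
          = (∑ x ∈ box M, bt M (x + v) J v * bt M (x + v) J (z + v)) / ((box M).card : ℝ) := by
        unfold aM
        congr 1
        apply Finset.sum_congr rfl
        intro x _
        rw [bt_sh]
        unfold shS
        rw [zero_add]
      have e1 := avg_shift hk0 (C := 1) zero_le_one
        (g := fun x => bt M x J v * bt M x J (z + v))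
        (fun x => abs_le_one_of_cases (spin_mul_cases (bt_spin _ _ _ _) (bt_spin _ _ _ _))) hkk
      have e2 : |(∑ x ∈ box M, bt M x J v * bt M x J (z + v)) / ((box M).card : ℝ) - c|
          ≤ (1 - al N J v * aM M v J) + (1 - al N J (z + v) * aM M (z + v) J) := by
        have e3 : (∑ x ∈ box M, bt M x J v * bt M x J (z + v)) / ((box M).card : ℝ) - c
            = (∑ x ∈ box M, (bt M x J v * bt M x J (z + v) - c)) / ((box M).card : ℝ) := by
          rw [Finset.sum_sub_distrib, Finset.sum_const, nsmul_eq_mul, sub_div,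
            mul_div_cancel_left₀ _ hp.ne']
        have e4 : (1 - al N J v * aM M v J) + (1 - al N J (z + v) * aM M (z + v) J)
            = (∑ x ∈ box M, ((1 - al N J v * (bt M x J 0 * bt M x J v))
              + (1 - al N J (z + v) * (bt M x J 0 * bt M x J (z + v))))) / ((box M).card : ℝ) := by
          rw [eq_div_iff hp.ne']
          unfold aM
          rw [Finset.sum_add_distrib, Finset.sum_sub_distrib, Finset.sum_sub_distrib,
            ← Finset.mul_sum, ← Finset.mul_sum, Finset.sum_const, nsmul_eq_mul, mul_one]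
          field_simp
        rw [e3, e4, abs_div, abs_of_pos hp]
        apply div_le_div_of_nonneg_right _ hp.le
        refine (Finset.abs_sum_le_sum_abs _ _).trans (Finset.sum_le_sum (fun x _ => ?_))
        rw [hc]
        rcases al_spin N J v with a | a <;> rcases al_spin N J (z + v) with b | b <;>
          rcases bt_spin M x J 0 with d | d <;> rcases bt_spin M x J v with e | e <;>
          rcases bt_spin M x J (z + v) with f | f <;> rw [a, b, d, e, f] <;> norm_num
      rw [e0]
      rw [abs_le] at e1 e2 ⊢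
      constructor <;> linarith [e1.1, e1.2, e2.1, e2.2]
    unfold al
    rcases hc1 with h1 | h1
    · rw [h1] at hlim
      rw [if_pos, h1]
      intro m
      obtain ⟨k, hk1, hk2⟩ := ((hlim.eventually_const_lt one_pos).and
        (eventually_ge_atTop m)).exists
      exact ⟨k, hk2, hk1⟩
    · rw [h1] at hlim
      rw [if_neg, h1]
      intro hcon
      obtain ⟨m, hm⟩ := eventually_atTop.1
        (hlim.eventually_lt_const (show (-1 : ℝ) < 0 by norm_num))
      obtain ⟨k, hk1, hk2⟩ := hcon m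
      exact absurd (hm k hk1) (not_lt.2 hk2.le)
  rcases al_spin N J v with h1 | h1
  · left
    funext z
    rw [key z, h1, one_mul]
    rfl
  · right
    funext z
    rw [key z, h1]
    show -1 * al N J (z + v) = -(al N J (z + v))
    ring

/-- If all translation invariant pairs agree, there is a covariant ground state. -/
theorem exists_cov (hμ : ∀ x, μ {x} = 0) (H : Agree μ) :
    ∃ α : (E → ℝ) → V → ℝ, Covariant μ id α := by
  obtain ⟨N, h1, h2, h3⟩ := exists_scales H
  have h4 := al_tendsto h2 h3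
  refine ⟨al N, measurable_al N, ?_, fun v => ?_⟩
  · filter_upwards [h4, generic (ν := μ) (q := id) hμ measurable_id] with J h5 h6
    exact h6 _ (al_wg h5 h1)
  · filter_upwards [h4] with J h5
    exact al_sh h5 h1 v

end Pool.H66.EAM
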