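import Pool.Agent.Helper66.EAM.Final

set_option autoImplicit false

/-! Regions with cheap boundaries: a box together with the clusters of strong couplings. -/

namespace Pool.H66.EAM

open MeasureTheory Set ProbabilityTheory Filter Topology
open scoped ENNReal

/-- Directions. -/
abbrev Dir := Fin 2 × Bool

/-- The neighbour of `x` in direction `d`. -/
def stepV (d : Dir) (x : V) : V :=
  if d.2 then x + (Pi.single d.1 (1 : ℤ) : Fin 2 → ℤ) else x - (Pi.single d.1 (1 : ℤ) : Fin 2 → ℤ)

/-- The edge from `x` in direction `d`. -/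
def stepE (d : Dir) (x : V) : E :=
  if d.2 then (x, d.1) else (x - (Pi.single d.1 (1 : ℤ) : Fin 2 → ℤ), d.1)

/-- The reversed direction. -/
def revD (d : Dir) : Dir := (d.1, !d.2)

lemma stepV_rev (d : Dir) (x : V) : stepV (revD d) (stepV d x) = x := by
  obtain ⟨j, b⟩ := d
  cases b <;> simp [stepV, revD]

lemma stepE_rev (d : Dir) (x : V) : stepE (revD d) (stepV d x) = stepE d x := by
  obtain ⟨j, b⟩ := d
  cases b <;> simp [stepV, stepE, revD]

lemma stepE_ends (d : Dir) (x : V) :
    ((stepE d x).1 = x ∧ tip (stepE d x) = stepV d x) ∨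
    ((stepE d x).1 = stepV d x ∧ tip (stepE d x) = x) := by
  obtain ⟨j, b⟩ := d
  cases b <;> simp [stepV, stepE, tip]

lemma single_ne_zero' (j : Fin 2) : (Pi.single j (1 : ℤ) : Fin 2 → ℤ) ≠ 0 := by
  intro h
  have := congrFun h j
  simp at this

lemma stepV_ne (d : Dir) (x : V) : stepV d x ≠ x := by
  obtain ⟨j, b⟩ := d
  cases b
  · intro h
    simp only [stepV] at h
    simp at h
  · intro h
    simp only [stepV] at h
    simp at h

lemma stepV_inj (d : Dir) : Function.Injective (stepV d) := by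
  intro x y h
  rw [← stepV_rev d x, h, stepV_rev]

/-- Two descriptions of the same edge. -/
lemma stepE_eq {d d' : Dir} {x z : V} (h : stepE d' z = stepE d x) :
    stepV d' z = x ∨ stepV d' z = stepV d x := by
  rcases stepE_ends d' z with ⟨h1, h2⟩ | ⟨h1, h2⟩ <;>
    rcases stepE_ends d x with ⟨h3, h4⟩ | ⟨h3, h4⟩ <;> rw [h] at h1 h2
  · right; rw [← h2, h4]
  · left; rw [← h2, h4]
  · left; rw [← h1, h3]
  · right; rw [← h1, h3]

lemma cut_step {R : Finset V} {e : E} (he : e ∈ cut R) :
    ∃ x ∈ R, ∃ d, stepE d x = e ∧ stepV d x ∉ R := by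
  rw [mem_cut] at he
  by_cases h1 : e.1 ∈ R
  · refine ⟨e.1, h1, (e.2, true), ?_, ?_⟩
    · simp [stepE]
    · have : tip e ∉ R := fun h => he ⟨fun _ => h, fun _ => h1⟩
      simpa [stepV, tip] using this
  · have h2 : tip e ∈ R := by
      by_contra h
      exact he ⟨fun h' => absurd h' h1, fun h' => absurd h' h⟩
    refine ⟨tip e, h2, (e.2, false), ?_, ?_⟩
    · simp [stepE, tip]
    · simpa [stepV, tip] using h1

/-- Vertices reached from the box within `k` strong steps. -/
def inR (K : ℝ) (B : ℕ) : ℕ → (E → ℝ) → V → Prop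
  | 0, _, x => x ∈ box B
  | (k + 1), J, x => inR K B k J x ∨ ∃ d : Dir, inR K B k J (stepV d x) ∧ K < |J (stepE d x)|

/-- The previous layer. -/
def prevR (K : ℝ) (B : ℕ) : ℕ → (E → ℝ) → V → Prop
  | 0, _, x => x ∈ box (B - 1)
  | (k + 1), J, x => inR K B k J x

variable {K : ℝ} {B : ℕ}

lemma inR_mono {j k : ℕ} (h : j ≤ k) {J : E → ℝ} {x : V} (hx : inR K B j J x) :
    inR K B k J x := by
  induction k, h using Nat.le_induction with
  | base => exact hx
  | succ k _ ih => exact Or.inl ih

lemma stepV_box {d : Dir} {x : V} {N : ℕ} (h : stepV d x ∈ box N) : x ∈ box (N + 1) := by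
  obtain ⟨j, b⟩ := d
  rw [mem_box] at h ⊢
  intro l
  have h1 := h l
  have hs : (Pi.single j (1 : ℤ) : Fin 2 → ℤ) l = 0 ∨ (Pi.single j (1 : ℤ) : Fin 2 → ℤ) l = 1 := by
    by_cases h : l = j
    · subst h; right; simp
    · left; simp [Pi.single_eq_of_ne h]
  cases b
  · have e : stepV (j, false) x l = x l - (Pi.single j (1 : ℤ) : Fin 2 → ℤ) l := rfl
    rw [e] at h1
    push_cast
    rcases hs with hs | hs <;> rw [hs] at h1 <;> constructor <;> linarith [h1.1, h1.2]
  · have e : stepV (j, true) x l = x l + (Pi.single j (1 : ℤ) : Fin 2 → ℤ) l := rfl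
    rw [e] at h1
    push_cast
    rcases hs with hs | hs <;> rw [hs] at h1 <;> constructor <;> linarith [h1.1, h1.2]

lemma inR_box {k : ℕ} {J : E → ℝ} {x : V} (hx : inR K B k J x) : x ∈ box (B + k) := by
  induction k generalizing x with
  | zero => exact hx
  | succ k ih =>
    rcases hx with h | ⟨d, h, _⟩
    · exact box_mono (by omega) (ih h)
    · exact stepV_box (ih h)

lemma inR_congr {J J' : E → ℝ} (h : ∀ e, K < |J e| ↔ K < |J' e|) (k : ℕ) (x : V) :
    inR K B k J x ↔ inR K B k J' x := by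
  induction k generalizing x with
  | zero => exact Iff.rfl
  | succ k ih =>
    show (inR K B k J x ∨ ∃ d : Dir, inR K B k J (stepV d x) ∧ K < |J (stepE d x)|) ↔ _
    simp only [inR, ih, h]

/-- The layers up to `k` do not see an edge which leads out of layer `k`. -/
lemma inR_inv {k : ℕ} {d : Dir} {y : V} {J J' : E → ℝ} (hJ : ∀ e, e ≠ stepE d y → J e = J' e)
    (hx : ¬ inR K B k J (stepV d y)) (hy : ¬ prevR K B k J y) :
    ∀ j ≤ k, ∀ z, inR K B j J z ↔ inR K B j J' z := by
  intro j
  induction j with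
  | zero => intro _ z; exact Iff.rfl
  | succ j ih =>
    intro hjk z
    have ih' := ih (by omega)
    obtain ⟨k', rfl⟩ : ∃ k', k = k' + 1 := ⟨k - 1, by omega⟩
    have hy' : ¬ inR K B k' J y := hy
    have hy2 : ¬ inR K B j J y := fun h => hy' (inR_mono (by omega) h)
    have hx2 : ¬ inR K B j J (stepV d y) := fun h => hx (inR_mono (by omega) h)
    have key : ∀ d' : Dir, (inR K B j J (stepV d' z) ∧ K < |J (stepE d' z)|)
        ↔ (inR K B j J' (stepV d' z) ∧ K < |J' (stepE d' z)|) := by
      intro d'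
      by_cases he : stepE d' z = stepE d y
      · have hn : ¬ inR K B j J (stepV d' z) := by
          rcases stepE_eq he with h | h <;> rw [h]
          · exact hy2
          · exact hx2
        constructor
        · intro h; exact absurd h.1 hn
        · intro h; exact absurd ((ih' _).2 h.1) hn
      · rw [ih', hJ _ he]
    show (inR K B j J z ∨ ∃ d : Dir, inR K B j J (stepV d z) ∧ K < |J (stepE d z)|) ↔
      (inR K B j J' z ∨ ∃ d : Dir, inR K B j J' (stepV d z) ∧ K < |J' (stepE d z)|)
    rw [ih' z]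
    constructor
    · rintro (h | ⟨d', h⟩)
      · exact Or.inl h
      · exact Or.inr ⟨d', (key d').1 h⟩
    · rintro (h | ⟨d', h⟩)
      · exact Or.inl h
      · exact Or.inr ⟨d', (key d').2 h⟩

/-- The event that `y` is in layer `k` and its neighbour in direction `d` is outside. -/
def Ev (K : ℝ) (B k : ℕ) (y : V) (d : Dir) : Set (E → ℝ) :=
  {J | inR K B k J y ∧ ¬ prevR K B k J y ∧ ¬ inR K B k J (stepV d y)}

lemma Ev_inv {k : ℕ} {d : Dir} {y : V} {J J' : E → ℝ} (hJ : ∀ e, e ≠ stepE d y → J e = J' e)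
    (h : J ∈ Ev K B k y d) : J' ∈ Ev K B k y d := by
  obtain ⟨h1, h2, h3⟩ := h
  have key := inR_inv hJ h3 h2
  refine ⟨(key k le_rfl _).1 h1, ?_, fun h => h3 ((key k le_rfl _).2 h)⟩
  cases k with
  | zero => exact h2
  | succ k =>
    intro h
    exact h2 ((key k (by omega) _).2 h)

/-- The event that `x` is in layer `k`. -/
def Lay (K : ℝ) (B k : ℕ) (x : V) : Set (E → ℝ) := {J | inR K B k J x ∧ ¬ prevR K B k J x}

lemma measurableSet_inR (k : ℕ) (x : V) : MeasurableSet {J : E → ℝ | inR K B k J x} := by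
  induction k generalizing x with
  | zero => exact MeasurableSet.const _
  | succ k ih =>
    have : {J : E → ℝ | inR K B (k + 1) J x}
        = {J | inR K B k J x} ∪ ⋃ d : Dir, ({J : E → ℝ | inR K B k J (stepV d x)}
          ∩ {J | K < |J (stepE d x)|}) := by
      ext J
      simp only [mem_union, mem_iUnion, mem_inter_iff, mem_ofPred_eq]
      rfl
    rw [this]
    apply (ih x).union
    apply MeasurableSet.iUnion
    intro d
    apply (ih _).inter
    exact measurableSet_lt measurable_const (measurable_pi_apply _).abs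

lemma measurableSet_prevR (k : ℕ) (x : V) : MeasurableSet {J : E → ℝ | prevR K B k J x} := by
  cases k with
  | zero => exact MeasurableSet.const _
  | succ k => exact measurableSet_inR k x

lemma measurableSet_Lay (k : ℕ) (x : V) : MeasurableSet (Lay K B k x) :=
  (measurableSet_inR k x).inter (measurableSet_prevR k x).compl

lemma measurableSet_Ev (k : ℕ) (y : V) (d : Dir) : MeasurableSet (Ev K B k y d) :=
  (measurableSet_inR k y).inter ((measurableSet_prevR k y).compl.inter
    (measurableSet_inR k _).compl)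

lemma Ev_subset_Lay (k : ℕ) (y : V) (d : Dir) : Ev K B k y d ⊆ Lay K B k y :=
  fun _ h => ⟨h.1, h.2.1⟩

/-- A strong edge out of the region starts in the last layer. -/
lemma out_Ev {k : ℕ} {J : E → ℝ} {y : V} {d : Dir} (h1 : inR K B k J y)
    (h2 : ¬ inR K B k J (stepV d y)) (h3 : K < |J (stepE d y)|) (hB : 1 ≤ B) :
    J ∈ Ev K B k y d := by
  refine ⟨h1, ?_, h2⟩
  cases k with
  | zero =>
    intro h
    apply h2
    have h4 : y ∈ box (B - 1) := h
    have h5 : stepV (revD d) (stepV d y) ∈ box (B - 1) := by rw [stepV_rev]; exact h4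
    have h6 := stepV_box h5
    rwa [Nat.sub_add_cancel hB] at h6
  | succ k =>
    intro h
    apply h2
    right
    refine ⟨revD d, ?_, ?_⟩
    · rw [stepV_rev]; exact h
    · rw [stepE_rev]; exact h3

lemma Lay_subset {k : ℕ} (hB : 1 ≤ B) (x : V) :
    Lay K B (k + 1) x ⊆ ⋃ d : Dir, (Ev K B k (stepV d x) (revD d) ∩
      {J | K < |J (stepE d x)|}) := by
  rintro J ⟨h1, h2⟩
  have h2' : ¬ inR K B k J x := h2
  rcases h1 with h1 | ⟨d, h3, h4⟩
  · exact absurd h1 h2'
  · rw [mem_iUnion]
    refine ⟨d, ?_, h4⟩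
    apply out_Ev h3 _ _ hB
    · rw [stepV_rev]; exact h2'
    · rw [stepE_rev]; exact h4

section Prob

variable {μ : Measure ℝ} [IsProbabilityMeasure μ]

lemma Ev_prob (k : ℕ) (y : V) (d : Dir) {p : ℝ≥0∞} (hp : μ {x | K < |x|} ≤ p) :
    PJ μ (Ev K B k y d ∩ {J | K < |J (stepE d y)|}) ≤ p * PJ μ (Lay K B k y) := by
  classical
  set e := stepE d y with he
  have hS : MeasurableSet {x : ℝ | K < |x|} := measurableSet_lt measurable_const measurable_id.abs
  have hm1 : MeasurableSet {J : E → ℝ | K < |J e|} :=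
    measurableSet_lt measurable_const (measurable_pi_apply _).abs
  have hm : MeasurableSet (Ev K B k y d ∩ {J | K < |J e|}) := (measurableSet_Ev k y d).inter hm1
  have hev : ∀ (J : E → ℝ) (x : ({e} : Finset E) → ℝ),
      (spl {e} J x ∈ Ev K B k y d ↔ J ∈ Ev K B k y d) := by
    intro J x
    have hag : ∀ e', e' ≠ stepE d y → spl {e} J x e' = J e' := by
      intro e' he'
      exact spl_notMem (by rw [Finset.mem_singleton]; exact he')
    exact ⟨fun h => Ev_inv hag h, fun h => Ev_inv (fun e' he' => (hag e' he').symm) h⟩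
  have h1 : PJ μ (Ev K B k y d ∩ {J | K < |J e|})
      = ∫⁻ J, (Ev K B k y d).indicator 1 J * μ {x | K < |x|} ∂(PJ μ) := by
    rw [← lintegral_indicator_one hm, lintegral_spl μ {e} _ (measurable_one.indicator hm)]
    apply lintegral_congr
    intro J
    have h2 : ∀ x : ({e} : Finset E) → ℝ,
        (Ev K B k y d ∩ {J | K < |J e|}).indicator (1 : (E → ℝ) → ℝ≥0∞) (spl {e} J x)
        = (Ev K B k y d).indicator 1 J *
          ({x : ℝ | K < |x|}.indicator 1 (x ⟨e, Finset.mem_singleton_self e⟩)) := by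
      intro x
      have h3 : spl {e} J x e = x ⟨e, Finset.mem_singleton_self e⟩ := spl_mem _
      by_cases a1 : J ∈ Ev K B k y d
      · by_cases a2 : K < |x ⟨e, Finset.mem_singleton_self e⟩|
        · rw [indicator_of_mem, indicator_of_mem a1, indicator_of_mem]
          · simp
          · exact a2
          · exact ⟨(hev J x).2 a1, by show K < |spl {e} J x e|; rw [h3]; exact a2⟩
        · rw [indicator_of_notMem, indicator_of_notMem (s := {x : ℝ | K < |x|})]
          · simp
          · exact a2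
          · rintro ⟨_, h4⟩
            have h5 : K < |spl {e} J x e| := h4
            rw [h3] at h5
            exact a2 h5
      · rw [indicator_of_notMem, indicator_of_notMem a1, zero_mul]
        rintro ⟨h4, _⟩
        exact a1 ((hev J x).1 h4)
    simp_rw [h2]
    have hmi : Measurable (fun x : ({e} : Finset E) → ℝ =>
        {x : ℝ | K < |x|}.indicator (1 : ℝ → ℝ≥0∞) (x ⟨e, Finset.mem_singleton_self e⟩)) :=
      (measurable_one.indicator hS).comp (measurable_pi_apply _)
    rw [lintegral_const_mul _ hmi]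
    congr 1
    have h4 := (measurePreserving_eval (fun _ : ({e} : Finset E) => μ)
      ⟨e, Finset.mem_singleton_self e⟩).lintegral_comp
      (f := {x : ℝ | K < |x|}.indicator (1 : ℝ → ℝ≥0∞)) (measurable_one.indicator hS)
    rw [lintegral_indicator_one hS] at h4
    exact h4
  rw [h1, lintegral_mul_const _ (measurable_one.indicator (measurableSet_Ev k y d)),
    lintegral_indicator_one (measurableSet_Ev k y d), mul_comm]
  gcongr
  exact Ev_subset_Lay k y d

/-- Expected size of a layer. -/
noncomputable def aa (μ : Measure ℝ) [IsProbabilityMeasure μ] (K : ℝ) (B k : ℕ) : ℝ≥0∞ :=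
  ∑ x ∈ box (B + k), PJ μ (Lay K B k x)

lemma aa_succ (hB : 1 ≤ B) {p : ℝ≥0∞} (hp : μ {x | K < |x|} ≤ p) (k : ℕ) :
    aa μ K B (k + 1) ≤ 4 * p * aa μ K B k := by
  classical
  unfold aa
  have h1 : ∀ x, PJ μ (Lay K B (k + 1) x) ≤ ∑ d : Dir, p * PJ μ (Lay K B k (stepV d x)) := by
    intro x
    calc PJ μ (Lay K B (k + 1) x)
        ≤ PJ μ (⋃ d : Dir, (Ev K B k (stepV d x) (revD d) ∩ {J | K < |J (stepE d x)|})) :=
          measure_mono (Lay_subset hB x)
      _ ≤ ∑ d : Dir, PJ μ (Ev K B k (stepV d x) (revD d) ∩ {J | K < |J (stepE d x)|}) :=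
          measure_iUnion_fintype_le _ _
      _ ≤ ∑ d : Dir, p * PJ μ (Lay K B k (stepV d x)) := by
          apply Finset.sum_le_sum
          intro d _
          have := Ev_prob (μ := μ) (K := K) (B := B) k (stepV d x) (revD d) hp
          rwa [stepE_rev] at this
  have h2 : ∀ d : Dir, ∑ x ∈ box (B + (k + 1)), PJ μ (Lay K B k (stepV d x))
      ≤ ∑ y ∈ box (B + k), PJ μ (Lay K B k y) := by
    intro d
    rw [← Finset.sum_image (f := fun y => PJ μ (Lay K B k y)) (g := stepV d)
      (fun a _ b _ h => stepV_inj d h)]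
    rw [← Finset.sum_filter_add_sum_filter_not _ (fun y => y ∈ box (B + k))]
    have h3 : ∑ x ∈ ((box (B + (k + 1))).image (stepV d)).filter (fun y => ¬ y ∈ box (B + k)),
        PJ μ (Lay K B k x) = 0 := by
      apply Finset.sum_eq_zero
      intro x hx
      rw [Finset.mem_filter] at hx
      have : Lay K B k x = ∅ := by
        rw [eq_empty_iff_forall_notMem]
        rintro J ⟨h, _⟩
        exact hx.2 (inR_box h)
      rw [this, measure_empty]
    rw [h3, add_zero]
    apply Finset.sum_le_sum_of_subset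
    intro x hx
    exact (Finset.mem_filter.1 hx).2
  calc ∑ x ∈ box (B + (k + 1)), PJ μ (Lay K B (k + 1) x)
      ≤ ∑ x ∈ box (B + (k + 1)), ∑ d : Dir, p * PJ μ (Lay K B k (stepV d x)) :=
        Finset.sum_le_sum (fun x _ => h1 x)
    _ = ∑ d : Dir, p * ∑ x ∈ box (B + (k + 1)), PJ μ (Lay K B k (stepV d x)) := by
        rw [Finset.sum_comm]
        simp_rw [Finset.mul_sum]
    _ ≤ ∑ d : Dir, p * ∑ y ∈ box (B + k), PJ μ (Lay K B k y) := by
        gcongr with d _
        exact h2 d
    _ = 4 * p * ∑ y ∈ box (B + k), PJ μ (Lay K B k y) := by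
        rw [Finset.sum_const, Finset.card_univ]
        simp only [Fintype.card_prod, Fintype.card_fin, Fintype.card_bool, nsmul_eq_mul]
        push_cast
        ring

lemma aa_zero (hB : 1 ≤ B) : aa μ K B 0 ≤ ENNReal.ofReal (8 * B) := by
  classical
  unfold aa
  have h1 : ∑ x ∈ box (B + 0), PJ μ (Lay K B 0 x) ≤ ∑ x ∈ box B \ box (B - 1), (1 : ℝ≥0∞) := by
    rw [add_zero, ← Finset.sum_sdiff (box_mono (Nat.sub_le B 1))]
    have : ∑ x ∈ box (B - 1), PJ μ (Lay K B 0 x) = 0 := by
      apply Finset.sum_eq_zero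
      intro x hx
      have : Lay K B 0 x = ∅ := by
        rw [eq_empty_iff_forall_notMem]
        rintro J ⟨_, h⟩
        exact h hx
      rw [this, measure_empty]
    rw [this, add_zero]
    exact Finset.sum_le_sum (fun x _ => prob_le_one)
  refine h1.trans ?_
  rw [Finset.sum_const, nsmul_eq_mul, mul_one,
    Finset.card_sdiff_of_subset (box_mono (Nat.sub_le B 1)), card_box, card_box]
  have h2 : (2 * B + 1) ^ 2 - (2 * (B - 1) + 1) ^ 2 = 8 * B := by
    obtain ⟨b, rfl⟩ : ∃ b, B = b + 1 := ⟨B - 1, by omega⟩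
    rw [Nat.add_sub_cancel]
    apply Nat.sub_eq_of_eq_add
    ring
  rw [h2]
  have h3 : (8 * (B : ℝ)) = ((8 * B : ℕ) : ℝ) := by push_cast; ring
  rw [h3, ENNReal.ofReal_natCast]

lemma aa_le (hB : 1 ≤ B) (hp : μ {x | K < |x|} ≤ ENNReal.ofReal (1 / 16)) (k : ℕ) :
    aa μ K B k ≤ ENNReal.ofReal (8 * B * (1 / 4) ^ k) := by
  induction k with
  | zero => simpa using aa_zero (μ := μ) (K := K) hB
  | succ k ih =>
    calc aa μ K B (k + 1) ≤ 4 * ENNReal.ofReal (1 / 16) * aa μ K B k := aa_succ hB hp k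
      _ ≤ 4 * ENNReal.ofReal (1 / 16) * ENNReal.ofReal (8 * B * (1 / 4) ^ k) := by gcongr
      _ = ENNReal.ofReal (8 * B * (1 / 4) ^ (k + 1)) := by
        have : (4 : ℝ≥0∞) = ENNReal.ofReal 4 := by norm_num
        rw [this, ← ENNReal.ofReal_mul (by norm_num), ← ENNReal.ofReal_mul (by norm_num)]
        congr 1
        ring

end Prob

end Pool.H66.EAM
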