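import Pool.Agent.Helper66.EAM.Marks

set_option autoImplicit false
set_option linter.unusedSectionVars false

/-! Translation invariant laws are carried by a covariant ground state, if there is one. -/

namespace Pool.H66.EAM

open MeasureTheory Set ProbabilityTheory Filter Topology
open scoped ENNReal symmDiff

variable {Y : Type*} [MeasurableSpace Y] {ν : Measure Y} [IsProbabilityMeasure ν] {q : Y → ℝ}

theorem stat_conc [MeasurableEq Y] (hν : ∀ x, ν (q ⁻¹' {x}) = 0) (hq : Measurable q)
    {Φ : (E → Y) → V → ℝ} (hΦ : Covariant ν q Φ) {Q : Measure ((E → Y) × (V → ℝ))}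
    (h : StatLaw ν q Q) : ∀ᵐ p ∂Q, p.2 = Φ p.1 ∨ p.2 = -Φ p.1 := by
  classical
  have hprob := h.prob
  have hlift : ∀ {P : (E → Y) → Prop}, (∀ᵐ ω ∂(PJ ν), P ω) → ∀ᵐ p ∂Q, P p.1 := by
    intro P hP
    rw [← h.1] at hP
    exact ae_of_ae_map measurable_fst.aemeasurable hP
  have hbs := hlift hΦ.bond_sh0
  have hsp := hlift hΦ.spin
  have key : ∀ i : Fin 2, ∀ᵐ p ∂Q, bond p.2 (0, i) = bond (Φ p.1) (0, i) := by
    intro i
    set D : Set ((E → Y) × (V → ℝ)) := {p | bond p.2 (0, i) = bond (Φ p.1) (0, i)}ᶜ with hD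
    have hDm : MeasurableSet D := (measurableSet_eq_fun (measurable_bond measurable_snd _)
      (measurable_bond (hΦ.meas.comp measurable_fst) _)).compl
    have hFm : Measurable (D.indicator (1 : (E → Y) × (V → ℝ) → ℝ)) :=
      measurable_one.indicator hDm
    have hsh : ∀ x : V, Measurable (fun p : (E → Y) × (V → ℝ) => (shJ x p.1, shS x p.2)) :=
      fun x => ((measurable_shJ x).comp measurable_fst).prodMk
        ((measurable_shS x).comp measurable_snd)
    have hint : ∀ x : V, Integrable (fun p : (E → Y) × (V → ℝ) =>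
        D.indicator (1 : (E → Y) × (V → ℝ) → ℝ) (shJ x p.1, shS x p.2)) Q := fun x =>
      Integrable.of_bound (hFm.comp (hsh x)).aestronglyMeasurable 1 (ae_of_all _ (fun p => by
        rw [Real.norm_eq_abs, abs_of_nonneg (ind_nonneg _ _)]; exact ind_le_one _ _))
    set av : ℕ → (E → Y) × (V → ℝ) → ℝ := fun M p => (∑ x ∈ box M,
      D.indicator (1 : (E → Y) × (V → ℝ) → ℝ) (shJ x p.1, shS x p.2)) / ((box M).card : ℝ)
      with hav
    have hconst : ∀ M : ℕ, ∫ p, av M p ∂Q = Q.real D := by
      intro M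
      simp only [hav]
      rw [integral_div, integral_finsetSum _ (fun x _ => hint x)]
      have h1 : ∀ x : V, ∫ p, D.indicator (1 : (E → Y) × (V → ℝ) → ℝ) (shJ x p.1, shS x p.2) ∂Q
          = Q.real D := by
        intro x
        rw [h.integral_shift x hFm, integral_indicator_one hDm]
      simp_rw [h1]
      rw [Finset.sum_const, nsmul_eq_mul, mul_div_assoc, mul_comm, div_mul_cancel₀]
      exact (box_pos M).ne'
    have hlim : Tendsto (fun M : ℕ => ∫ p, av M p ∂Q) atTop (𝓝 (∫ _, (0 : ℝ) ∂Q)) := by
      apply tendsto_integral_of_dominated_convergence (fun _ => (1 : ℝ))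
      · intro M
        exact ((Finset.measurable_sum _ (fun x _ => hFm.comp (hsh x))).div_const
          _).aestronglyMeasurable
      · exact integrable_const 1
      · intro M
        apply ae_of_all
        intro p
        simp only [hav]
        rw [Real.norm_eq_abs, abs_of_nonneg (div_nonneg (Finset.sum_nonneg
          (fun _ _ => ind_nonneg _ _)) (box_pos M).le), div_le_one (box_pos M)]
        calc ∑ x ∈ box M, D.indicator (1 : (E → Y) × (V → ℝ) → ℝ) (shJ x p.1, shS x p.2)
            ≤ ∑ x ∈ box M, (1 : ℝ) := Finset.sum_le_sum (fun _ _ => ind_le_one _ _)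
          _ = ((box M).card : ℝ) := by simp
      · filter_upwards [hlift (density_zero hν hq hΦ), h.2.2, hbs] with p h1 h2 h3
        rw [Metric.tendsto_atTop]
        intro ε hε
        obtain ⟨M0, hM0⟩ := h1 (ε / 2) (half_pos hε)
        refine ⟨M0, fun M hM => ?_⟩
        have h5 := hM0 M hM _ (h2.groundIn _) i
        simp only [hav]
        rw [Real.dist_eq, sub_zero, abs_of_nonneg (div_nonneg (Finset.sum_nonneg
          (fun _ _ => ind_nonneg _ _)) (box_pos M).le)]
        refine lt_of_le_of_lt ?_ (half_lt_self hε)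
        rw [div_le_iff₀ (box_pos M)]
        refine le_trans (le_of_eq ?_) h5
        rw [Finset.card_filter]
        push_cast
        apply Finset.sum_congr rfl
        intro x _
        have h6 : (shJ x p.1, shS x p.2) ∈ D ↔ bond p.2 (x, i) ≠ bond (Φ p.1) (x, i) := by
          show ¬ (bond (shS x p.2) (0, i) = bond (Φ (shJ x p.1)) (0, i)) ↔ _
          rw [bond_shS_zero, h3]
        by_cases h7 : bond p.2 (x, i) ≠ bond (Φ p.1) (x, i)
        · rw [if_pos h7, indicator_of_mem (h6.2 h7)]; rfl
        · rw [if_neg h7, indicator_of_notMem (fun h8 => h7 (h6.1 h8))]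
    simp_rw [hconst] at hlim
    rw [integral_zero] at hlim
    have h0 : Q.real D = 0 := tendsto_nhds_unique tendsto_const_nhds hlim
    rw [measureReal_eq_zero_iff] at h0
    have h1 : ∀ᵐ p ∂Q, p ∉ D := measure_eq_zero_iff_ae_notMem.1 h0
    filter_upwards [h1] with p hp
    exact not_not.1 hp
  have hall : ∀ᵐ p ∂Q, ∀ x : V, ∀ i : Fin 2, bond (shS x p.2) (0, i)
      = bond (Φ (shJ x p.1)) (0, i) := by
    rw [ae_all_iff]
    intro x
    rw [ae_all_iff]
    intro i
    have h1 := key i
    rw [← h.2.1 x] at h1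
    exact ae_of_ae_map (((measurable_shJ x).comp measurable_fst).prodMk
        ((measurable_shS x).comp measurable_snd)).aemeasurable h1
  filter_upwards [hall, hbs, hsp, h.2.2] with p h1 h2 h3 h4
  apply eq_or_neg h3 h4.spin
  rintro ⟨x, i⟩
  have := h1 x i
  rw [bond_shS_zero, h2] at this
  exact this

end Pool.H66.EAM
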