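import Pool.Agent.Helper66.EAM.RegC

set_option autoImplicit false
set_option linter.unusedSectionVars false

/-! Consequences of the uniform law of large numbers. -/

namespace Pool.H66.EAM

open MeasureTheory Set ProbabilityTheory Filter Topology
open scoped ENNReal

/-- Spatial average of `g(θ_x ω) σ_x σ_{x + e_i}` over the box of radius `M`. -/
noncomputable def avg {Y : Type*} (i : Fin 2) (g : (E → Y) → ℝ) (M : ℕ) (ω : E → Y) (σ : V → ℝ) :
    ℝ := (∑ x ∈ box M, g (shJ x ω) * bond σ (x, i)) / ((box M).card : ℝ)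

lemma avg_bound {Y : Type*} {i : Fin 2} {g : (E → Y) → ℝ} {C : ℝ} (hb : ∀ ω, |g ω| ≤ C) (M : ℕ)
    (ω : E → Y) {σ : V → ℝ} (hσ : IsSpin σ) : |avg i g M ω σ| ≤ C := by
  unfold avg
  have hc := box_pos M
  rw [abs_div, abs_of_pos hc, div_le_iff₀ hc]
  calc |∑ x ∈ box M, g (shJ x ω) * bond σ (x, i)|
      ≤ ∑ x ∈ box M, |g (shJ x ω) * bond σ (x, i)| := Finset.abs_sum_le_sum_abs _ _
    _ ≤ ∑ x ∈ box M, C := by
        apply Finset.sum_le_sum
        intro x _
        rw [abs_mul, abs_bond hσ, mul_one]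
        exact hb _
    _ = C * ((box M).card : ℝ) := by rw [Finset.sum_const, nsmul_eq_mul]; ring

variable {Y : Type*} [MeasurableSpace Y]

/-- The conclusion of the uniform law of large numbers. -/
def UnifTo (ν : Measure Y) [IsProbabilityMeasure ν] (q : Y → ℝ) (i : Fin 2) (g : (E → Y) → ℝ)
    (c : ℝ) : Prop :=
  ∀ᵐ ω ∂(PJ ν), ∀ ε > 0, ∃ M0 : ℕ, ∀ M ≥ M0, ∀ σ : V → ℝ,
    IsGroundIn (box (2 * M)) (cpl q ω) σ → |avg i g M ω σ - c| ≤ ε

theorem uniform [MeasurableEq Y] {ν : Measure Y} [IsProbabilityMeasure ν] {q : Y → ℝ}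
    (hν : ∀ x, ν (q ⁻¹' {x}) = 0) (hq : Measurable q) (i : Fin 2) {S : Finset E}
    {g : (E → Y) → ℝ} (hg : Measurable g) {C : ℝ} (hb : ∀ J, |g J| ≤ C) (hl : Loc S g) :
    ∃ c : ℝ, UnifTo ν q i g c := by
  obtain ⟨c, hc⟩ := final_loc hν hq (hasReg ν hq) i hg hb hl
  refine ⟨c, ?_⟩
  filter_upwards [hc] with ω hω ε hε
  obtain ⟨M0, hM0⟩ := hω ε hε
  exact ⟨M0, fun M hM σ hσ => hM0 M hM σ hσ.spin hσ.lg⟩

variable {ν : Measure Y} [IsProbabilityMeasure ν] {q : Y → ℝ} {i : Fin 2} {g : (E → Y) → ℝ}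
  {c : ℝ}

lemma measurable_bond {Ω' : Type*} [MeasurableSpace Ω'] {B : Ω' → V → ℝ} (hB : Measurable B)
    (e : E) : Measurable (fun p => bond (B p) e) :=
  ((measurable_pi_apply _).comp hB).mul ((measurable_pi_apply _).comp hB)

/-- The constant is the expectation in any stationary field of ground states. -/
theorem const_eq (hc : UnifTo ν q i g c) (hg : Measurable g) {C : ℝ} (hb : ∀ ω, |g ω| ≤ C)
    {Ω' : Type*} [MeasurableSpace Ω'] (Q : Measure Ω') [IsProbabilityMeasure Q]
    {W : Ω' → E → Y} (hW : Measurable W) (hWm : Q.map W = PJ ν) {B : Ω' → V → ℝ}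
    (hB : Measurable B) (hGS : ∀ᵐ p ∂Q, IsGroundState (cpl q (W p)) (B p))
    (hst : ∀ x : V, ∫ p, g (shJ x (W p)) * bond (B p) (x, i) ∂Q
      = ∫ p, g (W p) * bond (B p) (0, i) ∂Q) :
    ∫ p, g (W p) * bond (B p) (0, i) ∂Q = c := by
  have hmx : ∀ x : V, Measurable (fun p => g (shJ x (W p)) * bond (B p) (x, i)) := fun x =>
    (hg.comp ((measurable_shJ x).comp hW)).mul (measurable_bond hB _)
  have hbx : ∀ x : V, ∀ᵐ p ∂Q, ‖g (shJ x (W p)) * bond (B p) (x, i)‖ ≤ C := by
    intro x
    filter_upwards [hGS] with p hp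
    rw [Real.norm_eq_abs, abs_mul, abs_bond hp.spin, mul_one]
    exact hb _
  have hint : ∀ x : V, Integrable (fun p => g (shJ x (W p)) * bond (B p) (x, i)) Q := fun x =>
    Integrable.of_bound (hmx x).aestronglyMeasurable C (hbx x)
  have hlim : ∀ᵐ p ∂Q, Tendsto (fun M => avg i g M (W p) (B p)) atTop (𝓝 c) := by
    have h1 : ∀ᵐ p ∂Q, ∀ ε > 0, ∃ M0 : ℕ, ∀ M ≥ M0, ∀ σ : V → ℝ,
        IsGroundIn (box (2 * M)) (cpl q (W p)) σ → |avg i g M (W p) σ - c| ≤ ε := by
      have h2 : ∀ᵐ ω ∂(Q.map W), ∀ ε > 0, ∃ M0 : ℕ, ∀ M ≥ M0, ∀ σ : V → ℝ,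
        IsGroundIn (box (2 * M)) (cpl q ω) σ → |avg i g M ω σ - c| ≤ ε := by
        rw [hWm]; exact hc
      exact ae_of_ae_map hW.aemeasurable h2
    filter_upwards [h1, hGS] with p hp hp2
    rw [Metric.tendsto_atTop]
    intro ε hε
    obtain ⟨M0, hM0⟩ := hp (ε / 2) (half_pos hε)
    refine ⟨M0, fun M hM => ?_⟩
    rw [Real.dist_eq]
    exact lt_of_le_of_lt (hM0 M hM _ (hp2.groundIn _)) (half_lt_self hε)
  have hdom := tendsto_integral_of_dominated_convergence (μ := Q)
    (F := fun M p => avg i g M (W p) (B p)) (f := fun _ => c) (fun _ => C)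
    (fun M => ((Finset.measurable_sum _ (fun x _ => hmx x)).div_const _).aestronglyMeasurable)
    (integrable_const C)
    (fun M => by
      filter_upwards [hGS] with p hp
      exact avg_bound hb M _ hp.spin)
    hlim
  have hconst : ∀ M : ℕ, ∫ p, avg i g M (W p) (B p) ∂Q = ∫ p, g (W p) * bond (B p) (0, i) ∂Q := by
    intro M
    unfold avg
    rw [integral_div, integral_finsetSum _ (fun x _ => hint x)]
    simp_rw [hst]
    rw [Finset.sum_const, nsmul_eq_mul, mul_div_assoc, mul_comm, div_mul_cancel₀]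
    exact (box_pos M).ne'
  simp_rw [hconst] at hdom
  simp only [integral_const, probReal_univ, smul_eq_mul, one_mul] at hdom
  exact tendsto_nhds_unique tendsto_const_nhds hdom

/-- A translation invariant law of a pair (couplings and marks, ground state). -/
def StatLaw (ν : Measure Y) [IsProbabilityMeasure ν] (q : Y → ℝ)
    (Q : Measure ((E → Y) × (V → ℝ))) : Prop :=
  Q.map Prod.fst = PJ ν ∧ (∀ v : V, Q.map (fun p => (shJ v p.1, shS v p.2)) = Q) ∧
    ∀ᵐ p ∂Q, IsGroundState (cpl q p.1) p.2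

lemma measurable_shS (v : V) : Measurable (shS v) :=
  measurable_pi_lambda _ (fun _ => measurable_pi_apply _)

lemma StatLaw.prob {Q : Measure ((E → Y) × (V → ℝ))} (h : StatLaw ν q Q) :
    IsProbabilityMeasure Q := by
  constructor
  have h1 : Q.map Prod.fst univ = 1 := by rw [h.1]; exact measure_univ
  rwa [Measure.map_apply measurable_fst MeasurableSet.univ, preimage_univ] at h1

lemma StatLaw.integral_shift {Q : Measure ((E → Y) × (V → ℝ))} (h : StatLaw ν q Q) (v : V)
    {F : (E → Y) × (V → ℝ) → ℝ} (hF : Measurable F) :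
    ∫ p, F (shJ v p.1, shS v p.2) ∂Q = ∫ p, F p ∂Q := by
  have hm : Measurable (fun p : (E → Y) × (V → ℝ) => (shJ v p.1, shS v p.2)) :=
    ((measurable_shJ v).comp measurable_fst).prodMk ((measurable_shS v).comp measurable_snd)
  have h1 := integral_map (μ := Q) hm.aemeasurable (f := F) hF.aestronglyMeasurable
  rw [h.2.1 v] at h1
  exact h1.symm

lemma bond_shS_zero (v : V) (σ : V → ℝ) (i : Fin 2) : bond (shS v σ) (0, i) = bond σ (v, i) := by
  rw [bond_shS]
  unfold shE
  simp

/-- Local observables. -/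
theorem stat_local (hc : UnifTo ν q i g c) (hg : Measurable g) {C : ℝ} (hb : ∀ ω, |g ω| ≤ C)
    {Q : Measure ((E → Y) × (V → ℝ))} (h : StatLaw ν q Q) :
    ∫ p, g p.1 * bond p.2 (0, i) ∂Q = c := by
  have := h.prob
  apply const_eq hc hg hb Q measurable_fst h.1 measurable_snd h.2.2
  intro x
  rw [← h.integral_shift x (F := fun p => g p.1 * bond p.2 (0, i))
    ((hg.comp measurable_fst).mul (measurable_bond measurable_snd _))]
  apply integral_congr_ae
  filter_upwards with p
  show g (shJ x p.1) * bond p.2 (x, i) = g (shJ x p.1) * bond (shS x p.2) (0, i)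
  rw [bond_shS_zero]

/-- Two translation invariant laws have the same weighted bond expectations, at base edges. -/
theorem stat_unique0 [MeasurableEq Y] (hν : ∀ x, ν (q ⁻¹' {x}) = 0) (hq : Measurable q)
    {Q1 Q2 : Measure ((E → Y) × (V → ℝ))} (h1 : StatLaw ν q Q1) (h2 : StatLaw ν q Q2)
    (i : Fin 2) {g : (E → Y) → ℝ} (hg : Measurable g) {C : ℝ} (hb : ∀ ω, |g ω| ≤ C) :
    ∫ p, g p.1 * bond p.2 (0, i) ∂Q1 = ∫ p, g p.1 * bond p.2 (0, i) ∂Q2 := by
  classical
  have hp1 := h1.prob
  have hp2 := h2.prob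
  -- the measures `1{ω ∈ ·} (1 + bond)/2`
  have hdm : Measurable (fun p : (E → Y) × (V → ℝ) =>
      ENNReal.ofReal ((1 + bond p.2 (0, i)) / 2)) :=
    (((measurable_bond measurable_snd _).const_add 1).div_const 2).ennreal_ofReal
  have hds : ∀ {Q : Measure ((E → Y) × (V → ℝ))}, StatLaw ν q Q →
      ∀ᵐ p ∂Q, 0 ≤ (1 + bond p.2 (0, i)) / 2 ∧ (1 + bond p.2 (0, i)) / 2 ≤ 1 := by
    intro Q h
    filter_upwards [h.2.2] with p hp
    rcases bond_cases hp.spin (0, i) with hh | hh <;> rw [hh] <;> norm_num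
  set m : Measure ((E → Y) × (V → ℝ)) → Measure (E → Y) := fun Q =>
    (Q.withDensity (fun p => ENNReal.ofReal ((1 + bond p.2 (0, i)) / 2))).map Prod.fst with hm
  -- integrals against m
  have hint : ∀ {Q : Measure ((E → Y) × (V → ℝ))}, StatLaw ν q Q → ∀ (f : (E → Y) → ℝ),
      Measurable f → ∫ ω, f ω ∂(m Q) = ∫ p, ((1 + bond p.2 (0, i)) / 2) * f p.1 ∂Q := by
    intro Q h f hf
    rw [hm, integral_map measurable_fst.aemeasurable hf.aestronglyMeasurable,
      integral_withDensity_eq_integral_toReal_smul hdm (ae_of_all _ (fun _ => ENNReal.ofReal_lt_top))]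
    apply integral_congr_ae
    filter_upwards [hds h] with p hp
    rw [ENNReal.toReal_ofReal hp.1, smul_eq_mul]
  have hfin : ∀ {Q : Measure ((E → Y) × (V → ℝ))}, StatLaw ν q Q → IsFiniteMeasure (m Q) := by
    intro Q h
    have := h.prob
    constructor
    rw [hm, Measure.map_apply measurable_fst MeasurableSet.univ, preimage_univ,
      withDensity_apply _ MeasurableSet.univ, Measure.restrict_univ]
    calc ∫⁻ p, ENNReal.ofReal ((1 + bond p.2 (0, i)) / 2) ∂Q ≤ ∫⁻ _, 1 ∂Q := by
          apply lintegral_mono_ae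
          filter_upwards [hds h] with p hp
          rw [← ENNReal.ofReal_one]
          exact ENNReal.ofReal_le_ofReal hp.2
      _ = 1 := by simp
      _ < ∞ := ENNReal.one_lt_top
  have hf1 := hfin h1
  have hf2 := hfin h2
  have hfst : ∀ {Q : Measure ((E → Y) × (V → ℝ))}, StatLaw ν q Q → ∀ (f : (E → Y) → ℝ),
      Measurable f → ∫ p, f p.1 ∂Q = ∫ ω, f ω ∂(PJ ν) := by
    intro Q h f hf
    have e1 := integral_map (μ := Q) measurable_fst.aemeasurable (f := f) hf.aestronglyMeasurable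
    rw [h.1] at e1
    exact e1.symm
  -- decomposition of the integral
  have hdec : ∀ {Q : Measure ((E → Y) × (V → ℝ))}, StatLaw ν q Q → ∀ (f : (E → Y) → ℝ),
      Measurable f → (∀ ω, |f ω| ≤ C ∨ |f ω| ≤ 1) →
      ∫ p, f p.1 * bond p.2 (0, i) ∂Q = 2 * ∫ ω, f ω ∂(m Q) - ∫ ω, f ω ∂(PJ ν) := by
    intro Q h f hf hfb
    have := h.prob
    have hfb' : ∀ ω, |f ω| ≤ max C 1 := fun ω => (hfb ω).elim
      (fun h => h.trans (le_max_left _ _)) (fun h => h.trans (le_max_right _ _))
    rw [hint h f hf, ← hfst h f hf, ← integral_const_mul, ← integral_sub]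
    · apply integral_congr_ae
      filter_upwards with p
      ring
    · apply Integrable.const_mul
      apply Integrable.of_bound (C := max C 1)
      · exact ((((measurable_bond measurable_snd _).const_add 1).div_const 2).mul
          (hf.comp measurable_fst)).aestronglyMeasurable
      · filter_upwards [hds h] with p hp
        rw [Real.norm_eq_abs, abs_mul, abs_of_nonneg hp.1]
        calc (1 + bond p.2 (0, i)) / 2 * |f p.1| ≤ 1 * |f p.1| := by gcongr; exact hp.2
          _ ≤ max C 1 := by rw [one_mul]; exact hfb' _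
    · exact Integrable.of_bound (C := max C 1) (hf.comp measurable_fst).aestronglyMeasurable
        (ae_of_all _ (fun p => hfb' _))
  -- equality on cylinders
  have hcyl : ∀ (S : Finset E) (B : Set (S → Y)), MeasurableSet B →
      (m Q1) (cylinder S B) = (m Q2) (cylinder S B) := by
    intro S B hB
    have hBm : MeasurableSet (cylinder (α := fun _ : E => Y) S B) := hB.cylinder S
    have hgm : Measurable ((cylinder (α := fun _ : E => Y) S B).indicator (1 : (E → Y) → ℝ)) :=
      measurable_one.indicator hBm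
    have hgb : ∀ ω, |(cylinder (α := fun _ : E => Y) S B).indicator (1 : (E → Y) → ℝ) ω| ≤ 1 := by
      intro ω; rw [abs_of_nonneg (ind_nonneg _ _)]; exact ind_le_one _ _
    have hgl : Loc S ((cylinder (α := fun _ : E => Y) S B).indicator (1 : (E → Y) → ℝ)) := by
      intro ω ω' h
      have hiff : ω ∈ cylinder (α := fun _ : E => Y) S B ↔ ω' ∈ cylinder (α := fun _ : E => Y) S B := by
        rw [mem_cylinder, mem_cylinder]
        have : S.restrict ω = S.restrict ω' := by
          funext e; exact h e e.2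
        rw [this]
      by_cases hω : ω ∈ cylinder (α := fun _ : E => Y) S B
      · rw [indicator_of_mem hω, indicator_of_mem (hiff.1 hω)]; rfl
      · rw [indicator_of_notMem hω, indicator_of_notMem (fun h => hω (hiff.2 h))]
    obtain ⟨c, hc⟩ := uniform hν hq i hgm hgb hgl
    have e1 := stat_local hc hgm hgb h1
    have e2 := stat_local hc hgm hgb h2
    rw [hdec h1 _ hgm (fun ω => Or.inr (hgb ω))] at e1
    rw [hdec h2 _ hgm (fun ω => Or.inr (hgb ω))] at e2
    rw [integral_indicator_one hBm] at e1 e2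
    have e3 : (m Q1).real (cylinder S B) = (m Q2).real (cylinder S B) := by linarith
    rw [measureReal_def, measureReal_def] at e3
    exact (ENNReal.toReal_eq_toReal_iff' (measure_ne_top _ _) (measure_ne_top _ _)).1 e3
  have heq : m Q1 = m Q2 := by
    apply ext_of_generate_finite (measurableCylinders (fun _ : E => Y))
      generateFrom_measurableCylinders.symm isPiSystem_measurableCylinders
    · intro s hs
      rw [mem_measurableCylinders] at hs
      obtain ⟨S, B, hB, rfl⟩ := hs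
      exact hcyl S B hB
    · have := hcyl ∅ univ MeasurableSet.univ
      rwa [cylinder_univ] at this
  rw [hdec h1 g hg (fun ω => Or.inl (hb ω)), hdec h2 g hg (fun ω => Or.inl (hb ω)), heq]

/-- All edges. -/
theorem stat_unique [MeasurableEq Y] (hν : ∀ x, ν (q ⁻¹' {x}) = 0) (hq : Measurable q)
    {Q1 Q2 : Measure ((E → Y) × (V → ℝ))} (h1 : StatLaw ν q Q1) (h2 : StatLaw ν q Q2)
    (e : E) {g : (E → Y) → ℝ} (hg : Measurable g) {C : ℝ} (hb : ∀ ω, |g ω| ≤ C) :
    ∫ p, g p.1 * bond p.2 e ∂Q1 = ∫ p, g p.1 * bond p.2 e ∂Q2 := by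
  obtain ⟨v, i⟩ := e
  have key : ∀ {Q : Measure ((E → Y) × (V → ℝ))}, StatLaw ν q Q →
      ∫ p, g p.1 * bond p.2 (v, i) ∂Q = ∫ p, g (shJ (-v) p.1) * bond p.2 (0, i) ∂Q := by
    intro Q h
    rw [← h.integral_shift v (F := fun p => g (shJ (-v) p.1) * bond p.2 (0, i))
      ((hg.comp ((measurable_shJ _).comp measurable_fst)).mul (measurable_bond measurable_snd _))]
    apply integral_congr_ae
    filter_upwards with p
    have e1 : shJ (-v) (shJ v p.1) = p.1 := by
      rw [shJ_shJ]
      funext e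
      unfold shJ
      simp
    show g p.1 * bond p.2 (v, i) = g (shJ (-v) (shJ v p.1)) * bond (shS v p.2) (0, i)
    rw [e1, bond_shS_zero]
  rw [key h1, key h2]
  exact stat_unique0 hν hq h1 h2 i (hg.comp (measurable_shJ _)) (fun ω => hb _)

end Pool.H66.EAM
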