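import Pool.Agent.Helper66.EAM.Defs

set_option autoImplicit false

/-! Two-dimensional Edwards-Anderson model: cuts and the deterministic inequality. -/

namespace Pool.H66.EAM

/-- The second endpoint of an edge. -/
def tip (e : E) : V := e.1 + (Pi.single e.2 (1 : ℤ) : Fin 2 → ℤ)

/-- `σ` takes the values `1` and `-1` only. -/
def IsSpin (σ : V → ℝ) : Prop := ∀ x, σ x = 1 ∨ σ x = -1

/-- Edges meeting a finite vertex set. -/
def nbhd (D : Finset V) : Finset E :=
  D ×ˢ Finset.univ ∪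
    (D ×ˢ (Finset.univ : Finset (Fin 2))).image
      (fun p => (p.1 - (Pi.single p.2 (1 : ℤ) : Fin 2 → ℤ), p.2))

lemma mem_nbhd (D : Finset V) (e : E) : e ∈ nbhd D ↔ e.1 ∈ D ∨ tip e ∈ D := by
  unfold nbhd tip
  simp only [Finset.mem_union, Finset.mem_product, Finset.mem_univ, and_true, Finset.mem_image,
    Prod.exists]
  constructor
  · rintro (h | ⟨a, b, h1, h2⟩)
    · exact Or.inl h
    · right
      rw [← h2]
      simpa using h1
  · rintro (h | h)
    · exact Or.inl h
    · right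
      refine ⟨_, e.2, h, ?_⟩
      ext1 <;> simp

/-- Edges with exactly one endpoint in `D`. -/
def cut (D : Finset V) : Finset E := (nbhd D).filter (fun e => ¬ (e.1 ∈ D ↔ tip e ∈ D))

/-- Edges with both endpoints in `D`. -/
def inn (D : Finset V) : Finset E := (nbhd D).filter (fun e => e.1 ∈ D ∧ tip e ∈ D)

lemma mem_cut (D : Finset V) (e : E) : e ∈ cut D ↔ ¬ (e.1 ∈ D ↔ tip e ∈ D) := by
  unfold cut
  rw [Finset.mem_filter, mem_nbhd]
  tauto

lemma mem_inn (D : Finset V) (e : E) : e ∈ inn D ↔ (e.1 ∈ D ∧ tip e ∈ D) := by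
  unfold inn
  rw [Finset.mem_filter, mem_nbhd]
  tauto

/-- `σ` is a ground state inside `B`: no set `D ⊆ B` has negative boundary energy. -/
def LG (B : Finset V) (J : E → ℝ) (σ : V → ℝ) : Prop :=
  ∀ D ⊆ B, 0 ≤ ∑ e ∈ cut D, J e * bond σ e

lemma LG.mono {B B' : Finset V} (h : B ⊆ B') {J : E → ℝ} {σ : V → ℝ} (hσ : LG B' J σ) :
    LG B J σ := fun D hD => hσ D (hD.trans h)

lemma spin_mul_cases {a b : ℝ} (ha : a = 1 ∨ a = -1) (hb : b = 1 ∨ b = -1) :
    a * b = 1 ∨ a * b = -1 := by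
  rcases ha with rfl | rfl <;> rcases hb with rfl | rfl <;> norm_num

lemma bond_cases {σ : V → ℝ} (hσ : IsSpin σ) (e : E) : bond σ e = 1 ∨ bond σ e = -1 :=
  spin_mul_cases (hσ _) (hσ _)

lemma abs_bond {σ : V → ℝ} (hσ : IsSpin σ) (e : E) : |bond σ e| = 1 := by
  rcases bond_cases hσ e with h | h <;> rw [h] <;> norm_num

lemma case_neg {a b c d : ℝ} (ha : a = 1 ∨ a = -1) (hb : b = 1 ∨ b = -1) (hc : c = 1 ∨ c = -1)
    (hd : d = 1 ∨ d = -1) (h : ¬ (a ≠ c ↔ b ≠ d)) : c * d = - (a * b) := by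
  rcases ha with rfl | rfl <;> rcases hb with rfl | rfl <;>
    rcases hc with rfl | rfl <;> rcases hd with rfl | rfl <;>
    first | (norm_num; done) | (exfalso; norm_num at h)

lemma case_eq {a b c d : ℝ} (ha : a = 1 ∨ a = -1) (hb : b = 1 ∨ b = -1) (hc : c = 1 ∨ c = -1)
    (hd : d = 1 ∨ d = -1) (h : (a ≠ c ↔ b ≠ d)) : c * d = a * b := by
  rcases ha with rfl | rfl <;> rcases hb with rfl | rfl <;>
    rcases hc with rfl | rfl <;> rcases hd with rfl | rfl <;>
    first | (norm_num; done) | (exfalso; norm_num at h)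

/-- The deterministic inequality. -/
theorem det_ineq (B : Finset V) (J J' : E → ℝ) (σ τ : V → ℝ) (hσs : IsSpin σ) (hτs : IsSpin τ)
    (hσ : LG B J σ) (hτ : LG B J' τ) (hJ : ∀ e ∈ cut B, J e = J' e) :
    ∑ e ∈ inn B, (J' e - J e) * (bond σ e - bond τ e) ≤ 4 * ∑ e ∈ cut B, |J e| := by
  classical
  set D : Finset V := B.filter (fun x => σ x ≠ τ x) with hD
  have hDB : D ⊆ B := Finset.filter_subset _ _
  have memD : ∀ x, x ∈ D ↔ x ∈ B ∧ σ x ≠ τ x := fun x => by rw [hD, Finset.mem_filter]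
  have h1 := hσ D hDB
  have h2 := hτ D hDB
  have hsub : cut D ⊆ inn B ∪ cut B := by
    intro e he
    rw [Finset.mem_union, mem_inn, mem_cut]
    rw [mem_cut, memD, memD] at he
    tauto
  have hdisj : Disjoint (inn B) (cut B) := by
    rw [Finset.disjoint_left]
    intro e h1 h2
    rw [mem_inn] at h1
    rw [mem_cut] at h2
    tauto
  -- indicator of the cut of D
  have key : ∀ (f : E → ℝ), ∑ e ∈ cut D, f e
      = ∑ e ∈ inn B, (if e ∈ cut D then f e else 0) + ∑ e ∈ cut B, (if e ∈ cut D then f e else 0) := by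
    intro f
    rw [← Finset.sum_union hdisj, ← Finset.sum_filter]
    congr 1
    ext e
    rw [Finset.mem_filter]
    exact ⟨fun h => ⟨hsub h, h⟩, fun h => h.2⟩
  have h3 : 0 ≤ ∑ e ∈ cut D, (J e * bond σ e + J' e * bond τ e) := by
    rw [Finset.sum_add_distrib]; linarith
  rw [key] at h3
  -- inner part
  have hin : ∀ e ∈ inn B, (if e ∈ cut D then (J e * bond σ e + J' e * bond τ e) else 0)
      = - ((J' e - J e) * (bond σ e - bond τ e)) / 2 := by
    intro e he
    rw [mem_inn] at he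
    obtain ⟨hx, hy⟩ := he
    have hx' : e.1 ∈ D ↔ σ e.1 ≠ τ e.1 := by rw [memD]; tauto
    have hy' : tip e ∈ D ↔ σ (tip e) ≠ τ (tip e) := by rw [memD]; tauto
    have hb : bond σ e = σ e.1 * σ (tip e) := rfl
    have hb' : bond τ e = τ e.1 * τ (tip e) := rfl
    by_cases hc : e ∈ cut D
    · rw [if_pos hc]
      have hneg : bond τ e = - bond σ e := by
        rw [mem_cut, hx', hy'] at hc
        rw [hb, hb']
        exact case_neg (hσs e.1) (hσs (tip e)) (hτs e.1) (hτs (tip e)) hc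
      rw [hneg]; ring
    · rw [if_neg hc]
      have heq : bond τ e = bond σ e := by
        rw [mem_cut, hx', hy', not_not] at hc
        rw [hb, hb']
        exact case_eq (hσs e.1) (hσs (tip e)) (hτs e.1) (hτs (tip e)) hc
      rw [heq]; ring
  rw [Finset.sum_congr rfl hin] at h3
  have hout : ∑ e ∈ cut B, (if e ∈ cut D then (J e * bond σ e + J' e * bond τ e) else 0)
      ≤ ∑ e ∈ cut B, 2 * |J e| := by
    apply Finset.sum_le_sum
    intro e he
    split_ifs with h
    · rw [← hJ e he]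
      have a1 : J e * bond σ e ≤ |J e| := by
        calc J e * bond σ e ≤ |J e * bond σ e| := le_abs_self _
          _ = |J e| := by rw [abs_mul, abs_bond hσs, mul_one]
      have a2 : J e * bond τ e ≤ |J e| := by
        calc J e * bond τ e ≤ |J e * bond τ e| := le_abs_self _
          _ = |J e| := by rw [abs_mul, abs_bond hτs, mul_one]
      linarith
    · positivity
  rw [← Finset.mul_sum] at hout
  have h4 : ∑ e ∈ inn B, -((J' e - J e) * (bond σ e - bond τ e)) / 2
      = - (∑ e ∈ inn B, (J' e - J e) * (bond σ e - bond τ e)) / 2 := by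
    rw [← Finset.sum_neg_distrib, Finset.sum_div]
  rw [h4] at h3
  linarith

/-- Flip the spins in `D`. -/
noncomputable def flip (D : Finset V) (σ : V → ℝ) : V → ℝ := by
  classical exact fun x => if x ∈ D then - σ x else σ x

lemma flip_spin (D : Finset V) {σ : V → ℝ} (hσ : IsSpin σ) : IsSpin (flip D σ) := by
  intro x
  unfold flip
  split_ifs
  · rcases hσ x with h | h <;> rw [h] <;> norm_num
  · exact hσ x

lemma bond_flip (D : Finset V) (σ : V → ℝ) (e : E) :
    bond (flip D σ) e = if e ∈ cut D then - bond σ e else bond σ e := by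
  have hb : bond (flip D σ) e = flip D σ e.1 * flip D σ (tip e) := rfl
  have hb' : bond σ e = σ e.1 * σ (tip e) := rfl
  rw [hb, hb']
  unfold flip
  by_cases h1 : e.1 ∈ D <;> by_cases h2 : tip e ∈ D
  · rw [if_pos h1, if_pos h2, if_neg (by rw [mem_cut]; tauto)]; ring
  · rw [if_pos h1, if_neg h2, if_pos (by rw [mem_cut]; tauto)]; ring
  · rw [if_neg h1, if_pos h2, if_pos (by rw [mem_cut]; tauto)]; ring
  · rw [if_neg h1, if_neg h2, if_neg (by rw [mem_cut]; tauto)]

lemma IsGroundIn.spin {B : Finset V} {J : E → ℝ} {σ : V → ℝ} (h : IsGroundIn B J σ) :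
    IsSpin σ := h.1

lemma finsum_flip_eq {J : E → ℝ} {σ : V → ℝ} (D : Finset V) :
    ∑ᶠ e : E, J e * (σ e.1 * σ (e.1 + (Pi.single e.2 (1 : ℤ) : Fin 2 → ℤ))
        - flip D σ e.1 * flip D σ (e.1 + (Pi.single e.2 (1 : ℤ) : Fin 2 → ℤ)))
      = 2 * ∑ e ∈ cut D, J e * bond σ e := by
  have heq : (fun e : E => J e *
      (σ e.1 * σ (e.1 + (Pi.single e.2 (1 : ℤ) : Fin 2 → ℤ))
        - flip D σ e.1 * flip D σ (e.1 + (Pi.single e.2 (1 : ℤ) : Fin 2 → ℤ))))
      = fun e => if e ∈ cut D then 2 * (J e * bond σ e) else 0 := by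
    funext e
    have hb := bond_flip D σ e
    have hb1 : flip D σ e.1 * flip D σ (e.1 + (Pi.single e.2 (1 : ℤ) : Fin 2 → ℤ))
      = bond (flip D σ) e := rfl
    have hb2 : σ e.1 * σ (e.1 + (Pi.single e.2 (1 : ℤ) : Fin 2 → ℤ)) = bond σ e := rfl
    rw [hb1, hb2, hb]
    split_ifs <;> ring
  rw [heq, finsum_eq_sum_of_support_subset (s := cut D)]
  · rw [Finset.sum_ite_mem, Finset.inter_self, ← Finset.mul_sum]
  · intro e he
    by_contra hc
    apply he
    exact if_neg (by simpa using hc)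

lemma IsGroundIn.lg {B : Finset V} {J : E → ℝ} {σ : V → ℝ} (h : IsGroundIn B J σ) :
    LG B J σ := by
  intro D hDB
  have h1 := h.2 (flip D σ) (flip_spin D h.spin) (by
    intro x hx
    unfold flip
    rw [if_neg (fun h' => hx (hDB h'))])
  rw [finsum_flip_eq] at h1
  linarith

lemma IsGroundState.groundIn {J : E → ℝ} {σ : V → ℝ} (h : IsGroundState J σ) (B : Finset V) :
    IsGroundIn B J σ := by
  refine ⟨h.1, fun ρ hρ hB => ?_⟩
  by_cases hne : ρ = σ
  · subst hne
    simp
  · refine (h.2 ρ hρ ?_ hne).le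
    apply B.finite_toSet.subset
    intro x hx
    by_contra hxB
    exact hx (hB x (by simpa using hxB))

lemma IsGroundState.spin {J : E → ℝ} {σ : V → ℝ} (h : IsGroundState J σ) : IsSpin σ := h.1

lemma IsGroundState.lg {J : E → ℝ} {σ : V → ℝ} (h : IsGroundState J σ) (B : Finset V) :
    LG B J σ := (h.groundIn B).lg

end Pool.H66.EAM
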