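import Pool.Agent.Helper66.EAM.Cov

set_option autoImplicit false
set_option linter.unusedSectionVars false

/-! Events of density zero. -/

namespace Pool.H66.EAM

open MeasureTheory Set ProbabilityTheory Filter Topology
open scoped ENNReal symmDiff

variable {Y : Type*} [MeasurableSpace Y] {ν : Measure Y} [IsProbabilityMeasure ν] {q : Y → ℝ}

/-- Averages of the indicator of `A` along the translations. -/
noncomputable def den (A : Set (E → Y)) (M : ℕ) (ω : E → Y) : ℝ :=
  (∑ x ∈ box M, A.indicator (1 : (E → Y) → ℝ) (shJ x ω)) / ((box M).card : ℝ)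

lemma den_nonneg (A : Set (E → Y)) (M : ℕ) (ω : E → Y) : 0 ≤ den A M ω :=
  div_nonneg (Finset.sum_nonneg (fun _ _ => ind_nonneg _ _)) (box_pos M).le

lemma den_le_one (A : Set (E → Y)) (M : ℕ) (ω : E → Y) : den A M ω ≤ 1 := by
  unfold den
  rw [div_le_one (box_pos M)]
  calc ∑ x ∈ box M, A.indicator (1 : (E → Y) → ℝ) (shJ x ω) ≤ ∑ x ∈ box M, (1 : ℝ) :=
        Finset.sum_le_sum (fun _ _ => ind_le_one _ _)
    _ = ((box M).card : ℝ) := by simp

lemma measurable_den {A : Set (E → Y)} (hA : MeasurableSet A) (M : ℕ) :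
    Measurable (den A M) := by
  unfold den
  exact (Finset.measurable_sum _ (fun x _ =>
    (measurable_one.indicator hA).comp (measurable_shJ x))).div_const _

lemma den_shift {A : Set (E → Y)} {ω : E → Y} (h : Tendsto (fun M => den A M ω) atTop (𝓝 0))
    (v : V) : Tendsto (fun M => den A M (shJ v ω)) atTop (𝓝 0) := by
  classical
  set k : ℕ := (v 0).natAbs + (v 1).natAbs with hk
  have hle : ∀ M : ℕ, den A M (shJ v ω) ≤ (2 * (k : ℝ) + 1) ^ 2 * den A (M + k) ω := by
    intro M
    unfold den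
    rw [div_le_iff₀ (box_pos M)]
    have h1 : ∑ x ∈ box M, A.indicator (1 : (E → Y) → ℝ) (shJ x (shJ v ω))
        ≤ ∑ y ∈ box (M + k), A.indicator (1 : (E → Y) → ℝ) (shJ y ω) := by
      simp_rw [shJ_shJ]
      rw [← Finset.sum_image (f := fun y => A.indicator (1 : (E → Y) → ℝ) (shJ y ω))
        (g := fun x => x + v) (s := box M) (fun a _ b _ hab => add_right_cancel hab)]
      apply Finset.sum_le_sum_of_subset_of_nonneg
      · intro y hy
        rw [Finset.mem_image] at hy
        obtain ⟨x, hx, rfl⟩ := hy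
        rw [mem_box] at hx ⊢
        intro j
        have h2 := hx j
        have h3 : (v j).natAbs ≤ k := by
          fin_cases j
          · exact Nat.le_add_right _ _
          · exact Nat.le_add_left _ _
        rw [Pi.add_apply]
        push_cast
        omega
      · intro y _ _
        exact ind_nonneg _ _
    refine h1.trans ?_
    have h4 : ((box (M + k)).card : ℝ) ≤ (2 * (k : ℝ) + 1) ^ 2 * ((box M).card : ℝ) := by
      rw [box_cast, box_cast, ← mul_pow]
      apply pow_le_pow_left₀ (by positivity)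
      push_cast
      nlinarith [(Nat.cast_nonneg M : (0 : ℝ) ≤ M), (Nat.cast_nonneg k : (0 : ℝ) ≤ k)]
    have h5 : ∑ y ∈ box (M + k), A.indicator (1 : (E → Y) → ℝ) (shJ y ω)
        = (∑ y ∈ box (M + k), A.indicator (1 : (E → Y) → ℝ) (shJ y ω))
          / ((box (M + k)).card : ℝ) * ((box (M + k)).card : ℝ) :=
      (div_mul_cancel₀ _ (box_pos (M + k)).ne').symm
    conv_lhs => rw [h5]
    have h6 := den_nonneg A (M + k) ω
    unfold den at h6
    calc _ ≤ (∑ y ∈ box (M + k), A.indicator (1 : (E → Y) → ℝ) (shJ y ω))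
          / ((box (M + k)).card : ℝ) * ((2 * (k : ℝ) + 1) ^ 2 * ((box M).card : ℝ)) := by
          exact mul_le_mul_of_nonneg_left h4 h6
      _ = _ := by ring
  have h2 : Tendsto (fun M => (2 * (k : ℝ) + 1) ^ 2 * den A (M + k) ω) atTop (𝓝 0) := by
    have := (h.comp (tendsto_add_atTop_nat k)).const_mul ((2 * (k : ℝ) + 1) ^ 2)
    simpa using this
  exact squeeze_zero (fun M => den_nonneg _ _ _) hle h2

/-- An event whose translates have density zero, on a (not necessarily measurable) set `F`, does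
not meet `F`, almost surely. -/
theorem null_of_density {A : Set (E → Y)} (hA : MeasurableSet A) {F : Set (E → Y)}
    (hF : ∀ᵐ ω ∂(PJ ν), ω ∈ F → Tendsto (fun M => den A M ω) atTop (𝓝 0)) :
    ∀ᵐ ω ∂(PJ ν), ω ∈ F → ω ∉ A := by
  classical
  set G : Set (E → Y) := {ω | Tendsto (fun M => den A M ω) atTop (𝓝 0)} with hG
  have hGm : MeasurableSet G := measurableSet_tendsto _ (fun M => measurable_den hA M)
  have hinv : ∀ (v : V) (ω : E → Y), shJ v ω ∈ G ↔ ω ∈ G := by
    intro v ω
    constructor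
    · intro h
      have h1 := den_shift h (-v)
      rw [shJ_shJ] at h1
      have e1 : shJ (-v + v) ω = ω := by
        funext e; unfold shJ; simp
      rw [e1] at h1
      exact h1
    · intro h
      exact den_shift h v
  have hm1 : ∀ x : V, Measurable (fun ω => G.indicator (1 : (E → Y) → ℝ) ω *
      A.indicator (1 : (E → Y) → ℝ) (shJ x ω)) := fun x =>
    (measurable_one.indicator hGm).mul ((measurable_one.indicator hA).comp (measurable_shJ x))
  have hb1 : ∀ (x : V) (ω : E → Y), |G.indicator (1 : (E → Y) → ℝ) ω *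
      A.indicator (1 : (E → Y) → ℝ) (shJ x ω)| ≤ 1 := by
    intro x ω
    rw [abs_of_nonneg (mul_nonneg (ind_nonneg _ _) (ind_nonneg _ _))]
    exact mul_le_one₀ (ind_le_one _ _) (ind_nonneg _ _) (ind_le_one _ _)
  set a : ℝ := ∫ ω, G.indicator (1 : (E → Y) → ℝ) ω * A.indicator (1 : (E → Y) → ℝ) ω ∂(PJ ν)
    with ha
  have hx : ∀ x : V, ∫ ω, G.indicator (1 : (E → Y) → ℝ) ω *
      A.indicator (1 : (E → Y) → ℝ) (shJ x ω) ∂(PJ ν) = a := by
    intro x
    rw [ha, ← integral_shJ ν x (φ := fun ω => G.indicator (1 : (E → Y) → ℝ) ω *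
      A.indicator (1 : (E → Y) → ℝ) ω) ((measurable_one.indicator hGm).mul
        (measurable_one.indicator hA))]
    congr 1
    funext ω
    have : G.indicator (1 : (E → Y) → ℝ) (shJ x ω) = G.indicator (1 : (E → Y) → ℝ) ω := by
      by_cases h : ω ∈ G
      · rw [indicator_of_mem h, indicator_of_mem ((hinv x ω).2 h)]; rfl
      · rw [indicator_of_notMem h, indicator_of_notMem (fun h' => h ((hinv x ω).1 h'))]
    rw [this]
  have hconst : ∀ M : ℕ, ∫ ω, G.indicator (1 : (E → Y) → ℝ) ω * den A M ω ∂(PJ ν) = a := by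
    intro M
    have h1 : (fun ω => G.indicator (1 : (E → Y) → ℝ) ω * den A M ω)
        = fun ω => (∑ x ∈ box M, G.indicator (1 : (E → Y) → ℝ) ω *
          A.indicator (1 : (E → Y) → ℝ) (shJ x ω)) / ((box M).card : ℝ) := by
      funext ω
      unfold den
      rw [← Finset.mul_sum, mul_div_assoc]
    rw [h1, integral_div, integral_finsetSum _ (fun x _ => integrable_bdd (hm1 x) (hb1 x))]
    simp_rw [hx]
    rw [Finset.sum_const, nsmul_eq_mul, mul_div_assoc, mul_comm, div_mul_cancel₀]
    exact (box_pos M).ne'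
  have hlim : Tendsto (fun M : ℕ => ∫ ω, G.indicator (1 : (E → Y) → ℝ) ω * den A M ω ∂(PJ ν))
      atTop (𝓝 (∫ _, (0 : ℝ) ∂(PJ ν))) := by
    apply tendsto_integral_of_dominated_convergence (fun _ => (1 : ℝ))
    · intro M
      exact ((measurable_one.indicator hGm).mul (measurable_den hA M)).aestronglyMeasurable
    · exact integrable_const 1
    · intro M
      apply ae_of_all
      intro ω
      rw [Real.norm_eq_abs, abs_of_nonneg (mul_nonneg (ind_nonneg _ _) (den_nonneg _ _ _))]
      exact mul_le_one₀ (ind_le_one _ _) (den_nonneg _ _ _) (den_le_one _ _ _)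
    · apply ae_of_all
      intro ω
      by_cases h : ω ∈ G
      · simp only [indicator_of_mem h, Pi.one_apply, one_mul]
        exact h
      · simp only [indicator_of_notMem h, zero_mul]
        exact tendsto_const_nhds
  simp_rw [hconst] at hlim
  simp only [integral_zero] at hlim
  have ha0 : a = 0 := tendsto_nhds_unique tendsto_const_nhds hlim
  have h3 : (fun ω => G.indicator (1 : (E → Y) → ℝ) ω * A.indicator (1 : (E → Y) → ℝ) ω)
      = (G ∩ A).indicator (1 : (E → Y) → ℝ) := by
    funext ω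
    by_cases h : ω ∈ G <;> by_cases h' : ω ∈ A <;> simp [h, h', indicator]
  rw [ha, h3, integral_indicator_one (hGm.inter hA)] at ha0
  have h4 : PJ ν (G ∩ A) = 0 := by
    rwa [measureReal_eq_zero_iff] at ha0
  have h5 : ∀ᵐ ω ∂(PJ ν), ω ∉ G ∩ A := measure_eq_zero_iff_ae_notMem.1 h4
  filter_upwards [hF, h5] with ω h6 h7 h8 h9
  exact h7 ⟨h6 h8, h9⟩

lemma ae_shift {p : (E → Y) → Prop} (h : ∀ᵐ ω ∂(PJ ν), p ω) :
    ∀ᵐ ω ∂(PJ ν), ∀ x : V, p (shJ x ω) := by
  rw [ae_all_iff]
  intro x
  exact (mp_shJ ν x).quasiMeasurePreserving.ae h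

/-- Two covariant ground states agree. -/
theorem cov_unique [MeasurableEq Y] (hν : ∀ x, ν (q ⁻¹' {x}) = 0) (hq : Measurable q)
    {Φ Ψ : (E → Y) → V → ℝ} (hΦ : Covariant ν q Φ) (hΨ : Covariant ν q Ψ) :
    ∀ᵐ ω ∂(PJ ν), Ψ ω = Φ ω ∨ Ψ ω = -Φ ω := by
  classical
  have key : ∀ i : Fin 2, ∀ᵐ ω ∂(PJ ν), ω ∈ (univ : Set (E → Y)) →
      ω ∉ {ω | bond (Ψ ω) (0, i) ≠ bond (Φ ω) (0, i)} := by
    intro i
    apply null_of_density
    · exact (measurableSet_eq_fun (measurable_bond hΨ.meas _) (measurable_bond hΦ.meas _)).compl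
    · filter_upwards [density_zero hν hq hΦ, hΦ.bond_sh0, hΨ.bond_sh0, hΨ.ground'] with
        ω h1 h2 h3 h4 _
      rw [Metric.tendsto_atTop]
      intro ε hε
      obtain ⟨M0, hM0⟩ := h1 (ε / 2) (half_pos hε)
      refine ⟨M0, fun M hM => ?_⟩
      have h5 := hM0 M hM _ (h4.groundIn _) i
      rw [Real.dist_eq, sub_zero, abs_of_nonneg (den_nonneg _ _ _)]
      refine lt_of_le_of_lt ?_ (half_lt_self hε)
      unfold den
      rw [div_le_iff₀ (box_pos M)]
      refine le_trans (le_of_eq ?_) h5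
      rw [Finset.card_filter]
      push_cast
      apply Finset.sum_congr rfl
      intro x _
      by_cases h : bond (Ψ ω) (x, i) ≠ bond (Φ ω) (x, i)
      · rw [if_pos h, indicator_of_mem]
        · rfl
        · show bond (Ψ (shJ x ω)) (0, i) ≠ bond (Φ (shJ x ω)) (0, i)
          rw [h2, h3]; exact h
      · rw [if_neg h, indicator_of_notMem]
        show ¬ (bond (Ψ (shJ x ω)) (0, i) ≠ bond (Φ (shJ x ω)) (0, i))
        rw [h2, h3]; exact h
  filter_upwards [ae_shift (key 0), ae_shift (key 1), hΦ.spin, hΨ.spin, hΦ.bond_sh0,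
    hΨ.bond_sh0] with ω h0 h1 h2 h3 h4 h5
  apply eq_or_neg h2 h3
  rintro ⟨x, i⟩
  rw [← h4, ← h5]
  fin_cases i
  · exact not_not.1 (h0 x (mem_univ _))
  · exact not_not.1 (h1 x (mem_univ _))

end Pool.H66.EAM
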