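import Pool.Agent.Helper66.EAM.Dens
import Pool.Agent.Helper42.EA.ZeroOne

set_option autoImplicit false
set_option linter.unusedSectionVars false

/-! The dichotomy: one pair or infinitely many pairs. -/

namespace Pool.H66.EAM

open MeasureTheory Set ProbabilityTheory Filter Topology
open scoped ENNReal symmDiff

variable {Y : Type*} [MeasurableSpace Y] {ν : Measure Y} [IsProbabilityMeasure ν] {q : Y → ℝ}

lemma cpl_shJ (q : Y → ℝ) (v : V) (ω : E → Y) : cpl q (shJ v ω) = shJ v (cpl q ω) := rfl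

lemma shJ_neg_cancel {Z : Type*} (v : V) (ω : E → Z) : shJ (-v) (shJ v ω) = ω := by
  rw [shJ_shJ]; funext e; unfold shJ; simp

lemma shJ_neg_cancel' {Z : Type*} (v : V) (ω : E → Z) : shJ v (shJ (-v) ω) = ω := by
  rw [shJ_shJ]; funext e; unfold shJ; simp

lemma shS_neg_cancel (v : V) (σ : V → ℝ) : shS (-v) (shS v σ) = σ := by
  rw [shS_shS]; funext e; unfold shS; simp

lemma shS_neg_cancel' (v : V) (σ : V → ℝ) : shS v (shS (-v) σ) = σ := by
  rw [shS_shS]; funext e; unfold shS; simp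

lemma WG_image (v : V) (J : E → ℝ) : {σ | WG (shJ v J) σ} = shS v '' {σ | WG J σ} := by
  ext σ
  constructor
  · intro h
    refine ⟨shS (-v) σ, ?_, shS_neg_cancel' v σ⟩
    have h1 := WG.sh (h : WG (shJ v J) σ) (-v)
    rwa [shJ_neg_cancel] at h1
  · rintro ⟨τ, h, rfl⟩
    exact WG.sh h v

/-- The event that some weak ground state has a bond at `(0, i)` different from that of `Φ`. -/
def Dis (q : Y → ℝ) (Φ : (E → Y) → V → ℝ) (i : Fin 2) : Set (E → Y) :=
  ({ω | bond (Φ ω) (0, i) = 1} ∩ {ω | ∃ σ, WG (cpl q ω) σ ∧ bond σ (0, i) = -1}) ∪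
    ({ω | bond (Φ ω) (0, i) = 1}ᶜ ∩ {ω | ∃ σ, WG (cpl q ω) σ ∧ bond σ (0, i) = 1})

lemma mem_Dis {Φ : (E → Y) → V → ℝ} {i : Fin 2} {ω : E → Y} (h : IsSpin (Φ ω)) :
    ω ∈ Dis q Φ i ↔ ∃ σ, WG (cpl q ω) σ ∧ bond σ (0, i) ≠ bond (Φ ω) (0, i) := by
  unfold Dis
  rcases bond_cases h (0, i) with hb | hb
  · constructor
    · rintro (⟨-, σ, h1, h2⟩ | ⟨h1, -⟩)
      · exact ⟨σ, h1, by rw [h2, hb]; norm_num⟩
      · exact absurd hb h1
    · rintro ⟨σ, h1, h2⟩
      left
      refine ⟨hb, σ, h1, ?_⟩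
      rw [hb] at h2
      exact (bond_cases h1.1 _).resolve_left h2
  · constructor
    · rintro (⟨h1, -⟩ | ⟨-, σ, h1, h2⟩)
      · rw [mem_ofPred_eq, hb] at h1; norm_num at h1
      · exact ⟨σ, h1, by rw [h2, hb]; norm_num⟩
    · rintro ⟨σ, h1, h2⟩
      right
      refine ⟨?_, σ, h1, ?_⟩
      · intro h3
        rw [mem_ofPred_eq, hb] at h3; norm_num at h3
      · rw [hb] at h2
        exact (bond_cases h1.1 _).resolve_right h2

lemma measurableSet_Dis (hq : Measurable q) {Φ : (E → Y) → V → ℝ} (hΦ : Measurable Φ)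
    (i : Fin 2) : MeasurableSet (Dis q Φ i) := by
  have h1 : MeasurableSet {ω | bond (Φ ω) (0, i) = 1} :=
    measurableSet_eq_fun (measurable_bond hΦ _) measurable_const
  exact (h1.inter (measurableSet_exists_WG hq _ _)).union
    (h1.compl.inter (measurableSet_exists_WG hq _ _))

/-- Finitely many ground states: only the covariant pair. -/
theorem fin_unique [MeasurableEq Y] (hν : ∀ x, ν (q ⁻¹' {x}) = 0) (hq : Measurable q)
    {Φ : (E → Y) → V → ℝ} (hΦ : Covariant ν q Φ) :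
    ∀ᵐ ω ∂(PJ ν), {σ | IsGroundState (cpl q ω) σ}.Finite →
      ∀ σ, IsGroundState (cpl q ω) σ → σ = Φ ω ∨ σ = -Φ ω := by
  classical
  set F : Set (E → Y) := {ω | {σ | WG (cpl q ω) σ}.Finite} with hF
  have key : ∀ i : Fin 2, ∀ᵐ ω ∂(PJ ν), ω ∈ F → ω ∉ Dis q Φ i := by
    intro i
    apply null_of_density (measurableSet_Dis hq hΦ.meas i)
    filter_upwards [density_zero hν hq hΦ, hΦ.bond_sh0, ae_shift (ν := ν) hΦ.spin, generic hν hq]
      with ω h1 h2 h3 h4 hfin
    have hfin' : {σ | WG (cpl q ω) σ}.Finite := hfin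
    set T : Finset (V → ℝ) := hfin'.toFinset with hT
    have hTm : ∀ σ, σ ∈ T ↔ WG (cpl q ω) σ := fun σ => by rw [hT, Set.Finite.mem_toFinset]; rfl
    rw [Metric.tendsto_atTop]
    intro ε hε
    obtain ⟨M0, hM0⟩ := h1 (ε / (T.card + 1)) (by positivity)
    refine ⟨M0, fun M hM => ?_⟩
    rw [Real.dist_eq, sub_zero, abs_of_nonneg (den_nonneg _ _ _)]
    have h5 : ∑ x ∈ box M, (Dis q Φ i).indicator (1 : (E → Y) → ℝ) (shJ x ω)
        ≤ ∑ x ∈ box M, ∑ σ ∈ T, (if bond σ (x, i) ≠ bond (Φ ω) (x, i) then (1 : ℝ) else 0) := by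
      apply Finset.sum_le_sum
      intro x _
      by_cases hx : shJ x ω ∈ Dis q Φ i
      · rw [indicator_of_mem hx]
        rw [mem_Dis (h3 x)] at hx
        obtain ⟨σ', h6, h7⟩ := hx
        rw [h2] at h7
        rw [cpl_shJ] at h6
        have h8 : WG (cpl q ω) (shS (-x) σ') := by
          have := h6.sh (-x)
          rwa [shJ_neg_cancel] at this
        have h9 : bond (shS (-x) σ') (x, i) = bond σ' (0, i) := by
          rw [← bond_shS_zero x (shS (-x) σ') i, shS_neg_cancel']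
        have h10 : (1 : ℝ) = (if bond (shS (-x) σ') (x, i) ≠ bond (Φ ω) (x, i)
            then (1 : ℝ) else 0) := by
          rw [if_pos]
          rw [h9]; exact h7
        show (1 : ℝ) ≤ _
        calc (1 : ℝ) = (if bond (shS (-x) σ') (x, i) ≠ bond (Φ ω) (x, i)
            then (1 : ℝ) else 0) := h10
          _ ≤ _ := Finset.single_le_sum
              (f := fun σ => if bond σ (x, i) ≠ bond (Φ ω) (x, i) then (1 : ℝ) else 0)
              (fun σ _ => by split_ifs <;> norm_num) ((hTm _).2 h8)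
      · rw [indicator_of_notMem hx]
        apply Finset.sum_nonneg
        intro σ _
        split_ifs <;> norm_num
    have h6 : ∑ x ∈ box M, ∑ σ ∈ T, (if bond σ (x, i) ≠ bond (Φ ω) (x, i) then (1 : ℝ) else 0)
        ≤ (T.card : ℝ) * (ε / (T.card + 1) * ((box M).card : ℝ)) := by
      rw [Finset.sum_comm]
      calc ∑ σ ∈ T, ∑ x ∈ box M, (if bond σ (x, i) ≠ bond (Φ ω) (x, i) then (1 : ℝ) else 0)
          ≤ ∑ σ ∈ T, ε / (T.card + 1) * ((box M).card : ℝ) := by
            apply Finset.sum_le_sum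
            intro σ hσ
            have hσ' := h4 σ ((hTm σ).1 hσ)
            refine le_trans (le_of_eq ?_) (hM0 M hM σ (hσ'.groundIn _) i)
            rw [Finset.card_filter]
            push_cast
            rfl
        _ = _ := by rw [Finset.sum_const, nsmul_eq_mul]
    have h7 : den (Dis q Φ i) M ω ≤ (T.card : ℝ) * (ε / (T.card + 1)) := by
      unfold den
      rw [div_le_iff₀ (box_pos M)]
      calc _ ≤ _ := h5.trans h6
        _ = _ := by ring
    refine lt_of_le_of_lt h7 ?_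
    have h8 : (T.card : ℝ) < T.card + 1 := by linarith
    have h9 : (0 : ℝ) < T.card + 1 := by positivity
    rw [← mul_div_assoc, div_lt_iff₀ h9]
    nlinarith
  filter_upwards [ae_shift (key 0), ae_shift (key 1), ae_shift (ν := ν) hΦ.spin, hΦ.spin,
    hΦ.bond_sh0, generic hν hq] with ω h0 h1 h2 h3 h4 h5 hfin σ hσ
  have hfin' : {σ | WG (cpl q ω) σ}.Finite := hfin.subset (fun σ h => h5 σ h)
  have hFsh : ∀ x : V, shJ x ω ∈ F := by
    intro x
    show {σ | WG (cpl q (shJ x ω)) σ}.Finite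
    rw [cpl_shJ, WG_image]
    exact hfin'.image _
  apply eq_or_neg h3 hσ.spin
  rintro ⟨x, i⟩
  have hk : shJ x ω ∉ Dis q Φ i := by
    fin_cases i
    · exact h0 x (hFsh x)
    · exact h1 x (hFsh x)
  rw [mem_Dis (h2 x)] at hk
  push Not at hk
  have h6 := hk (shS x σ) (hσ.wg.sh x)
  rw [bond_shS_zero, h4] at h6
  exact h6

/-- Existence of weak ground states. -/
lemma exists_WG (J : E → ℝ) : ∃ σ, WG J σ := by
  classical
  have h : ∀ n : ℕ, ∃ σ, IsSpin σ ∧ LG (box n) J σ := by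
    intro n
    obtain ⟨s, -, hs⟩ := exists_LG (box n) J
    exact ⟨pat s, pat_spin s, hs⟩
  by_cases h1 : ∀ n : ℕ, ∃ σ, IsSpin σ ∧ LG (box n) J σ ∧ bond σ (0, 0) = 1
  · obtain ⟨σ, hσ, -⟩ := (exists_WG_iff J (0, 0) 1).2 h1
    exact ⟨σ, hσ⟩
  · push Not at h1
    obtain ⟨n0, hn0⟩ := h1
    have h2 : ∀ n : ℕ, ∃ σ, IsSpin σ ∧ LG (box n) J σ ∧ bond σ (0, 0) = -1 := by
      intro n
      obtain ⟨σ, h3, h4⟩ := h (max n n0)
      have h5 := hn0 σ h3 (h4.mono (box_mono (le_max_right _ _)))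
      exact ⟨σ, h3, h4.mono (box_mono (le_max_left _ _)), (bond_cases h3 _).resolve_left h5⟩
    obtain ⟨σ, hσ, -⟩ := (exists_WG_iff J (0, 0) (-1)).2 h2
    exact ⟨σ, hσ⟩

/-- Uniqueness of the pair of weak ground states. -/
def UU (q : Y → ℝ) : Set (E → Y) :=
  ⋂ e : E, ({ω | ∃ σ, WG (cpl q ω) σ ∧ bond σ e = 1} ∩
    {ω | ∃ σ, WG (cpl q ω) σ ∧ bond σ e = -1})ᶜ

lemma mem_UU {ω : E → Y} : ω ∈ UU q ↔
    ∀ σ τ, WG (cpl q ω) σ → WG (cpl q ω) τ → τ = σ ∨ τ = -σ := by
  unfold UU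
  rw [mem_iInter]
  constructor
  · intro h σ τ hσ hτ
    apply eq_or_neg hσ.1 hτ.1
    intro e
    have h1 := h e
    by_contra hne
    apply h1
    rcases bond_cases hσ.1 e with a | a <;> rcases bond_cases hτ.1 e with b | b
    · exact absurd (b.trans a.symm) hne
    · exact ⟨⟨σ, hσ, a⟩, ⟨τ, hτ, b⟩⟩
    · exact ⟨⟨τ, hτ, b⟩, ⟨σ, hσ, a⟩⟩
    · exact absurd (b.trans a.symm) hne
  · intro h e he
    obtain ⟨⟨σ, h1, h2⟩, ⟨τ, h3, h4⟩⟩ := he
    rcases h σ τ h1 h3 with h5 | h5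
    · rw [h5, h2] at h4; norm_num at h4
    · rw [h5, bond_neg, h2] at h4; norm_num at h4

lemma measurableSet_UU (hq : Measurable q) : MeasurableSet (UU q) :=
  MeasurableSet.iInter (fun e => ((measurableSet_exists_WG hq e 1).inter
    (measurableSet_exists_WG hq e (-1))).compl)

lemma UU_shift (v : V) (ω : E → Y) : shJ v ω ∈ UU q ↔ ω ∈ UU q := by
  have h1 : ∀ (v : V) (ω : E → Y), ω ∈ UU q → shJ v ω ∈ UU q := by
    intro v ω h
    rw [mem_UU] at h ⊢
    intro σ τ hσ hτ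
    rw [cpl_shJ] at hσ hτ
    have h2 := hσ.sh (-v)
    have h3 := hτ.sh (-v)
    rw [shJ_neg_cancel] at h2 h3
    rcases h _ _ h2 h3 with h4 | h4
    · left
      have := congrArg (shS v) h4
      rwa [shS_neg_cancel', shS_neg_cancel'] at this
    · right
      have := congrArg (shS v) h4
      rw [shS_neg_cancel'] at this
      rw [this]
      funext x
      unfold shS
      simp
  constructor
  · intro h
    have := h1 (-v) _ h
    rwa [shJ_neg_cancel] at this
  · exact h1 v ω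

lemma UU_zero_one (hq : Measurable q) : PJ ν (UU q) = 0 ∨ PJ ν (UU q) = 1 := by
  classical
  apply Pool.Agent.Helper42.EA.zero_one ν (measurableSet_UU hq)
  intro F
  obtain ⟨n, hn⟩ := exists_box (F.image Prod.fst)
  set v : V := fun _ => 2 * (n : ℤ) + 1 with hv
  refine ⟨⟨shE v, shE (-v), fun e => ?_, fun e => ?_⟩, ?_, ?_⟩
  · rw [shE_add, add_neg_cancel, shE_zero]
  · rw [shE_add, neg_add_cancel, shE_zero]
  · intro e he he'
    have h1 := mem_box.1 (hn (Finset.mem_image_of_mem Prod.fst he)) 0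
    have h2 := mem_box.1 (hn (Finset.mem_image_of_mem Prod.fst he')) 0
    have h3 : (shE v e).1 0 = e.1 0 + (2 * (n : ℤ) + 1) := rfl
    have h4 : ((⟨shE v, shE (-v), fun e => by rw [shE_add, add_neg_cancel, shE_zero],
      fun e => by rw [shE_add, neg_add_cancel, shE_zero]⟩ : Equiv.Perm E) e).1 0
        = e.1 0 + (2 * (n : ℤ) + 1) := rfl
    rw [h4] at h2
    omega
  · intro J
    exact UU_shift v J

/-- One pair or infinitely many ground states. -/
theorem two_or_infinite [MeasurableEq Y] (hν : ∀ x, ν (q ⁻¹' {x}) = 0) (hq : Measurable q)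
    {Φ : (E → Y) → V → ℝ} (hΦ : Covariant ν q Φ) :
    (∀ᵐ ω ∂(PJ ν), ∀ σ, IsGroundState (cpl q ω) σ → σ = Φ ω ∨ σ = -Φ ω) ∨
      (∀ᵐ ω ∂(PJ ν), {σ | IsGroundState (cpl q ω) σ}.Infinite) := by
  rcases UU_zero_one (ν := ν) hq with h | h
  · right
    have h1 : ∀ᵐ ω ∂(PJ ν), ω ∉ UU q := measure_eq_zero_iff_ae_notMem.1 h
    filter_upwards [h1, fin_unique hν hq hΦ, generic hν hq, hΦ.ground'] with ω h2 h3 h4 h5
    intro hfin
    apply h2
    rw [mem_UU]
    intro σ τ hσ hτ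
    rcases h3 hfin σ (h4 σ hσ) with a | a <;> rcases h3 hfin τ (h4 τ hτ) with b | b
    · left; rw [a, b]
    · right; rw [a, b]
    · right; rw [a, b, neg_neg]
    · left; rw [a, b]
  · left
    have h1 : ∀ᵐ ω ∂(PJ ν), ω ∈ UU q := (prob_compl_eq_zero_iff (measurableSet_UU hq)).2 h
    filter_upwards [h1, hΦ.ground'] with ω h2 h3 σ hσ
    exact mem_UU.1 h2 _ _ h3.wg hσ.wg

end Pool.H66.EAM
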