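import Pool.Agent.Helper66.EAM.Pat

set_option autoImplicit false

/-! Shifts, boxes and the law of large numbers for local functions. -/

namespace Pool.H66.EAM

open MeasureTheory Set ProbabilityTheory Filter Topology
open scoped ENNReal

/-- The law of the couplings. -/
noncomputable abbrev PJ {Y : Type*} [MeasurableSpace Y] (μ : Measure Y)
    [IsProbabilityMeasure μ] : Measure (E → Y) :=
  Measure.infinitePi (fun _ : E => μ)

/-- The couplings attached to a field of marks. -/
def cpl {Y : Type*} (q : Y → ℝ) (ω : E → Y) : E → ℝ := fun e => q (ω e)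

lemma measurable_cpl {Y : Type*} [MeasurableSpace Y] {q : Y → ℝ} (hq : Measurable q) :
    Measurable (cpl q) :=
  measurable_pi_lambda _ (fun _ => hq.comp (measurable_pi_apply _))

/-- Shifted edge. -/
def shE (v : V) (e : E) : E := (e.1 + v, e.2)

lemma shE_injective (v : V) : Function.Injective (shE v) := by
  intro e e' h
  have h1 := congrArg Prod.fst h
  have h2 := congrArg Prod.snd h
  simp only [shE] at h1 h2
  exact Prod.ext (add_right_cancel h1) h2

lemma shE_add (v w : V) (e : E) : shE v (shE w e) = shE (w + v) e := by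
  unfold shE; simp [add_assoc]

lemma shE_zero (e : E) : shE 0 e = e := by unfold shE; simp

lemma tip_shE (v : V) (e : E) : tip (shE v e) = tip e + v := by
  unfold tip shE; simp only; abel

lemma shJ_shJ {Y : Type*} (v w : V) (J : E → Y) : shJ v (shJ w J) = shJ (v + w) J := by
  funext e; unfold shJ; simp only [add_assoc]

lemma shJ_apply {Y : Type*} (v : V) (J : E → Y) (e : E) : shJ v J e = J (shE v e) := rfl

lemma shS_shS (v w : V) (σ : V → ℝ) : shS v (shS w σ) = shS (v + w) σ := by
  funext e; unfold shS; rw [add_assoc]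

lemma bond_shS (v : V) (σ : V → ℝ) (e : E) : bond (shS v σ) e = bond σ (shE v e) := by
  have h1 : bond (shS v σ) e = σ (e.1 + v) * σ (tip e + v) := rfl
  have h2 : bond σ (shE v e) = σ (e.1 + v) * σ (tip (shE v e)) := rfl
  rw [h1, h2, tip_shE]

lemma av_shS (v : V) (σ : V → ℝ) (e : E) : av (shS v σ) e = av σ (shE v e) := by
  unfold av; rw [bond_shS]

lemma shS_spin {v : V} {σ : V → ℝ} (h : IsSpin σ) : IsSpin (shS v σ) := fun _ => h _

lemma measurable_shJ {Y : Type*} [MeasurableSpace Y] (v : V) :
    Measurable (shJ (Y := Y) v) :=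
  measurable_pi_lambda _ (fun _ => measurable_pi_apply _)

lemma mp_shJ {Y : Type*} [MeasurableSpace Y] (μ : Measure Y) [IsProbabilityMeasure μ] (v : V) :
    MeasurePreserving (shJ v) (PJ μ) (PJ μ) := by
  refine ⟨measurable_shJ v, ?_⟩
  exact Measure.map_infinitePi_infinitePi_of_inj (P := fun _ : E => μ) (f := shE v)
    (shE_injective v)

lemma LG_sh {B B' : Finset V} {v : V} {J : E → ℝ} {σ : V → ℝ} (h : ∀ x ∈ B, x + v ∈ B')
    (hσ : LG B' J σ) : LG B (shJ v J) (shS v σ) := by
  classical
  intro D hD
  have h1 := hσ (D.image (fun x => x + v)) (by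
    intro x hx
    rw [Finset.mem_image] at hx
    obtain ⟨y, hy, rfl⟩ := hx
    exact h y (hD hy))
  have hcut : cut (D.image (fun x => x + v)) = (cut D).image (shE v) := by
    ext e
    have hmem : ∀ x : V, x ∈ D.image (fun x => x + v) ↔ x - v ∈ D := by
      intro x
      rw [Finset.mem_image]
      constructor
      · rintro ⟨y, hy, rfl⟩; simpa using hy
      · intro hx; exact ⟨_, hx, by simp⟩
    rw [mem_cut, hmem, hmem, Finset.mem_image]
    constructor
    · intro he
      refine ⟨shE (-v) e, ?_, ?_⟩
      · rw [mem_cut, tip_shE]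
        simpa [shE, sub_eq_add_neg] using he
      · rw [shE_add, neg_add_cancel, shE_zero]
    · rintro ⟨e', he', rfl⟩
      rw [mem_cut] at he'
      rw [tip_shE]
      simpa [shE] using he'
  rw [hcut, Finset.sum_image (fun a _ b _ hab => shE_injective v hab)] at h1
  have h2 : ∑ e ∈ cut D, shJ v J e * bond (shS v σ) e
      = ∑ e ∈ cut D, J (shE v e) * bond σ (shE v e) := by
    apply Finset.sum_congr rfl
    intro e _
    rw [bond_shS]; rfl
  rw [h2]
  exact h1

lemma mem_box {N : ℕ} {x : V} : x ∈ box N ↔ ∀ i, -(N : ℤ) ≤ x i ∧ x i ≤ N := by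
  unfold box
  rw [Fintype.mem_piFinset]
  simp only [Finset.mem_Icc]

lemma card_box (N : ℕ) : (box N).card = (2 * N + 1) ^ 2 := by
  unfold box
  rw [Fintype.card_piFinset]
  simp only [Int.card_Icc, Finset.prod_const, Finset.card_univ, Fintype.card_fin]
  congr 1
  omega

lemma box_mono {M N : ℕ} (h : M ≤ N) : box M ⊆ box N := by
  intro x hx
  rw [mem_box] at hx ⊢
  intro i
  have := hx i
  constructor <;> [linarith [this.1, (Int.ofNat_le.2 h)]; linarith [this.2, (Int.ofNat_le.2 h)]]

/-- A function of the couplings in `S` only. -/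
def Loc {Y β : Type*} (S : Finset E) (φ : (E → Y) → β) : Prop :=
  ∀ J J' : E → Y, (∀ e ∈ S, J e = J' e) → φ J = φ J'

lemma indep_integral {Y : Type*} [MeasurableSpace Y] (μ : Measure Y) [IsProbabilityMeasure μ] {S T : Finset E}
    (hd : Disjoint S T) {f g : (E → Y) → ℝ} (hf : Measurable f) (hg : Measurable g)
    (hfS : Loc S f) (hgT : Loc T g) :
    ∫ J, f J * g J ∂(PJ μ) = (∫ J, f J ∂(PJ μ)) * ∫ J, g J ∂(PJ μ) := by
  classical
  obtain ⟨y0⟩ : Nonempty Y := nonempty_of_isProbabilityMeasure μ
  have h1 : iIndepFun (fun (i : E) (ω : E → Y) => ω i) (PJ μ) :=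
    iIndepFun_infinitePi (P := fun _ : E => μ) (X := fun _ x => x) (fun _ => measurable_id)
  have h2 := h1.indepFun_finset S T hd (fun i => measurable_pi_apply i)
  let ext : (U : Finset E) → (U → Y) → (E → Y) :=
    fun U x e => if h : e ∈ U then x ⟨e, h⟩ else y0
  have hext : ∀ U, Measurable (ext U) := by
    intro U
    apply measurable_pi_lambda
    intro e
    by_cases h : e ∈ U
    · simp only [ext, h, dite_true]; exact measurable_pi_apply _
    · simp only [ext, h, dite_false]; exact measurable_const
  have hfe : ∀ J, f J = f (ext S (fun i => J i)) := by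
    intro J
    apply hfS
    intro e he
    simp only [ext, he, dite_true]
  have hge : ∀ J, g J = g (ext T (fun i => J i)) := by
    intro J
    apply hgT
    intro e he
    simp only [ext, he, dite_true]
  have h3 := h2.comp (hf.comp (hext S)) (hg.comp (hext T))
  have h4 := h3.integral_fun_mul_eq_mul_integral
    (((hf.comp (hext S)).comp (measurable_pi_lambda _
      (fun i => measurable_pi_apply _))).aestronglyMeasurable)
    (((hg.comp (hext T)).comp (measurable_pi_lambda _
      (fun i => measurable_pi_apply _))).aestronglyMeasurable)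
  simp only [Function.comp_def] at h4
  simp_rw [← hfe, ← hge] at h4
  exact h4

end Pool.H66.EAM
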