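import Pool.Agent.Helper66.EAM.Sets

set_option autoImplicit false

/-! From the sublattice to the full lattice. -/

namespace Pool.H66.EAM

open MeasureTheory Set ProbabilityTheory Filter Topology
open scoped ENNReal

lemma sum_near {K A L : Finset V} (h1 : K ⊆ A) (h2 : A ⊆ L) {f : V → ℝ} {C : ℝ} (hC : 0 ≤ C)
    (hf : ∀ x, |f x| ≤ C) :
    |∑ x ∈ A, f x - ∑ x ∈ K, f x| ≤ C * ((L.card : ℝ) - K.card) := by
  classical
  rw [← Finset.sum_sdiff h1, add_sub_cancel_right]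
  calc |∑ x ∈ A \ K, f x| ≤ ∑ x ∈ A \ K, |f x| := Finset.abs_sum_le_sum_abs _ _
    _ ≤ ∑ x ∈ A \ K, C := Finset.sum_le_sum (fun x _ => hf x)
    _ = C * ((A.card : ℝ) - K.card) := by
        rw [Finset.sum_const, nsmul_eq_mul, Finset.card_sdiff_of_subset h1,
          Nat.cast_sub (Finset.card_le_card h1)]
        ring
    _ ≤ C * ((L.card : ℝ) - K.card) := by
        have : (A.card : ℝ) ≤ L.card := by exact_mod_cast Finset.card_le_card h2
        gcongr

/-- Residues modulo `n`. -/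
noncomputable def resid (n : ℕ) : Finset V := Fintype.piFinset (fun _ => Finset.Ico (0 : ℤ) n)

lemma mem_resid {n : ℕ} {r : V} : r ∈ resid n ↔ ∀ j, 0 ≤ r j ∧ r j < n := by
  unfold resid
  rw [Fintype.mem_piFinset]
  simp only [Finset.mem_Ico]

/-- The block decomposition of the lattice. -/
noncomputable def blk (n N : ℕ) : Finset V :=
  (resid n ×ˢ box N).image (fun p => p.1 + (n : ℤ) • p.2)

lemma blk_inj {n : ℕ} (hn : 0 < n) (N : ℕ) :
    Set.InjOn (fun p : V × V => p.1 + (n : ℤ) • p.2) (resid n ×ˢ box N : Finset (V × V)) := by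
  rintro ⟨r, z⟩ h1 ⟨r', z'⟩ h2 h
  rw [Finset.mem_coe, Finset.mem_product, mem_resid] at h1 h2
  have hn' : (0 : ℤ) < n := by exact_mod_cast hn
  have key : ∀ j, r j = r' j ∧ z j = z' j := by
    intro j
    have hj := congrFun h j
    simp only [Pi.add_apply, Pi.smul_apply, smul_eq_mul] at hj
    have a := h1.1 j
    have b := h2.1 j
    simp only at a b
    have e1 : (r j + n * z j) % n = r j := by
      rw [Int.add_mul_emod_self_left]; exact Int.emod_eq_of_lt a.1 a.2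
    have e2 : (r' j + n * z' j) % n = r' j := by
      rw [Int.add_mul_emod_self_left]; exact Int.emod_eq_of_lt b.1 b.2
    have e3 : r j = r' j := by rw [← e1, ← e2, hj]
    refine ⟨e3, ?_⟩
    rw [e3] at hj
    have := add_left_cancel hj
    exact mul_left_cancel₀ hn'.ne' this
  exact Prod.ext (funext fun j => (key j).1) (funext fun j => (key j).2)

lemma box_subset_blk {n : ℕ} (hn : 0 < n) (N : ℕ) : box (n * N) ⊆ blk n N := by
  intro x hx
  rw [mem_box] at hx
  unfold blk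
  rw [Finset.mem_image]
  have hn' : (0 : ℤ) < n := by exact_mod_cast hn
  refine ⟨(fun j => x j % n, fun j => x j / n), ?_, ?_⟩
  · rw [Finset.mem_product, mem_resid, mem_box]
    refine ⟨fun j => ⟨Int.emod_nonneg _ hn'.ne', Int.emod_lt_of_pos _ hn'⟩, fun j => ?_⟩
    have := hx j
    push_cast at this
    constructor
    · rw [Int.le_ediv_iff_mul_le hn']
      linarith [this.1]
    · have h1 : x j / n < (N : ℤ) + 1 := by
        rw [Int.ediv_lt_iff_lt_mul hn']
        nlinarith [this.2]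
      linarith
  · funext j
    simp only [Pi.add_apply, Pi.smul_apply, smul_eq_mul]
    exact Int.emod_add_mul_ediv (x j) n

lemma blk_subset_box {n : ℕ} (N : ℕ) : blk n N ⊆ box (n * N + n) := by
  intro x hx
  unfold blk at hx
  rw [Finset.mem_image] at hx
  obtain ⟨⟨r, z⟩, hp, rfl⟩ := hx
  rw [Finset.mem_product, mem_resid, mem_box] at hp
  rw [mem_box]
  intro j
  have a := hp.1 j
  have b := hp.2 j
  simp only at a b
  have hn' : (0 : ℤ) ≤ n := Int.natCast_nonneg n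
  simp only [Pi.add_apply, Pi.smul_apply, smul_eq_mul]
  push_cast
  constructor <;> nlinarith [mul_le_mul_of_nonneg_left b.1 hn', mul_le_mul_of_nonneg_left b.2 hn']

lemma exists_period (S : Finset E) (i : Fin 2) :
    ∃ n : ℕ, 2 ≤ n ∧ ∀ e ∈ S, e ≠ ((0 : V), i) → ∀ z, e ≠ sub n i z := by
  classical
  refine ⟨2 + ∑ e ∈ S, ∑ j, (e.1 j).natAbs, by omega, ?_⟩
  intro e he hne z hz
  apply hne
  set n : ℕ := 2 + ∑ e ∈ S, ∑ j, (e.1 j).natAbs with hn
  have h1 : ∀ j, (e.1 j).natAbs < n := by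
    intro j
    have a1 : (e.1 j).natAbs ≤ ∑ j, (e.1 j).natAbs :=
      Finset.single_le_sum (f := fun j => (e.1 j).natAbs) (fun _ _ => Nat.zero_le _)
        (Finset.mem_univ j)
    have a2 : ∑ j, (e.1 j).natAbs ≤ ∑ e ∈ S, ∑ j, (e.1 j).natAbs :=
      Finset.single_le_sum (f := fun e : E => ∑ j, (e.1 j).natAbs) (fun _ _ => Nat.zero_le _) he
    omega
  have h2 : e.1 = 0 := by
    funext j
    have h3 : e.1 j = n * z j := by
      rw [hz]; rfl
    have h4 := h1 j
    rw [h3, Int.natAbs_mul, Int.natAbs_natCast] at h4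
    have h5 : (z j).natAbs = 0 := by
      by_contra hcon
      have : 1 ≤ (z j).natAbs := Nat.one_le_iff_ne_zero.2 hcon
      nlinarith
    rw [h3, Int.natAbs_eq_zero.1 h5, mul_zero]
    rfl
  have h6 : e.2 = i := by rw [hz]; rfl
  exact Prod.ext h2 h6

/-- The required families of regions exist for `μ`. -/
def HasReg {Y : Type*} [MeasurableSpace Y] (μ : Measure Y) [IsProbabilityMeasure μ]
    (q : Y → ℝ) : Prop :=
  ∀ n : ℕ, 2 ≤ n → ∃ ρ : ℕ → ℕ, (∀ L N, L ≤ N → ρ L + n * (N - L) ≤ ρ N) ∧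
    (∀ N, ρ N ≤ n * N + N + 1) ∧ ∀ K, Nonempty (Reg μ q n ρ K)

theorem final_loc {Y : Type*} [MeasurableSpace Y] [MeasurableEq Y] {μ : Measure Y}
    [IsProbabilityMeasure μ] {q : Y → ℝ} (hμ : ∀ x, μ (q ⁻¹' {x}) = 0) (hq : Measurable q)
    (hreg : HasReg μ q) (i : Fin 2) {S : Finset E} {g : (E → Y) → ℝ} (hg : Measurable g) {C : ℝ}
    (hb : ∀ J, |g J| ≤ C) (hl : Loc S g) :
    ∃ c : ℝ, ∀ᵐ J ∂(PJ μ), ∀ ε > 0, ∃ M0 : ℕ, ∀ M ≥ M0, ∀ σ : V → ℝ, IsSpin σ →
      LG (box (2 * M)) (cpl q J) σ →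
      |(∑ x ∈ box M, g (shJ x J) * bond σ (x, i)) / ((box M).card : ℝ) - c| ≤ ε := by
  classical
  obtain ⟨n, hn2, hn⟩ := exists_period (insert ((0 : V), i) S) i
  have hn0 : 0 < n := by omega
  have hl' : Loc (insert ((0 : V), i) S) g :=
    fun J J' h => hl J J' (fun e he => h e (Finset.mem_insert_of_mem he))
  obtain ⟨ρ, hρ1, hρ2, hρ3⟩ := hreg n hn2
  obtain ⟨c0, hc0, hc0'⟩ := uni_local (i := i) hμ hq hρ3 hn0 hρ1 (Finset.mem_insert_self _ _) hn hg hb hl'
  set m := ∫ J, g J ∂(PJ μ) with hm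
  refine ⟨2 * c0 - m, ?_⟩
  have hC : 0 ≤ C := by
    obtain ⟨ω0⟩ : Nonempty (E → Y) := nonempty_of_isProbabilityMeasure (PJ μ)
    exact (abs_nonneg _).trans (hb ω0)
  set c := 2 * c0 - m with hc
  have hlln := lln μ n hn0 S g hg C hb hl
  have hshift : ∀ᵐ J ∂(PJ μ), ∀ r : V,
      (∀ ε > 0, ∃ N0 : ℕ, ∀ N ≥ N0, ∀ σ, IsSpin σ → LG (box (ρ N)) (cpl q (shJ r J)) σ →
        St n i g N (shJ r J) σ ≤ (c0 + ε) * ((box N).card : ℝ)) ∧
      (∀ ε > 0, ∃ N0 : ℕ, ∀ N ≥ N0, ∀ σ, IsSpin σ → LG (box (ρ N)) (cpl q (shJ r J)) σ →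
        St n i (fun J => - g J) N (shJ r J) σ ≤ (-c0 + ε) * ((box N).card : ℝ)) ∧
      Tendsto (fun N : ℕ => (∑ z ∈ box N, g (shJ ((n : ℤ) • z) (shJ r J))) /
        ((box N).card : ℝ)) atTop (𝓝 m) := by
    rw [ae_all_iff]
    intro r
    exact (mp_shJ μ r).quasiMeasurePreserving.ae (hc0.and (hc0'.and hlln))
  filter_upwards [hshift] with J hJ
  intro ε hε
  -- small parameter
  set ε' : ℝ := ε / 12 with hε'
  have hε'0 : 0 < ε' := by positivity
  -- uniform threshold over the residues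
  have hthr : ∀ r : V, ∃ N0 : ℕ, ∀ N ≥ N0, ∀ σ, IsSpin σ → LG (box (ρ N)) (cpl q (shJ r J)) σ →
      |∑ z ∈ box N, g (shJ ((n : ℤ) • z) (shJ r J)) * bond σ (sub n i z)
        - c * ((box N).card : ℝ)| ≤ 3 * ε' * ((box N).card : ℝ) := by
    intro r
    obtain ⟨h1, h2, h3⟩ := hJ r
    obtain ⟨N1, hN1⟩ := h1 ε' hε'0
    obtain ⟨N2, hN2⟩ := h2 ε' hε'0
    rw [Metric.tendsto_atTop] at h3
    obtain ⟨N3, hN3⟩ := h3 ε' hε'0
    refine ⟨max N1 (max N2 N3), fun N hN σ hσ hLG => ?_⟩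
    have a1 := hN1 N ((le_max_left _ _).trans hN) σ hσ hLG
    have a2 := hN2 N ((le_max_left _ _).trans ((le_max_right _ _).trans hN)) σ hσ hLG
    have a3 := hN3 N ((le_max_right _ _).trans ((le_max_right _ _).trans hN))
    rw [St_neg] at a2
    have hcN := box_pos N
    rw [Real.dist_eq, abs_lt, sub_lt_iff_lt_add', div_lt_iff₀ hcN, lt_sub_iff_add_lt,
      lt_div_iff₀ hcN] at a3
    have e1 : ∑ z ∈ box N, g (shJ ((n : ℤ) • z) (shJ r J)) * bond σ (sub n i z)
        = 2 * St n i g N (shJ r J) σ - ∑ z ∈ box N, g (shJ ((n : ℤ) • z) (shJ r J)) := by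
      unfold St cnt av
      rw [Finset.mul_sum, ← Finset.sum_sub_distrib]
      apply Finset.sum_congr rfl
      intro z _
      ring
    rw [e1, abs_le, hc]
    constructor <;> nlinarith [a3.1, a3.2]
  choose N0 hN0 using hthr
  set Nmax : ℕ := (resid n).sup N0 with hNmax
  -- threshold for M
  obtain ⟨M1, hM1⟩ := exists_nat_gt ((3 * C + 3 * |c| + 3 * ε' + 1) * (8 * (n : ℝ) ^ 2) / ε')
  refine ⟨max (n * Nmax) (max (2 * n) M1), fun M hM σ hσ hLG => ?_⟩
  have hMa : n * Nmax ≤ M := (le_max_left _ _).trans hM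
  have hMb : 2 * n ≤ M := (le_max_left _ _).trans ((le_max_right _ _).trans hM)
  have hMc : M1 ≤ M := (le_max_right _ _).trans ((le_max_right _ _).trans hM)
  set N : ℕ := M / n with hNdef
  have hNn : n * N ≤ M := Nat.mul_div_le M n
  have hNn' : M < n * N + n := by
    have := Nat.lt_mul_div_succ M hn0
    rw [Nat.mul_succ] at this
    exact this
  have hNmaxN : Nmax ≤ N := (Nat.le_div_iff_mul_le hn0).2 (by rw [mul_comm]; exact hMa)
  have hNhalf : 2 * N ≤ M := by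
    calc 2 * N ≤ n * N := Nat.mul_le_mul_right _ hn2
      _ ≤ M := hNn
  set f : V → ℝ := fun x => g (shJ x J) * bond σ (x, i) with hf
  have hfb : ∀ x, |f x| ≤ C := by
    intro x
    simp only [hf]
    rw [abs_mul, abs_bond hσ, mul_one]
    exact hb _
  -- block sums
  have hblk : ∀ r ∈ resid n, |∑ z ∈ box N, f (r + (n : ℤ) • z) - c * ((box N).card : ℝ)|
      ≤ 3 * ε' * ((box N).card : ℝ) := by
    intro r hr
    have hr' := mem_resid.1 hr
    have h1 : N0 r ≤ N := (Finset.le_sup hr).trans hNmaxN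
    have h2 : LG (box (ρ N)) (cpl q (shJ r J)) (shS r σ) := by
      show LG (box (ρ N)) (shJ r (cpl q J)) (shS r σ)
      apply LG_sh _ hLG
      intro x hx
      rw [mem_box] at hx ⊢
      intro j
      have b1 := hx j
      have b2 := hr' j
      have b3 : (ρ N : ℤ) + n ≤ 2 * M + 1 := by
        have := hρ2 N
        have : ρ N + n ≤ 2 * M + 1 := by omega
        exact_mod_cast this
      have b4 : r j + 1 ≤ n := b2.2
      simp only [Pi.add_apply]
      push_cast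
      constructor <;> linarith [b1.1, b1.2, b2.1, b4]
    have h3 := hN0 r N h1 (shS r σ) (shS_spin hσ) h2
    have h4 : ∑ z ∈ box N, g (shJ ((n : ℤ) • z) (shJ r J)) * bond (shS r σ) (sub n i z)
        = ∑ z ∈ box N, f (r + (n : ℤ) • z) := by
      apply Finset.sum_congr rfl
      intro z _
      simp only [hf]
      rw [shJ_shJ, bond_shS, add_comm r]
      rfl
    rw [h4] at h3
    exact h3
  have hU : |∑ x ∈ blk n N, f x - c * ((blk n N).card : ℝ)| ≤ 3 * ε' * ((blk n N).card : ℝ) := by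
    have e1 : ∑ x ∈ blk n N, f x = ∑ r ∈ resid n, ∑ z ∈ box N, f (r + (n : ℤ) • z) := by
      unfold blk
      rw [Finset.sum_image (blk_inj hn0 N), Finset.sum_product]
    have e2 : ((blk n N).card : ℝ) = ∑ r ∈ resid n, ((box N).card : ℝ) := by
      unfold blk
      rw [Finset.card_image_of_injOn (blk_inj hn0 N), Finset.card_product, Finset.sum_const,
        nsmul_eq_mul]
      push_cast; ring
    rw [e1, e2, Finset.mul_sum, Finset.mul_sum, ← Finset.sum_sub_distrib]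
    exact (Finset.abs_sum_le_sum_abs _ _).trans (Finset.sum_le_sum hblk)
  set D : ℝ := ((box (n * N + n)).card : ℝ) - (box (n * N)).card with hD
  have hMbox1 : box (n * N) ⊆ box M := box_mono hNn
  have hMbox2 : box M ⊆ box (n * N + n) := box_mono hNn'.le
  have n1 := sum_near hMbox1 hMbox2 hC hfb
  have n2 := sum_near (box_subset_blk hn0 N) (blk_subset_box N) hC hfb
  have c1 : (((box (n * N)).card : ℕ) : ℝ) ≤ (box M).card := by
    exact_mod_cast Finset.card_le_card hMbox1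
  have c2 : (((box M).card : ℕ) : ℝ) ≤ (box (n * N + n)).card := by
    exact_mod_cast Finset.card_le_card hMbox2
  have c3 : (((box (n * N)).card : ℕ) : ℝ) ≤ (blk n N).card := by
    exact_mod_cast Finset.card_le_card (box_subset_blk hn0 N)
  have c4 : (((blk n N).card : ℕ) : ℝ) ≤ (box (n * N + n)).card := by
    exact_mod_cast Finset.card_le_card (blk_subset_box N)
  have hcM := box_pos M
  have hD0 : 0 ≤ D := by rw [hD]; linarith
  have hDle : D * ((M : ℝ) + 1) ≤ 8 * (n : ℝ) ^ 2 * ((box M).card : ℝ) := by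
    rw [hD, box_cast, box_cast, box_cast]
    push_cast
    have q1 : (n : ℝ) * N ≤ M := by exact_mod_cast hNn
    have q2 : (2 : ℝ) ≤ n := by exact_mod_cast hn2
    have q3 : (0 : ℝ) ≤ M := Nat.cast_nonneg M
    have q4 : (0 : ℝ) ≤ (n : ℝ) * N := by positivity
    have q5 : (2 * ((n : ℝ) * N + n) + 1) ^ 2 - (2 * ((n : ℝ) * N) + 1) ^ 2
        = 2 * n * (4 * (n * N) + 2 * n + 2) := by ring
    rw [q5]
    have q6 : 2 * (n : ℝ) * (4 * (n * N) + 2 * n + 2) ≤ 8 * n ^ 2 * ((M : ℝ) + 1) := by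
      have q7 : 4 * ((n : ℝ) * N) + 2 * n + 2 ≤ 4 * n * ((M : ℝ) + 1) := by nlinarith
      calc 2 * (n : ℝ) * (4 * (n * N) + 2 * n + 2) ≤ 2 * n * (4 * n * ((M : ℝ) + 1)) := by gcongr
        _ = 8 * n ^ 2 * ((M : ℝ) + 1) := by ring
    calc 2 * (n : ℝ) * (4 * (n * N) + 2 * n + 2) * ((M : ℝ) + 1)
        ≤ 8 * n ^ 2 * ((M : ℝ) + 1) * ((M : ℝ) + 1) := by gcongr
      _ ≤ 8 * (n : ℝ) ^ 2 * (2 * (M : ℝ) + 1) ^ 2 := by
        have : ((M : ℝ) + 1) * ((M : ℝ) + 1) ≤ (2 * (M : ℝ) + 1) ^ 2 := by nlinarith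
        calc 8 * (n : ℝ) ^ 2 * ((M : ℝ) + 1) * ((M : ℝ) + 1)
            = 8 * n ^ 2 * (((M : ℝ) + 1) * ((M : ℝ) + 1)) := by ring
          _ ≤ _ := by gcongr
  -- conclusion
  have hmain : |∑ x ∈ box M, f x - c * ((box M).card : ℝ)|
      ≤ (3 * C + 3 * |c| + 3 * ε') * D + 3 * ε' * ((box M).card : ℝ) := by
    have t1 : |∑ x ∈ box M, f x - ∑ x ∈ blk n N, f x| ≤ 2 * C * D := by
      have : ∑ x ∈ box M, f x - ∑ x ∈ blk n N, f x
          = (∑ x ∈ box M, f x - ∑ x ∈ box (n * N), f x)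
            - (∑ x ∈ blk n N, f x - ∑ x ∈ box (n * N), f x) := by ring
      rw [this]
      refine (abs_sub _ _).trans ?_
      linarith
    have t2 : |c * ((blk n N).card : ℝ) - c * ((box M).card : ℝ)| ≤ |c| * D := by
      rw [← mul_sub, abs_mul]
      apply mul_le_mul_of_nonneg_left _ (abs_nonneg _)
      rw [abs_le, hD]
      constructor <;> linarith
    have t3 : ((blk n N).card : ℝ) ≤ ((box M).card : ℝ) + D := by rw [hD]; linarith
    have t4 : ∑ x ∈ box M, f x - c * ((box M).card : ℝ)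
        = (∑ x ∈ box M, f x - ∑ x ∈ blk n N, f x)
          + (∑ x ∈ blk n N, f x - c * ((blk n N).card : ℝ))
          + (c * ((blk n N).card : ℝ) - c * ((box M).card : ℝ)) := by ring
    rw [t4]
    refine (abs_add_three _ _ _).trans ?_
    have t5 : 3 * ε' * ((blk n N).card : ℝ) ≤ 3 * ε' * (((box M).card : ℝ) + D) := by gcongr
    have t6 : 0 ≤ |c| * D := by positivity
    have t7 : 0 ≤ C * D := by positivity
    linarith
  have hDsmall : (3 * C + 3 * |c| + 3 * ε') * D ≤ ε' * ((box M).card : ℝ) := by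
    have hM1' : (3 * C + 3 * |c| + 3 * ε' + 1) * (8 * (n : ℝ) ^ 2) ≤ ε' * ((M : ℝ) + 1) := by
      rw [div_lt_iff₀ hε'0] at hM1
      have : (M1 : ℝ) ≤ M := by exact_mod_cast hMc
      nlinarith
    have hM0 : (0 : ℝ) < (M : ℝ) + 1 := by positivity
    have : ((3 * C + 3 * |c| + 3 * ε') * D) * ((M : ℝ) + 1)
        ≤ (ε' * ((box M).card : ℝ)) * ((M : ℝ) + 1) := by
      calc ((3 * C + 3 * |c| + 3 * ε') * D) * ((M : ℝ) + 1)
          = (3 * C + 3 * |c| + 3 * ε') * (D * ((M : ℝ) + 1)) := by ring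
        _ ≤ (3 * C + 3 * |c| + 3 * ε' + 1) * (8 * (n : ℝ) ^ 2 * ((box M).card : ℝ)) := by
            apply mul_le_mul _ hDle (by positivity) (by positivity)
            linarith
        _ = ((3 * C + 3 * |c| + 3 * ε' + 1) * (8 * (n : ℝ) ^ 2)) * ((box M).card : ℝ) := by ring
        _ ≤ (ε' * ((M : ℝ) + 1)) * ((box M).card : ℝ) := by gcongr
        _ = (ε' * ((box M).card : ℝ)) * ((M : ℝ) + 1) := by ring
    exact le_of_mul_le_mul_right this hM0
  have hgoal : (∑ x ∈ box M, f x) / ((box M).card : ℝ) - c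
      = (∑ x ∈ box M, f x - c * ((box M).card : ℝ)) / ((box M).card : ℝ) := by
    field_simp
  show |(∑ x ∈ box M, f x) / ((box M).card : ℝ) - c| ≤ ε
  rw [hgoal, abs_div, abs_of_pos hcM, div_le_iff₀ hcM]
  have : ε' * 12 = ε := by rw [hε']; ring
  nlinarith

end Pool.H66.EAM
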