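import Pool.Agent.Helper66.EAM.Uni

set_option autoImplicit false
set_option linter.unusedSectionVars false

/-! From the comparison inequality to a uniform limit. -/

namespace Pool.H66.EAM

open MeasureTheory Set ProbabilityTheory Filter Topology
open scoped ENNReal

lemma continuous_cdf' (μ : Measure ℝ) [IsProbabilityMeasure μ] (hμ : ∀ x, μ {x} = 0) :
    Continuous (cdf μ) := by
  rw [continuous_iff_continuousAt]
  intro x
  rw [(monotone_cdf μ).continuousAt_iff_leftLim_eq_rightLim, (cdf μ).rightLim_eq]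
  apply le_antisymm ((monotone_cdf μ).leftLim_le le_rfl)
  have h1 := (cdf μ).measure_singleton x
  rw [measure_cdf, hμ x] at h1
  have h2 := ENNReal.ofReal_eq_zero.1 h1.symm
  linarith

lemma exists_quantile (μ : Measure ℝ) [IsProbabilityMeasure μ] (hμ : ∀ x, μ {x} = 0) {v t : ℝ}
    (hv : 0 < v) (hvt : v ≤ cdf μ t) : ∃ q, cdf μ q = v := by
  have h1 : ∃ a, cdf μ a ≤ v := by
    have := (tendsto_cdf_atBot μ).eventually_lt_const hv
    obtain ⟨a, ha⟩ := this.exists
    exact ⟨a, ha.le⟩
  exact mem_range_of_exists_le_of_exists_ge (continuous_cdf' μ hμ) h1 ⟨t, hvt⟩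

section

variable {Y : Type*} [MeasurableSpace Y] {μ : Measure Y} [IsProbabilityMeasure μ] {q : Y → ℝ}
  {n : ℕ} {i : Fin 2} {ρ : ℕ → ℕ} {Hset : Set (E → Y)} {A : Set Y}

/-- Limiting maximal value. -/
noncomputable def xs (μ : Measure Y) [IsProbabilityMeasure μ] (q : Y → ℝ) (n : ℕ) (i : Fin 2) (ρ : ℕ → ℕ)
    (Hset : Set (E → Y)) (A : Set Y) : ℝ := ⨅ L, xbar μ q n i (ph i Hset A) ρ L

/-- Limiting minimal value. -/
noncomputable def ys (μ : Measure Y) [IsProbabilityMeasure μ] (q : Y → ℝ) (n : ℕ) (i : Fin 2) (ρ : ℕ → ℕ)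
    (Hset : Set (E → Y)) (A : Set Y) : ℝ := ⨆ L, ybar μ q n i (ph i Hset A) ρ L

lemma xbar_nonneg (hq : Measurable q) (hH : MeasurableSet Hset) (hA : MeasurableSet A) (L : ℕ) :
    0 ≤ xbar μ q n i (ph i Hset A) ρ L := by
  unfold xbar
  apply div_nonneg _ (box_pos L).le
  exact integral_nonneg (fun J => (XX_bounds hq (measurable_ph i hH hA)
    (ph_nonneg i Hset A) (ph_le_one i Hset A) J).1)

lemma ybar_nonneg (hq : Measurable q) (hH : MeasurableSet Hset) (hA : MeasurableSet A) (L : ℕ) :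
    0 ≤ ybar μ q n i (ph i Hset A) ρ L := by
  unfold ybar
  apply div_nonneg _ (box_pos L).le
  exact integral_nonneg (fun J => (YY_bounds hq (measurable_ph i hH hA)
    (ph_nonneg i Hset A) (ph_le_one i Hset A) J).1)

lemma xs_le (hq : Measurable q) (hH : MeasurableSet Hset) (hA : MeasurableSet A) (L : ℕ) :
    xs μ q n i ρ Hset A ≤ xbar μ q n i (ph i Hset A) ρ L :=
  ciInf_le ⟨0, by rintro _ ⟨L, rfl⟩; exact xbar_nonneg hq hH hA L⟩ L

lemma ybar_le' (hq : Measurable q) (hH : MeasurableSet Hset) (hA : MeasurableSet A) (L : ℕ) :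
    ybar μ q n i (ph i Hset A) ρ L ≤ 1 :=
  ybar_le_one hq (measurable_ph i hH hA) (ph_nonneg i Hset A) (ph_le_one i Hset A) L

lemma le_ys (hq : Measurable q) (hH : MeasurableSet Hset) (hA : MeasurableSet A) (L : ℕ) :
    ybar μ q n i (ph i Hset A) ρ L ≤ ys μ q n i ρ Hset A :=
  le_ciSup (f := fun L => ybar μ q n i (ph i Hset A) ρ L)
    ⟨1, by rintro _ ⟨L, rfl⟩; exact ybar_le' hq hH hA L⟩ L

lemma ys_le_one (hq : Measurable q) (hH : MeasurableSet Hset) (hA : MeasurableSet A) : ys μ q n i ρ Hset A ≤ 1 :=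
  ciSup_le (fun L => ybar_le' hq hH hA L)

lemma ys_nonneg (hq : Measurable q) (hH : MeasurableSet Hset) (hA : MeasurableSet A) : 0 ≤ ys μ q n i ρ Hset A :=
  (ybar_nonneg hq hH hA 0).trans (le_ys hq hH hA 0)

lemma exists_xbar_lt {η : ℝ} (hη : 0 < η) :
    ∃ L, xbar μ q n i (ph i Hset A) ρ L < xs μ q n i ρ Hset A + η :=
  exists_lt_of_ciInf_lt (lt_add_of_pos_right _ hη)

lemma exists_lt_ybar {η : ℝ} (hη : 0 < η) :
    ∃ L, ys μ q n i ρ Hset A - η < ybar μ q n i (ph i Hset A) ρ L :=
  exists_lt_of_lt_ciSup (sub_lt_self _ hη)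

lemma Loc_ph {F : Finset E} (hF : Loc F (Hset.indicator (1 : (E → Y) → ℝ))) [DecidableEq E] :
    Loc (insert ((0 : V), i) F) (ph i Hset A) := by
  intro J J' h
  unfold ph
  rw [hF J J' (fun e he => h e (Finset.mem_insert_of_mem he)),
    h _ (Finset.mem_insert_self _ _)]

lemma UB_xs {F : Finset E} (hF : Loc F (Hset.indicator (1 : (E → Y) → ℝ)))
    (hq : Measurable q) (hH : MeasurableSet Hset) (hA : MeasurableSet A) (hn : 0 < n)
    (hρ : ∀ L N, L ≤ N → ρ L + n * (N - L) ≤ ρ N) :
    UB μ q n i ρ (ph i Hset A) (xs μ q n i ρ Hset A) := by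
  classical
  apply UB_of_forall
  intro η hη
  obtain ⟨L, hL⟩ := exists_xbar_lt (μ := μ) (q := q) (n := n) (i := i) (ρ := ρ) (Hset := Hset) (A := A) hη
  exact (UB_xbar hq (measurable_ph i hH hA) (ph_nonneg i Hset A) (ph_le_one i Hset A)
    (Loc_ph hF) hn hρ L).mono hL.le

lemma UB_ys {F : Finset E} (hF : Loc F (Hset.indicator (1 : (E → Y) → ℝ)))
    (hq : Measurable q) (hH : MeasurableSet Hset) (hA : MeasurableSet A) (hn : 0 < n)
    (hρ : ∀ L N, L ≤ N → ρ L + n * (N - L) ≤ ρ N) :
    UB μ q n i ρ (fun J => - ph i Hset A J) (- ys μ q n i ρ Hset A) := by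
  classical
  apply UB_of_forall
  intro η hη
  obtain ⟨L, hL⟩ := exists_lt_ybar (μ := μ) (q := q) (n := n) (i := i) (ρ := ρ) (Hset := Hset) (A := A) hη
  exact (UB_neg_ybar hq (measurable_ph i hH hA) (ph_nonneg i Hset A) (ph_le_one i Hset A)
    (Loc_ph hF) hn hρ L).mono (by linarith)

lemma integral_ph_le (hH : MeasurableSet Hset) (hA : MeasurableSet A) :
    ∫ J, ph i Hset A J ∂(PJ μ) ≤ μ.real A := by
  have h1 : ∫ J, ph i Hset A J ∂(PJ μ) ≤ ∫ J, A.indicator (1 : Y → ℝ) (J ((0 : V), i)) ∂(PJ μ) := by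
    apply integral_mono
    · exact integrable_bdd (measurable_ph i hH hA) (C := 1) (fun J => by
        rw [abs_of_nonneg (ph_nonneg _ _ _ _)]; exact ph_le_one _ _ _ _)
    · exact integrable_bdd ((measurable_one.indicator hA).comp (measurable_pi_apply _)) (C := 1)
        (fun J => by
          show |A.indicator (1 : Y → ℝ) (J ((0 : V), i))| ≤ 1
          rw [abs_of_nonneg (ind_nonneg _ _)]; exact ind_le_one _ _)
    · intro J
      exact mul_le_of_le_one_left (ind_nonneg _ _) (ind_le_one _ _)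
  refine h1.trans_eq ?_
  have h2 := (measurePreserving_eval_infinitePi (fun _ : E => μ) ((0 : V), i))
  have h3 := integral_map (μ := PJ μ) (measurable_pi_apply ((0 : V), i)).aemeasurable
    (f := A.indicator (1 : Y → ℝ)) (measurable_one.indicator hA).aestronglyMeasurable
  have h4 : (PJ μ).map (fun J : E → Y => J ((0 : V), i)) = μ := h2.map_eq
  rw [h4, integral_indicator_one hA] at h3
  exact h3.symm

lemma UB_mass {F : Finset E} (hF : Loc F (Hset.indicator (1 : (E → Y) → ℝ)))
    (hq : Measurable q) (hH : MeasurableSet Hset) (hA : MeasurableSet A) (hn : 0 < n) :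
    UB μ q n i ρ (ph i Hset A) (μ.real A) := by
  classical
  have h := (UB_zero (μ := μ) (q := q) (n := n) (i := i) (ρ := ρ)).approx (φ' := ph i Hset A)
    (ψ := ph i Hset A) (measurable_ph i hH hA) (C := 1)
    (fun J => by rw [abs_of_nonneg (ph_nonneg _ _ _ _)]; exact ph_le_one _ _ _ _)
    (Loc_ph hF) hn (fun J => by simp) (ph_nonneg i Hset A)
  exact h.mono (by rw [zero_add]; exact integral_ph_le hH hA)

/-- Comparison of two disjoint ranges of the same mass. -/
lemma xs_le_ys [MeasurableEq Y] (hq : Measurable q) (hReg : ∀ K, Nonempty (Reg μ q n ρ K))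
    (hn : 0 < n)
    (hρ : ∀ L N, L ≤ N → ρ L + n * (N - L) ≤ ρ N)
    {F : Finset E} (hF : Loc F (Hset.indicator (1 : (E → Y) → ℝ)))
    (hH : MeasurableSet Hset)
    (hHloc : ∀ J J' : E → Y, (∀ e, (∀ z, e ≠ sub n i z) → J e = J' e) →
      (J ∈ Hset ↔ J' ∈ Hset)) (hA : MeasurableSet A) {a b c d p : ℝ} (hbc : b < c) (hp : 0 < p)
    (h1 : μ.real (A ∩ q ⁻¹' Ioc a b) = p) (h2 : μ.real (A ∩ q ⁻¹' Ioc c d) = p) :
    xs μ q n i ρ Hset (A ∩ q ⁻¹' Ioc a b) ≤ ys μ q n i ρ Hset (A ∩ q ⁻¹' Ioc c d) := by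
  classical
  set K : ℝ := |a| + |b| + |c| + |d| with hK
  obtain ⟨Rg⟩ := hReg K
  have hbd : ∀ x u v : ℝ, x ∈ Ioc u v → |x| ≤ |u| + |v| := by
    intro x u v hx
    rw [abs_le]
    constructor
    · linarith [hx.1, neg_abs_le u, abs_nonneg v]
    · linarith [hx.2, le_abs_self v, abs_nonneg u]
  have hm1 : MeasurableSet (A ∩ q ⁻¹' Ioc a b) := hA.inter (hq measurableSet_Ioc)
  have hm2 : MeasurableSet (A ∩ q ⁻¹' Ioc c d) := hA.inter (hq measurableSet_Ioc)
  have key := main_ineq hq Rg hn i (A := A ∩ q ⁻¹' Ioc a b) (A' := A ∩ q ⁻¹' Ioc c d)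
    (δ := c - b) (by linarith) hm1 hm2
    (fun x hx y hy => by
      have e1 : q x ≤ b := hx.2.2
      have e2 : c < q y := hy.2.1
      linarith)
    (fun x hx => (hbd _ a b hx.2).trans (by rw [hK]; linarith [abs_nonneg c, abs_nonneg d]))
    (fun x hx => (hbd _ c d hx.2).trans (by rw [hK]; linarith [abs_nonneg a, abs_nonneg b]))
    hH hHloc (Loc_ph hF) hρ (x := xs μ q n i ρ Hset (A ∩ q ⁻¹' Ioc a b))
    (y := ys μ q n i ρ Hset (A ∩ q ⁻¹' Ioc c d))
    (fun L => xs_le hq hH hm1 L) (fun L => le_ys hq hH hm2 L)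
    (fun η hη => by
      obtain ⟨L, hL⟩ := exists_lt_ybar (μ := μ) (q := q) (n := n) (i := i) (ρ := ρ)
        (Hset := Hset) (A := A ∩ q ⁻¹' Ioc c d) hη
      exact ⟨L, hL.le⟩)
    (ys_le_one hq hH hm2)
  rw [h1, h2] at key
  exact le_of_mul_le_mul_left key hp

theorem uni_Iic [MeasurableEq Y] (hμ : ∀ x, μ (q ⁻¹' {x}) = 0) (hq : Measurable q)
    (hReg : ∀ K, Nonempty (Reg μ q n ρ K)) (hn : 0 < n)
    (hρ : ∀ L N, L ≤ N → ρ L + n * (N - L) ≤ ρ N)
    {F : Finset E} (hF : Loc F (Hset.indicator (1 : (E → Y) → ℝ)))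
    (hH : MeasurableSet Hset)
    (hHloc : ∀ J J' : E → Y, (∀ e, (∀ z, e ≠ sub n i z) → J e = J' e) →
      (J ∈ Hset ↔ J' ∈ Hset)) (hA : MeasurableSet A) (t : ℝ) :
    ∃ c, Uni μ q n i ρ (ph i Hset (A ∩ q ⁻¹' Iic t)) c := by
  classical
  apply exists_Uni
  intro η hη
  have hAm : ∀ I : Set ℝ, MeasurableSet I → MeasurableSet (A ∩ q ⁻¹' I) :=
    fun I hI => hA.inter (hq hI)
  by_cases hF0 : μ.real (A ∩ q ⁻¹' Iic t) = 0
  · -- zero mass
    refine ⟨μ.real (A ∩ q ⁻¹' Iic t), 0, UB_mass hF hq hH (hAm _ measurableSet_Iic) hn, ?_, ?_⟩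
    · have h := (UB_zero (μ := μ) (q := q) (n := n) (i := i) (ρ := ρ)).approx
        (φ' := fun J => - ph i Hset (A ∩ q ⁻¹' Iic t) J) (ψ := fun _ => 0) measurable_const (C := 0)
        (fun J => by simp) (S := ∅) (fun _ _ _ => rfl) hn
        (fun J => by simpa using ph_nonneg i Hset (A ∩ q ⁻¹' Iic t) J) (fun _ => le_rfl)
      simpa using h
    · rw [hF0]; linarith
  · have hμA : μ A ≠ 0 := by
      intro h
      apply hF0
      rw [measureReal_def, measure_mono_null inter_subset_left h]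
      rfl
    have hcp : IsProbabilityMeasure (cond μ A) := cond_isProbabilityMeasure hμA
    set lam : Measure ℝ := (cond μ A).map q with hlam
    have hlp : IsProbabilityMeasure lam := Measure.isProbabilityMeasure_map hq.aemeasurable
    set a : ℝ := μ.real A with ha
    have ha0 : 0 < a := by
      rw [ha, measureReal_def]
      exact ENNReal.toReal_pos hμA (measure_ne_top _ _)
    have hlamr : ∀ I : Set ℝ, MeasurableSet I → μ.real (A ∩ q ⁻¹' I) = a * lam.real I := by
      intro I hI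
      rw [hlam, measureReal_def, measureReal_def, Measure.map_apply hq hI, cond_apply hA,
        ENNReal.toReal_mul, ENNReal.toReal_inv, ha, measureReal_def]
      have : (μ A).toReal ≠ 0 := by
        rw [← measureReal_def]; exact ha0.ne'
      field_simp
    have hlam0 : ∀ x, lam {x} = 0 := by
      intro x
      rw [hlam, Measure.map_apply hq (measurableSet_singleton x), cond_apply hA,
        measure_mono_null inter_subset_right (hμ x), mul_zero]
    have hG0 : 0 < cdf lam t := by
      rcases (cdf_nonneg lam t).eq_or_lt with h | h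
      · exfalso
        apply hF0
        rw [hlamr _ measurableSet_Iic, ← cdf_eq_real, ← h, mul_zero]
      · exact h
    obtain ⟨k, hk⟩ := exists_nat_gt (3 / η)
    set m : ℕ := k + 3 with hm
    have hm0 : (0 : ℝ) < m := by rw [hm]; positivity
    set p : ℝ := cdf lam t / m with hp
    have hp0 : 0 < p := by positivity
    have hq' : ∀ j : ℕ, ∃ r, (1 ≤ j → j ≤ m → cdf lam r = j * p) := by
      intro j
      by_cases hj : 1 ≤ j ∧ j ≤ m
      · obtain ⟨r, hr⟩ := exists_quantile lam hlam0 (v := j * p) (t := t)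
          (by have : (0 : ℝ) < j := by exact_mod_cast hj.1
              positivity)
          (by
            have : (j : ℝ) ≤ m := by exact_mod_cast hj.2
            calc (j : ℝ) * p ≤ m * p := by gcongr
              _ = cdf lam t := by rw [hp]; field_simp)
        exact ⟨r, fun _ _ => hr⟩
      · exact ⟨0, fun h1 h2 => absurd ⟨h1, h2⟩ hj⟩
    choose r0 hr0 using hq'
    -- the last point is t
    set r : ℕ → ℝ := fun j => if j = m then t else r0 j with hrdef
    have hrv : ∀ j, 1 ≤ j → j ≤ m → cdf lam (r j) = j * p := by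
      intro j h1 h2
      simp only [hrdef]
      split_ifs with h
      · rw [h, hp]; field_simp
      · exact hr0 j h1 h2
    have hrm : r m = t := by simp only [hrdef, if_true]
    have hmono : ∀ j, 1 ≤ j → j + 1 ≤ m → r j < r (j + 1) := by
      intro j h1 h2
      by_contra hcon
      have h3 := monotone_cdf lam (not_lt.1 hcon)
      rw [hrv j h1 (by omega), hrv (j + 1) (by omega) h2] at h3
      push_cast at h3
      nlinarith
    set I : ℕ → Set ℝ := fun j => if j = 0 then Iic (r 1) else Ioc (r j) (r (j + 1)) with hI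
    have hI0 : I 0 = Iic (r 1) := by simp only [hI, if_true]
    have hIj : ∀ j, I (j + 1) = Ioc (r (j + 1)) (r (j + 2)) := by
      intro j
      simp only [hI]
      rw [if_neg (Nat.succ_ne_zero j)]
    have hIm0 : ∀ j, MeasurableSet (I j) := by
      intro j
      simp only [hI]
      split_ifs
      · exact measurableSet_Iic
      · exact measurableSet_Ioc
    have hIm : ∀ j, MeasurableSet (A ∩ q ⁻¹' I j) := fun j => hAm _ (hIm0 j)
    have hmass : ∀ j, j + 1 ≤ m → μ.real (A ∩ q ⁻¹' I j) = a * p := by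
      intro j hj
      rw [hlamr _ (hIm0 j)]
      congr 1
      cases j with
      | zero =>
        rw [hI0, ← cdf_eq_real, hrv 1 le_rfl hj]; simp
      | succ j =>
        rw [hIj]
        have h1 : Ioc (r (j + 1)) (r (j + 2)) = Iic (r (j + 2)) \ Iic (r (j + 1)) := by
          ext x; simp only [mem_Ioc, Set.mem_sdiff, mem_Iic, not_le]; tauto
        have hlt := hmono (j + 1) (by omega) (by omega)
        rw [h1, measureReal_sdiff (Iic_subset_Iic.2 hlt.le) measurableSet_Iic,
          ← cdf_eq_real, ← cdf_eq_real, hrv (j + 2) (by omega) (by omega),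
          hrv (j + 1) (by omega) (by omega)]
        push_cast; ring
    -- telescoping
    have htel : ∀ s, 1 ≤ s → s ≤ m → ∀ x : ℝ,
        ∑ j ∈ Finset.range s, (I j).indicator (1 : ℝ → ℝ) x = (Iic (r s)).indicator 1 x := by
      intro s hs1
      induction s, hs1 using Nat.le_induction with
      | base => intro _ x; simp [hI0]
      | succ s hs1 ih =>
        intro hsm x
        rw [Finset.sum_range_succ, ih (by omega)]
        obtain ⟨r', rfl⟩ : ∃ r', s = r' + 1 := ⟨s - 1, by omega⟩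
        rw [hIj]
        have hlt := hmono (r' + 1) (by omega) (by omega)
        have hlt' : r (r' + 1) < r (r' + 2) := hlt
        by_cases h1 : x ≤ r (r' + 1)
        · rw [indicator_of_mem (show x ∈ Iic (r (r' + 1)) from h1),
            indicator_of_notMem (fun h => absurd h1 (not_le.2 h.1)),
            indicator_of_mem (show x ∈ Iic (r (r' + 1 + 1)) from h1.trans hlt'.le)]
          simp
        · by_cases h2 : x ≤ r (r' + 2)
          · rw [indicator_of_notMem (show x ∉ Iic (r (r' + 1)) from h1),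
              indicator_of_mem (show x ∈ Ioc (r (r' + 1)) (r (r' + 2)) from ⟨not_le.1 h1, h2⟩),
              indicator_of_mem (show x ∈ Iic (r (r' + 1 + 1)) from h2)]
            simp
          · rw [indicator_of_notMem (show x ∉ Iic (r (r' + 1)) from h1),
              indicator_of_notMem (fun h => h2 h.2),
              indicator_of_notMem (show x ∉ Iic (r (r' + 1 + 1)) from h2)]
            simp
    have hindA : ∀ (S : Set ℝ) (y : Y), (A ∩ q ⁻¹' S).indicator (1 : Y → ℝ) y
        = A.indicator 1 y * S.indicator 1 (q y) := by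
      intro S y
      by_cases h1 : y ∈ A <;> by_cases h2 : q y ∈ S
      · rw [indicator_of_mem (show y ∈ A ∩ q ⁻¹' S from ⟨h1, h2⟩), indicator_of_mem h1,
          indicator_of_mem h2]; simp
      · rw [indicator_of_notMem (fun h => h2 h.2), indicator_of_notMem h2, mul_zero]
      · rw [indicator_of_notMem (fun h => h1 h.1), indicator_of_notMem h1, zero_mul]
      · rw [indicator_of_notMem (fun h => h1 h.1), indicator_of_notMem h1, zero_mul]
    have hsum : ∀ J, ∑ j ∈ Finset.range m, ph i Hset (A ∩ q ⁻¹' I j) J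
        = ph i Hset (A ∩ q ⁻¹' Iic t) J := by
      intro J
      unfold ph
      rw [← Finset.mul_sum]
      simp_rw [hindA]
      rw [← Finset.mul_sum, htel m (by omega) le_rfl, hrm]
    -- upper bounds
    set v : ℕ → ℝ := fun j => if 1 ≤ j ∧ j ≤ k then xs μ q n i ρ Hset (A ∩ q ⁻¹' I j)
      else a * p with hv
    have hub : ∀ j ∈ Finset.range m, UB μ q n i ρ (ph i Hset (A ∩ q ⁻¹' I j)) (v j) := by
      intro j hj
      rw [Finset.mem_range] at hj
      simp only [hv]
      split_ifs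
      · exact UB_xs hF hq hH (hIm j) hn hρ
      · rw [← hmass j (by omega)]
        exact UB_mass hF hq hH (hIm j) hn
    have hUB := UB_sum _ _ _ hub
    simp_rw [hsum] at hUB
    have hLB := UB_sum (Finset.range m) (fun j J => - ph i Hset (A ∩ q ⁻¹' I j) J)
      (fun j => - ys μ q n i ρ Hset (A ∩ q ⁻¹' I j)) (fun j _ => UB_ys hF hq hH (hIm j) hn hρ)
    simp_rw [Finset.sum_neg_distrib, hsum] at hLB
    refine ⟨_, _, hUB, hLB, ?_⟩
    have hap : 0 < a * p := by positivity
    have hcomp : ∀ j ∈ Finset.range k, xs μ q n i ρ Hset (A ∩ q ⁻¹' I (j + 1))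
        ≤ ys μ q n i ρ Hset (A ∩ q ⁻¹' I (j + 3)) := by
      intro j hj
      rw [Finset.mem_range] at hj
      have e1 := hmass (j + 1) (by omega)
      have e2 := hmass (j + 3) (by omega)
      rw [hIj] at e1 ⊢
      have e3 : I (j + 3) = Ioc (r (j + 3)) (r (j + 4)) := hIj (j + 2)
      rw [e3] at e2 ⊢
      exact xs_le_ys hq hReg hn hρ hF hH hHloc hA (hmono (j + 2) (by omega) (by omega)) hap e1 e2
    have hs1 : ∑ j ∈ Finset.range m, v j = 3 * (a * p) +
        ∑ j ∈ Finset.range k, xs μ q n i ρ Hset (A ∩ q ⁻¹' I (j + 1)) := by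
      rw [hm, Finset.sum_range_succ, Finset.sum_range_succ, Finset.sum_range_succ']
      have a0 : v 0 = a * p := by simp only [hv]; rw [if_neg (by omega)]
      have a1 : v (k + 1) = a * p := by simp only [hv]; rw [if_neg (by omega)]
      have a2 : v (k + 2) = a * p := by simp only [hv]; rw [if_neg (by omega)]
      have a3 : ∀ j ∈ Finset.range k, v (j + 1) = xs μ q n i ρ Hset (A ∩ q ⁻¹' I (j + 1)) := by
        intro j hj
        rw [Finset.mem_range] at hj
        simp only [hv]; rw [if_pos ⟨by omega, by omega⟩]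
      rw [a0, a1, a2, Finset.sum_congr rfl a3]
      ring
    have hs2 : ∑ j ∈ Finset.range k, ys μ q n i ρ Hset (A ∩ q ⁻¹' I (j + 3))
        ≤ ∑ j ∈ Finset.range m, ys μ q n i ρ Hset (A ∩ q ⁻¹' I j) := by
      rw [hm, Finset.sum_range_succ', Finset.sum_range_succ', Finset.sum_range_succ']
      have b0 := ys_nonneg (μ := μ) (q := q) (n := n) (i := i) (ρ := ρ) hq hH (hIm 0)
      have b1 := ys_nonneg (μ := μ) (q := q) (n := n) (i := i) (ρ := ρ) hq hH (hIm (0 + 1))
      have b2 := ys_nonneg (μ := μ) (q := q) (n := n) (i := i) (ρ := ρ) hq hH (hIm (0 + 1 + 1))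
      linarith
    have hs3 : 3 * (a * p) ≤ η := by
      have h1 : cdf lam t ≤ 1 := cdf_le_one lam t
      have h2 : p ≤ 1 / m := by rw [hp]; gcongr
      have h3 : 3 / η < m := by
        rw [hm]; push_cast; linarith
      have h4 : 3 * (1 / (m : ℝ)) ≤ η := by
        rw [mul_one_div, div_le_iff₀ hm0]
        rw [div_lt_iff₀ hη] at h3
        linarith
      have h5 : a ≤ 1 := measureReal_le_one
      have h6 : a * p ≤ p := mul_le_of_le_one_left hp0.le h5
      linarith
    have := Finset.sum_le_sum hcomp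
    linarith

end

end Pool.H66.EAM
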