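import Pool.Agent.Helper66.EAM.Erg

set_option autoImplicit false

/-! The law of large numbers for local functions along a sublattice. -/

namespace Pool.H66.EAM

open MeasureTheory Set ProbabilityTheory Filter Topology
open scoped ENNReal

variable {Y : Type*} [MeasurableSpace Y]

omit [MeasurableSpace Y] in
lemma Loc_shJ {β : Type*} {S : Finset E} {φ : (E → Y) → β} (h : Loc S φ) (v : V)
    [DecidableEq E] : Loc (S.image (shE v)) (fun J => φ (shJ v J)) := by
  intro J J' hJ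
  apply h
  intro e he
  exact hJ _ (Finset.mem_image_of_mem _ he)

lemma integrable_bdd {μ : Measure Y} [IsProbabilityMeasure μ] {φ : (E → Y) → ℝ}
    (hφ : Measurable φ) {C : ℝ} (hb : ∀ J, |φ J| ≤ C) : Integrable φ (PJ μ) :=
  Integrable.of_bound hφ.aestronglyMeasurable C (ae_of_all _ (fun J => by
    rw [Real.norm_eq_abs]; exact hb J))

lemma integral_shJ (μ : Measure Y) [IsProbabilityMeasure μ] (v : V) {φ : (E → Y) → ℝ}
    (hφ : Measurable φ) : ∫ J, φ (shJ v J) ∂(PJ μ) = ∫ J, φ J ∂(PJ μ) := by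
  have h := integral_map (μ := PJ μ) (measurable_shJ v).aemeasurable (f := φ)
    hφ.aestronglyMeasurable
  rw [(mp_shJ μ v).map_eq] at h
  exact h.symm

lemma var_bound (μ : Measure Y) [IsProbabilityMeasure μ] (n : ℕ) (hn : 0 < n) (S : Finset E)
    (ψ : (E → Y) → ℝ) (hψ : Measurable ψ) (C : ℝ) (hb : ∀ J, |ψ J| ≤ C) (hloc : Loc S ψ)
    (h0 : ∫ J, ψ J ∂(PJ μ) = 0) (Q : Finset V) :
    ∫ J, (∑ z ∈ Q, ψ (shJ ((n : ℤ) • z) J)) ^ 2 ∂(PJ μ)
      ≤ (Q.card : ℝ) * ((S.card : ℝ) ^ 2 * C ^ 2) := by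
  classical
  have hm : ∀ z : V, Measurable (fun J => ψ (shJ ((n : ℤ) • z) J)) :=
    fun z => hψ.comp (measurable_shJ _)
  have hprod : ∀ z w : V, Integrable (fun J => ψ (shJ ((n : ℤ) • z) J) * ψ (shJ ((n : ℤ) • w) J))
      (PJ μ) := by
    intro z w
    apply integrable_bdd ((hm z).mul (hm w)) (C := C * C)
    intro J
    show |ψ (shJ ((n : ℤ) • z) J) * ψ (shJ ((n : ℤ) • w) J)| ≤ C * C
    rw [abs_mul]
    exact mul_le_mul (hb _) (hb _) (abs_nonneg _) ((abs_nonneg _).trans (hb J))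
  have hC : 0 ≤ C := by
    obtain ⟨ω0⟩ : Nonempty (E → Y) := nonempty_of_isProbabilityMeasure (PJ μ)
    exact (abs_nonneg _).trans (hb ω0)
  have e1 : ∫ J, (∑ z ∈ Q, ψ (shJ ((n : ℤ) • z) J)) ^ 2 ∂(PJ μ)
      = ∑ z ∈ Q, ∑ w ∈ Q, ∫ J, ψ (shJ ((n : ℤ) • z) J) * ψ (shJ ((n : ℤ) • w) J) ∂(PJ μ) := by
    have : ∀ J : E → Y, (∑ z ∈ Q, ψ (shJ ((n : ℤ) • z) J)) ^ 2
        = ∑ z ∈ Q, ∑ w ∈ Q, ψ (shJ ((n : ℤ) • z) J) * ψ (shJ ((n : ℤ) • w) J) := by
      intro J
      rw [sq, Finset.sum_mul_sum]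
    simp_rw [this]
    rw [integral_finsetSum _ (fun z _ => integrable_finsetSum _ (fun w _ => hprod z w))]
    apply Finset.sum_congr rfl
    intro z _
    rw [integral_finsetSum _ (fun w _ => hprod z w)]
  rw [e1]
  have hpair : ∀ z w : V, ∫ J, ψ (shJ ((n : ℤ) • z) J) * ψ (shJ ((n : ℤ) • w) J) ∂(PJ μ)
      ≤ if Disjoint (S.image (shE ((n : ℤ) • z))) (S.image (shE ((n : ℤ) • w))) then 0
        else C ^ 2 := by
    intro z w
    split_ifs with hd
    · rw [indep_integral μ hd (hm z) (hm w) (Loc_shJ hloc _) (Loc_shJ hloc _)]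
      have : ∫ J, ψ (shJ ((n : ℤ) • z) J) ∂(PJ μ) = 0 := by
        rw [integral_shJ μ _ hψ, h0]
      rw [this, zero_mul]
    · calc ∫ J, ψ (shJ ((n : ℤ) • z) J) * ψ (shJ ((n : ℤ) • w) J) ∂(PJ μ)
          ≤ ∫ _, C ^ 2 ∂(PJ μ) := by
            apply integral_mono (hprod z w) (integrable_const _)
            intro J
            calc ψ (shJ ((n : ℤ) • z) J) * ψ (shJ ((n : ℤ) • w) J)
                ≤ |ψ (shJ ((n : ℤ) • z) J) * ψ (shJ ((n : ℤ) • w) J)| := le_abs_self _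
              _ ≤ C * C := by
                rw [abs_mul]
                exact mul_le_mul (hb _) (hb _) (abs_nonneg _) hC
              _ = C ^ 2 := by ring
        _ = C ^ 2 := by simp
  have hcount : ∀ z : V, ((Q.filter (fun w => ¬ Disjoint (S.image (shE ((n : ℤ) • z)))
      (S.image (shE ((n : ℤ) • w))))).card : ℝ) ≤ (S.card : ℝ) ^ 2 := by
    intro z
    have hsub : (Q.filter (fun w => ¬ Disjoint (S.image (shE ((n : ℤ) • z)))
      (S.image (shE ((n : ℤ) • w))))) ⊆ (S ×ˢ S).image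
        (fun p : E × E => fun i => ((n : ℤ) * z i + p.1.1 i - p.2.1 i) / (n : ℤ)) := by
      intro w hw
      rw [Finset.mem_filter, Finset.not_disjoint_iff] at hw
      obtain ⟨-, e, he1, he2⟩ := hw
      rw [Finset.mem_image] at he1 he2
      obtain ⟨a, ha, rfl⟩ := he1
      obtain ⟨b, hb', hab⟩ := he2
      rw [Finset.mem_image]
      refine ⟨(a, b), Finset.mem_product.2 ⟨ha, hb'⟩, ?_⟩
      funext i
      have h1 := congrFun (congrArg Prod.fst hab) i
      simp only [shE, Pi.add_apply, Pi.smul_apply, smul_eq_mul] at h1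
      have h2 : (n : ℤ) * z i + a.1 i - b.1 i = (n : ℤ) * w i := by linarith
      simp only [h2]
      exact Int.mul_ediv_cancel_left _ (by exact_mod_cast hn.ne')
    have h1 := Finset.card_le_card hsub
    have h2 := h1.trans Finset.card_image_le
    rw [Finset.card_product] at h2
    calc ((Q.filter (fun w => ¬ Disjoint (S.image (shE ((n : ℤ) • z)))
      (S.image (shE ((n : ℤ) • w))))).card : ℝ) ≤ ((S.card * S.card : ℕ) : ℝ) := by
          exact_mod_cast h2
      _ = (S.card : ℝ) ^ 2 := by push_cast; ring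
  calc ∑ z ∈ Q, ∑ w ∈ Q, ∫ J, ψ (shJ ((n : ℤ) • z) J) * ψ (shJ ((n : ℤ) • w) J) ∂(PJ μ)
      ≤ ∑ z ∈ Q, ∑ w ∈ Q, (if Disjoint (S.image (shE ((n : ℤ) • z)))
          (S.image (shE ((n : ℤ) • w))) then 0 else C ^ 2) :=
        Finset.sum_le_sum (fun z _ => Finset.sum_le_sum (fun w _ => hpair z w))
    _ = ∑ z ∈ Q, ((Q.filter (fun w => ¬ Disjoint (S.image (shE ((n : ℤ) • z)))
          (S.image (shE ((n : ℤ) • w))))).card : ℝ) * C ^ 2 := by
        apply Finset.sum_congr rfl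
        intro z _
        rw [Finset.sum_ite, Finset.sum_const_zero, zero_add, Finset.sum_const, nsmul_eq_mul]
    _ ≤ ∑ z ∈ Q, (S.card : ℝ) ^ 2 * C ^ 2 := by
        apply Finset.sum_le_sum
        intro z _
        exact mul_le_mul_of_nonneg_right (hcount z) (sq_nonneg _)
    _ = (Q.card : ℝ) * ((S.card : ℝ) ^ 2 * C ^ 2) := by
        rw [Finset.sum_const, nsmul_eq_mul]

theorem lln0 (μ : Measure Y) [IsProbabilityMeasure μ] (n : ℕ) (hn : 0 < n) (S : Finset E)
    (ψ : (E → Y) → ℝ) (hψ : Measurable ψ) (C : ℝ) (hb : ∀ J, |ψ J| ≤ C) (hloc : Loc S ψ)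
    (h0 : ∫ J, ψ J ∂(PJ μ) = 0) :
    ∀ᵐ J ∂(PJ μ), Tendsto (fun N : ℕ => (∑ z ∈ box N, ψ (shJ ((n : ℤ) • z) J)) /
      ((box N).card : ℝ)) atTop (𝓝 0) := by
  set K : ℝ := (S.card : ℝ) ^ 2 * C ^ 2 with hK
  have hK0 : 0 ≤ K := by positivity
  have hcard : ∀ N : ℕ, ((box N).card : ℝ) = (2 * N + 1) ^ 2 := by
    intro N; rw [card_box]; push_cast; ring
  have hpos : ∀ N : ℕ, 0 < ((box N).card : ℝ) := by intro N; rw [hcard]; positivity
  set F : ℕ → (E → Y) → ℝ := fun N J => ((∑ z ∈ box N, ψ (shJ ((n : ℤ) • z) J)) /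
      ((box N).card : ℝ)) ^ 2 with hF
  have hFm : ∀ N, Measurable (F N) := by
    intro N
    exact ((Finset.measurable_sum _ (fun z _ => hψ.comp (measurable_shJ _))).div_const _).pow_const 2
  have hFint : ∀ N, ∫⁻ J, ENNReal.ofReal (F N J) ∂(PJ μ)
      ≤ ENNReal.ofReal (K * (1 / ((N : ℝ) + 1) ^ 2)) := by
    intro N
    have hbd : ∀ J, |F N J| ≤ C ^ 2 := by
      intro J
      simp only [hF]
      rw [abs_pow]
      apply pow_le_pow_left₀ (abs_nonneg _)
      rw [abs_div, abs_of_pos (hpos N), div_le_iff₀ (hpos N)]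
      calc |∑ z ∈ box N, ψ (shJ ((n : ℤ) • z) J)| ≤ ∑ z ∈ box N, |ψ (shJ ((n : ℤ) • z) J)| :=
            Finset.abs_sum_le_sum_abs _ _
        _ ≤ ∑ z ∈ box N, C := Finset.sum_le_sum (fun z _ => hb _)
        _ = C * ((box N).card : ℝ) := by rw [Finset.sum_const, nsmul_eq_mul]; ring
    rw [← ofReal_integral_eq_lintegral_ofReal (integrable_bdd (hFm N) hbd)
      (ae_of_all _ (fun J => by simp only [hF]; positivity))]
    apply ENNReal.ofReal_le_ofReal
    have h1 := var_bound μ n hn S ψ hψ C hb hloc h0 (box N)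
    simp only [hF]
    simp_rw [div_pow]
    rw [integral_div, div_le_iff₀ (by have := hpos N; positivity)]
    calc ∫ J, (∑ z ∈ box N, ψ (shJ ((n : ℤ) • z) J)) ^ 2 ∂(PJ μ)
        ≤ ((box N).card : ℝ) * K := h1
      _ ≤ K * (1 / ((N : ℝ) + 1) ^ 2) * ((box N).card : ℝ) ^ 2 := by
        have h2 : ((N : ℝ) + 1) ^ 2 ≤ ((box N).card : ℝ) := by
          rw [hcard]
          have : (0 : ℝ) ≤ N := Nat.cast_nonneg N
          nlinarith
        have h3 : (0 : ℝ) < ((N : ℝ) + 1) ^ 2 := by positivity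
        have h4 : (1 : ℝ) ≤ (1 / ((N : ℝ) + 1) ^ 2) * ((box N).card : ℝ) := by
          rw [one_div, ← div_eq_inv_mul, le_div_iff₀ h3, one_mul]
          exact h2
        calc ((box N).card : ℝ) * K = K * ((box N).card : ℝ) * 1 := by ring
          _ ≤ K * ((box N).card : ℝ) * ((1 / ((N : ℝ) + 1) ^ 2) * ((box N).card : ℝ)) := by
              apply mul_le_mul_of_nonneg_left h4
              have := hpos N
              positivity
          _ = K * (1 / ((N : ℝ) + 1) ^ 2) * ((box N).card : ℝ) ^ 2 := by ring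
  have hsum : Summable (fun N : ℕ => K * (1 / ((N : ℝ) + 1) ^ 2)) := by
    apply Summable.mul_left
    have h1 : Summable (fun N : ℕ => 1 / (N : ℝ) ^ 2) :=
      Real.summable_one_div_nat_pow.2 (by norm_num)
    have h2 := (summable_nat_add_iff 1).2 h1
    refine h2.congr (fun N => ?_)
    push_cast
    ring
  have hfin : ∫⁻ J, ∑' N, ENNReal.ofReal (F N J) ∂(PJ μ) ≠ ∞ := by
    rw [lintegral_tsum (fun N => (hFm N).ennreal_ofReal.aemeasurable)]
    apply ne_top_of_le_ne_top _ (ENNReal.tsum_le_tsum hFint)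
    rw [← ENNReal.ofReal_tsum_of_nonneg (fun N => by positivity) hsum]
    exact ENNReal.ofReal_ne_top
  have hae := ae_lt_top (Measurable.tsum (fun N => (hFm N).ennreal_ofReal)) hfin
  filter_upwards [hae] with J hJ
  have h1 := ENNReal.tendsto_atTop_zero_of_tsum_ne_top hJ.ne
  have h2 : Tendsto (fun N => F N J) atTop (𝓝 0) := by
    have h3 := (ENNReal.tendsto_toReal ENNReal.zero_ne_top).comp h1
    simp only [ENNReal.toReal_zero] at h3
    refine h3.congr (fun N => ?_)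
    simp only [Function.comp_apply]
    exact ENNReal.toReal_ofReal (by simp only [hF]; positivity)
  have h4 := h2.sqrt
  rw [Real.sqrt_zero] at h4
  rw [tendsto_zero_iff_abs_tendsto_zero]
  refine h4.congr (fun N => ?_)
  simp only [hF, Function.comp_apply]
  exact Real.sqrt_sq_eq_abs _

theorem lln (μ : Measure Y) [IsProbabilityMeasure μ] (n : ℕ) (hn : 0 < n) (S : Finset E)
    (φ : (E → Y) → ℝ) (hφ : Measurable φ) (C : ℝ) (hb : ∀ J, |φ J| ≤ C) (hloc : Loc S φ) :
    ∀ᵐ J ∂(PJ μ), Tendsto (fun N : ℕ => (∑ z ∈ box N, φ (shJ ((n : ℤ) • z) J)) /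
      ((box N).card : ℝ)) atTop (𝓝 (∫ J, φ J ∂(PJ μ))) := by
  set m := ∫ J, φ J ∂(PJ μ) with hm
  have h0 := lln0 μ n hn S (fun J => φ J - m) (hφ.sub_const m) (C + |m|)
    (fun J => (abs_sub _ _).trans (add_le_add (hb J) le_rfl))
    (fun J J' h => by
      show φ J - m = φ J' - m
      rw [hloc J J' h]) (by
      rw [integral_sub (integrable_bdd hφ hb) (integrable_const _)]
      simp [hm])
  filter_upwards [h0] with J hJ
  have h1 := hJ.add_const m
  rw [zero_add] at h1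
  refine h1.congr (fun N => ?_)
  have hpos : (0 : ℝ) < ((box N).card : ℝ) := by
    rw [card_box]; positivity
  rw [Finset.sum_sub_distrib, Finset.sum_const, nsmul_eq_mul, sub_div, mul_div_cancel_left₀ _ hpos.ne']
  ring

end Pool.H66.EAM
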