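import Pool.Agent.Helper66.EAM.Stat

set_option autoImplicit false
set_option linter.unusedSectionVars false

/-! Almost sure bounds and concentration. -/

namespace Pool.H66.EAM

open MeasureTheory Set ProbabilityTheory Filter Topology
open scoped ENNReal

variable {Y : Type*} [MeasurableSpace Y]

/-- Mean maximal statistic per site. -/
noncomputable def xbar (μ : Measure Y) [IsProbabilityMeasure μ] (q : Y → ℝ) (n : ℕ) (i : Fin 2)
    (φ : (E → Y) → ℝ) (ρ : ℕ → ℕ) (L : ℕ) : ℝ :=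
  (∫ J, XX q n i φ (ρ L) L J ∂(PJ μ)) / ((box L).card : ℝ)

/-- Mean minimal statistic per site. -/
noncomputable def ybar (μ : Measure Y) [IsProbabilityMeasure μ] (q : Y → ℝ) (n : ℕ) (i : Fin 2)
    (φ : (E → Y) → ℝ) (ρ : ℕ → ℕ) (L : ℕ) : ℝ :=
  (∫ J, YY q n i φ (ρ L) L J ∂(PJ μ)) / ((box L).card : ℝ)

lemma box_pos (N : ℕ) : (0 : ℝ) < ((box N).card : ℝ) := by
  rw [card_box]; positivity

lemma box_cast (N : ℕ) : ((box N).card : ℝ) = (2 * (N : ℝ) + 1) ^ 2 := by
  rw [card_box]; push_cast; ring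

lemma card_ratio (c : ℕ) :
    Tendsto (fun N : ℕ => ((box (N - c)).card : ℝ) / ((box N).card : ℝ)) atTop (𝓝 1) := by
  have h1 : Tendsto (fun N : ℕ => (1 - (2 * (c : ℝ)) / (2 * (N : ℝ) + 1)) ^ 2) atTop (𝓝 1) := by
    have h2 : Tendsto (fun N : ℕ => (2 * (c : ℝ)) / (2 * (N : ℝ) + 1)) atTop (𝓝 0) := by
      apply Tendsto.div_atTop tendsto_const_nhds
      apply tendsto_atTop_add_const_right
      exact Tendsto.const_mul_atTop (by norm_num) tendsto_natCast_atTop_atTop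
    have h3 := (h2.const_sub 1).pow 2
    simpa using h3
  refine h1.congr' ?_
  filter_upwards [eventually_ge_atTop c] with N hN
  rw [box_cast, box_cast, Nat.cast_sub hN, ← div_pow]
  congr 1
  have : (2 * (N : ℝ) + 1) ≠ 0 := by positivity
  field_simp
  ring

section

variable {μ : Measure Y} [IsProbabilityMeasure μ] {q : Y → ℝ} {n : ℕ} {i : Fin 2} {φ : (E → Y) → ℝ}
  {ρ : ℕ → ℕ} {S : Finset E}

theorem lln_sub (hn : 0 < n) {S : Finset E} {ψ : (E → Y) → ℝ} (hψ : Measurable ψ) {C : ℝ}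
    (hb : ∀ J, |ψ J| ≤ C) (hloc : Loc S ψ) (c : ℕ) :
    ∀ᵐ J ∂(PJ μ), Tendsto (fun N : ℕ => (∑ z ∈ box (N - c), ψ (shJ ((n : ℤ) • z) J)) /
      ((box N).card : ℝ)) atTop (𝓝 (∫ J, ψ J ∂(PJ μ))) := by
  filter_upwards [lln μ n hn S ψ hψ C hb hloc] with J hJ
  have h1 := (hJ.comp (tendsto_sub_atTop_nat c)).mul (card_ratio c)
  rw [mul_one] at h1
  refine h1.congr (fun N => ?_)
  simp only [Function.comp_apply]
  have := box_pos (N - c)
  have := box_pos N
  field_simp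

theorem ub_ae (hq : Measurable q) (hφ : Measurable φ) (h0 : ∀ J, 0 ≤ φ J) (h1 : ∀ J, φ J ≤ 1) (hloc : Loc S φ)
    (hn : 0 < n) (hρ : ∀ L N, L ≤ N → ρ L + n * (N - L) ≤ ρ N) (L : ℕ) :
    ∀ᵐ J ∂(PJ μ), ∃ U : ℕ → ℝ, Tendsto U atTop (𝓝 (xbar μ q n i φ ρ L)) ∧
      ∀ N, 2 * L ≤ N → ∀ σ, IsSpin σ → LG (box (ρ N)) (cpl q J) σ →
        St n i φ N J σ ≤ U N * ((box N).card : ℝ) := by
  classical
  have hb : ∀ J, |XX q n i φ (ρ L) L J| ≤ ((box L).card : ℝ) := by
    intro J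
    have := XX_bounds (n := n) (i := i) (R := ρ L) (N := L) hq hφ h0 h1 J
    rw [abs_le]; constructor <;> linarith [this.1, this.2, box_pos L]
  filter_upwards [lln_sub (μ := μ) hn (measurable_XX (n := n) (i := i) (R := ρ L) (N := L) hq hφ)
    hb (XX_loc hloc) L] with J hJ
  refine ⟨fun N => (∑ z ∈ box (N - L), XX q n i φ (ρ L) L (shJ ((n : ℤ) • z) J)) /
      ((box N).card : ℝ) / ((box L).card : ℝ)
      + (1 - ((box (N - 2 * L)).card : ℝ) / ((box N).card : ℝ)), ?_, ?_⟩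
  · have h3 := (hJ.div_const ((box L).card : ℝ)).add ((card_ratio (2 * L)).const_sub 1)
    rw [sub_self, add_zero] at h3
    exact h3
  · intro N hN σ hσ hLG
    have h4 := St_upper (i := i) hq hφ h0 h1 hN (hρ L N (by omega)) hσ hLG
    have hL := box_pos L
    have hN' := box_pos N
    have h5 : ((∑ z ∈ box (N - L), XX q n i φ (ρ L) L (shJ ((n : ℤ) • z) J)) /
      ((box N).card : ℝ) / ((box L).card : ℝ)
      + (1 - ((box (N - 2 * L)).card : ℝ) / ((box N).card : ℝ))) * ((box N).card : ℝ)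
      = ((∑ z ∈ box (N - L), XX q n i φ (ρ L) L (shJ ((n : ℤ) • z) J))
        + ((box L).card : ℝ) * (((box N).card : ℝ) - ((box (N - 2 * L)).card : ℝ)))
          / ((box L).card : ℝ) := by
      field_simp
    show St n i φ N J σ ≤ ((∑ z ∈ box (N - L), XX q n i φ (ρ L) L (shJ ((n : ℤ) • z) J)) /
      ((box N).card : ℝ) / ((box L).card : ℝ)
      + (1 - ((box (N - 2 * L)).card : ℝ) / ((box N).card : ℝ))) * ((box N).card : ℝ)
    rw [h5, le_div_iff₀ hL]
    linarith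

/-- The block average of the minimal statistic. -/
noncomputable def ZZ (q : Y → ℝ) (n : ℕ) (i : Fin 2) (φ : (E → Y) → ℝ) (ρ : ℕ → ℕ) (L N : ℕ) (J : E → Y) :
    ℝ :=
  (∑ z ∈ box (N - L), YY q n i φ (ρ L) L (shJ ((n : ℤ) • z) J)) /
      ((box N).card : ℝ) / ((box L).card : ℝ)

lemma measurable_ZZ (hq : Measurable q) (hφ : Measurable φ) (L N : ℕ) : Measurable (ZZ q n i φ ρ L N) :=
  ((Finset.measurable_sum _ (fun _ _ =>
    (measurable_YY hq hφ).comp (measurable_shJ _))).div_const _).div_const _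

lemma ZZ_tendsto (hq : Measurable q) (hφ : Measurable φ) (h0 : ∀ J, 0 ≤ φ J) (h1 : ∀ J, φ J ≤ 1) (hloc : Loc S φ)
    (hn : 0 < n) (L : ℕ) :
    ∀ᵐ J ∂(PJ μ), Tendsto (fun N => ZZ q n i φ ρ L N J) atTop (𝓝 (ybar μ q n i φ ρ L)) := by
  classical
  have hb : ∀ J, |YY q n i φ (ρ L) L J| ≤ ((box L).card : ℝ) := by
    intro J
    have := YY_bounds (n := n) (i := i) (R := ρ L) (N := L) hq hφ h0 h1 J
    rw [abs_le]; constructor <;> linarith [this.1, this.2, box_pos L]
  filter_upwards [lln_sub (μ := μ) hn (measurable_YY (n := n) (i := i) (R := ρ L) (N := L) hq hφ)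
    hb (YY_loc hloc) L] with J hJ
  exact hJ.div_const ((box L).card : ℝ)

lemma ZZ_le (hq : Measurable q) (hφ : Measurable φ) (h0 : ∀ J, 0 ≤ φ J)
    (hρ : ∀ L N, L ≤ N → ρ L + n * (N - L) ≤ ρ N) {L N : ℕ} (hN : L ≤ N) {J : E → Y}
    {σ : V → ℝ} (hσ : IsSpin σ) (hLG : LG (box (ρ N)) (cpl q J) σ) :
    ZZ q n i φ ρ L N J * ((box N).card : ℝ) ≤ St n i φ N J σ := by
  have h4 := St_lower (i := i) hq hφ h0 hN (hρ L N hN) hσ hLG
  have hL := box_pos L
  have hN' := box_pos N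
  unfold ZZ
  have h5 : (∑ z ∈ box (N - L), YY q n i φ (ρ L) L (shJ ((n : ℤ) • z) J)) /
      ((box N).card : ℝ) / ((box L).card : ℝ) * ((box N).card : ℝ)
      = (∑ z ∈ box (N - L), YY q n i φ (ρ L) L (shJ ((n : ℤ) • z) J)) / ((box L).card : ℝ) := by
    field_simp
  rw [h5, div_le_iff₀ hL]
  linarith

lemma ybar_le_one (hq : Measurable q) (hφ : Measurable φ) (h0 : ∀ J, 0 ≤ φ J) (h1 : ∀ J, φ J ≤ 1) (L : ℕ) :
    ybar μ q n i φ ρ L ≤ 1 := by
  unfold ybar
  rw [div_le_one (box_pos L)]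
  have hb : ∀ J, |YY q n i φ (ρ L) L J| ≤ ((box L).card : ℝ) := by
    intro J
    have := YY_bounds (n := n) (i := i) (R := ρ L) (N := L) hq hφ h0 h1 J
    rw [abs_le]; constructor <;> linarith [this.1, this.2, box_pos L]
  calc ∫ J, YY q n i φ (ρ L) L J ∂(PJ μ) ≤ ∫ _, ((box L).card : ℝ) ∂(PJ μ) :=
        integral_mono (integrable_bdd (measurable_YY hq hφ) hb) (integrable_const _)
          (fun J => (YY_bounds hq hφ h0 h1 J).2)
    _ = ((box L).card : ℝ) := by simp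

/-- Concentration of the minimal statistic. -/
theorem conc (hq : Measurable q) (hφ : Measurable φ) (h0 : ∀ J, 0 ≤ φ J) (h1 : ∀ J, φ J ≤ 1) (hloc : Loc S φ)
    (hn : 0 < n) (hρ : ∀ L N, L ≤ N → ρ L + n * (N - L) ≤ ρ N) {y : ℝ}
    (hy1 : ∀ L, ybar μ q n i φ ρ L ≤ y) (hy2 : ∀ η > 0, ∃ L, y - η ≤ ybar μ q n i φ ρ L)
    (hy3 : y ≤ 1) {ε : ℝ} (hε : 0 < ε) :
    Tendsto (fun N => (PJ μ).real {J | (y + ε) * ((box N).card : ℝ) < YY q n i φ (ρ N) N J})
      atTop (𝓝 0) := by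
  rw [Metric.tendsto_atTop]
  intro κ hκ
  obtain ⟨L, hL⟩ := hy2 (κ * ε / 8) (by positivity)
  set η := κ * ε / 8 with hη
  have hη0 : 0 < η := by positivity
  have hmeas := tendstoInMeasure_of_tendsto_ae (μ := PJ μ)
    (fun N => (measurable_ZZ (n := n) (i := i) (ρ := ρ) hq hφ L N).aestronglyMeasurable)
    (ZZ_tendsto (n := n) (i := i) (ρ := ρ) hq hφ h0 h1 hloc hn L)
  rw [tendstoInMeasure_iff_measureReal_dist] at hmeas
  have hb := hmeas η hη0
  rw [Metric.tendsto_atTop] at hb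
  obtain ⟨N0, hN0⟩ := hb (κ * ε / 2) (by positivity)
  refine ⟨max N0 L, fun N hN => ?_⟩
  have hN1 : N0 ≤ N := (le_max_left _ _).trans hN
  have hN2 : L ≤ N := (le_max_right _ _).trans hN
  have hbN := hN0 N hN1
  rw [Real.dist_eq, sub_zero, abs_of_nonneg measureReal_nonneg] at hbN ⊢
  set B := {J : E → Y | η ≤ dist (ZZ q n i φ ρ L N J) (ybar μ q n i φ ρ L)} with hB
  set G := {J : E → Y | (y + ε) * ((box N).card : ℝ) < YY q n i φ (ρ N) N J} with hG
  have hBm : MeasurableSet B :=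
    measurableSet_le measurable_const ((measurable_ZZ hq hφ L N).dist measurable_const)
  have hGm : MeasurableSet G := measurableSet_lt measurable_const (measurable_YY hq hφ)
  have hcN := box_pos N
  have hYb : ∀ J, |YY q n i φ (ρ N) N J / ((box N).card : ℝ)| ≤ 1 := by
    intro J
    have := YY_bounds (n := n) (i := i) (R := ρ N) (N := N) hq hφ h0 h1 J
    rw [abs_of_nonneg (div_nonneg this.1 hcN.le), div_le_one hcN]
    exact this.2
  have hpt : ∀ J, G.indicator (fun _ => ε) J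
      ≤ (YY q n i φ (ρ N) N J / ((box N).card : ℝ) - (y - 2 * η)) + B.indicator (fun _ => 1) J := by
    intro J
    have hYY := YY_bounds (n := n) (i := i) (R := ρ N) (N := N) hq hφ h0 h1 J
    have hU0 : 0 ≤ YY q n i φ (ρ N) N J / ((box N).card : ℝ) := div_nonneg hYY.1 hcN.le
    have hBi : 0 ≤ B.indicator (fun _ => (1 : ℝ)) J := by
      apply indicator_nonneg; intro _ _; norm_num
    by_cases hJG : J ∈ G
    · rw [indicator_of_mem hJG]
      have : y + ε < YY q n i φ (ρ N) N J / ((box N).card : ℝ) := by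
        rw [lt_div_iff₀ hcN]; exact hJG
      linarith
    · rw [indicator_of_notMem hJG]
      by_cases hJB : J ∈ B
      · rw [indicator_of_mem hJB]
        linarith
      · rw [indicator_of_notMem hJB]
        have h2 : dist (ZZ q n i φ ρ L N J) (ybar μ q n i φ ρ L) < η := not_le.1 hJB
        rw [Real.dist_eq, abs_lt] at h2
        obtain ⟨sel, _, s2, s3, _⟩ := exists_selY hq hφ n i (ρ N) N
        have h3 := ZZ_le (n := n) (i := i) hq hφ h0 hρ hN2 (pat_spin (sel J)) (s2 J)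
        rw [← s3 J] at h3
        have h4 : ZZ q n i φ ρ L N J ≤ YY q n i φ (ρ N) N J / ((box N).card : ℝ) := by
          rw [le_div_iff₀ hcN]; exact h3
        linarith [h2.1]
  have hint1 : Integrable (fun J => YY q n i φ (ρ N) N J / ((box N).card : ℝ)) (PJ μ) :=
    integrable_bdd ((measurable_YY hq hφ).div_const _) hYb
  have hint := integral_mono (μ := PJ μ) ((integrable_const ε).indicator hGm)
    ((hint1.sub (integrable_const _)).add ((integrable_const (1 : ℝ)).indicator hBm)) hpt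
  have hi2 : ∫ J, (YY q n i φ (ρ N) N J / ((box N).card : ℝ) - (y - 2 * η)
      + B.indicator (fun _ => (1 : ℝ)) J) ∂(PJ μ)
      = ybar μ q n i φ ρ N - (y - 2 * η) + (PJ μ).real B := by
    have e1 := integral_add (μ := PJ μ) (hint1.sub (integrable_const (y - 2 * η)))
      ((integrable_const (1 : ℝ)).indicator hBm)
    have e2 := integral_sub (μ := PJ μ) hint1 (integrable_const (y - 2 * η))
    have e3 : ∫ J, YY q n i φ (ρ N) N J / ((box N).card : ℝ) ∂(PJ μ) = ybar μ q n i φ ρ N :=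
      integral_div _ _
    have e4 : ∫ J, B.indicator (fun _ => (1 : ℝ)) J ∂(PJ μ) = (PJ μ).real B := by
      rw [integral_indicator_const _ hBm]; simp
    rw [e3] at e2
    simp only [integral_const, probReal_univ, smul_eq_mul, one_mul] at e2
    rw [← e2, ← e4]
    exact e1
  have hi1 : ∫ J, G.indicator (fun _ => ε) J ∂(PJ μ) = (PJ μ).real G * ε := by
    rw [integral_indicator_const _ hGm]; simp
  have hfin : (PJ μ).real G * ε ≤ ybar μ q n i φ ρ N - (y - 2 * η) + (PJ μ).real B := by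
    rw [← hi1, ← hi2]; exact hint
  have h5 := hy1 N
  have h6 : (PJ μ).real G * ε < κ * ε := by
    calc (PJ μ).real G * ε ≤ 2 * η + (PJ μ).real B := by linarith
      _ < 2 * η + κ * ε / 2 := by linarith
      _ ≤ κ * ε := by rw [hη]; nlinarith [mul_pos hκ hε]
  exact lt_of_mul_lt_mul_right h6 hε.le

end

end Pool.H66.EAM
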