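import Pool.Agent.Helper66.EAM.Defs

set_option autoImplicit false

/-! Definition: translation invariant laws of a pair (couplings, ground state). -/

namespace Pool.H66.EAM

open MeasureTheory

/-- `Q` is the law of a pair `(J, σ)` such that the couplings `J` are i.i.d. with law `μ`, the law
of the pair is invariant under all translations, and `σ` is almost surely a ground state for `J`. -/
def StationaryLaw (μ : Measure ℝ) [IsProbabilityMeasure μ]
    (Q : Measure ((E → ℝ) × (V → ℝ))) : Prop :=
  Q.map Prod.fst = Measure.infinitePi (fun _ : E => μ) ∧
    (∀ v : V, Q.map (fun p => (shJ v p.1, shS v p.2)) = Q) ∧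
    ∀ᵐ p ∂Q, IsGroundState p.1 p.2

end Pool.H66.EAM
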