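import Pool.Agent.Helper66.EAM.Dich
import Pool.Agent.Helper66.EAM.StatDefs

set_option autoImplicit false
set_option linter.unusedSectionVars false

/-! Independent marks do not help. -/

namespace Pool.H66.EAM

open MeasureTheory Set ProbabilityTheory Filter Topology
open scoped ENNReal symmDiff

section Zip

variable {A B : Type*} [MeasurableSpace A] [MeasurableSpace B]

/-- Pair two fields. -/
def zp (p : (E → A) × (E → B)) : E → A × B := fun e => (p.1 e, p.2 e)

lemma measurable_zp : Measurable (zp : (E → A) × (E → B) → E → A × B) := by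
  apply measurable_pi_lambda
  intro e
  exact ((measurable_pi_apply e).comp measurable_fst).prodMk
    ((measurable_pi_apply e).comp measurable_snd)

lemma zp_mp (α : Measure A) (β : Measure B) [IsProbabilityMeasure α] [IsProbabilityMeasure β] :
    MeasurePreserving (zp (A := A) (B := B)) ((PJ α).prod (PJ β)) (PJ (α.prod β)) := by
  classical
  refine ⟨measurable_zp, ?_⟩
  apply Measure.eq_infinitePi
  intro s t ht
  rw [Measure.map_apply measurable_zp (MeasurableSet.pi s.countable_toSet (fun i _ => ht i))]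
  set W : Set ((s → A) × (s → B)) :=
    (MeasurableEquiv.arrowProdEquivProdArrow A B s).symm ⁻¹' (Set.pi univ (fun i : s => t i))
    with hW
  have hWm : MeasurableSet W := (MeasurableEquiv.arrowProdEquivProdArrow A B s).symm.measurable
    (MeasurableSet.univ_pi (fun i => ht i))
  have h1 : zp ⁻¹' (Set.pi s t) = (Prod.map (s.restrict (π := fun _ : E => A))
      (s.restrict (π := fun _ : E => B))) ⁻¹' W := by
    ext ⟨x, y⟩
    rw [mem_preimage, mem_preimage, hW, mem_preimage, Set.mem_pi, Set.mem_pi]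
    constructor
    · intro h i _
      exact h i i.2
    · intro h i hi
      exact h ⟨i, hi⟩ (mem_univ _)
  have hr1 : Measurable (s.restrict (π := fun _ : E => A)) := Finset.measurable_restrict _
  have hr2 : Measurable (s.restrict (π := fun _ : E => B)) := Finset.measurable_restrict _
  rw [h1, ← Measure.map_apply (hr1.prodMap hr2) hWm, ← Measure.map_prod_map _ _ hr1 hr2,
    Measure.infinitePi_map_restrict, Measure.infinitePi_map_restrict]
  have h2 := (measurePreserving_arrowProdEquivProdArrow A B s (fun _ => α) (fun _ => β)).symm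
  rw [hW, h2.measure_preimage_equiv, Measure.pi_pi]
  exact Finset.prod_coe_sort s (fun i => (α.prod β) (t i))

/-- Separate two fields, in the reverse order. -/
def uz (ω : E → A × B) : (E → B) × (E → A) := (fun e => (ω e).2, fun e => (ω e).1)

/-- Pair two fields, reverse order. -/
def pz (p : (E → B) × (E → A)) : E → A × B := fun e => (p.2 e, p.1 e)

lemma pz_mp (α : Measure A) (β : Measure B) [IsProbabilityMeasure α] [IsProbabilityMeasure β] :
    MeasurePreserving (pz (A := A) (B := B)) ((PJ β).prod (PJ α)) (PJ (α.prod β)) := by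
  have h : pz (A := A) (B := B) = zp ∘ Prod.swap := rfl
  rw [h]
  exact (zp_mp α β).comp Measure.measurePreserving_swap

lemma measurable_uz : Measurable (uz : (E → A × B) → (E → B) × (E → A)) :=
  (measurable_pi_lambda _ (fun e => measurable_snd.comp (measurable_pi_apply e))).prodMk
    (measurable_pi_lambda _ (fun e => measurable_fst.comp (measurable_pi_apply e)))

lemma uz_mp (α : Measure A) (β : Measure B) [IsProbabilityMeasure α] [IsProbabilityMeasure β] :
    MeasurePreserving (uz (A := A) (B := B)) (PJ (α.prod β)) ((PJ β).prod (PJ α)) := by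
  refine ⟨measurable_uz, ?_⟩
  rw [← (pz_mp α β).map_eq, Measure.map_map measurable_uz (pz_mp α β).measurable]
  have : uz ∘ pz (A := A) (B := B) = id := rfl
  rw [this, Measure.map_id]

end Zip

/-- Equality up to a global flip. -/
def PM (σ τ : V → ℝ) : Prop := σ = τ ∨ σ = -τ

lemma PM.symm {σ τ : V → ℝ} (h : PM σ τ) : PM τ σ := by
  rcases h with h | h
  · exact Or.inl h.symm
  · right; rw [h, neg_neg]

lemma PM.trans {σ τ ρ : V → ℝ} (h : PM σ τ) (h' : PM τ ρ) : PM σ ρ := by
  rcases h with h | h <;> rcases h' with h' | h'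
  · left; rw [h, h']
  · right; rw [h, h']
  · right; rw [h, h']
  · left; rw [h, h', neg_neg]

lemma PM.sh {σ τ : V → ℝ} (h : PM σ τ) (v : V) : PM (shS v σ) (shS v τ) := by
  rcases h with h | h
  · left; rw [h]
  · right; rw [h]; rfl

variable {μ : Measure ℝ} [IsProbabilityMeasure μ]

/-- A randomised covariant ground state is a function of the couplings. -/
theorem exists_nonrandom (hμ : ∀ x, μ {x} = 0) {Z : Type*} [MeasurableSpace Z]
    [StandardBorelSpace Z] {lam : Measure Z} [IsProbabilityMeasure lam]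
    {Φ : (E → ℝ × Z) → V → ℝ} (hΦ : Covariant (μ.prod lam) Prod.fst Φ) :
    ∃ α : (E → ℝ) → V → ℝ, Covariant μ id α ∧
      ∀ᵐ ω ∂(PJ (μ.prod lam)), Φ ω = α (fun e => (ω e).1) ∨ Φ ω = -α (fun e => (ω e).1) := by
  classical
  -- the doubled marks
  set ν3 : Measure (ℝ × (Z × Z)) := μ.prod (lam.prod lam) with hν3
  set f1 : ℝ × (Z × Z) → ℝ × Z := fun y => (y.1, y.2.1) with hf1
  set f2 : ℝ × (Z × Z) → ℝ × Z := fun y => (y.1, y.2.2) with hf2
  have hf1m : Measurable f1 := measurable_fst.prodMk (measurable_fst.comp measurable_snd)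
  have hf2m : Measurable f2 := measurable_fst.prodMk (measurable_snd.comp measurable_snd)
  have hf1p : MeasurePreserving f1 ν3 (μ.prod lam) :=
    (MeasurePreserving.id μ).prod (measurePreserving_fst (μ := lam) (ν := lam))
  have hf2p : MeasurePreserving f2 ν3 (μ.prod lam) :=
    (MeasurePreserving.id μ).prod (measurePreserving_snd (μ := lam) (ν := lam))
  have hlift : ∀ {f : ℝ × (Z × Z) → ℝ × Z}, MeasurePreserving f ν3 (μ.prod lam) →
      MeasurePreserving (fun (ω : E → ℝ × (Z × Z)) e => f (ω e)) (PJ ν3) (PJ (μ.prod lam)) := by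
    intro f hf
    refine ⟨measurable_pi_lambda _ (fun e => hf.measurable.comp (measurable_pi_apply e)), ?_⟩
    have h1 := Measure.infinitePi_map_pi (fun _ : E => ν3) (f := fun _ => f)
      (fun _ => hf.measurable)
    rw [h1]
    congr 1
    funext _
    exact hf.map_eq
  have hcov : ∀ {f : ℝ × (Z × Z) → ℝ × Z}, MeasurePreserving f ν3 (μ.prod lam) →
      (∀ y, (f y).1 = y.1) → Covariant ν3 Prod.fst (fun ω => Φ (fun e => f (ω e))) := by
    intro f hf hf'
    have hl := hlift hf
    refine ⟨hΦ.meas.comp hl.measurable, ?_, fun v => ?_⟩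
    · have := hl.quasiMeasurePreserving.ae hΦ.ground
      filter_upwards [this] with ω hω
      simpa [hf'] using hω
    · exact hl.quasiMeasurePreserving.ae (hΦ.cov v)
  have hν : ∀ x : ℝ, ν3 (Prod.fst ⁻¹' {x}) = 0 := by
    intro x
    rw [← Measure.map_apply measurable_fst (measurableSet_singleton x), hν3,
      Measure.map_fst_prod]
    simp [hμ x]
  have huniq := cov_unique hν measurable_fst (hcov hf1p (fun _ => rfl)) (hcov hf2p (fun _ => rfl))
  -- the triple product
  set Rm : Measure ((E → Z) × ((E → Z) × (E → ℝ))) := (PJ lam).prod ((PJ lam).prod (PJ μ)) with hRm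
  have hS3 : MeasurePreserving (fun p : (E → Z) × ((E → Z) × (E → ℝ)) =>
      fun e => (p.2.2 e, (p.1 e, p.2.1 e))) Rm (PJ ν3) := by
    have h1 : MeasurePreserving (fun p : (E → Z) × ((E → Z) × (E → ℝ)) => ((p.1, p.2.1), p.2.2))
        Rm (((PJ lam).prod (PJ lam)).prod (PJ μ)) :=
      (measurePreserving_prodAssoc (PJ lam) (PJ lam) (PJ μ)).symm
    have h2 : MeasurePreserving (Prod.map (zp (A := Z) (B := Z)) (id : (E → ℝ) → (E → ℝ)))
        (((PJ lam).prod (PJ lam)).prod (PJ μ)) ((PJ (lam.prod lam)).prod (PJ μ)) :=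
      (zp_mp lam lam).prod (MeasurePreserving.id _)
    exact (pz_mp μ (lam.prod lam)).comp (h2.comp h1)
  have hi : ∀ᵐ p ∂(Rm), PM (Φ (pz (p.2.1, p.2.2))) (Φ (pz (p.1, p.2.2))) :=
    hS3.quasiMeasurePreserving.ae huniq
  have hshift : ∀ v : V, MeasurePreserving
      (fun p : (E → Z) × ((E → Z) × (E → ℝ)) => (p.1, (shJ v p.2.1, shJ v p.2.2))) Rm Rm :=
    fun v => (MeasurePreserving.id _).prod ((mp_shJ lam v).prod (mp_shJ μ v))
  have hii : ∀ᵐ p ∂(Rm), ∀ v : V, PM (Φ (pz (shJ v p.2.1, shJ v p.2.2)))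
      (Φ (pz (p.1, shJ v p.2.2))) := by
    rw [ae_all_iff]
    intro v
    exact (hshift v).quasiMeasurePreserving.ae hi
  have hsnd : MeasurePreserving (fun p : (E → Z) × ((E → Z) × (E → ℝ)) => pz (p.2.1, p.2.2)) Rm
      (PJ (μ.prod lam)) := (pz_mp μ lam).comp measurePreserving_snd
  have hfst : MeasurePreserving (fun p : (E → Z) × ((E → Z) × (E → ℝ)) => pz (p.1, p.2.2)) Rm
      (PJ (μ.prod lam)) :=
    (pz_mp μ lam).comp ((MeasurePreserving.id _).prod measurePreserving_snd)
  have hiii : ∀ᵐ p ∂(Rm), ∀ v : V, PM (Φ (shJ v (pz (p.2.1, p.2.2))))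
      (shS v (Φ (pz (p.2.1, p.2.2)))) := by
    rw [ae_all_iff]
    intro v
    exact hsnd.quasiMeasurePreserving.ae (hΦ.cov v)
  have hiv : ∀ᵐ p ∂(Rm), IsGroundState p.2.2 (Φ (pz (p.1, p.2.2))) :=
    hfst.quasiMeasurePreserving.ae hΦ.ground
  have hall : ∀ᵐ p ∂(Rm), PM (Φ (pz (p.2.1, p.2.2))) (Φ (pz (p.1, p.2.2))) ∧
      (∀ v : V, PM (Φ (pz (shJ v p.2.1, shJ v p.2.2))) (Φ (pz (p.1, shJ v p.2.2)))) ∧
      (∀ v : V, PM (Φ (shJ v (pz (p.2.1, p.2.2)))) (shS v (Φ (pz (p.2.1, p.2.2))))) ∧
      IsGroundState p.2.2 (Φ (pz (p.1, p.2.2))) := by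
    filter_upwards [hi, hii, hiii, hiv] with p h1 h2 h3 h4
    exact ⟨h1, h2, h3, h4⟩
  obtain ⟨η0, hη0⟩ := (Measure.ae_ae_of_ae_prod hall).exists
  have hproj : ∀ {P : (E → ℝ) → Prop}, (∀ᵐ p ∂((PJ lam).prod (PJ μ)), P p.2) →
      ∀ᵐ J ∂(PJ μ), P J := by
    intro P h
    obtain ⟨η1, h1⟩ := (Measure.ae_ae_of_ae_prod h).exists
    exact h1
  refine ⟨fun J => Φ (pz (η0, J)), ⟨?_, ?_, ?_⟩, ?_⟩
  · exact hΦ.meas.comp ((pz_mp μ lam).measurable.comp (measurable_const.prodMk measurable_id))
  · apply hproj (P := fun J => IsGroundState (fun e => id (J e)) (Φ (pz (η0, J))))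
    filter_upwards [hη0] with p hp
    exact hp.2.2.2
  · intro v
    apply hproj (P := fun J => Φ (pz (η0, shJ v J)) = shS v (Φ (pz (η0, J))) ∨
      Φ (pz (η0, shJ v J)) = -shS v (Φ (pz (η0, J))))
    filter_upwards [hη0] with p hp
    have h1 : PM (Φ (pz (shJ v p.1, shJ v p.2))) (Φ (pz (η0, shJ v p.2))) := hp.2.1 v
    have h2 : PM (Φ (pz (shJ v p.1, shJ v p.2))) (shS v (Φ (pz (p.1, p.2)))) := hp.2.2.1 v
    have h3 : PM (shS v (Φ (pz (p.1, p.2)))) (shS v (Φ (pz (η0, p.2)))) := PM.sh hp.1 v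
    exact (h1.symm.trans h2).trans h3
  · have h1 := (uz_mp μ lam).quasiMeasurePreserving.ae hη0
    filter_upwards [h1] with ω hω
    exact hω.1

end Pool.H66.EAM
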