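import Pool.Agent.Helper66.EAM.Sel

set_option autoImplicit false
set_option linter.unusedSectionVars false

/-! Translation invariant laws of pairs of ground states: existence by compactness. -/

namespace Pool.H66.EAM

open MeasureTheory Set ProbabilityTheory Filter Topology
open scoped ENNReal BoundedContinuousFunction

/-- Couplings and two configurations. -/
abbrev X2 := (E → ℝ) × ((V → ℝ) × (V → ℝ))

/-- Translation. -/
def tr (v : V) (p : X2) : X2 := (shJ v p.1, (shS v p.2.1, shS v p.2.2))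

lemma continuous_shJ (v : V) : Continuous (shJ (Y := ℝ) v) :=
  continuous_pi (fun _ => continuous_apply _)

lemma continuous_shS (v : V) : Continuous (shS v) :=
  continuous_pi (fun _ => continuous_apply _)

lemma continuous_tr (v : V) : Continuous (tr v) :=
  ((continuous_shJ v).comp continuous_fst).prodMk
    (((continuous_shS v).comp (continuous_fst.comp continuous_snd)).prodMk
      ((continuous_shS v).comp (continuous_snd.comp continuous_snd)))

lemma measurable_tr (v : V) : Measurable (tr v) := (continuous_tr v).measurable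

/-- A translation invariant law of a pair of weak ground states. -/
structure Stat2 (μ : Measure ℝ) [IsProbabilityMeasure μ] (Q : Measure X2) : Prop where
  prob : IsProbabilityMeasure Q
  marg : Q.map Prod.fst = PJ μ
  inv : ∀ v, Q.map (tr v) = Q
  wg : ∀ᵐ p ∂Q, WG p.1 p.2.1 ∧ WG p.1 p.2.2

/-- The pair of configurations seen from `z.1` and `z.2`. -/
noncomputable def Fz (M M' : ℕ) (z : V × V) (J : E → ℝ) : X2 := (J, (bt M z.1 J, bt M' z.2 J))

lemma measurable_Fz (M M' : ℕ) (z : V × V) : Measurable (Fz M M' z) :=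
  measurable_id.prodMk ((measurable_bt _ _).prodMk (measurable_bt _ _))

lemma tr_Fz (M M' : ℕ) (z : V × V) (v : V) (J : E → ℝ) :
    tr v (Fz M M' (z.1 + v, z.2 + v) J) = Fz M M' z (shJ v J) := by
  unfold Fz tr
  simp only [bt_sh]

variable (μ : Measure ℝ) [IsProbabilityMeasure μ]

/-- Average over pairs of viewpoints. -/
noncomputable def lw (M M' : ℕ) : Measure X2 :=
  (((box M ×ˢ box M').card : ℝ≥0∞)⁻¹) • ∑ z ∈ box M ×ˢ box M', (PJ μ).map (Fz M M' z)

lemma card_prod_ne (M M' : ℕ) : ((box M ×ˢ box M').card : ℝ≥0∞) ≠ 0 := by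
  rw [Finset.card_product]
  have h1 := box_pos M
  have h2 := box_pos M'
  have h1' : 0 < (box M).card := by exact_mod_cast h1
  have h2' : 0 < (box M').card := by exact_mod_cast h2
  exact_mod_cast (Nat.mul_pos h1' h2').ne'

instance (M M' : ℕ) : IsProbabilityMeasure (lw μ M M') := by
  constructor
  unfold lw
  rw [Measure.smul_apply, Measure.finsetSum_apply]
  have : ∀ z ∈ box M ×ˢ box M', ((PJ μ).map (Fz M M' z)) univ = 1 := by
    intro z _
    rw [Measure.map_apply (measurable_Fz M M' z) MeasurableSet.univ, preimage_univ, measure_univ]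
  rw [Finset.sum_congr rfl this, Finset.sum_const, nsmul_eq_mul, mul_one, smul_eq_mul]
  exact ENNReal.inv_mul_cancel (card_prod_ne M M') (ENNReal.natCast_ne_top _)

lemma lw_ae {M M' : ℕ} {G : Set X2} (hG : MeasurableSet G)
    (h : ∀ z ∈ box M ×ˢ box M', ∀ J, Fz M M' z J ∈ G) : lw μ M M' Gᶜ = 0 := by
  unfold lw
  rw [Measure.smul_apply, Measure.finsetSum_apply]
  have : ∀ z ∈ box M ×ˢ box M', ((PJ μ).map (Fz M M' z)) Gᶜ = 0 := by
    intro z hz
    rw [Measure.map_apply (measurable_Fz M M' z) hG.compl]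
    have h1 : (Fz M M' z) ⁻¹' Gᶜ = ∅ := by
      ext J
      simp only [mem_preimage, mem_compl_iff, mem_empty_iff_false, iff_false, not_not]
      exact h z hz J
    rw [h1, measure_empty]
  rw [Finset.sum_congr rfl this, Finset.sum_const_zero, smul_zero]

lemma lw_integral (M M' : ℕ) {f : X2 → ℝ} (hf : Measurable f) {C : ℝ} (hC : ∀ p, |f p| ≤ C) :
    ∫ p, f p ∂(lw μ M M') = (∑ z ∈ box M ×ˢ box M', ∫ J, f (Fz M M' z J) ∂(PJ μ)) /
      ((box M ×ˢ box M').card : ℝ) := by
  unfold lw
  rw [integral_smul_measure, integral_finsetSum_measure]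
  · rw [ENNReal.toReal_inv, ENNReal.toReal_natCast, smul_eq_mul, inv_mul_eq_div]
    congr 1
    apply Finset.sum_congr rfl
    intro z _
    rw [integral_map (measurable_Fz M M' z).aemeasurable hf.aestronglyMeasurable]
  · intro z _
    have : IsProbabilityMeasure ((PJ μ).map (Fz M M' z)) :=
      Measure.isProbabilityMeasure_map (measurable_Fz M M' z).aemeasurable
    exact Integrable.of_bound hf.aestronglyMeasurable C (ae_of_all _ (fun p => hC p))

lemma lw_map_fst (M M' : ℕ) : (lw μ M M').map Prod.fst = PJ μ := by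
  ext s hs
  rw [Measure.map_apply measurable_fst hs]
  unfold lw
  rw [Measure.smul_apply, Measure.finsetSum_apply]
  have : ∀ z ∈ box M ×ˢ box M', ((PJ μ).map (Fz M M' z)) (Prod.fst ⁻¹' s) = PJ μ s := by
    intro z _
    rw [Measure.map_apply (measurable_Fz M M' z) (measurable_fst hs)]
    rfl
  rw [Finset.sum_congr rfl this, Finset.sum_const, nsmul_eq_mul, smul_eq_mul, ← mul_assoc,
    ENNReal.inv_mul_cancel (card_prod_ne M M') (ENNReal.natCast_ne_top _), one_mul]

/-- Approximate invariance. -/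
lemma lw_shift {v : V} {k : ℕ} (hk : ∀ j, (v j).natAbs ≤ k) {f : X2 → ℝ} (hf : Measurable f)
    {C : ℝ} (hC0 : 0 ≤ C) (hC : ∀ p, |f p| ≤ C) {M M' : ℕ} (hM : k ≤ M) (hM' : k ≤ M') :
    |∫ p, f (tr v p) ∂(lw μ M M') - ∫ p, f p ∂(lw μ M M')| ≤ C * (bd k M + bd k M') := by
  classical
  set h : V × V → ℝ := fun z => ∫ J, f (Fz M M' z J) ∂(PJ μ) with hh
  have hb : ∀ z, |h z| ≤ C := by
    intro z
    have h1 := norm_integral_le_of_norm_le_const (μ := PJ μ) (f := fun J => f (Fz M M' z J))
      (C := C) (ae_of_all _ (fun J => hC _))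
    simpa using h1
  have h2 : ∀ z : V × V, ∫ J, f (tr v (Fz M M' z J)) ∂(PJ μ) = h (z.1 + -v, z.2 + -v) := by
    intro z
    rw [hh]
    simp only
    rw [← integral_shJ μ v (φ := fun J => f (Fz M M' (z.1 + -v, z.2 + -v) J))
      (hf.comp (measurable_Fz _ _ _))]
    congr 1
    funext J
    rw [← tr_Fz]
    simp
  rw [lw_integral μ M M' (f := fun p => f (tr v p)) (hf.comp (measurable_tr v)) (fun p => hC _),
    lw_integral μ M M' hf hC]
  simp_rw [h2]
  have hk' : ∀ j, ((-v) j).natAbs ≤ k := by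
    intro j; rw [Pi.neg_apply, Int.natAbs_neg]; exact hk j
  rw [Finset.sum_product, Finset.sum_product, Finset.card_product]
  push_cast
  have hp := box_pos M
  have hp' := box_pos M'
  have e1 : ∀ (F : V → V → ℝ), (∑ x ∈ box M, ∑ y ∈ box M', F x y) /
      (((box M).card : ℝ) * ((box M').card : ℝ))
      = (∑ x ∈ box M, (∑ y ∈ box M', F x y) / ((box M').card : ℝ)) / ((box M).card : ℝ) := by
    intro F
    rw [← Finset.sum_div, div_div, mul_comm ((box M').card : ℝ)]
  rw [e1, e1]
  -- first change y, then x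
  have s1 : |(∑ x ∈ box M, (∑ y ∈ box M', h (x + -v, y + -v)) / ((box M').card : ℝ))
        / ((box M).card : ℝ)
      - (∑ x ∈ box M, (∑ y ∈ box M', h (x + -v, y)) / ((box M').card : ℝ)) / ((box M).card : ℝ)|
      ≤ C * bd k M' := by
    rw [← sub_div, ← Finset.sum_sub_distrib, abs_div, abs_of_pos hp, div_le_iff₀ hp]
    calc _ ≤ ∑ x ∈ box M, |(∑ y ∈ box M', h (x + -v, y + -v)) / ((box M').card : ℝ)
          - (∑ y ∈ box M', h (x + -v, y)) / ((box M').card : ℝ)| :=
            Finset.abs_sum_le_sum_abs _ _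
      _ ≤ ∑ x ∈ box M, C * bd k M' := Finset.sum_le_sum (fun x _ =>
            avg_shift hk' hC0 (g := fun y => h (x + -v, y)) (fun y => hb _) hM')
      _ = C * bd k M' * ((box M).card : ℝ) := by rw [Finset.sum_const, nsmul_eq_mul]; ring
  have s2 : |(∑ x ∈ box M, (∑ y ∈ box M', h (x + -v, y)) / ((box M').card : ℝ))
        / ((box M).card : ℝ)
      - (∑ x ∈ box M, (∑ y ∈ box M', h (x, y)) / ((box M').card : ℝ)) / ((box M).card : ℝ)|
      ≤ C * bd k M := by
    refine avg_shift hk' hC0 (g := fun x => (∑ y ∈ box M', h (x, y)) / ((box M').card : ℝ))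
      (fun x => ?_) hM
    rw [abs_div, abs_of_pos hp', div_le_iff₀ hp']
    calc _ ≤ ∑ y ∈ box M', |h (x, y)| := Finset.abs_sum_le_sum_abs _ _
      _ ≤ ∑ y ∈ box M', C := Finset.sum_le_sum (fun _ _ => hb _)
      _ = C * ((box M').card : ℝ) := by rw [Finset.sum_const, nsmul_eq_mul]; ring
  rw [abs_le] at s1 s2 ⊢
  constructor <;> nlinarith [s1.1, s1.2, s2.1, s2.2]

/-- The averaged law as a probability measure. -/
noncomputable def lwP (M M' : ℕ) : ProbabilityMeasure X2 := ⟨lw μ M M', inferInstance⟩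

lemma tight_lw : IsTightMeasureSet
    {((Q : ProbabilityMeasure X2) : Measure X2) | Q ∈ {Q | ∃ M M', Q = lwP μ M M'}} := by
  have h1 : IsTightMeasureSet {PJ μ} := isTightMeasureSet_singleton
  rw [isTightMeasureSet_iff_exists_isCompact_measure_compl_le] at h1 ⊢
  intro ε hε
  obtain ⟨K, hK, hKε⟩ := h1 ε hε
  refine ⟨K ×ˢ ({σ | IsSpin σ} ×ˢ {σ | IsSpin σ}), hK.prod (isCompact_spin.prod isCompact_spin), ?_⟩
  rintro _ ⟨Q, ⟨M, M', rfl⟩, rfl⟩
  have hG : MeasurableSet ({p | IsSpin p.2.1 ∧ IsSpin p.2.2} : Set X2) :=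
    ((isClosed_spin.preimage (continuous_fst.comp continuous_snd)).inter
      (isClosed_spin.preimage (continuous_snd.comp continuous_snd))).measurableSet
  have h2 := lw_ae μ (M := M) (M' := M') hG (fun z _ J => ⟨bt_spin _ _ _, bt_spin _ _ _⟩)
  have h3 : (K ×ˢ ({σ | IsSpin σ} ×ˢ {σ | IsSpin σ}) : Set X2)ᶜ
      ⊆ Prod.fst ⁻¹' Kᶜ ∪ ({p | IsSpin p.2.1 ∧ IsSpin p.2.2} : Set X2)ᶜ := by
    rintro ⟨J, σ, τ⟩ hp
    by_cases hJ : J ∈ K
    · right
      intro h4
      exact hp ⟨hJ, h4.1, h4.2⟩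
    · exact Or.inl hJ
  calc (lwP μ M M' : Measure X2) _ ≤ lw μ M M' (Prod.fst ⁻¹' Kᶜ ∪ _) := measure_mono h3
    _ ≤ lw μ M M' (Prod.fst ⁻¹' Kᶜ) + 0 := by
        refine (measure_union_le _ _).trans ?_
        rw [h2]
    _ = PJ μ Kᶜ := by
        rw [add_zero, ← Measure.map_apply measurable_fst hK.measurableSet.compl, lw_map_fst]
    _ ≤ ε := hKε _ rfl

/-- Limits of the averaged laws. -/
theorem exists_limit {Mk Mk' : ℕ → ℕ} (h1 : Tendsto Mk atTop atTop)
    (h2 : Tendsto Mk' atTop atTop) :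
    ∃ (U : Ultrafilter ℕ) (Q : ProbabilityMeasure X2), (U : Filter ℕ) ≤ atTop ∧
      Tendsto (fun k => lwP μ (Mk k) (Mk' k)) U (𝓝 Q) ∧ Stat2 μ (Q : Measure X2) := by
  have hcomp := isCompact_closure_of_isTightMeasureSet (tight_lw μ)
  set U : Ultrafilter ℕ := Ultrafilter.of atTop with hU
  have hUle : (U : Filter ℕ) ≤ atTop := Ultrafilter.of_le atTop
  obtain ⟨Q, -, hQ⟩ := hcomp.ultrafilter_le_nhds (U.map (fun k => lwP μ (Mk k) (Mk' k))) (by
    rw [Ultrafilter.coe_map, le_principal_iff, mem_map]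
    apply univ_mem'
    intro k
    exact subset_closure ⟨_, _, rfl⟩)
  have hlim : Tendsto (fun k => lwP μ (Mk k) (Mk' k)) U (𝓝 Q) := by
    rwa [Ultrafilter.coe_map] at hQ
  have hint : ∀ f : X2 →ᵇ ℝ, Tendsto (fun k => ∫ p, f p ∂(lw μ (Mk k) (Mk' k))) U
      (𝓝 (∫ p, f p ∂(Q : Measure X2))) := fun f =>
    (ProbabilityMeasure.tendsto_iff_forall_integral_tendsto.1 hlim) f
  refine ⟨U, Q, hUle, hlim, inferInstance, ?_, ?_, ?_⟩
  · -- marginal
    have : IsProbabilityMeasure ((Q : Measure X2).map Prod.fst) :=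
      Measure.isProbabilityMeasure_map measurable_fst.aemeasurable
    apply ext_of_forall_integral_eq_of_IsFiniteMeasure
    intro f
    rw [integral_map measurable_fst.aemeasurable f.continuous.measurable.aestronglyMeasurable]
    have h3 := hint (f.compContinuous ⟨Prod.fst, continuous_fst⟩)
    have h4 : ∀ k, ∫ p, f.compContinuous ⟨Prod.fst, continuous_fst⟩ p ∂(lw μ (Mk k) (Mk' k))
        = ∫ J, f J ∂(PJ μ) := by
      intro k
      rw [← lw_map_fst μ (Mk k) (Mk' k), integral_map measurable_fst.aemeasurable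
        f.continuous.measurable.aestronglyMeasurable]
      rfl
    simp_rw [h4] at h3
    exact tendsto_nhds_unique h3 tendsto_const_nhds
  · -- invariance
    intro v
    have : IsProbabilityMeasure ((Q : Measure X2).map (tr v)) :=
      Measure.isProbabilityMeasure_map (measurable_tr v).aemeasurable
    apply ext_of_forall_integral_eq_of_IsFiniteMeasure
    intro f
    rw [integral_map (measurable_tr v).aemeasurable f.continuous.measurable.aestronglyMeasurable]
    obtain ⟨k0, hk0⟩ := exists_k v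
    have h3 := hint (f.compContinuous ⟨tr v, continuous_tr v⟩)
    have h4 := h3.sub (hint f)
    have h5 : Tendsto (fun k => ‖f‖ * (bd k0 (Mk k) + bd k0 (Mk' k))) U (𝓝 0) := by
      have h6 := (((bd_tendsto k0).comp (h1.mono_left hUle)).add
        ((bd_tendsto k0).comp (h2.mono_left hUle))).const_mul ‖f‖
      simpa using h6
    have h7 : Tendsto (fun k => ∫ p, f.compContinuous ⟨tr v, continuous_tr v⟩ p
        ∂(lw μ (Mk k) (Mk' k)) - ∫ p, f p ∂(lw μ (Mk k) (Mk' k))) U (𝓝 0) := by
      apply squeeze_zero_norm' _ h5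
      filter_upwards [hUle (h1.eventually_ge_atTop k0), hUle (h2.eventually_ge_atTop k0)]
        with k hk1 hk2
      exact lw_shift μ hk0 f.continuous.measurable (norm_nonneg f)
        (fun p => f.norm_coe_le_norm p) hk1 hk2
    have h8 := tendsto_nhds_unique h4 h7
    exact sub_eq_zero.1 h8
  · -- support
    have hcl : ∀ n : ℕ, IsClosed ({p | (IsSpin p.2.1 ∧ LG (box n) p.1 p.2.1) ∧
        (IsSpin p.2.2 ∧ LG (box n) p.1 p.2.2)} : Set X2) := by
      intro n
      have hLG : ∀ g : X2 → V → ℝ, Continuous g →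
          IsClosed {p : X2 | IsSpin (g p) ∧ LG (box n) p.1 (g p)} := by
        intro g hg
        have e1 : {p : X2 | IsSpin (g p) ∧ LG (box n) p.1 (g p)}
            = g ⁻¹' {σ | IsSpin σ} ∩ ⋂ D ∈ (box n).powerset,
              {p : X2 | 0 ≤ ∑ e ∈ cut D, p.1 e * bond (g p) e} := by
          ext p
          simp only [mem_inter_iff, mem_preimage, mem_ofPred_eq, mem_iInter, Finset.mem_powerset]
          rfl
        rw [e1]
        refine (isClosed_spin.preimage hg).inter ?_
        apply isClosed_biInter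
        intro D _
        apply isClosed_le continuous_const
        apply continuous_finsetSum
        intro e _
        exact ((continuous_apply e).comp continuous_fst).mul ((continuous_bond e).comp hg)
      exact (hLG _ (continuous_fst.comp continuous_snd)).inter
        (hLG _ (continuous_snd.comp continuous_snd))
    have hall : ∀ n : ℕ, ∀ᵐ p ∂(Q : Measure X2), (IsSpin p.2.1 ∧ LG (box n) p.1 p.2.1) ∧
        (IsSpin p.2.2 ∧ LG (box n) p.1 p.2.2) := by
      intro n
      have h3 := ProbabilityMeasure.limsup_measure_closed_le_of_tendsto hlim (hcl n)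
      have h4 : ∀ᶠ k in (U : Filter ℕ), (lw μ (Mk k) (Mk' k))
          {p | (IsSpin p.2.1 ∧ LG (box n) p.1 p.2.1) ∧
            (IsSpin p.2.2 ∧ LG (box n) p.1 p.2.2)} = 1 := by
        filter_upwards [hUle (h1.eventually_ge_atTop n), hUle (h2.eventually_ge_atTop n)]
          with k hk1 hk2
        rw [← prob_compl_eq_zero_iff (hcl n).measurableSet]
        apply lw_ae μ (hcl n).measurableSet
        intro z hz J
        rw [Finset.mem_product] at hz
        exact ⟨⟨bt_spin _ _ _, (bt_lg hz.1 J).mono (box_mono (by omega))⟩,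
          ⟨bt_spin _ _ _, (bt_lg hz.2 J).mono (box_mono (by omega))⟩⟩
      have h5 : limsup (fun k => ((lwP μ (Mk k) (Mk' k) : ProbabilityMeasure X2) : Measure X2)
          {p | (IsSpin p.2.1 ∧ LG (box n) p.1 p.2.1) ∧
            (IsSpin p.2.2 ∧ LG (box n) p.1 p.2.2)}) U = 1 :=
        (limsup_congr (v := fun _ => (1 : ℝ≥0∞)) h4).trans (limsup_const _)
      rw [h5] at h3
      have h6 : (Q : Measure X2) {p | (IsSpin p.2.1 ∧ LG (box n) p.1 p.2.1) ∧
          (IsSpin p.2.2 ∧ LG (box n) p.1 p.2.2)} = 1 := le_antisymm prob_le_one h3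
      exact (prob_compl_eq_zero_iff (hcl n).measurableSet).2 h6
    rw [← ae_all_iff] at hall
    filter_upwards [hall] with p hp
    constructor
    · refine ⟨(hp 0).1.1, fun B => ?_⟩
      obtain ⟨n, hn⟩ := exists_box B
      exact LG.mono hn (hp n).1.2
    · refine ⟨(hp 0).2.1, fun B => ?_⟩
      obtain ⟨n, hn⟩ := exists_box B
      exact LG.mono hn (hp n).2.2

end Pool.H66.EAM
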