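import Pool.Agent.Helper66.EAM.Core

set_option autoImplicit false

/-! Finite patterns and measurable optimisers. -/

namespace Pool.H66.EAM

open MeasureTheory Set

/-- The spin configuration with minus set `s`. -/
noncomputable def pat (s : Finset V) : V → ℝ := by
  classical exact fun x => if x ∈ s then -1 else 1

lemma pat_spin (s : Finset V) : IsSpin (pat s) := by
  intro x
  unfold pat
  split_ifs
  · exact Or.inr rfl
  · exact Or.inl rfl

/-- Endpoints of the edges meeting `B`. -/
def clo (B : Finset V) : Finset V := (nbhd B).image Prod.fst ∪ (nbhd B).image tip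

lemma clo_fst {B : Finset V} {e : E} (h : e ∈ nbhd B) : e.1 ∈ clo B :=
  Finset.mem_union_left _ (Finset.mem_image_of_mem _ h)

lemma clo_tip {B : Finset V} {e : E} (h : e ∈ nbhd B) : tip e ∈ clo B :=
  Finset.mem_union_right _ (Finset.mem_image_of_mem _ h)

lemma nbhd_mono {D B : Finset V} (h : D ⊆ B) : nbhd D ⊆ nbhd B := by
  intro e he
  rw [mem_nbhd] at he ⊢
  rcases he with h1 | h1
  · exact Or.inl (h h1)
  · exact Or.inr (h h1)

lemma cut_subset_nbhd (D : Finset V) : cut D ⊆ nbhd D := Finset.filter_subset _ _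

lemma inn_subset_nbhd (D : Finset V) : inn D ⊆ nbhd D := Finset.filter_subset _ _

lemma LG_congr {B : Finset V} {J : E → ℝ} {σ τ : V → ℝ} (h : ∀ x ∈ clo B, σ x = τ x)
    (hσ : LG B J σ) : LG B J τ := by
  intro D hD
  have h1 := hσ D hD
  have : ∑ e ∈ cut D, J e * bond τ e = ∑ e ∈ cut D, J e * bond σ e := by
    apply Finset.sum_congr rfl
    intro e he
    have he' : e ∈ nbhd B := nbhd_mono hD (cut_subset_nbhd D he)
    have hb : bond τ e = bond σ e := by
      show τ e.1 * τ (tip e) = σ e.1 * σ (tip e)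
      rw [h _ (clo_fst he'), h _ (clo_tip he')]
    rw [hb]
  rw [this]
  exact h1

lemma LG_congrJ {B : Finset V} {J J' : E → ℝ} {σ : V → ℝ} (h : ∀ e ∈ nbhd B, J e = J' e)
    (hσ : LG B J σ) : LG B J' σ := by
  intro D hD
  have h1 := hσ D hD
  have : ∑ e ∈ cut D, J' e * bond σ e = ∑ e ∈ cut D, J e * bond σ e := by
    apply Finset.sum_congr rfl
    intro e he
    rw [h e (nbhd_mono hD (cut_subset_nbhd D he))]
  rw [this]
  exact h1

lemma flip_pat (D s : Finset V) : flip D (pat s) = pat (symmDiff s D) := by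
  classical
  funext x
  unfold flip pat
  by_cases h1 : x ∈ D <;> by_cases h2 : x ∈ s <;> simp [h1, h2, Finset.mem_symmDiff]

lemma exists_LG (B : Finset V) (J : E → ℝ) : ∃ s ⊆ B, LG B J (pat s) := by
  classical
  obtain ⟨s, hs, hmax⟩ := Finset.exists_max_image B.powerset
    (fun s => ∑ e ∈ nbhd B, J e * bond (pat s) e) ⟨∅, Finset.empty_mem_powerset B⟩
  rw [Finset.mem_powerset] at hs
  refine ⟨s, hs, ?_⟩
  intro D hD
  have h1 : symmDiff s D ∈ B.powerset := by
    rw [Finset.mem_powerset]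
    intro x hx
    rw [Finset.mem_symmDiff] at hx
    rcases hx with h | h
    · exact hs h.1
    · exact hD h.1
  have h2 := hmax _ h1
  rw [← flip_pat] at h2
  have h3 : ∑ e ∈ nbhd B, J e * bond (pat s) e - ∑ e ∈ nbhd B, J e * bond (flip D (pat s)) e
      = 2 * ∑ e ∈ cut D, J e * bond (pat s) e := by
    rw [← Finset.sum_sub_distrib, Finset.mul_sum]
    rw [← Finset.sum_subset ((cut_subset_nbhd D).trans (nbhd_mono hD))]
    · apply Finset.sum_congr rfl
      intro e he
      rw [bond_flip, if_pos he]; ring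
    · intro e _ he
      rw [bond_flip, if_neg he]; ring
  linarith

/-- The indicator of a positive bond. -/
noncomputable def av (σ : V → ℝ) (e : E) : ℝ := (1 + bond σ e) / 2

lemma av_nonneg {σ : V → ℝ} (hσ : IsSpin σ) (e : E) : 0 ≤ av σ e := by
  unfold av
  rcases bond_cases hσ e with h | h <;> rw [h] <;> norm_num

lemma av_le_one {σ : V → ℝ} (hσ : IsSpin σ) (e : E) : av σ e ≤ 1 := by
  unfold av
  rcases bond_cases hσ e with h | h <;> rw [h] <;> norm_num

/-- Weighted number of positive bonds. -/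
noncomputable def cnt (Q : Finset V) (ed : V → E) (w : V → ℝ) (σ : V → ℝ) : ℝ :=
  ∑ z ∈ Q, w z * av σ (ed z)

lemma cnt_congr {Q : Finset V} {ed : V → E} {w : V → ℝ} {σ τ : V → ℝ}
    (h : ∀ z ∈ Q, bond σ (ed z) = bond τ (ed z)) : cnt Q ed w σ = cnt Q ed w τ := by
  unfold cnt av
  apply Finset.sum_congr rfl
  intro z hz
  rw [h z hz]

/-- Every spin configuration coincides with a finite pattern on a given finite set. -/
lemma exists_pat {σ : V → ℝ} (hσ : IsSpin σ) (W : Finset V) :
    ∃ s ⊆ W, ∀ x ∈ W, σ x = pat s x := by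
  classical
  refine ⟨W.filter (fun x => σ x = -1), Finset.filter_subset _ _, ?_⟩
  intro x hx
  unfold pat
  by_cases h : σ x = -1
  · rw [if_pos (Finset.mem_filter.2 ⟨hx, h⟩), h]
  · have h' : x ∉ W.filter (fun x => σ x = -1) := fun h' => h (Finset.mem_filter.1 h').2
    rw [if_neg h']
    exact (hσ x).resolve_right h

lemma measurableSet_LG (B : Finset V) (σ : V → ℝ) :
    MeasurableSet {J : E → ℝ | LG B J σ} := by
  have : {J : E → ℝ | LG B J σ} = ⋂ D ∈ B.powerset, {J : E → ℝ | 0 ≤ ∑ e ∈ cut D, J e * bond σ e} := by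
    ext J
    simp only [mem_ofPred_eq, mem_iInter, Finset.mem_powerset]
    rfl
  rw [this]
  apply Finset.measurableSet_biInter
  intro D _
  apply measurableSet_le measurable_const
  apply Finset.measurable_sum
  intro e _
  exact (measurable_pi_apply e).mul_const _

/-- Measurable selection from a countable family. -/
lemma exists_measurable_selection {Ω ι : Type*} [MeasurableSpace Ω] [Countable ι] [Nonempty ι]
    (S : ι → Set Ω) (hS : ∀ i, MeasurableSet (S i)) (hcov : ∀ ω, ∃ i, ω ∈ S i) :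
    ∃ sel : Ω → ι, (∀ ω, ω ∈ S (sel ω)) ∧ ∀ i, MeasurableSet {ω | sel ω = i} := by
  classical
  obtain ⟨g, hg⟩ := exists_surjective_nat ι
  have hp : ∀ ω, ∃ n, ω ∈ S (g n) := by
    intro ω
    obtain ⟨i, hi⟩ := hcov ω
    obtain ⟨n, rfl⟩ := hg i
    exact ⟨n, hi⟩
  have hm : Measurable (fun ω => Nat.find (hp ω)) := measurable_find hp (fun n => hS (g n))
  refine ⟨fun ω => g (Nat.find (hp ω)), fun ω => Nat.find_spec (hp ω), ?_⟩
  intro i
  have : {ω | g (Nat.find (hp ω)) = i} = (fun ω => Nat.find (hp ω)) ⁻¹' {n | g n = i} := rfl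
  rw [this]
  exact hm (MeasurableSpace.measurableSet_top)

lemma measurable_cnt {Ω : Type*} [MeasurableSpace Ω] {Q : Finset V} {ed : V → E}
    {w : Ω → V → ℝ} (hw : ∀ z, Measurable fun J => w J z) (σ : V → ℝ) :
    Measurable (fun J => cnt Q ed (w J) σ) := by
  unfold cnt
  exact Finset.measurable_sum _ (fun z _ => (hw z).mul_const _)

lemma exists_max {Ω : Type*} [MeasurableSpace Ω] {cp : Ω → E → ℝ} (hcp : Measurable cp)
    (B Q : Finset V) (ed : V → E) (w : Ω → V → ℝ)
    (hw : ∀ z, Measurable fun J => w J z) :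
    ∃ sel : Ω → Finset V, (∀ s, MeasurableSet {J | sel J = s}) ∧
      (∀ J, LG B (cp J) (pat (sel J))) ∧
      ∀ J σ, IsSpin σ → LG B (cp J) σ → cnt Q ed (w J) σ ≤ cnt Q ed (w J) (pat (sel J)) := by
  classical
  set W : Finset V := clo B ∪ ((Q.image ed).image Prod.fst ∪ (Q.image ed).image tip) with hW
  have hcl : clo B ⊆ W := Finset.subset_union_left
  have hq1 : ∀ z ∈ Q, (ed z).1 ∈ W := fun z hz => Finset.mem_union_right _
    (Finset.mem_union_left _ (Finset.mem_image_of_mem _ (Finset.mem_image_of_mem _ hz)))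
  have hq2 : ∀ z ∈ Q, tip (ed z) ∈ W := fun z hz => Finset.mem_union_right _
    (Finset.mem_union_right _ (Finset.mem_image_of_mem _ (Finset.mem_image_of_mem _ hz)))
  have hLGm : ∀ σ : V → ℝ, MeasurableSet {J : Ω | LG B (cp J) σ} :=
    fun σ => hcp (measurableSet_LG B σ)
  let S : Finset V → Set Ω := fun s =>
    {J | LG B (cp J) (pat s)} ∩ ⋂ t ∈ W.powerset, ({J | LG B (cp J) (pat t)}ᶜ ∪
      {J | cnt Q ed (w J) (pat t) ≤ cnt Q ed (w J) (pat s)})
  have hS : ∀ s, MeasurableSet (S s) := by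
    intro s
    apply (hLGm _).inter
    apply Finset.measurableSet_biInter
    intro t _
    apply (hLGm _).compl.union
    exact measurableSet_le (measurable_cnt hw _) (measurable_cnt hw _)
  have hcov : ∀ J, ∃ s, J ∈ S s := by
    intro J
    obtain ⟨s0, _, hs0⟩ := exists_LG B (cp J)
    obtain ⟨s1, hs1, hs1'⟩ := exists_pat (pat_spin s0) W
    have hs1LG : LG B (cp J) (pat s1) := LG_congr (fun x hx => hs1' x (hcl hx)) hs0
    obtain ⟨s, hs, hmax⟩ := Finset.exists_max_image
      (W.powerset.filter (fun t => LG B (cp J) (pat t))) (fun t => cnt Q ed (w J) (pat t))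
      ⟨s1, Finset.mem_filter.2 ⟨Finset.mem_powerset.2 hs1, hs1LG⟩⟩
    rw [Finset.mem_filter] at hs
    refine ⟨s, hs.2, ?_⟩
    simp only [mem_iInter]
    intro t ht
    by_cases htL : LG B (cp J) (pat t)
    · right
      exact hmax t (Finset.mem_filter.2 ⟨ht, htL⟩)
    · left
      exact htL
  obtain ⟨sel, hsel, hselm⟩ := exists_measurable_selection S hS hcov
  refine ⟨sel, hselm, fun J => (hsel J).1, ?_⟩
  intro J σ hσ hLG
  obtain ⟨t, ht, ht'⟩ := exists_pat hσ W
  have h1 : LG B (cp J) (pat t) := LG_congr (fun x hx => ht' x (hcl hx)) hLG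
  have h2 := (hsel J).2
  simp only [mem_iInter] at h2
  have h3 := h2 t (Finset.mem_powerset.2 ht)
  rcases h3 with h3 | h3
  · exact absurd h1 h3
  · have h4 : cnt Q ed (w J) σ = cnt Q ed (w J) (pat t) := by
      apply cnt_congr
      intro z hz
      show σ (ed z).1 * σ (tip (ed z)) = pat t (ed z).1 * pat t (tip (ed z))
      rw [ht' _ (hq1 z hz), ht' _ (hq2 z hz)]
    rw [h4]
    exact h3

/-- Functions of a measurable selection are measurable. -/
lemma measurable_of_sel {Ω β : Type*} [MeasurableSpace Ω] [MeasurableSpace β]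
    {sel : Ω → Finset V} (hsel : ∀ s, MeasurableSet {J | sel J = s})
    (F : Finset V → Ω → β) (hF : ∀ s, Measurable (F s)) :
    Measurable (fun J => F (sel J) J) := by
  intro U hU
  have : (fun J => F (sel J) J) ⁻¹' U = ⋃ s, ({J | sel J = s} ∩ (F s) ⁻¹' U) := by
    ext J
    simp only [mem_preimage, mem_iUnion, mem_inter_iff, mem_ofPred_eq]
    constructor
    · intro h; exact ⟨sel J, rfl, h⟩
    · rintro ⟨s, hs, h⟩; subst hs; exact h
  rw [this]
  exact MeasurableSet.iUnion (fun s => (hsel s).inter (hF s hU))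

end Pool.H66.EAM
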