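import Pool.Agent.Helper66.EAM.Alpha

set_option autoImplicit false
set_option linter.unusedSectionVars false

/-! Pairs of ground states which differ with positive upper density. -/

namespace Pool.H66.EAM

open MeasureTheory Set ProbabilityTheory Filter Topology
open scoped ENNReal

/-- Zero-one law for translation invariant events. -/
lemma inv_zero_one {Y : Type*} [MeasurableSpace Y] {ν : Measure Y} [IsProbabilityMeasure ν]
    {U : Set (E → Y)} (hU : MeasurableSet U) (hinv : ∀ (v : V) (ω : E → Y), shJ v ω ∈ U ↔ ω ∈ U) :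
    PJ ν U = 0 ∨ PJ ν U = 1 := by
  classical
  apply Pool.Agent.Helper42.EA.zero_one ν hU
  intro F
  obtain ⟨n, hn⟩ := exists_box (F.image Prod.fst)
  set v : V := fun _ => 2 * (n : ℤ) + 1 with hv
  refine ⟨⟨shE v, shE (-v), fun e => ?_, fun e => ?_⟩, ?_, ?_⟩
  · rw [shE_add, add_neg_cancel, shE_zero]
  · rw [shE_add, neg_add_cancel, shE_zero]
  · intro e he he'
    have h1 := mem_box.1 (hn (Finset.mem_image_of_mem Prod.fst he)) 0
    have h2 := mem_box.1 (hn (Finset.mem_image_of_mem Prod.fst he')) 0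
    have h4 : ((⟨shE v, shE (-v), fun e => by rw [shE_add, add_neg_cancel, shE_zero],
      fun e => by rw [shE_add, neg_add_cancel, shE_zero]⟩ : Equiv.Perm E) e).1 0
        = e.1 0 + (2 * (n : ℤ) + 1) := rfl
    rw [h4] at h2
    omega
  · intro J
    exact hinv v J

/-- Fraction of the bonds in direction `i` in the box on which `σ` and `τ` disagree. -/
noncomputable def dn (i : Fin 2) (M : ℕ) (σ τ : V → ℝ) : ℝ := by
  classical exact (((box M).filter (fun x => bond σ (x, i) ≠ bond τ (x, i))).card : ℝ) /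
    ((box M).card : ℝ)

open Classical in
/-- Indicator of a disagreement. -/
noncomputable def dI (i : Fin 2) (σ τ : V → ℝ) (x : V) : ℝ :=
  if bond σ (x, i) ≠ bond τ (x, i) then 1 else 0

lemma dI_nonneg (i : Fin 2) (σ τ : V → ℝ) (x : V) : 0 ≤ dI i σ τ x := by
  unfold dI; split_ifs <;> norm_num

lemma dI_le_one (i : Fin 2) (σ τ : V → ℝ) (x : V) : dI i σ τ x ≤ 1 := by
  unfold dI; split_ifs <;> norm_num

lemma dn_eq (i : Fin 2) (M : ℕ) (σ τ : V → ℝ) :
    dn i M σ τ = (∑ x ∈ box M, dI i σ τ x) / ((box M).card : ℝ) := by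
  classical
  unfold dn
  rw [Finset.card_filter]
  push_cast
  rfl

lemma dn_nonneg (i : Fin 2) (M : ℕ) (σ τ : V → ℝ) : 0 ≤ dn i M σ τ := by
  rw [dn_eq]
  exact div_nonneg (Finset.sum_nonneg (fun _ _ => dI_nonneg _ _ _ _)) (box_pos M).le

lemma dn_le_one (i : Fin 2) (M : ℕ) (σ τ : V → ℝ) : dn i M σ τ ≤ 1 := by
  rw [dn_eq, div_le_one (box_pos M)]
  calc _ ≤ ∑ x ∈ box M, (1 : ℝ) := Finset.sum_le_sum (fun _ _ => dI_le_one _ _ _ _)
    _ = ((box M).card : ℝ) := by simp

lemma dI_sh (i : Fin 2) (σ τ : V → ℝ) (v x : V) : dI i (shS v σ) (shS v τ) x = dI i σ τ (x + v) := by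
  unfold dI
  rw [bond_shS, bond_shS]
  rfl

lemma dn_shift {i : Fin 2} {σ τ : V → ℝ} (h : Tendsto (fun M => dn i M σ τ) atTop (𝓝 0)) (v : V) :
    Tendsto (fun M => dn i M (shS v σ) (shS v τ)) atTop (𝓝 0) := by
  obtain ⟨k, hk⟩ := exists_k v
  have h1 : Tendsto (fun M => dn i M σ τ + 1 * bd k M) atTop (𝓝 0) := by
    have := h.add ((bd_tendsto k).const_mul 1)
    simpa using this
  refine squeeze_zero' (Eventually.of_forall (fun M => dn_nonneg _ _ _ _)) ?_ h1
  filter_upwards [eventually_ge_atTop k] with M hM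
  have h2 := avg_shift hk zero_le_one (g := dI i σ τ) (C := 1) (fun x => by
    rw [abs_of_nonneg (dI_nonneg _ _ _ _)]; exact dI_le_one _ _ _ _) hM
  rw [dn_eq, dn_eq]
  simp_rw [dI_sh]
  rw [abs_le] at h2
  linarith [h2.2]

lemma measurable_dI (i : Fin 2) (x : V) : Measurable (fun p : X2 => dI i p.2.1 p.2.2 x) := by
  unfold dI
  apply Measurable.ite _ measurable_const measurable_const
  exact (measurableSet_eq_fun (measurable_bond (measurable_fst.comp measurable_snd) _)
    (measurable_bond (measurable_snd.comp measurable_snd) _)).compl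

lemma measurable_dn (i : Fin 2) (M : ℕ) : Measurable (fun p : X2 => dn i M p.2.1 p.2.2) := by
  simp_rw [dn_eq]
  exact (Finset.measurable_sum _ (fun x _ => measurable_dI i x)).div_const _

lemma measurableSet_WG2 : MeasurableSet {p : X2 | WG p.1 p.2.1 ∧ WG p.1 p.2.2} := by
  have hg : ∀ g : X2 → V → ℝ, Measurable g → MeasurableSet {p : X2 | WG p.1 (g p)} := by
    intro g hg
    have e1 : {p : X2 | WG p.1 (g p)} = g ⁻¹' {σ | IsSpin σ} ∩ ⋂ B : Finset V,
        ⋂ D ∈ B.powerset, {p : X2 | 0 ≤ ∑ e ∈ cut D, p.1 e * bond (g p) e} := by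
      ext p
      simp only [mem_inter_iff, mem_preimage, mem_ofPred_eq, mem_iInter, Finset.mem_powerset]
      rfl
    rw [e1]
    refine (hg isClosed_spin.measurableSet).inter (MeasurableSet.iInter (fun B => ?_))
    apply Finset.measurableSet_biInter
    intro D _
    apply measurableSet_le measurable_const
    apply Finset.measurable_sum
    intro e _
    exact ((measurable_pi_apply e).comp measurable_fst).mul (measurable_bond hg e)
  exact (hg _ (measurable_fst.comp measurable_snd)).inter (hg _ (measurable_snd.comp measurable_snd))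

variable {μ : Measure ℝ} [IsProbabilityMeasure μ]

lemma Stat2.integral_tr {Q : Measure X2} (h : Stat2 μ Q) (v : V) {F : X2 → ℝ}
    (hF : Measurable F) : ∫ p, F (tr v p) ∂Q = ∫ p, F p ∂Q := by
  have h1 := integral_map (μ := Q) (measurable_tr v).aemeasurable (f := F) hF.aestronglyMeasurable
  rw [h.inv v] at h1
  exact h1.symm

/-- If a translation invariant pair disagrees at a bond, it disagrees with positive density. -/
lemma pos_of_dis {Q : Measure X2} (h : Stat2 μ Q) {i : Fin 2}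
    (h0 : ∀ᵐ p ∂Q, Tendsto (fun M => dn i M p.2.1 p.2.2) atTop (𝓝 0)) :
    ∀ᵐ p ∂Q, bond p.2.1 (0, i) = bond p.2.2 (0, i) := by
  have := h.prob
  have hI : ∀ x, Integrable (fun p : X2 => dI i p.2.1 p.2.2 x) Q := fun x =>
    Integrable.of_bound (measurable_dI i x).aestronglyMeasurable 1 (ae_of_all _ (fun p => by
      rw [Real.norm_eq_abs, abs_of_nonneg (dI_nonneg _ _ _ _)]; exact dI_le_one _ _ _ _))
  have hx : ∀ x : V, ∫ p, dI i p.2.1 p.2.2 x ∂Q = ∫ p, dI i p.2.1 p.2.2 0 ∂Q := by
    intro x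
    rw [← h.integral_tr x (F := fun p : X2 => dI i p.2.1 p.2.2 0) (measurable_dI i 0)]
    congr 1
    funext p
    show _ = dI i (shS x p.2.1) (shS x p.2.2) 0
    rw [dI_sh, zero_add]
  have hconst : ∀ M : ℕ, ∫ p, dn i M p.2.1 p.2.2 ∂Q = ∫ p, dI i p.2.1 p.2.2 0 ∂Q := by
    intro M
    simp_rw [dn_eq]
    rw [integral_div, integral_finsetSum _ (fun x _ => hI x)]
    simp_rw [hx]
    rw [Finset.sum_const, nsmul_eq_mul, mul_div_assoc, mul_comm, div_mul_cancel₀]
    exact (box_pos M).ne'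
  have hlim : Tendsto (fun M : ℕ => ∫ p, dn i M p.2.1 p.2.2 ∂Q) atTop
      (𝓝 (∫ _, (0 : ℝ) ∂Q)) := by
    apply tendsto_integral_of_dominated_convergence (fun _ => (1 : ℝ))
    · intro M; exact (measurable_dn i M).aestronglyMeasurable
    · exact integrable_const 1
    · intro M
      apply ae_of_all
      intro p
      rw [Real.norm_eq_abs, abs_of_nonneg (dn_nonneg _ _ _ _)]
      exact dn_le_one _ _ _ _
    · exact h0
  simp_rw [hconst] at hlim
  rw [integral_zero] at hlim
  have h1 : ∫ p, dI i p.2.1 p.2.2 0 ∂Q = 0 := tendsto_nhds_unique tendsto_const_nhds hlim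
  rw [integral_eq_zero_iff_of_nonneg (fun p => dI_nonneg _ _ _ _) (hI 0)] at h1
  filter_upwards [h1] with p hp
  by_contra hne
  have : dI i p.2.1 p.2.2 0 = 1 := by unfold dI; rw [if_pos hne]
  rw [this] at hp
  norm_num at hp

/-- If not all translation invariant pairs agree, then almost surely there are two ground states
which differ with positive upper density. -/
theorem exists_incongruent (hμ : ∀ x, μ {x} = 0) (H : ¬ Agree μ) :
    ∀ᵐ J ∂(PJ μ), ∃ σ τ : V → ℝ, IsGroundState J σ ∧ IsGroundState J τ ∧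
      ∃ i : Fin 2, ¬ Tendsto (fun M => dn i M σ τ) atTop (𝓝 0) := by
  unfold Agree at H
  push Not at H
  obtain ⟨Q, hQ, hne⟩ := H
  have hprob := hQ.prob
  -- some direction has positive density
  have h1 : ∃ i : Fin 2, ¬ ∀ᵐ p ∂Q, Tendsto (fun M => dn i M p.2.1 p.2.2) atTop (𝓝 0) := by
    by_contra hcon
    push Not at hcon
    apply hne
    have h2 : ∀ᵐ p ∂Q, ∀ (x : V) (i : Fin 2), bond p.2.1 (x, i) = bond p.2.2 (x, i) := by
      rw [ae_all_iff]
      intro x
      rw [ae_all_iff]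
      intro i
      have h3 := pos_of_dis hQ (i := i) (by
        have := hcon i
        exact this)
      rw [← hQ.inv x] at h3
      have h4 := ae_of_ae_map (measurable_tr x).aemeasurable h3
      filter_upwards [h4] with p hp
      have h5 : bond (shS x p.2.1) (0, i) = bond (shS x p.2.2) (0, i) := hp
      rwa [bond_shS_zero, bond_shS_zero] at h5
    filter_upwards [h2, hQ.wg] with p h3 h4
    intro h5
    have h6 : ∀ e, bond p.2.2 e = bond p.2.1 e := by
      rintro ⟨x, i⟩
      exact (h3 x i).symm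
    rcases eq_or_neg h4.1.1 h4.2.1 h6 with h7 | h7
    · exact h5.1 h7
    · exact h5.2 h7
  obtain ⟨i, hi⟩ := h1
  set S : Set X2 := {p | WG p.1 p.2.1 ∧ WG p.1 p.2.2} ∩
    {p | Tendsto (fun M => dn i M p.2.1 p.2.2) atTop (𝓝 0)}ᶜ with hS
  have hSm : MeasurableSet S :=
    measurableSet_WG2.inter (measurableSet_tendsto _ (fun M => measurable_dn i M)).compl
  have hSpos : Q S ≠ 0 := by
    intro h0
    apply hi
    have h2 : ∀ᵐ p ∂Q, p ∉ S := measure_eq_zero_iff_ae_notMem.1 h0
    filter_upwards [h2, hQ.wg] with p h3 h4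
    by_contra h5
    exact h3 ⟨h4, h5⟩
  set U0 : Set (E → ℝ) := {J | Q.condKernel J {y | (J, y) ∈ S} ≠ 0} with hU0
  have hmeas : Measurable (fun J : E → ℝ => Q.condKernel J {y | (J, y) ∈ S}) :=
    ProbabilityTheory.Kernel.measurable_kernel_prodMk_left hSm
  have hU0m : MeasurableSet U0 := (measurableSet_eq_fun hmeas measurable_const).compl
  have hU0pos : PJ μ U0 ≠ 0 := by
    intro h0
    apply hSpos
    have h2 := Measure.lintegral_condKernel_mem (ρ := Q) hSm
    rw [← h2]
    have h3 : Q.fst = PJ μ := hQ.marg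
    rw [h3]
    rw [lintegral_eq_zero_iff hmeas]
    have h4 : ∀ᵐ J ∂(PJ μ), J ∉ U0 := measure_eq_zero_iff_ae_notMem.1 h0
    filter_upwards [h4] with J hJ
    exact not_not.1 hJ
  set U : Set (E → ℝ) := ⋃ v : V, (shJ v) ⁻¹' U0 with hU
  have hUm : MeasurableSet U := MeasurableSet.iUnion (fun v => measurable_shJ v hU0m)
  have hUinv : ∀ (v : V) (J : E → ℝ), shJ v J ∈ U ↔ J ∈ U := by
    intro v J
    rw [hU, mem_iUnion, mem_iUnion]
    constructor
    · rintro ⟨w, hw⟩
      rw [mem_preimage, shJ_shJ] at hw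
      exact ⟨w + v, hw⟩
    · rintro ⟨w, hw⟩
      refine ⟨w - v, ?_⟩
      rw [mem_preimage, shJ_shJ, sub_add_cancel]
      exact hw
  have hUone : PJ μ U = 1 := by
    rcases inv_zero_one (ν := μ) hUm hUinv with h | h
    · exfalso
      apply hU0pos
      refine measure_mono_null ?_ h
      intro J hJ
      rw [hU, mem_iUnion]
      refine ⟨0, ?_⟩
      have : shJ 0 J = J := by funext e; unfold shJ; simp
      rw [mem_preimage, this]
      exact hJ
    · exact h
  have hUae : ∀ᵐ J ∂(PJ μ), J ∈ U := (prob_compl_eq_zero_iff hUm).2 hUone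
  filter_upwards [hUae, generic (ν := μ) (q := id) hμ measurable_id] with J h2 h3
  rw [hU, mem_iUnion] at h2
  obtain ⟨v, hv⟩ := h2
  have h4 : Q.condKernel (shJ v J) {y | (shJ v J, y) ∈ S} ≠ 0 := hv
  obtain ⟨y, hy⟩ := nonempty_of_measure_ne_zero h4
  have hy' : (shJ v J, y) ∈ S := hy
  obtain ⟨⟨h5, h6⟩, h7⟩ := hy'
  have h5' : WG (shJ v J) y.1 := h5
  have h6' : WG (shJ v J) y.2 := h6
  have h8 := h5'.sh (-v)
  have h9 := h6'.sh (-v)
  rw [shJ_neg_cancel] at h8 h9
  refine ⟨_, _, h3 _ h8, h3 _ h9, i, fun h10 => h7 ?_⟩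
  have h11 := dn_shift h10 v
  rw [shS_neg_cancel', shS_neg_cancel'] at h11
  exact h11

end Pool.H66.EAM
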