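import Pool.Agent.Helper66.EAM.TiltFin

set_option autoImplicit false
set_option linter.unusedSectionVars false

/-! Splicing and the tilt on an infinite product. -/

namespace Pool.H66.EAM

open MeasureTheory Set ProbabilityTheory
open scoped ENNReal

section Splice

variable {ι : Type*} {Y : Type*}

/-- Replace the coordinates in `T` by `x`. -/
noncomputable def spl (T : Finset ι) (J : ι → Y) (x : T → Y) : ι → Y := by
  classical exact fun e => if h : e ∈ T then x ⟨e, h⟩ else J e

lemma spl_mem {T : Finset ι} {J : ι → Y} {x : T → Y} {e : ι} (h : e ∈ T) :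
    spl T J x e = x ⟨e, h⟩ := by
  unfold spl; rw [dif_pos h]

lemma spl_coe {T : Finset ι} {J : ι → Y} {x : T → Y} (e : T) :
    spl T J x e = x e := spl_mem e.2

lemma spl_notMem {T : Finset ι} {J : ι → Y} {x : T → Y} {e : ι} (h : e ∉ T) :
    spl T J x e = J e := by
  unfold spl; rw [dif_neg h]

lemma measurable_spl [MeasurableSpace Y] (T : Finset ι) :
    Measurable (fun p : (ι → Y) × (T → Y) => spl T p.1 p.2) := by
  apply measurable_pi_lambda
  intro e
  by_cases h : e ∈ T
  · simp_rw [spl_mem h]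
    exact (measurable_pi_apply _).comp measurable_snd
  · simp_rw [spl_notMem h]
    exact (measurable_pi_apply _).comp measurable_fst

variable [MeasurableSpace Y] (μ : Measure Y) [IsProbabilityMeasure μ]

theorem spl_map (T : Finset ι) :
    ((Measure.infinitePi fun _ : ι => μ).prod (Measure.pi fun _ : T => μ)).map
      (fun p => spl T p.1 p.2) = Measure.infinitePi (fun _ : ι => μ) := by
  classical
  apply Measure.eq_infinitePi
  intro S t ht
  rw [Measure.map_apply (measurable_spl T)
    (MeasurableSet.pi S.countable_toSet (fun i _ => ht i))]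
  have hpre : (fun p : (ι → Y) × (T → Y) => spl T p.1 p.2) ⁻¹' (Set.pi S t)
      = (Set.pi (↑(S \ T)) t) ×ˢ
        (Set.pi univ (fun i : T => if (i : ι) ∈ S then t i else univ)) := by
    ext ⟨J, x⟩
    simp only [mem_preimage, Set.mem_pi, Finset.mem_coe, mem_prod, Finset.mem_sdiff, mem_univ,
      forall_const]
    constructor
    · intro h
      refine ⟨fun i hi => ?_, fun i => ?_⟩
      · have := h i hi.1
        rwa [spl_notMem hi.2] at this
      · split_ifs with hiS
        · have := h i hiS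
          rwa [spl_coe] at this
        · exact mem_univ _
    · rintro ⟨h1, h2⟩ i hi
      by_cases hiT : i ∈ T
      · rw [spl_mem hiT]
        have := h2 ⟨i, hiT⟩
        rwa [if_pos hi] at this
      · rw [spl_notMem hiT]
        exact h1 i ⟨hi, hiT⟩
  rw [hpre, Measure.prod_prod, Measure.infinitePi_pi _ (fun i _ => ht i), Measure.pi_pi]
  have h2 : ∏ i : T, μ (if (i : ι) ∈ S then t i else univ)
      = ∏ i ∈ T, (if i ∈ S then μ (t i) else 1) := by
    rw [← Finset.prod_coe_sort T (fun i => if i ∈ S then μ (t i) else 1)]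
    apply Finset.prod_congr rfl
    intro i _
    split_ifs
    · rfl
    · exact measure_univ
  rw [h2, ← Finset.prod_filter, Finset.filter_mem_eq_inter, Finset.inter_comm, mul_comm]
  exact Finset.prod_inter_mul_prod_sdiff S T _

theorem lintegral_spl (T : Finset ι) (F : (ι → Y) → ℝ≥0∞) (hF : Measurable F) :
    ∫⁻ J, F J ∂(Measure.infinitePi fun _ : ι => μ)
      = ∫⁻ J, ∫⁻ x, F (spl T J x) ∂(Measure.pi fun _ : T => μ)
        ∂(Measure.infinitePi fun _ : ι => μ) := by
  conv_lhs => rw [← spl_map μ T]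
  rw [lintegral_map hF (measurable_spl T)]
  exact lintegral_prod (fun p : (ι → Y) × (T → Y) => F (spl T p.1 p.2))
    (hF.comp (measurable_spl T)).aemeasurable

variable {q : Y → ℝ} {A A' : Set Y} {s : ℝ}

/-- The density of the tilted law. -/
noncomputable def DD (μ : Measure Y) (q : Y → ℝ) (A A' : Set Y) (s : ℝ) (Hs : ι → Set (ι → Y)) (T : Finset ι)
    (J : ι → Y) : ℝ≥0∞ := by
  classical exact ∏ w ∈ T, (if J ∈ Hs w then dens μ q A A' s (J w) else 1)

lemma measurable_DD (hq : Measurable q) (hA : MeasurableSet A) (hA' : MeasurableSet A') {Hs : ι → Set (ι → Y)}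
    (hHs : ∀ e, MeasurableSet (Hs e)) (T : Finset ι) : Measurable (DD μ q A A' s Hs T) := by
  classical
  unfold DD
  apply Finset.measurable_prod
  intro w _
  apply Measurable.ite (hHs w) ((measurable_dens hq hA hA').comp (measurable_pi_apply w))
    measurable_const

lemma DD_spl {Hs : ι → Set (ι → Y)} {T : Finset ι}
    (hHsT : ∀ e ∈ T, ∀ J J' : ι → Y, (∀ i ∉ T, J i = J' i) → (J ∈ Hs e ↔ J' ∈ Hs e))
    [DecidableEq ι] (J : ι → Y) (x : T → Y) [DecidablePred fun e : T => J ∈ Hs e] :
    DD μ q A A' s Hs T (spl T J x)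
      = ∏ w ∈ (Finset.univ : Finset T).filter (fun e : T => J ∈ Hs e), dens μ q A A' s (x w) := by
  classical
  unfold DD
  rw [Finset.prod_filter, ← Finset.prod_coe_sort T]
  apply Finset.prod_congr rfl
  intro w _
  have : spl T J x ∈ Hs w ↔ J ∈ Hs w := hHsT w w.2 _ _ (fun i hi => spl_notMem hi)
  by_cases h : J ∈ Hs w
  · rw [if_pos h, if_pos (this.2 h), spl_coe]
  · rw [if_neg h, if_neg (fun h' => h (this.1 h'))]

theorem tilt_inf [MeasurableEq Y] {δ : ℝ} (hδ : 0 < δ) (hs : 0 ≤ s)
    (hsδ : s ≤ δ) (hq : Measurable q) (hA : MeasurableSet A) (hA' : MeasurableSet A')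
    (h : ∀ x ∈ A, ∀ y ∈ A', q x + δ ≤ q y) (T : Finset ι) (Hs : ι → Set (ι → Y))
    (hHs : ∀ e, MeasurableSet (Hs e))
    (hHsT : ∀ e ∈ T, ∀ J J' : ι → Y, (∀ i ∉ T, J i = J' i) → (J ∈ Hs e ↔ J' ∈ Hs e))
    (f g : ι → (ι → Y) → ℝ≥0∞)
    (C : (ι → Y) → ℝ≥0∞) (hf : ∀ e, Measurable (f e)) (hg : ∀ e, Measurable (g e))
    (hC : Measurable C)
    (hineq : ∀ J J' : ι → Y, (∀ i ∉ T, J i = J' i) →
      (∀ i ∈ T, J i = J' i ∨ (J ∈ Hs i ∧ J i ∈ A ∧ J' i ∈ A')) →
      ∑ e ∈ T, (Hs e).indicator 1 J * (ENNReal.ofReal (q (J' e) - q (J e)) * f e J)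
        ≤ ∑ e ∈ T, (Hs e).indicator 1 J * (ENNReal.ofReal (q (J' e) - q (J e)) * g e J') + C J) :
    ENNReal.ofReal s * μ A' * ∫⁻ J, ∑ e ∈ T, (Hs e).indicator 1 J *
        (A.indicator 1 (J e) * f e J) ∂(Measure.infinitePi fun _ : ι => μ)
      ≤ ENNReal.ofReal s * μ A * ∫⁻ J, DD μ q A A' s Hs T J *
          ∑ e ∈ T, (Hs e).indicator 1 J * (A'.indicator 1 (J e) * g e J)
            ∂(Measure.infinitePi fun _ : ι => μ)
        + ∫⁻ J, C J ∂(Measure.infinitePi fun _ : ι => μ) := by
  classical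
  have hind1 : ∀ S : Set Y, MeasurableSet S → Measurable (S.indicator (1 : Y → ℝ≥0∞)) :=
    fun S hS => measurable_one.indicator hS
  have hindH : ∀ e, Measurable ((Hs e).indicator (1 : (ι → Y) → ℝ≥0∞)) :=
    fun e => measurable_one.indicator (hHs e)
  have mL : Measurable (fun J : ι → Y => ∑ e ∈ T, (Hs e).indicator 1 J *
        (A.indicator 1 (J e) * f e J)) :=
    Finset.measurable_sum _ (fun e _ => (hindH e).mul
      (((hind1 A hA).comp (measurable_pi_apply e)).mul (hf e)))
  have mS : Measurable (fun J : ι → Y =>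
          ∑ e ∈ T, (Hs e).indicator 1 J * (A'.indicator 1 (J e) * g e J)) :=
    (Finset.measurable_sum _ (fun e _ => (hindH e).mul
      (((hind1 A' hA').comp (measurable_pi_apply e)).mul (hg e))))
  have mR : Measurable (fun J : ι → Y => DD μ q A A' s Hs T J *
          ∑ e ∈ T, (Hs e).indicator 1 J * (A'.indicator 1 (J e) * g e J)) :=
    (measurable_DD μ hq hA hA' hHs T).mul mS
  rw [lintegral_spl μ T _ mL, lintegral_spl μ T _ mR, lintegral_spl μ T _ hC]
  have mL' : Measurable (fun J : ι → Y => ∫⁻ x, ∑ e ∈ T, (Hs e).indicator 1 (spl T J x) *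
        (A.indicator 1 (spl T J x e) * f e (spl T J x)) ∂(Measure.pi fun _ : T => μ)) :=
    (mL.comp (measurable_spl T)).lintegral_prod_right'
  have mR' : Measurable (fun J : ι → Y => ∫⁻ x, DD μ q A A' s Hs T (spl T J x) *
          ∑ e ∈ T, (Hs e).indicator 1 (spl T J x) * (A'.indicator 1 (spl T J x e) *
            g e (spl T J x)) ∂(Measure.pi fun _ : T => μ)) :=
    (mR.comp (measurable_spl T)).lintegral_prod_right'
  have mC' : Measurable (fun J : ι → Y => ∫⁻ x, C (spl T J x) ∂(Measure.pi fun _ : T => μ)) :=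
    (hC.comp (measurable_spl T)).lintegral_prod_right'
  rw [← lintegral_const_mul _ mL', ← lintegral_const_mul _ mR', ← lintegral_add_right _ mC']
  apply lintegral_mono
  intro J
  -- fixed J
  have msp : Measurable (fun x : T → Y => spl T J x) :=
    (measurable_spl T).comp (measurable_const.prodMk measurable_id)
  have hHspl : ∀ (e : T) (x : T → Y), (Hs e).indicator (1 : (ι → Y) → ℝ≥0∞) (spl T J x)
      = if J ∈ Hs e then 1 else 0 := by
    intro e x
    have : spl T J x ∈ Hs e ↔ J ∈ Hs e := hHsT e e.2 _ _ (fun i hi => spl_notMem hi)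
    by_cases hJ : J ∈ Hs e
    · rw [if_pos hJ, indicator_of_mem (this.2 hJ)]; rfl
    · rw [if_neg hJ, indicator_of_notMem (fun h' => hJ (this.1 h'))]
  have sumT : ∀ (u : ι → ℝ≥0∞) (x : T → Y),
      ∑ e ∈ T, (Hs e).indicator (1 : (ι → Y) → ℝ≥0∞) (spl T J x) * u e
        = ∑ e ∈ (Finset.univ : Finset T).filter (fun e : T => J ∈ Hs e), u e := by
    intro u x
    rw [Finset.sum_filter, ← Finset.sum_coe_sort T]
    apply Finset.sum_congr rfl
    intro e _
    rw [hHspl]
    split_ifs <;> simp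
  have key := tilt_fin (κ := T) (μ := μ) hδ hs hsδ hq hA hA' h
    ((Finset.univ : Finset T).filter (fun e : T => J ∈ Hs e))
    (fun e x => f e (spl T J x)) (fun e x => g e (spl T J x)) (fun x => C (spl T J x))
    (fun e => (hf e).comp msp) (fun e => (hg e).comp msp) (hC.comp msp)
    (by
      intro x x' hx
      have h1 := hineq (spl T J x) (spl T J x')
        (fun i hi => by rw [spl_notMem hi, spl_notMem hi])
        (by
          intro i hi
          rw [spl_mem hi, spl_mem hi]
          rcases hx ⟨i, hi⟩ with h | ⟨h1, h2, h3⟩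
          · exact Or.inl h
          · right
            refine ⟨?_, h2, h3⟩
            rw [Finset.mem_filter] at h1
            exact (hHsT i hi _ _ (fun j hj => spl_notMem hj)).2 h1.2)
      rw [sumT (fun e => ENNReal.ofReal (q (spl T J x' e) - q (spl T J x e)) * f e (spl T J x)) x,
        sumT (fun e => ENNReal.ofReal (q (spl T J x' e) - q (spl T J x e)) * g e (spl T J x')) x] at h1
      simp_rw [spl_coe] at h1
      exact h1)
  have eL : ∫⁻ x, ∑ e ∈ T, (Hs e).indicator 1 (spl T J x) *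
        (A.indicator 1 (spl T J x e) * f e (spl T J x)) ∂(Measure.pi fun _ : T => μ)
      = ∑ e ∈ (Finset.univ : Finset T).filter (fun e : T => J ∈ Hs e),
        ∫⁻ x, A.indicator 1 (x e) * f e (spl T J x) ∂(Measure.pi fun _ : T => μ) := by
    rw [← lintegral_finsetSum]
    · apply lintegral_congr
      intro x
      rw [sumT (fun e => A.indicator 1 (spl T J x e) * f e (spl T J x)) x]
      apply Finset.sum_congr rfl
      intro e _
      rw [spl_coe]
    · intro e _
      exact ((hind1 A hA).comp (measurable_pi_apply e)).mul ((hf e).comp msp)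
  have eR : ∫⁻ x, DD μ q A A' s Hs T (spl T J x) *
          ∑ e ∈ T, (Hs e).indicator 1 (spl T J x) * (A'.indicator 1 (spl T J x e) *
            g e (spl T J x)) ∂(Measure.pi fun _ : T => μ)
      = ∑ e ∈ (Finset.univ : Finset T).filter (fun e : T => J ∈ Hs e),
        ∫⁻ x, (∏ w ∈ (Finset.univ : Finset T).filter (fun e : T => J ∈ Hs e),
          dens μ q A A' s (x w)) * (A'.indicator 1 (x e) * g e (spl T J x))
            ∂(Measure.pi fun _ : T => μ) := by
    rw [← lintegral_finsetSum]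
    · apply lintegral_congr
      intro x
      rw [sumT (fun e => A'.indicator 1 (spl T J x e) * g e (spl T J x)) x,
        DD_spl μ hHsT J x, Finset.mul_sum]
      apply Finset.sum_congr rfl
      intro e _
      rw [spl_coe]
    · intro e _
      exact (Finset.measurable_prod _ (fun w _ =>
        (measurable_dens hq hA hA').comp (measurable_pi_apply w))).mul
        (((hind1 A' hA').comp (measurable_pi_apply e)).mul ((hg e).comp msp))
  show ENNReal.ofReal s * μ A' * (∫⁻ x, ∑ e ∈ T, (Hs e).indicator 1 (spl T J x) *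
        (A.indicator 1 (spl T J x e) * f e (spl T J x)) ∂(Measure.pi fun _ : T => μ))
      ≤ ENNReal.ofReal s * μ A * (∫⁻ x, DD μ q A A' s Hs T (spl T J x) *
          ∑ e ∈ T, (Hs e).indicator 1 (spl T J x) * (A'.indicator 1 (spl T J x e) *
            g e (spl T J x)) ∂(Measure.pi fun _ : T => μ))
        + ∫⁻ x, C (spl T J x) ∂(Measure.pi fun _ : T => μ)
  rw [eL, eR]
  exact key

lemma lintegral_DD {δ : ℝ} (hδ : 0 < δ) (hs : 0 ≤ s)
    (hsδ : s ≤ δ) (hq : Measurable q) (hA : MeasurableSet A) (hA' : MeasurableSet A')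
    (h : ∀ x ∈ A, ∀ y ∈ A', q x + δ ≤ q y) (T : Finset ι) (Hs : ι → Set (ι → Y))
    (hHs : ∀ e, MeasurableSet (Hs e))
    (hHsT : ∀ e ∈ T, ∀ J J' : ι → Y, (∀ i ∉ T, J i = J' i) → (J ∈ Hs e ↔ J' ∈ Hs e)) :
    ∫⁻ J, DD μ q A A' s Hs T J ∂(Measure.infinitePi fun _ : ι => μ) = 1 := by
  classical
  rw [lintegral_spl μ T _ (measurable_DD μ hq hA hA' hHs T)]
  have : ∀ J : ι → Y, ∫⁻ x, DD μ q A A' s Hs T (spl T J x) ∂(Measure.pi fun _ : T => μ) = 1 := by
    intro J
    simp_rw [DD_spl μ hHsT J]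
    have hind : iIndepFun (fun (i : T) (x : T → Y) => dens μ q A A' s (x i))
        (Measure.pi fun _ : T => μ) :=
      iIndepFun_pi (X := fun _ => dens μ q A A' s)
        (fun i => (measurable_dens hq hA hA').aemeasurable)
    rw [lintegral_prod_eq_prod_lintegral_of_indepFun _ _ hind
      (fun i => (measurable_dens hq hA hA').comp (measurable_pi_apply i))]
    apply Finset.prod_eq_one
    intro i _
    have := (measurePreserving_eval (fun _ : T => μ) i).lintegral_comp
      (measurable_dens (μ := μ) (s := s) hq hA hA')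
    exact this.trans (lintegral_dens hδ hs hsδ hq hA hA' h)
  simp_rw [this]
  simp

lemma lintegral_DD_sq_le {δ : ℝ} (hδ : 0 < δ) (hs : 0 ≤ s)
    (hsδ : s ≤ δ) (hq : Measurable q) (hA : MeasurableSet A) (hA' : MeasurableSet A')
    (h : ∀ x ∈ A, ∀ y ∈ A', q x + δ ≤ q y) (T : Finset ι) (Hs : ι → Set (ι → Y))
    (hHs : ∀ e, MeasurableSet (Hs e))
    (hHsT : ∀ e ∈ T, ∀ J J' : ι → Y, (∀ i ∉ T, J i = J' i) → (J ∈ Hs e ↔ J' ∈ Hs e)) :
    ∫⁻ J, DD μ q A A' s Hs T J ^ 2 ∂(Measure.infinitePi fun _ : ι => μ)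
      ≤ ENNReal.ofReal ((1 + (s / δ) ^ 2) ^ T.card) := by
  classical
  rw [lintegral_spl μ T _ ((measurable_DD μ hq hA hA' hHs T).pow_const 2)]
  have : ∀ J : ι → Y, ∫⁻ x, DD μ q A A' s Hs T (spl T J x) ^ 2 ∂(Measure.pi fun _ : T => μ)
      ≤ ENNReal.ofReal ((1 + (s / δ) ^ 2) ^ T.card) := by
    intro J
    simp_rw [DD_spl μ hHsT J, ← Finset.prod_pow]
    have hind : iIndepFun (fun (i : T) (x : T → Y) => dens μ q A A' s (x i) ^ 2)
        (Measure.pi fun _ : T => μ) :=
      iIndepFun_pi (X := fun _ x => dens μ q A A' s x ^ 2)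
        (fun i => ((measurable_dens hq hA hA').pow_const 2).aemeasurable)
    rw [lintegral_prod_eq_prod_lintegral_of_indepFun _ _ hind
      (fun i => ((measurable_dens hq hA hA').pow_const 2).comp (measurable_pi_apply i))]
    have h1 : ∀ i : T, ∫⁻ x, dens μ q A A' s (x i) ^ 2 ∂(Measure.pi fun _ : T => μ)
        ≤ ENNReal.ofReal (1 + (s / δ) ^ 2) := by
      intro i
      have := (measurePreserving_eval (fun _ : T => μ) i).lintegral_comp
        ((measurable_dens (μ := μ) (s := s) hq hA hA').pow_const 2)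
      exact this.le.trans (lintegral_dens_sq_le hδ hs hsδ hq hA hA' h)
    calc ∏ i ∈ (Finset.univ : Finset T).filter (fun e : T => J ∈ Hs e),
          ∫⁻ x, dens μ q A A' s (x i) ^ 2 ∂(Measure.pi fun _ : T => μ)
        ≤ ∏ i ∈ (Finset.univ : Finset T).filter (fun e : T => J ∈ Hs e),
          ENNReal.ofReal (1 + (s / δ) ^ 2) := Finset.prod_le_prod' (fun i _ => h1 i)
      _ ≤ ∏ i ∈ (Finset.univ : Finset T), ENNReal.ofReal (1 + (s / δ) ^ 2) := by
          apply Finset.prod_le_prod_of_subset_of_one_le' (Finset.filter_subset _ _)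
          intro i _ _
          rw [← ENNReal.ofReal_one]
          apply ENNReal.ofReal_le_ofReal
          have : 0 ≤ (s / δ) ^ 2 := sq_nonneg _
          linarith
      _ = ENNReal.ofReal ((1 + (s / δ) ^ 2) ^ T.card) := by
          rw [Finset.prod_const, ENNReal.ofReal_pow (by positivity), Finset.card_univ,
            Fintype.card_coe]
  calc ∫⁻ J, ∫⁻ x, DD μ q A A' s Hs T (spl T J x) ^ 2 ∂(Measure.pi fun _ : T => μ)
        ∂(Measure.infinitePi fun _ : ι => μ)
      ≤ ∫⁻ J, ENNReal.ofReal ((1 + (s / δ) ^ 2) ^ T.card) ∂(Measure.infinitePi fun _ : ι => μ) :=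
        lintegral_mono this
    _ = _ := by simp

end Splice

end Pool.H66.EAM
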