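import Pool.Agent.Helper66.EAM.Lim
import Pool.Agent.Helper66.EAM.Splice

set_option autoImplicit false
set_option linter.unusedSectionVars false

/-! The tilted comparison inequality. -/

namespace Pool.H66.EAM

open MeasureTheory Set ProbabilityTheory Filter Topology
open scoped ENNReal

variable {Y : Type*} [MeasurableSpace Y]

/-- A family of regions with cheap boundaries. -/
structure Reg (μ : Measure Y) [IsProbabilityMeasure μ] (q : Y → ℝ) (n : ℕ) (ρ : ℕ → ℕ)
    (K : ℝ) where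
  R : ℕ → (E → Y) → Finset V
  G : ℕ → Set (E → Y)
  C0 : ℝ
  hC0 : 0 ≤ C0
  hG : ∀ N, MeasurableSet (G N)
  inner : ∀ N J, box (n * N + 1) ⊆ R N J
  outer : ∀ N, ∀ J ∈ G N, R N J ⊆ box (ρ N)
  inv : ∀ N (J J' : E → Y), (∀ e, J e = J' e ∨ (|q (J e)| ≤ K ∧ |q (J' e)| ≤ K)) → R N J = R N J'
  invG : ∀ N (J J' : E → Y), (∀ e, J e = J' e ∨ (|q (J e)| ≤ K ∧ |q (J' e)| ≤ K)) → J ∈ G N → J' ∈ G N
  hcost : ∀ N, Measurable (fun J : E → Y => ∑ e ∈ cut (R N J), |q (J e)|)
  cost : ∀ N, ∫⁻ J in G N, ENNReal.ofReal (∑ e ∈ cut (R N J), |q (J e)|) ∂(PJ μ)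
    ≤ ENNReal.ofReal (C0 * ((N : ℝ) + 1))
  prob : Tendsto (fun N => (PJ μ).real (G N)ᶜ) atTop (𝓝 0)

/-- The basic observable `1_H(J) 1_A(J_{e_0})`. -/
noncomputable def ph (i : Fin 2) (Hset : Set (E → Y)) (A : Set Y) (J : E → Y) : ℝ :=
  Hset.indicator 1 J * A.indicator 1 (J (0, i))

/-- The shifted event attached to an edge. -/
def HS (Hset : Set (E → Y)) (e : E) : Set (E → Y) := {J | shJ e.1 J ∈ Hset}

/-- The edges to be tilted. -/
noncomputable def TT (n : ℕ) (i : Fin 2) (N : ℕ) : Finset E := (box N).image (sub n i)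

lemma ind_nonneg {α : Type*} (S : Set α) (x : α) : 0 ≤ S.indicator (1 : α → ℝ) x :=
  indicator_nonneg (fun _ _ => zero_le_one) x

lemma ind_le_one {α : Type*} (S : Set α) (x : α) : S.indicator (1 : α → ℝ) x ≤ 1 := by
  by_cases h : x ∈ S
  · rw [indicator_of_mem h]; rfl
  · rw [indicator_of_notMem h]; exact zero_le_one

lemma ph_nonneg (i : Fin 2) (Hset : Set (E → Y)) (A : Set Y) (J : E → Y) : 0 ≤ ph i Hset A J :=
  mul_nonneg (ind_nonneg _ _) (ind_nonneg _ _)

lemma ph_le_one (i : Fin 2) (Hset : Set (E → Y)) (A : Set Y) (J : E → Y) : ph i Hset A J ≤ 1 :=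
  mul_le_one₀ (ind_le_one _ _) (ind_nonneg _ _) (ind_le_one _ _)

lemma measurable_ph (i : Fin 2) {Hset : Set (E → Y)} {A : Set Y} (hH : MeasurableSet Hset)
    (hA : MeasurableSet A) : Measurable (ph i Hset A) :=
  (measurable_one.indicator hH).mul
    ((measurable_one.indicator hA).comp (measurable_pi_apply _))

lemma ind_ofReal {α : Type*} (S : Set α) (x : α) :
    S.indicator (1 : α → ℝ≥0∞) x = ENNReal.ofReal (S.indicator (1 : α → ℝ) x) := by
  by_cases h : x ∈ S
  · rw [indicator_of_mem h, indicator_of_mem h]; simp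
  · rw [indicator_of_notMem h, indicator_of_notMem h]; simp

lemma sum_TT {n : ℕ} (hn : 0 < n) (i : Fin 2) (N : ℕ) {Hset : Set (E → Y)} {A : Set Y}
    (J : E → Y) {σ : V → ℝ} (hσ : IsSpin σ) :
    ∑ e ∈ TT n i N, (HS Hset e).indicator (1 : (E → Y) → ℝ≥0∞) J *
        (A.indicator (1 : Y → ℝ≥0∞) (J e) * ENNReal.ofReal (av σ e))
      = ENNReal.ofReal (St n i (ph i Hset A) N J σ) := by
  unfold TT St cnt
  rw [Finset.sum_image (fun a _ b _ h => sub_injective hn i h),
    ENNReal.ofReal_sum_of_nonneg (fun z _ => mul_nonneg (ph_nonneg _ _ _ _) (av_nonneg hσ _))]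
  apply Finset.sum_congr rfl
  intro z _
  rw [ind_ofReal, ind_ofReal, ENNReal.ofReal_mul (ph_nonneg _ _ _ _)]
  unfold ph
  rw [ENNReal.ofReal_mul (ind_nonneg _ _), mul_assoc]
  have h1 : shJ ((n : ℤ) • z) J (0, i) = J (sub n i z) := by
    unfold shJ sub; simp
  have h2 : (HS Hset (sub n i z)).indicator (1 : (E → Y) → ℝ) J
      = Hset.indicator 1 (shJ ((n : ℤ) • z) J) := rfl
  rw [h1, h2]

lemma box_smul_inner {n : ℕ} {i : Fin 2} {N : ℕ} {z : V} (hz : z ∈ box N) :
    (sub n i z).1 ∈ box (n * N + 1) ∧ tip (sub n i z) ∈ box (n * N + 1) := by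
  rw [mem_box] at hz
  have hn : (0 : ℤ) ≤ n := Int.natCast_nonneg n
  constructor
  · rw [mem_box]
    intro j
    have := hz j
    simp only [sub, Pi.smul_apply, smul_eq_mul]
    push_cast
    constructor <;> nlinarith [mul_le_mul_of_nonneg_left this.1 hn,
      mul_le_mul_of_nonneg_left this.2 hn]
  · rw [mem_box]
    intro j
    have := hz j
    simp only [sub, tip, Pi.smul_apply, smul_eq_mul, Pi.add_apply]
    push_cast
    have hs : (Pi.single i (1 : ℤ) : Fin 2 → ℤ) j = 0 ∨ (Pi.single i (1 : ℤ) : Fin 2 → ℤ) j = 1 := by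
      by_cases h : j = i
      · subst h; right; simp
      · left; simp [Pi.single_eq_of_ne h]
    rcases hs with h | h <;> rw [h] <;>
    constructor <;> nlinarith [mul_le_mul_of_nonneg_left this.1 hn,
      mul_le_mul_of_nonneg_left this.2 hn]

theorem tilt_main [MeasurableEq Y] {μ : Measure Y} [IsProbabilityMeasure μ] {q : Y → ℝ}
    (hq : Measurable q) {n : ℕ} {ρ : ℕ → ℕ} {K : ℝ}
    (Rg : Reg μ q n ρ K) (hn : 0 < n) (i : Fin 2) {A A' : Set Y} {δ s : ℝ} (hδ : 0 < δ)
    (hs : 0 ≤ s) (hsδ : s ≤ δ) (hA : MeasurableSet A) (hA' : MeasurableSet A')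
    (h : ∀ x ∈ A, ∀ y ∈ A', q x + δ ≤ q y) (hAK : ∀ x ∈ A, |q x| ≤ K)
    (hAK' : ∀ x ∈ A', |q x| ≤ K)
    {Hset : Set (E → Y)} (hHm : MeasurableSet Hset)
    (hHloc : ∀ J J' : E → Y, (∀ e, (∀ z, e ≠ sub n i z) → J e = J' e) →
      (J ∈ Hset ↔ J' ∈ Hset)) (N : ℕ) :
    ENNReal.ofReal s * μ A' * ∫⁻ J in Rg.G N,
        ENNReal.ofReal (XX q n i (ph i Hset A) (ρ N) N J) ∂(PJ μ)
      ≤ ENNReal.ofReal s * μ A * ∫⁻ J, DD μ q A A' s (HS Hset) (TT n i N) J *
          ENNReal.ofReal (YY q n i (ph i Hset A') (ρ N) N J) ∂(PJ μ)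
        + ENNReal.ofReal (2 * (Rg.C0 * ((N : ℝ) + 1))) := by
  classical
  obtain ⟨sx, sx1, sx2, sx3, sx4⟩ := exists_selX hq (measurable_ph i hHm hA) n i (ρ N) N
  obtain ⟨sy, sy1, sy2, sy3, sy4⟩ := exists_selY hq (measurable_ph i hHm hA') n i (ρ N) N
  have hHSm : ∀ e, MeasurableSet (HS Hset e) := fun e => measurable_shJ e.1 hHm
  have hHsT : ∀ e ∈ TT n i N, ∀ J J' : E → Y, (∀ j ∉ TT n i N, J j = J' j) →
      (J ∈ HS Hset e ↔ J' ∈ HS Hset e) := by
    intro e he J J' hJ
    unfold TT at he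
    rw [Finset.mem_image] at he
    obtain ⟨z, hz, rfl⟩ := he
    apply hHloc
    intro e' he'
    apply hJ
    intro hmem
    unfold TT at hmem
    rw [Finset.mem_image] at hmem
    obtain ⟨w, _, hw⟩ := hmem
    apply he' (w - z)
    have h1 : shE (-((n : ℤ) • z)) (sub n i w) = sub n i (w - z) := by
      have := shE_sub n i w (-z)
      rw [smul_neg] at this
      rw [this, sub_eq_add_neg]
    have h2 : (sub n i z).1 = (n : ℤ) • z := rfl
    rw [h2] at hw
    have hw' : sub n i w = shE ((n : ℤ) • z) e' := hw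
    rw [← h1, hw', shE_add, add_neg_cancel, shE_zero]
  set f : E → (E → Y) → ℝ≥0∞ := fun e => (Rg.G N).indicator
    (fun J => ENNReal.ofReal (av (pat (sx J)) e)) with hf
  set g : E → (E → Y) → ℝ≥0∞ := fun e => (Rg.G N).indicator
    (fun J => ENNReal.ofReal (av (pat (sy J)) e)) with hg
  set C : (E → Y) → ℝ≥0∞ := (Rg.G N).indicator
    (fun J => ENNReal.ofReal (2 * ∑ e ∈ cut (Rg.R N J), |q (J e)|)) with hC
  have hfm : ∀ e, Measurable (f e) := fun e => (measurable_of_sel sx1
    (fun s _ => ENNReal.ofReal (av (pat s) e)) (fun _ => measurable_const)).indicator (Rg.hG N)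
  have hgm : ∀ e, Measurable (g e) := fun e => (measurable_of_sel sy1
    (fun s _ => ENNReal.ofReal (av (pat s) e)) (fun _ => measurable_const)).indicator (Rg.hG N)
  have hCm : Measurable C := (((Rg.hcost N).const_mul 2).ennreal_ofReal).indicator (Rg.hG N)
  have key := tilt_inf μ hδ hs hsδ hq hA hA' h (TT n i N) (HS Hset) hHSm hHsT f g C hfm hgm hCm (by
    intro J J' hJ hmove
    have hK : ∀ e, J e = J' e ∨ (|q (J e)| ≤ K ∧ |q (J' e)| ≤ K) := by
      intro e
      by_cases he : e ∈ TT n i N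
      · rcases hmove e he with h1 | ⟨_, h2, h3⟩
        · exact Or.inl h1
        · exact Or.inr ⟨hAK _ h2, hAK' _ h3⟩
      · exact Or.inl (hJ e he)
    by_cases hJG : J ∈ Rg.G N
    · have hJG' : J' ∈ Rg.G N := Rg.invG N J J' hK hJG
      have hRR : Rg.R N J = Rg.R N J' := Rg.inv N J J' hK
      set B := Rg.R N J with hB
      have hσ : LG B (cpl q J) (pat (sx J)) := (sx2 J).mono (Rg.outer N J hJG)
      have hτ : LG B (cpl q J') (pat (sy J')) := by
        apply (sy2 J').mono
        rw [hRR]; exact Rg.outer N J' hJG'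
      have hTinn : TT n i N ⊆ inn B := by
        intro e he
        unfold TT at he
        rw [Finset.mem_image] at he
        obtain ⟨z, hz, rfl⟩ := he
        rw [mem_inn]
        exact ⟨Rg.inner N J (box_smul_inner hz).1, Rg.inner N J (box_smul_inner hz).2⟩
      have hcut : ∀ e ∈ cut B, J e = J' e := by
        intro e he
        apply hJ
        intro heT
        have h1 := hTinn heT
        rw [mem_inn] at h1
        rw [mem_cut] at he
        tauto
      have hdet := det_ineq B (cpl q J) (cpl q J') (pat (sx J)) (pat (sy J')) (pat_spin _)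
        (pat_spin _) hσ hτ (fun e he => congrArg q (hcut e he))
      simp only [cpl] at hdet
      rw [← Finset.sum_subset hTinn (fun e _ he => by rw [hJ e he]; ring)] at hdet
      have hreal : ∑ e ∈ TT n i N, (q (J' e) - q (J e)) * av (pat (sx J)) e
          ≤ ∑ e ∈ TT n i N, (q (J' e) - q (J e)) * av (pat (sy J')) e
            + 2 * ∑ e ∈ cut B, |q (J e)| := by
        have h1 : ∑ e ∈ TT n i N, (q (J' e) - q (J e)) * (bond (pat (sx J)) e - bond (pat (sy J')) e)
            = 2 * (∑ e ∈ TT n i N, (q (J' e) - q (J e)) * av (pat (sx J)) e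
              - ∑ e ∈ TT n i N, (q (J' e) - q (J e)) * av (pat (sy J')) e) := by
          rw [← Finset.sum_sub_distrib, Finset.mul_sum]
          apply Finset.sum_congr rfl
          intro e _
          unfold av; ring
        linarith
      have hnn : ∀ e ∈ TT n i N, 0 ≤ q (J' e) - q (J e) := by
        intro e he
        rcases hmove e he with h1 | ⟨_, h2, h3⟩
        · rw [h1, sub_self]
        · have := h _ h2 _ h3
          linarith
      have conv : ∀ (σ : V → ℝ), IsSpin σ →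
          ∑ e ∈ TT n i N, (HS Hset e).indicator (1 : (E → Y) → ℝ≥0∞) J *
            (ENNReal.ofReal (q (J' e) - q (J e)) * ENNReal.ofReal (av σ e))
          = ENNReal.ofReal (∑ e ∈ TT n i N, (q (J' e) - q (J e)) * av σ e) := by
        intro σ hσ
        rw [ENNReal.ofReal_sum_of_nonneg (fun e he => mul_nonneg (hnn e he) (av_nonneg hσ _))]
        apply Finset.sum_congr rfl
        intro e he
        rw [ENNReal.ofReal_mul (hnn e he)]
        rcases hmove e he with h1 | ⟨h2, _, _⟩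
        · rw [h1, sub_self]; simp
        · rw [indicator_of_mem h2]; simp
      have e1 : ∑ e ∈ TT n i N, (HS Hset e).indicator (1 : (E → Y) → ℝ≥0∞) J *
            (ENNReal.ofReal (q (J' e) - q (J e)) * f e J)
          = ENNReal.ofReal (∑ e ∈ TT n i N, (q (J' e) - q (J e)) * av (pat (sx J)) e) := by
        rw [← conv _ (pat_spin _)]
        simp only [hf, indicator_of_mem hJG]
      have e2 : ∑ e ∈ TT n i N, (HS Hset e).indicator (1 : (E → Y) → ℝ≥0∞) J *
            (ENNReal.ofReal (q (J' e) - q (J e)) * g e J')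
          = ENNReal.ofReal (∑ e ∈ TT n i N, (q (J' e) - q (J e)) * av (pat (sy J')) e) := by
        rw [← conv _ (pat_spin _)]
        simp only [hg, indicator_of_mem hJG']
      have e3 : C J = ENNReal.ofReal (2 * ∑ e ∈ cut B, |q (J e)|) := by
        simp only [hC, indicator_of_mem hJG]
        rfl
      rw [e1, e2, e3, ← ENNReal.ofReal_add
        (Finset.sum_nonneg (fun e he => mul_nonneg (hnn e he) (av_nonneg (pat_spin _) _)))
        (by have := Finset.sum_nonneg (s := cut B) (f := fun e => |q (J e)|)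
              (fun e _ => abs_nonneg _)
            linarith)]
      exact ENNReal.ofReal_le_ofReal hreal
    · have e1 : ∑ e ∈ TT n i N, (HS Hset e).indicator (1 : (E → Y) → ℝ≥0∞) J *
            (ENNReal.ofReal (q (J' e) - q (J e)) * f e J) = 0 := by
        simp only [hf, indicator_of_notMem hJG, mul_zero, Finset.sum_const_zero]
      rw [e1]
      exact bot_le)
  have i1 : ∫⁻ J, ∑ e ∈ TT n i N, (HS Hset e).indicator (1 : (E → Y) → ℝ≥0∞) J *
        (A.indicator 1 (J e) * f e J) ∂(PJ μ)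
      = ∫⁻ J in Rg.G N, ENNReal.ofReal (XX q n i (ph i Hset A) (ρ N) N J) ∂(PJ μ) := by
    rw [← lintegral_indicator (Rg.hG N)]
    apply lintegral_congr
    intro J
    by_cases hJG : J ∈ Rg.G N
    · rw [indicator_of_mem hJG, sx3, ← sum_TT hn i N J (pat_spin _)]
      simp only [hf, indicator_of_mem hJG]
    · rw [indicator_of_notMem hJG]
      simp only [hf, indicator_of_notMem hJG, mul_zero, Finset.sum_const_zero]
  have i2 : ∀ J, ∑ e ∈ TT n i N, (HS Hset e).indicator (1 : (E → Y) → ℝ≥0∞) J *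
        (A'.indicator 1 (J e) * g e J)
      ≤ ENNReal.ofReal (YY q n i (ph i Hset A') (ρ N) N J) := by
    intro J
    rw [sy3, ← sum_TT hn i N J (pat_spin _)]
    apply Finset.sum_le_sum
    intro e _
    gcongr
    simp only [hg]
    exact indicator_le_self _ _ _
  have i3 : ∫⁻ J, C J ∂(PJ μ) ≤ ENNReal.ofReal (2 * (Rg.C0 * ((N : ℝ) + 1))) := by
    simp only [hC]
    rw [lintegral_indicator (Rg.hG N), ENNReal.ofReal_mul (by norm_num)]
    simp_rw [ENNReal.ofReal_mul (show (0 : ℝ) ≤ 2 by norm_num)]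
    rw [lintegral_const_mul _ (Rg.hcost N).ennreal_ofReal]
    gcongr
    exact Rg.cost N
  rw [i1] at key
  refine key.trans ?_
  gcongr with J
  exact i2 J

end Pool.H66.EAM
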