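import Pool.Agent.Helper66.EAM.Conc

set_option autoImplicit false
set_option linter.unusedSectionVars false

/-! Measurable finite-volume ground states, seen from different points. -/

namespace Pool.H66.EAM

open MeasureTheory Set ProbabilityTheory Filter Topology
open scoped ENNReal

lemma measurable_pat : ∀ s : Finset V, Measurable (fun _ : E → ℝ => pat s) :=
  fun _ => measurable_const

lemma exists_sl (n : ℕ) : ∃ s : (E → ℝ) → V → ℝ, Measurable s ∧
    ∀ J, IsSpin (s J) ∧ LG (box n) J (s J) := by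
  obtain ⟨sel, h1, h2⟩ := exists_measurable_selection
    (S := fun s : Finset V => {J : E → ℝ | LG (box n) J (pat s)})
    (fun s => measurableSet_LG (box n) (pat s)) (fun J => by
      obtain ⟨s, -, hs⟩ := exists_LG (box n) J
      exact ⟨s, hs⟩)
  refine ⟨fun J => pat (sel J), ?_, fun J => ⟨pat_spin _, h1 J⟩⟩
  exact measurable_of_sel h2 (fun s _ => pat s) (fun s => measurable_const)

/-- A measurable finite-volume ground state in `box n`. -/
noncomputable def sl (n : ℕ) : (E → ℝ) → V → ℝ := (exists_sl n).choose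

lemma measurable_sl (n : ℕ) : Measurable (sl n) := (exists_sl n).choose_spec.1

lemma sl_spin (n : ℕ) (J : E → ℝ) : IsSpin (sl n J) := ((exists_sl n).choose_spec.2 J).1

lemma sl_lg (n : ℕ) (J : E → ℝ) : LG (box n) J (sl n J) := ((exists_sl n).choose_spec.2 J).2

/-- The finite-volume ground state seen from `x`. -/
noncomputable def bt (M : ℕ) (x : V) (J : E → ℝ) : V → ℝ := shS (-x) (sl (3 * M) (shJ x J))

lemma measurable_bt (M : ℕ) (x : V) : Measurable (bt M x) :=
  (measurable_shS _).comp ((measurable_sl _).comp (measurable_shJ x))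

lemma bt_spin (M : ℕ) (x : V) (J : E → ℝ) : IsSpin (bt M x J) := shS_spin (sl_spin _ _)

lemma bt_lg {M : ℕ} {x : V} (hx : x ∈ box M) (J : E → ℝ) : LG (box (2 * M)) J (bt M x J) := by
  have h := LG_sh (B := box (2 * M)) (B' := box (3 * M)) (v := -x) (J := shJ x J)
    (σ := sl (3 * M) (shJ x J)) (by
      intro y hy
      rw [mem_box] at hx hy ⊢
      intro i
      have h1 := hx i
      have h2 := hy i
      rw [Pi.add_apply, Pi.neg_apply]
      push_cast at h2 ⊢
      constructor <;> omega) (sl_lg _ _)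
  rw [shJ_neg_cancel] at h
  exact h

lemma bt_sh (M : ℕ) (x v : V) (J : E → ℝ) : bt M x (shJ v J) = shS v (bt M (x + v) J) := by
  unfold bt
  rw [shJ_shJ, shS_shS]
  congr 1
  abel

/-- Sums over shifted boxes. -/
lemma sum_shift {v : V} {k : ℕ} (hk : ∀ j, (v j).natAbs ≤ k) {g : V → ℝ} {C : ℝ} (hC : 0 ≤ C)
    (hg : ∀ x, |g x| ≤ C) {M : ℕ} (hM : k ≤ M) :
    |∑ x ∈ box M, g (x + v) - ∑ x ∈ box M, g x|
      ≤ 2 * C * (((box (M + k)).card : ℝ) - (box (M - k)).card) := by
  classical
  have h0 : ∑ x ∈ box M, g (x + v) = ∑ x ∈ (box M).image (fun x => x + v), g x := by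
    rw [Finset.sum_image (fun a _ b _ hab => add_right_cancel hab)]
  have hsub1 : box (M - k) ⊆ (box M).image (fun x => x + v) := by
    intro y hy
    rw [Finset.mem_image]
    refine ⟨y - v, ?_, by abel⟩
    rw [mem_box] at hy ⊢
    intro j
    have h1 := hy j
    have h2 := hk j
    rw [Pi.sub_apply]
    omega
  have hsub2 : (box M).image (fun x => x + v) ⊆ box (M + k) := by
    intro y hy
    rw [Finset.mem_image] at hy
    obtain ⟨x, hx, rfl⟩ := hy
    rw [mem_box] at hx ⊢
    intro j
    have h1 := hx j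
    have h2 := hk j
    rw [Pi.add_apply]
    push_cast
    omega
  have h1 := sum_near hsub1 hsub2 hC hg
  have h2 := sum_near (box_mono (Nat.sub_le M k)) (box_mono (Nat.le_add_right M k)) hC hg
  rw [h0]
  rw [abs_le] at h1 h2 ⊢
  constructor <;> linarith [h1.1, h1.2, h2.1, h2.2]

/-- The relative boundary of a box. -/
noncomputable def bd (k M : ℕ) : ℝ :=
  2 * (((box (M + k)).card : ℝ) - (box (M - k)).card) / ((box M).card : ℝ)

lemma bd_nonneg (k M : ℕ) : 0 ≤ bd k M := by
  unfold bd
  apply div_nonneg _ (box_pos M).le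
  have : ((box (M - k)).card : ℝ) ≤ (box (M + k)).card := by
    exact_mod_cast Finset.card_le_card (box_mono (by omega))
  linarith

lemma bd_tendsto (k : ℕ) : Tendsto (bd k) atTop (𝓝 0) := by
  have h1 := card_ratio k
  have h2 : Tendsto (fun N : ℕ => ((box (N + k)).card : ℝ) / ((box N).card : ℝ)) atTop (𝓝 1) := by
    have h3 := (card_ratio k).comp (tendsto_add_atTop_nat k)
    have h4 := h3.inv₀ one_ne_zero
    rw [inv_one] at h4
    refine h4.congr (fun N => ?_)
    simp only [Function.comp_apply]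
    rw [Nat.add_sub_cancel, inv_div]
  have h3 := (h2.sub h1).const_mul 2
  rw [sub_self, mul_zero] at h3
  refine h3.congr (fun N => ?_)
  unfold bd
  ring

lemma avg_shift {v : V} {k : ℕ} (hk : ∀ j, (v j).natAbs ≤ k) {g : V → ℝ} {C : ℝ} (hC : 0 ≤ C)
    (hg : ∀ x, |g x| ≤ C) {M : ℕ} (hM : k ≤ M) :
    |(∑ x ∈ box M, g (x + v)) / ((box M).card : ℝ) - (∑ x ∈ box M, g x) / ((box M).card : ℝ)|
      ≤ C * bd k M := by
  rw [← sub_div, abs_div, abs_of_pos (box_pos M)]
  unfold bd
  rw [div_le_iff₀ (box_pos M)]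
  have h := sum_shift hk hC hg hM
  have hp := (box_pos M).ne'
  calc _ ≤ _ := h
    _ = _ := by field_simp

lemma exists_k (v : V) : ∃ k : ℕ, ∀ j, (v j).natAbs ≤ k := by
  refine ⟨(v 0).natAbs + (v 1).natAbs, fun j => ?_⟩
  fin_cases j
  · exact Nat.le_add_right _ _
  · exact Nat.le_add_left _ _

end Pool.H66.EAM
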