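import Pool.Agent.Helper66.EAM.Interval

set_option autoImplicit false
set_option linter.unusedSectionVars false

/-! From intervals to all local observables. -/

namespace Pool.H66.EAM

open MeasureTheory Set ProbabilityTheory Filter Topology
open scoped ENNReal

section

variable {Y : Type*} [MeasurableSpace Y] {μ : Measure Y} [IsProbabilityMeasure μ] {q : Y → ℝ}
  {n : ℕ} {i : Fin 2} {ρ : ℕ → ℕ}

lemma uni_induction {X : Type*} [mX : MeasurableSpace X] {CC : Set (Set X)}
    (h_eq : mX = MeasurableSpace.generateFrom CC) (h_inter : IsPiSystem CC) (hn : 0 < n)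
    {w : (E → Y) → ℝ} (hw0 : ∀ J, 0 ≤ w J) (hw1 : ∀ J, w J ≤ 1)
    {F : Finset E} {π : (E → Y) → X} (hπ : Measurable π)
    (hπl : Loc F π) (huniv : ∃ c, Uni μ q n i ρ w c)
    (hbasic : ∀ B ∈ CC, ∃ c, Uni μ q n i ρ (fun J => w J * B.indicator 1 (π J)) c)
    (B : Set X) (hB : MeasurableSet B) :
    ∃ c, Uni μ q n i ρ (fun J => w J * B.indicator 1 (π J)) c := by
  classical
  induction B, hB using MeasurableSpace.induction_on_inter (h_eq := h_eq) h_inter with
  | empty =>
    refine ⟨0, ?_⟩
    simpa using (Uni_zero (μ := μ) (q := q) (n := n) (i := i) (ρ := ρ))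
  | basic t ht => exact hbasic t ht
  | compl t htm ih =>
    obtain ⟨c, hc⟩ := ih
    obtain ⟨c', hc'⟩ := huniv
    refine ⟨c' + -c, ?_⟩
    have h1 := hc'.add hc.neg
    have h2 : (fun J => w J * tᶜ.indicator (1 : X → ℝ) (π J))
        = fun J => w J + - (w J * t.indicator 1 (π J)) := by
      funext J
      by_cases h : π J ∈ t
      · rw [indicator_of_notMem (show π J ∉ tᶜ from fun h' => h' h), indicator_of_mem h]
        simp
      · rw [indicator_of_mem (show π J ∈ tᶜ from h), indicator_of_notMem h]
        simp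
    rw [h2]
    exact h1
  | iUnion f hfd hfm ih =>
    choose c hc using ih
    apply exists_Uni_of_approx hn
    intro η hη
    set ν := (PJ μ).map π with hν
    have hνp : IsProbabilityMeasure ν := Measure.isProbabilityMeasure_map hπ.aemeasurable
    set D : ℕ → Set X := fun K => (⋃ k, f k) \ ⋃ k ∈ Finset.range K, f k with hD
    have hDm : ∀ K, MeasurableSet (D K) := fun K =>
      (MeasurableSet.iUnion hfm).diff (Finset.measurableSet_biUnion _ (fun k _ => hfm k))
    have hDanti : Antitone D := by
      intro K K' hKK x hx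
      refine ⟨hx.1, fun h => hx.2 ?_⟩
      simp only [mem_iUnion, Finset.mem_range] at h ⊢
      obtain ⟨k, hk, hk'⟩ := h
      exact ⟨k, lt_of_lt_of_le hk hKK, hk'⟩
    have hDempty : ⋂ K, D K = ∅ := by
      rw [eq_empty_iff_forall_notMem]
      intro x hx
      rw [mem_iInter] at hx
      have h0 := (hx 0).1
      rw [mem_iUnion] at h0
      obtain ⟨k, hk⟩ := h0
      apply (hx (k + 1)).2
      simp only [mem_iUnion, Finset.mem_range]
      exact ⟨k, Nat.lt_succ_self k, hk⟩
    have hlim := tendsto_measure_iInter_atTop (μ := ν) (s := D)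
      (fun K => (hDm K).nullMeasurableSet) hDanti ⟨0, measure_ne_top _ _⟩
    rw [hDempty, measure_empty] at hlim
    have hlt := hlim.eventually_lt_const (ENNReal.ofReal_pos.2 hη)
    obtain ⟨K, hK⟩ := hlt.exists
    have hK' : ν.real (D K) ≤ η := by
      rw [measureReal_def]
      exact ENNReal.toReal_le_of_le_ofReal hη.le hK.le
    refine ⟨fun J => ∑ k ∈ Finset.range K, w J * (f k).indicator 1 (π J),
      fun J => (D K).indicator 1 (π J), ∑ k ∈ Finset.range K, c k, 1, F,
      Uni_sum _ _ _ (fun k _ => hc k), (measurable_one.indicator (hDm K)).comp hπ, ?_, ?_, ?_, ?_⟩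
    · intro J
      show |(D K).indicator (1 : X → ℝ) (π J)| ≤ 1
      rw [abs_of_nonneg (ind_nonneg _ _)]; exact ind_le_one _ _
    · intro J J' h
      show (D K).indicator (1 : X → ℝ) (π J) = (D K).indicator (1 : X → ℝ) (π J')
      rw [hπl J J' h]
    · intro J
      have hdis : ∀ x : X, ∑ k ∈ Finset.range K, (f k).indicator (1 : X → ℝ) x
          = (⋃ k ∈ Finset.range K, f k).indicator 1 x := by
        intro x
        by_cases hx : x ∈ ⋃ k ∈ Finset.range K, f k
        · rw [indicator_of_mem hx]
          simp only [mem_iUnion] at hx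
          obtain ⟨k, hk, hk'⟩ := hx
          rw [Finset.sum_eq_single k]
          · rw [indicator_of_mem hk']
          · intro j _ hjk
            apply indicator_of_notMem
            intro hj
            exact (Set.disjoint_left.1 (hfd hjk)) hj hk'
          · intro h; exact absurd hk h
        · rw [indicator_of_notMem hx]
          apply Finset.sum_eq_zero
          intro k hk
          apply indicator_of_notMem
          intro hk'
          exact hx (mem_iUnion₂.2 ⟨k, hk, hk'⟩)
      show |w J * (⋃ k, f k).indicator 1 (π J) - ∑ k ∈ Finset.range K, w J * (f k).indicator 1 (π J)|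
        ≤ (D K).indicator 1 (π J)
      rw [← Finset.mul_sum, hdis, ← mul_sub]
      have h3 : (⋃ k, f k).indicator (1 : X → ℝ) (π J)
          - (⋃ k ∈ Finset.range K, f k).indicator 1 (π J) = (D K).indicator 1 (π J) := by
        by_cases h1 : π J ∈ ⋃ k ∈ Finset.range K, f k
        · have h2 : π J ∈ ⋃ k, f k := by
            simp only [mem_iUnion] at h1 ⊢
            obtain ⟨k, _, hk⟩ := h1
            exact ⟨k, hk⟩
          rw [indicator_of_mem h1, indicator_of_mem h2, indicator_of_notMem (fun h => h.2 h1)]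
          simp
        · by_cases h2 : π J ∈ ⋃ k, f k
          · rw [indicator_of_notMem h1, indicator_of_mem h2,
              indicator_of_mem (show π J ∈ D K from ⟨h2, h1⟩)]
            simp
          · rw [indicator_of_notMem h1, indicator_of_notMem h2,
              indicator_of_notMem (fun h => h2 h.1)]
            simp
      rw [h3, abs_of_nonneg (mul_nonneg (hw0 J) (ind_nonneg _ _))]
      exact mul_le_of_le_one_left (ind_nonneg _ _) (hw1 J)
    · have h4 := integral_map (μ := PJ μ) hπ.aemeasurable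
        (f := (D K).indicator (1 : X → ℝ)) (measurable_one.indicator (hDm K)).aestronglyMeasurable
      rw [integral_indicator_one (hDm K)] at h4
      rw [← h4]
      exact hK'

/-- Bounded functions from sets. -/
lemma uni_bdd {X : Type*} [MeasurableSpace X] (hn : 0 < n) {π : (E → Y) → X}
    (h : ∀ B : Set X, MeasurableSet B → ∃ c, Uni μ q n i ρ (fun J => B.indicator 1 (π J)) c)
    {g : X → ℝ} (hg : Measurable g) {C : ℝ} (hb : ∀ x, |g x| ≤ C) :
    ∃ c, Uni μ q n i ρ (fun J => g (π J)) c := by
  classical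
  apply exists_Uni_of_approx hn
  intro η hη
  obtain ⟨M, hM⟩ := exists_nat_gt (C / η)
  set B : ℤ → Set X := fun k => {x | ⌊g x / η⌋ = k} with hB
  have hBm : ∀ k, MeasurableSet (B k) := fun k =>
    (Int.measurable_floor.comp (hg.div_const η)) (measurableSet_singleton k)
  choose c hc using fun k => h (B k) (hBm k)
  refine ⟨fun J => ∑ k ∈ Finset.Icc (-(M : ℤ) - 1) M, ((k : ℝ) * η) * (B k).indicator 1 (π J),
    fun _ => η, ∑ k ∈ Finset.Icc (-(M : ℤ) - 1) M, ((k : ℝ) * η) * c k, η, ∅,
    Uni_sum _ _ _ (fun k _ => (hc k).smul _), measurable_const, fun J => (abs_of_pos hη).le,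
    fun _ _ _ => rfl, ?_, by simp⟩
  intro J
  set x := π J with hx
  have hgx := abs_le.1 (hb x)
  have hfl := Int.floor_le (g x / η)
  have hfl2 := Int.lt_floor_add_one (g x / η)
  have hmem : ⌊g x / η⌋ ∈ Finset.Icc (-(M : ℤ) - 1) M := by
    rw [Finset.mem_Icc]
    constructor
    · rw [Int.le_floor]
      push_cast
      rw [le_div_iff₀ hη]
      rw [div_lt_iff₀ hη] at hM
      nlinarith [hgx.1]
    · have h1 : g x / η < M := by
        refine lt_of_le_of_lt ?_ hM
        gcongr
        exact hgx.2
      have h2 : ((⌊g x / η⌋ : ℤ) : ℝ) < (M : ℝ) := lt_of_le_of_lt hfl h1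
      have h3 : (⌊g x / η⌋ : ℤ) < (M : ℤ) := by exact_mod_cast h2
      exact h3.le
  have hsum : ∑ k ∈ Finset.Icc (-(M : ℤ) - 1) M, ((k : ℝ) * η) * (B k).indicator 1 x
      = (⌊g x / η⌋ : ℝ) * η := by
    rw [Finset.sum_eq_single ⌊g x / η⌋]
    · rw [indicator_of_mem (show x ∈ B ⌊g x / η⌋ from rfl)]; simp
    · intro k _ hk
      rw [indicator_of_notMem (fun h => hk h.symm), mul_zero]
    · intro h; exact absurd hmem h
  show |g x - ∑ k ∈ Finset.Icc (-(M : ℤ) - 1) M, ((k : ℝ) * η) * (B k).indicator 1 x| ≤ η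
  rw [hsum, abs_le]
  rw [le_div_iff₀ hη] at hfl
  rw [div_lt_iff₀ hη] at hfl2
  constructor <;> nlinarith

theorem uni_borel [MeasurableEq Y] (hμ : ∀ x, μ (q ⁻¹' {x}) = 0) (hq : Measurable q)
    (hReg : ∀ K, Nonempty (Reg μ q n ρ K)) (hn : 0 < n)
    (hρ : ∀ L N, L ≤ N → ρ L + n * (N - L) ≤ ρ N) {Hset : Set (E → Y)}
    {F : Finset E} (hF : Loc F (Hset.indicator (1 : (E → Y) → ℝ)))
    (hH : MeasurableSet Hset)
    (hHloc : ∀ J J' : E → Y, (∀ e, (∀ z, e ≠ sub n i z) → J e = J' e) →
      (J ∈ Hset ↔ J' ∈ Hset)) (A : Set Y) (hA : MeasurableSet A) :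
    ∃ c, Uni μ q n i ρ (ph i Hset A) c := by
  classical
  apply exists_Uni_of_approx hn
  intro η hη
  have hp : IsProbabilityMeasure (μ.map q) := Measure.isProbabilityMeasure_map hq.aemeasurable
  have h1 := (tendsto_cdf_atTop (μ.map q)).eventually_const_lt (show 1 - η < 1 by linarith)
  obtain ⟨t, ht⟩ := h1.exists
  obtain ⟨c, hc⟩ := uni_Iic (A := A) hμ hq hReg hn hρ hF hH hHloc hA t
  have hm : MeasurableSet (q ⁻¹' Ioi t) := hq measurableSet_Ioi
  refine ⟨ph i Hset (A ∩ q ⁻¹' Iic t), ph i univ (q ⁻¹' Ioi t), c, 1, insert ((0 : V), i) ∅, hc,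
    measurable_ph i MeasurableSet.univ hm, ?_, ?_, ?_, ?_⟩
  · intro J; rw [abs_of_nonneg (ph_nonneg _ _ _ _)]; exact ph_le_one _ _ _ _
  · apply Loc_ph
    intro J J' _
    simp
  · intro J
    set y := J ((0 : V), i) with hy
    have e1 : A.indicator (1 : Y → ℝ) y - (A ∩ q ⁻¹' Iic t).indicator 1 y
        = (A ∩ q ⁻¹' Ioi t).indicator 1 y := by
      by_cases h1 : y ∈ A <;> by_cases h2 : q y ≤ t
      · rw [indicator_of_mem h1, indicator_of_mem (show y ∈ A ∩ q ⁻¹' Iic t from ⟨h1, h2⟩),
          indicator_of_notMem (show y ∉ A ∩ q ⁻¹' Ioi t from fun h => absurd h.2 (not_lt.2 h2))]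
        simp
      · rw [indicator_of_mem h1, indicator_of_notMem (fun h => h2 h.2),
          indicator_of_mem (show y ∈ A ∩ q ⁻¹' Ioi t from ⟨h1, not_le.1 h2⟩)]
        simp
      · rw [indicator_of_notMem h1, indicator_of_notMem (fun h => h1 h.1),
          indicator_of_notMem (fun h => h1 h.1), sub_zero]
      · rw [indicator_of_notMem h1, indicator_of_notMem (fun h => h1 h.1),
          indicator_of_notMem (fun h => h1 h.1), sub_zero]
    unfold ph
    rw [← mul_sub, ← hy, e1, abs_of_nonneg (mul_nonneg (ind_nonneg _ _) (ind_nonneg _ _)),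
      indicator_univ]
    show Hset.indicator (1 : (E → Y) → ℝ) J * (A ∩ q ⁻¹' Ioi t).indicator 1 y
      ≤ 1 * (q ⁻¹' Ioi t).indicator 1 y
    apply mul_le_mul (ind_le_one _ _) _ (ind_nonneg _ _) zero_le_one
    by_cases h1 : y ∈ A ∩ q ⁻¹' Ioi t
    · rw [indicator_of_mem h1, indicator_of_mem h1.2]
    · rw [indicator_of_notMem h1]; exact ind_nonneg _ _
  · refine (integral_ph_le MeasurableSet.univ hm).trans ?_
    have h2 : μ.real (q ⁻¹' Ioi t) = 1 - (μ.map q).real (Iic t) := by
      have h3 : (μ.map q).real (Ioi t) = μ.real (q ⁻¹' Ioi t) := by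
        rw [measureReal_def, measureReal_def, Measure.map_apply hq measurableSet_Ioi]
      rw [← h3, ← compl_Iic, probReal_compl_eq_one_sub measurableSet_Iic]
    rw [h2, ← cdf_eq_real]
    linarith

theorem uni_local [MeasurableEq Y] (hμ : ∀ x, μ (q ⁻¹' {x}) = 0) (hq : Measurable q) (hReg : ∀ K, Nonempty (Reg μ q n ρ K)) (hn : 0 < n)
    (hρ : ∀ L N, L ≤ N → ρ L + n * (N - L) ≤ ρ N) {S : Finset E} (hS0 : ((0 : V), i) ∈ S)
    (hSn : ∀ e ∈ S, e ≠ ((0 : V), i) → ∀ z, e ≠ sub n i z)
    {g : (E → Y) → ℝ} (hg : Measurable g) {C : ℝ} (hb : ∀ J, |g J| ≤ C) (hl : Loc S g) :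
    ∃ c, Uni μ q n i ρ g c := by
  classical
  obtain ⟨y0⟩ : Nonempty Y := nonempty_of_isProbabilityMeasure μ
  set π : (E → Y) → (S → Y) := fun J e => J e with hπdef
  have hπ : Measurable π := measurable_pi_lambda _ (fun e => measurable_pi_apply _)
  have hπl : Loc S π := by
    intro J J' h
    funext e
    exact h e e.2
  have hsets : ∀ B : Set (S → Y), MeasurableSet B →
      ∃ c, Uni μ q n i ρ (fun J => B.indicator 1 (π J)) c := by
    have hrect : ∀ B ∈ (pi univ '' pi univ fun _ : S => {s : Set Y | MeasurableSet s}),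
        ∃ c, Uni μ q n i ρ (fun J => (1 : ℝ) * B.indicator 1 (π J)) c := by
      rintro _ ⟨s, hs, rfl⟩
      have hsm : ∀ e : S, MeasurableSet (s e) := fun e => hs e (mem_univ e)
      set Hset : Set (E → Y) := {J | ∀ e : S, (e : E) ≠ ((0 : V), i) → J e ∈ s e} with hHs
      have hHm : MeasurableSet Hset := by
        have : Hset = ⋂ e : S, {J : E → Y | (e : E) ≠ ((0 : V), i) → J e ∈ s e} := by
          ext J; simp [hHs]
        rw [this]
        apply MeasurableSet.iInter
        intro e
        by_cases he : (e : E) = ((0 : V), i)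
        · have : {J : E → Y | (e : E) ≠ ((0 : V), i) → J e ∈ s e} = univ := by
            ext J; simp [he]
          rw [this]; exact MeasurableSet.univ
        · have : {J : E → Y | (e : E) ≠ ((0 : V), i) → J e ∈ s e} = (fun J => J e) ⁻¹' (s e) := by
            ext J; simp [he]
          rw [this]; exact measurable_pi_apply _ (hsm e)
      have hHloc : ∀ J J' : E → Y, (∀ e, (∀ z, e ≠ sub n i z) → J e = J' e) →
          (J ∈ Hset ↔ J' ∈ Hset) := by
        intro J J' h
        constructor
        · intro hJ e he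
          rw [← h e (hSn e e.2 he)]; exact hJ e he
        · intro hJ e he
          rw [h e (hSn e e.2 he)]; exact hJ e he
      have hF : Loc S (Hset.indicator (1 : (E → Y) → ℝ)) := by
        intro J J' h
        have : J ∈ Hset ↔ J' ∈ Hset := by
          constructor
          · intro hJ e he
            rw [← h e e.2]; exact hJ e he
          · intro hJ e he
            rw [h e e.2]; exact hJ e he
        by_cases hJ : J ∈ Hset
        · rw [indicator_of_mem hJ, indicator_of_mem (this.1 hJ)]; rfl
        · rw [indicator_of_notMem hJ, indicator_of_notMem (fun h' => hJ (this.2 h'))]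
      obtain ⟨c, hc⟩ := uni_borel hμ hq hReg hn hρ hF hHm hHloc (s ⟨_, hS0⟩) (hsm _)
      refine ⟨c, ?_⟩
      have heq : (fun J => (1 : ℝ) * (univ.pi s).indicator 1 (π J)) = ph i Hset (s ⟨_, hS0⟩) := by
        funext J
        rw [one_mul]
        unfold ph
        by_cases h1 : J ∈ Hset
        · by_cases h2 : J ((0 : V), i) ∈ s ⟨_, hS0⟩
          · rw [indicator_of_mem h1, indicator_of_mem h2, indicator_of_mem]
            · simp
            · intro e _
              by_cases he : (e : E) = ((0 : V), i)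
              · have : e = ⟨_, hS0⟩ := Subtype.ext he
                rw [this]; exact h2
              · exact h1 e he
          · rw [indicator_of_notMem h2, mul_zero, indicator_of_notMem]
            intro h; exact h2 (h ⟨_, hS0⟩ (mem_univ _))
        · rw [indicator_of_notMem h1, zero_mul, indicator_of_notMem]
          intro h; exact h1 (fun e _ => h e (mem_univ e))
      rw [heq]
      exact hc
    intro B hB
    have h1univ : ∃ c, Uni μ q n i ρ (fun _ : E → Y => (1 : ℝ)) c := by
      have h0 := hrect univ ⟨fun _ => univ, fun _ _ => (MeasurableSet.univ : MeasurableSet (univ : Set Y)),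
        pi_univ _⟩
      simpa using h0
    have := uni_induction (generateFrom_pi (α := fun _ : S => Y)).symm isPiSystem_pi hn
      (w := fun _ => 1) (fun _ => zero_le_one) (fun _ => le_rfl) hπ hπl h1univ hrect B hB
    simpa using this
  -- extend
  let ext : (S → Y) → (E → Y) := fun x e => if h : e ∈ S then x ⟨e, h⟩ else y0
  have hext : Measurable ext := by
    apply measurable_pi_lambda
    intro e
    by_cases h : e ∈ S
    · simp only [ext, h, dite_true]; exact measurable_pi_apply _
    · simp only [ext, h, dite_false]; exact measurable_const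
  have hge : ∀ J, g J = g (ext (π J)) := by
    intro J
    apply hl
    intro e he
    simp only [ext, he, dite_true, hπdef]
  have := uni_bdd hn hsets (g := fun x => g (ext x)) (hg.comp hext) (fun x => hb _)
  simp_rw [← hge] at this
  exact this

end

end Pool.H66.EAM
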