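import Pool.Agent.Helper66.EAM.LLN

set_option autoImplicit false
set_option linter.unusedSectionVars false

/-! Extremal statistics over finite-volume ground states. -/

namespace Pool.H66.EAM

open MeasureTheory Set ProbabilityTheory Filter Topology
open scoped ENNReal

variable {Y : Type*} [MeasurableSpace Y]

/-- The sublattice edge `(n z, n z + e_i)`. -/
def sub (n : ℕ) (i : Fin 2) (z : V) : E := ((n : ℤ) • z, i)

lemma shE_sub (n : ℕ) (i : Fin 2) (z v : V) :
    shE ((n : ℤ) • v) (sub n i z) = sub n i (z + v) := by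
  unfold shE sub; rw [smul_add]

lemma sub_injective {n : ℕ} (hn : 0 < n) (i : Fin 2) : Function.Injective (sub n i) := by
  intro z w h
  have h1 := congrArg Prod.fst h
  simp only [sub] at h1
  funext j
  have h2 := congrFun h1 j
  simp only [Pi.smul_apply, smul_eq_mul] at h2
  have hn' : (n : ℤ) ≠ 0 := by exact_mod_cast hn.ne'
  exact mul_left_cancel₀ hn' h2

/-- The statistic `∑_z φ(θ_{nz} J) 1{σ_x σ_y = 1 at the edge e_z}`. -/
noncomputable def St (n : ℕ) (i : Fin 2) (φ : (E → Y) → ℝ) (N : ℕ) (J : E → Y) (σ : V → ℝ) : ℝ :=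
  cnt (box N) (sub n i) (fun z => φ (shJ ((n : ℤ) • z) J)) σ

/-- Maximum over ground states in the box of radius `R`. -/
noncomputable def XX (q : Y → ℝ) (n : ℕ) (i : Fin 2) (φ : (E → Y) → ℝ) (R N : ℕ) (J : E → Y) :
    ℝ := sSup ((St n i φ N J) '' {σ | IsSpin σ ∧ LG (box R) (cpl q J) σ})

/-- Minimum over ground states in the box of radius `R`. -/
noncomputable def YY (q : Y → ℝ) (n : ℕ) (i : Fin 2) (φ : (E → Y) → ℝ) (R N : ℕ) (J : E → Y) :
    ℝ := sInf ((St n i φ N J) '' {σ | IsSpin σ ∧ LG (box R) (cpl q J) σ})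

section

variable {q : Y → ℝ} {n : ℕ} {i : Fin 2} {φ : (E → Y) → ℝ} {R N : ℕ}

lemma exists_selX (hq : Measurable q) (hφ : Measurable φ) (n : ℕ) (i : Fin 2) (R N : ℕ) :
    ∃ sel : (E → Y) → Finset V, (∀ s, MeasurableSet {J | sel J = s}) ∧
      (∀ J, LG (box R) (cpl q J) (pat (sel J))) ∧ (∀ J, XX q n i φ R N J = St n i φ N J (pat (sel J))) ∧
      (∀ J σ, IsSpin σ → LG (box R) (cpl q J) σ → St n i φ N J σ ≤ XX q n i φ R N J) := by
  obtain ⟨sel, h1, h2, h3⟩ := exists_max (measurable_cpl hq) (box R) (box N) (sub n i)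
    (fun J z => φ (shJ ((n : ℤ) • z) J)) (fun z => hφ.comp (measurable_shJ _))
  have hX : ∀ J, XX q n i φ R N J = St n i φ N J (pat (sel J)) := by
    intro J
    apply IsGreatest.csSup_eq
    refine ⟨⟨_, ⟨pat_spin _, h2 J⟩, rfl⟩, ?_⟩
    rintro _ ⟨σ, ⟨hσ, hLG⟩, rfl⟩
    exact h3 J σ hσ hLG
  refine ⟨sel, h1, h2, hX, ?_⟩
  intro J σ hσ hLG
  rw [hX]
  exact h3 J σ hσ hLG

lemma exists_selY (hq : Measurable q) (hφ : Measurable φ) (n : ℕ) (i : Fin 2) (R N : ℕ) :
    ∃ sel : (E → Y) → Finset V, (∀ s, MeasurableSet {J | sel J = s}) ∧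
      (∀ J, LG (box R) (cpl q J) (pat (sel J))) ∧ (∀ J, YY q n i φ R N J = St n i φ N J (pat (sel J))) ∧
      (∀ J σ, IsSpin σ → LG (box R) (cpl q J) σ → YY q n i φ R N J ≤ St n i φ N J σ) := by
  obtain ⟨sel, h1, h2, h3⟩ := exists_max (measurable_cpl hq) (box R) (box N) (sub n i)
    (fun J z => - φ (shJ ((n : ℤ) • z) J)) (fun z => (hφ.comp (measurable_shJ _)).neg)
  have hneg : ∀ J σ, cnt (box N) (sub n i) (fun z => - φ (shJ ((n : ℤ) • z) J)) σ
      = - St n i φ N J σ := by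
    intro J σ
    unfold St cnt
    rw [← Finset.sum_neg_distrib]
    exact Finset.sum_congr rfl (fun z _ => by ring)
  have h3' : ∀ J σ, IsSpin σ → LG (box R) (cpl q J) σ → St n i φ N J (pat (sel J)) ≤ St n i φ N J σ := by
    intro J σ hσ hLG
    have := h3 J σ hσ hLG
    rw [hneg, hneg] at this
    linarith
  have hY : ∀ J, YY q n i φ R N J = St n i φ N J (pat (sel J)) := by
    intro J
    apply IsLeast.csInf_eq
    refine ⟨⟨_, ⟨pat_spin _, h2 J⟩, rfl⟩, ?_⟩
    rintro _ ⟨σ, ⟨hσ, hLG⟩, rfl⟩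
    exact h3' J σ hσ hLG
  refine ⟨sel, h1, h2, hY, ?_⟩
  intro J σ hσ hLG
  rw [hY]
  exact h3' J σ hσ hLG

lemma measurable_St (hφ : Measurable φ) (σ : V → ℝ) : Measurable (fun J => St n i φ N J σ) :=
  measurable_cnt (fun z => hφ.comp (measurable_shJ _)) σ

lemma measurable_XX (hq : Measurable q) (hφ : Measurable φ) : Measurable (XX q n i φ R N) := by
  obtain ⟨sel, h1, _, h3, _⟩ := exists_selX hq hφ n i R N
  have : XX q n i φ R N = fun J => St n i φ N J (pat (sel J)) := funext h3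
  rw [this]
  exact measurable_of_sel h1 (fun s J => St n i φ N J (pat s)) (fun s => measurable_St hφ _)

lemma measurable_YY (hq : Measurable q) (hφ : Measurable φ) : Measurable (YY q n i φ R N) := by
  obtain ⟨sel, h1, _, h3, _⟩ := exists_selY hq hφ n i R N
  have : YY q n i φ R N = fun J => St n i φ N J (pat (sel J)) := funext h3
  rw [this]
  exact measurable_of_sel h1 (fun s J => St n i φ N J (pat s)) (fun s => measurable_St hφ _)

lemma St_nonneg (h0 : ∀ J, 0 ≤ φ J) {σ : V → ℝ} (hσ : IsSpin σ) (J : E → Y) :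
    0 ≤ St n i φ N J σ :=
  Finset.sum_nonneg (fun _ _ => mul_nonneg (h0 _) (av_nonneg hσ _))

lemma St_le (h0 : ∀ J, 0 ≤ φ J) (h1 : ∀ J, φ J ≤ 1) {σ : V → ℝ} (hσ : IsSpin σ) (J : E → Y) :
    St n i φ N J σ ≤ ((box N).card : ℝ) := by
  calc St n i φ N J σ ≤ ∑ z ∈ box N, (1 : ℝ) :=
        Finset.sum_le_sum (fun z _ => mul_le_one₀ (h1 _) (av_nonneg hσ _) (av_le_one hσ _))
    _ = ((box N).card : ℝ) := by simp

lemma XX_bounds (hq : Measurable q) (hφ : Measurable φ) (h0 : ∀ J, 0 ≤ φ J) (h1 : ∀ J, φ J ≤ 1) (J : E → Y) :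
    0 ≤ XX q n i φ R N J ∧ XX q n i φ R N J ≤ ((box N).card : ℝ) := by
  obtain ⟨sel, _, _, h3, _⟩ := exists_selX hq hφ n i R N
  rw [h3]
  exact ⟨St_nonneg h0 (pat_spin _) J, St_le h0 h1 (pat_spin _) J⟩

lemma YY_bounds (hq : Measurable q) (hφ : Measurable φ) (h0 : ∀ J, 0 ≤ φ J) (h1 : ∀ J, φ J ≤ 1) (J : E → Y) :
    0 ≤ YY q n i φ R N J ∧ YY q n i φ R N J ≤ ((box N).card : ℝ) := by
  obtain ⟨sel, _, _, h3, _⟩ := exists_selY hq hφ n i R N
  rw [h3]
  exact ⟨St_nonneg h0 (pat_spin _) J, St_le h0 h1 (pat_spin _) J⟩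

lemma St_loc [DecidableEq E] {S : Finset E} (hloc : Loc S φ) (σ : V → ℝ) :
    Loc ((box N).biUnion (fun z => S.image (shE ((n : ℤ) • z)))) (fun J => St n i φ N J σ) := by
  intro J J' h
  apply Finset.sum_congr rfl
  intro z hz
  have : φ (shJ ((n : ℤ) • z) J) = φ (shJ ((n : ℤ) • z) J') := by
    apply Loc_shJ hloc
    intro e he
    exact h e (Finset.mem_biUnion.2 ⟨z, hz, he⟩)
  show φ (shJ ((n : ℤ) • z) J) * av σ (sub n i z) = φ (shJ ((n : ℤ) • z) J') * av σ (sub n i z)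
  rw [this]

lemma sols_loc {B : Finset V} {J J' : E → ℝ} (h : ∀ e ∈ nbhd B, J e = J' e) :
    {σ | IsSpin σ ∧ LG B J σ} = {σ : V → ℝ | IsSpin σ ∧ LG B J' σ} := by
  ext σ
  exact ⟨fun hh => ⟨hh.1, LG_congrJ h hh.2⟩,
    fun hh => ⟨hh.1, LG_congrJ (fun e he => (h e he).symm) hh.2⟩⟩

lemma XX_loc [DecidableEq E] {S : Finset E} (hloc : Loc S φ) :
    Loc (nbhd (box R) ∪ (box N).biUnion (fun z => S.image (shE ((n : ℤ) • z))))
      (XX q n i φ R N) := by
  intro J J' h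
  have h1 : St n i φ N J = St n i φ N J' := by
    funext σ
    exact St_loc hloc σ J J' (fun e he => h e (Finset.mem_union_right _ he))
  unfold XX
  rw [h1, sols_loc (J := cpl q J) (J' := cpl q J')
    (fun e he => congrArg q (h e (Finset.mem_union_left _ he)))]

lemma YY_loc [DecidableEq E] {S : Finset E} (hloc : Loc S φ) :
    Loc (nbhd (box R) ∪ (box N).biUnion (fun z => S.image (shE ((n : ℤ) • z))))
      (YY q n i φ R N) := by
  intro J J' h
  have h1 : St n i φ N J = St n i φ N J' := by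
    funext σ
    exact St_loc hloc σ J J' (fun e he => h e (Finset.mem_union_right _ he))
  unfold YY
  rw [h1, sols_loc (J := cpl q J) (J' := cpl q J')
    (fun e he => congrArg q (h e (Finset.mem_union_left _ he)))]

/-- The statistic of a shifted configuration. -/
lemma St_shift (L : ℕ) (v : V) (J : E → Y) (σ : V → ℝ) :
    St n i φ L (shJ ((n : ℤ) • v) J) (shS ((n : ℤ) • v) σ)
      = ∑ z ∈ box L, φ (shJ ((n : ℤ) • (z + v)) J) * av σ (sub n i (z + v)) := by
  apply Finset.sum_congr rfl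
  intro z _
  show φ (shJ ((n : ℤ) • z) (shJ ((n : ℤ) • v) J)) * av (shS ((n : ℤ) • v) σ) (sub n i z) = _
  rw [shJ_shJ, av_shS, shE_sub, smul_add]

lemma LG_box_shift {RL RN L : ℕ} (hR : RL + n * (N - L) ≤ RN) {v : V}
    (hv : v ∈ box (N - L)) {J : E → Y} {σ : V → ℝ} (hσ : LG (box RN) (cpl q J) σ) :
    LG (box RL) (cpl q (shJ ((n : ℤ) • v) J)) (shS ((n : ℤ) • v) σ) := by
  show LG (box RL) (shJ ((n : ℤ) • v) (cpl q J)) (shS ((n : ℤ) • v) σ)
  apply LG_sh _ hσ
  intro x hx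
  rw [mem_box] at hx hv ⊢
  intro j
  have h1 := hx j
  have h2 := hv j
  have h3 : (RL : ℤ) + n * ((N - L : ℕ) : ℤ) ≤ RN := by exact_mod_cast hR
  have hn : (0 : ℤ) ≤ n := Int.natCast_nonneg n
  simp only [Pi.add_apply, Pi.smul_apply, smul_eq_mul]
  constructor
  · nlinarith [mul_le_mul_of_nonneg_left h2.1 hn]
  · nlinarith [mul_le_mul_of_nonneg_left h2.2 hn]

/-- Double counting over windows. -/
lemma window_upper {L : ℕ} (h2 : 2 * L ≤ N) (u : V → ℝ) (h0 : ∀ z, 0 ≤ u z) (h1 : ∀ z, u z ≤ 1) :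
    ((box L).card : ℝ) * ∑ z ∈ box N, u z
      ≤ ∑ v ∈ box (N - L), ∑ z ∈ box L, u (z + v)
        + ((box L).card : ℝ) * (((box N).card : ℝ) - ((box (N - 2 * L)).card : ℝ)) := by
  classical
  have hsub : box (N - 2 * L) ⊆ box N := box_mono (Nat.sub_le _ _)
  have e1 : ∑ z ∈ box N, u z ≤ ∑ z ∈ box (N - 2 * L), u z
      + (((box N).card : ℝ) - ((box (N - 2 * L)).card : ℝ)) := by
    rw [← Finset.sum_sdiff hsub, add_comm]
    have : ∑ z ∈ box N \ box (N - 2 * L), u z ≤ ∑ z ∈ box N \ box (N - 2 * L), (1 : ℝ) :=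
      Finset.sum_le_sum (fun z _ => h1 z)
    rw [Finset.sum_const, nsmul_eq_mul, mul_one, Finset.card_sdiff_of_subset hsub,
      Nat.cast_sub (Finset.card_le_card hsub)] at this
    linarith
  have e2 : ((box L).card : ℝ) * ∑ z ∈ box (N - 2 * L), u z
      ≤ ∑ v ∈ box (N - L), ∑ z ∈ box L, u (z + v) := by
    rw [Finset.sum_comm]
    rw [← nsmul_eq_mul, ← Finset.sum_const]
    apply Finset.sum_le_sum
    intro y hy
    -- shift by y
    rw [← Finset.sum_image (f := u) (g := fun v => y + v) (fun a _ b _ h => add_left_cancel h)]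
    apply Finset.sum_le_sum_of_subset_of_nonneg
    · intro x hx
      rw [Finset.mem_image]
      refine ⟨x - y, ?_, by abel⟩
      rw [mem_box] at hx hy ⊢
      intro j
      have a1 := hx j
      have a2 := hy j
      have a3 : ((N - 2 * L : ℕ) : ℤ) = N - 2 * L := by push_cast [Nat.cast_sub h2]; ring
      have a4 : ((N - L : ℕ) : ℤ) = N - L := by
        have : L ≤ N := by omega
        push_cast [Nat.cast_sub this]; ring
      simp only [Pi.sub_apply]
      constructor <;> linarith [a1.1, a1.2, a2.1, a2.2]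
    · intro z _ _; exact h0 z
  calc ((box L).card : ℝ) * ∑ z ∈ box N, u z
      ≤ ((box L).card : ℝ) * (∑ z ∈ box (N - 2 * L), u z
      + (((box N).card : ℝ) - ((box (N - 2 * L)).card : ℝ))) :=
        mul_le_mul_of_nonneg_left e1 (Nat.cast_nonneg _)
    _ ≤ _ := by rw [mul_add]; linarith

lemma window_lower {L : ℕ} (h2 : L ≤ N) (u : V → ℝ) (h0 : ∀ z, 0 ≤ u z) :
    ∑ v ∈ box (N - L), ∑ z ∈ box L, u (z + v) ≤ ((box L).card : ℝ) * ∑ z ∈ box N, u z := by
  classical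
  rw [Finset.sum_comm, ← nsmul_eq_mul, ← Finset.sum_const]
  apply Finset.sum_le_sum
  intro y hy
  rw [← Finset.sum_image (f := u) (g := fun v => y + v) (fun a _ b _ h => add_left_cancel h)]
  apply Finset.sum_le_sum_of_subset_of_nonneg
  · intro x hx
    rw [Finset.mem_image] at hx
    obtain ⟨v, hv, rfl⟩ := hx
    rw [mem_box] at hv hy ⊢
    intro j
    have a1 := hv j
    have a2 := hy j
    have a4 : ((N - L : ℕ) : ℤ) = N - L := by
      push_cast [Nat.cast_sub h2]; ring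
    simp only [Pi.add_apply]
    constructor <;> linarith [a1.1, a1.2, a2.1, a2.2]
  · intro z _ _; exact h0 z

lemma St_upper (hq : Measurable q) (hφ : Measurable φ) (h0 : ∀ J, 0 ≤ φ J) (h1 : ∀ J, φ J ≤ 1) {RL RN L : ℕ}
    (h2 : 2 * L ≤ N) (hR : RL + n * (N - L) ≤ RN) {J : E → Y} {σ : V → ℝ} (hσ : IsSpin σ)
    (hLG : LG (box RN) (cpl q J) σ) :
    ((box L).card : ℝ) * St n i φ N J σ
      ≤ ∑ v ∈ box (N - L), XX q n i φ RL L (shJ ((n : ℤ) • v) J)
        + ((box L).card : ℝ) * (((box N).card : ℝ) - ((box (N - 2 * L)).card : ℝ)) := by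
  have hw := window_upper h2 (fun z => φ (shJ ((n : ℤ) • z) J) * av σ (sub n i z))
    (fun z => mul_nonneg (h0 _) (av_nonneg hσ _))
    (fun z => mul_le_one₀ (h1 _) (av_nonneg hσ _) (av_le_one hσ _))
  refine hw.trans ?_
  gcongr with v hv
  rw [← St_shift]
  obtain ⟨sel, _, _, _, h4⟩ := exists_selX hq hφ n i RL L
  exact h4 _ _ (shS_spin hσ) (LG_box_shift hR hv hLG)

lemma St_lower (hq : Measurable q) (hφ : Measurable φ) (h0 : ∀ J, 0 ≤ φ J) {RL RN L : ℕ}
    (h2 : L ≤ N) (hR : RL + n * (N - L) ≤ RN) {J : E → Y} {σ : V → ℝ} (hσ : IsSpin σ)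
    (hLG : LG (box RN) (cpl q J) σ) :
    ∑ v ∈ box (N - L), YY q n i φ RL L (shJ ((n : ℤ) • v) J)
      ≤ ((box L).card : ℝ) * St n i φ N J σ := by
  have hw := window_lower h2 (fun z => φ (shJ ((n : ℤ) • z) J) * av σ (sub n i z))
    (fun z => mul_nonneg (h0 _) (av_nonneg hσ _))
  refine le_trans ?_ hw
  gcongr with v hv
  rw [← St_shift]
  obtain ⟨sel, _, _, _, h4⟩ := exists_selY hq hφ n i RL L
  exact h4 _ _ (shS_spin hσ) (LG_box_shift hR hv hLG)

end

end Pool.H66.EAM
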