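import Mathlib

set_option autoImplicit false
set_option linter.unusedSectionVars false

/-! The tilt: a coupling of the product law with a slightly perturbed one. -/

namespace Pool.H66.EAM

open MeasureTheory Set
open scoped ENNReal

section One

variable {Y : Type*} [MeasurableSpace Y] (μ : Measure Y) (q : Y → ℝ) (A A' : Set Y) (s : ℝ)

/-- Rate at which a coupling `x ∈ A` is moved to `y ∈ A'`. -/
noncomputable def kap (p : Y × Y) : ℝ≥0∞ :=
  (A ×ˢ A').indicator (fun p : Y × Y => ENNReal.ofReal (s / (q p.2 - q p.1))) p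

noncomputable def outm (x : Y) : ℝ≥0∞ := ∫⁻ y, kap q A A' s (x, y) ∂μ

noncomputable def inm (y : Y) : ℝ≥0∞ := ∫⁻ x, kap q A A' s (x, y) ∂μ

noncomputable def dens (x : Y) : ℝ≥0∞ := 1 - outm μ q A A' s x + inm μ q A A' s x

noncomputable def pim : Measure (Y × Y) :=
  (μ.withDensity (fun x => 1 - outm μ q A A' s x)).map (fun x => (x, x))
    + (μ.prod μ).withDensity (kap q A A' s)

variable {μ q A A' s}

lemma measurable_kap (hq : Measurable q) (hA : MeasurableSet A) (hA' : MeasurableSet A') :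
    Measurable (kap q A A' s) := by
  unfold kap
  apply Measurable.indicator _ (hA.prod hA')
  fun_prop

lemma measurable_outm [SFinite μ] (hq : Measurable q) (hA : MeasurableSet A) (hA' : MeasurableSet A') :
    Measurable (outm μ q A A' s) := (measurable_kap hq hA hA').lintegral_prod_right'

lemma measurable_inm [SFinite μ] (hq : Measurable q) (hA : MeasurableSet A) (hA' : MeasurableSet A') :
    Measurable (inm μ q A A' s) := (measurable_kap hq hA hA').lintegral_prod_left'

lemma measurable_dens [SFinite μ] (hq : Measurable q) (hA : MeasurableSet A) (hA' : MeasurableSet A') :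
    Measurable (dens μ q A A' s) := by
  unfold dens
  exact (measurable_const.sub (measurable_outm hq hA hA')).add (measurable_inm hq hA hA')

lemma kap_le {δ : ℝ} (hδ : 0 < δ) (hs : 0 ≤ s) (h : ∀ x ∈ A, ∀ y ∈ A', q x + δ ≤ q y) (p : Y × Y) :
    kap q A A' s p ≤ ENNReal.ofReal (s / δ) := by
  unfold kap
  by_cases hp : p ∈ A ×ˢ A'
  · rw [indicator_of_mem hp]
    apply ENNReal.ofReal_le_ofReal
    have := h p.1 hp.1 p.2 hp.2
    apply div_le_div_of_nonneg_left hs hδ
    linarith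
  · rw [indicator_of_notMem hp]; exact bot_le

lemma outm_le [IsProbabilityMeasure μ] {δ : ℝ} (hδ : 0 < δ) (hs : 0 ≤ s)
    (h : ∀ x ∈ A, ∀ y ∈ A', q x + δ ≤ q y) (x : Y) :
    outm μ q A A' s x ≤ ENNReal.ofReal (s / δ) := by
  unfold outm
  calc ∫⁻ y, kap q A A' s (x, y) ∂μ ≤ ∫⁻ y, ENNReal.ofReal (s / δ) ∂μ :=
        lintegral_mono (fun y => kap_le hδ hs h _)
    _ = ENNReal.ofReal (s / δ) := by simp

lemma inm_le [IsProbabilityMeasure μ] {δ : ℝ} (hδ : 0 < δ) (hs : 0 ≤ s)
    (h : ∀ x ∈ A, ∀ y ∈ A', q x + δ ≤ q y) (x : Y) :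
    inm μ q A A' s x ≤ ENNReal.ofReal (s / δ) := by
  unfold inm
  calc ∫⁻ y, kap q A A' s (y, x) ∂μ ≤ ∫⁻ y, ENNReal.ofReal (s / δ) ∂μ :=
        lintegral_mono (fun y => kap_le hδ hs h _)
    _ = ENNReal.ofReal (s / δ) := by simp

lemma outm_le_one [IsProbabilityMeasure μ] {δ : ℝ} (hδ : 0 < δ) (hs : 0 ≤ s) (hsδ : s ≤ δ)
    (h : ∀ x ∈ A, ∀ y ∈ A', q x + δ ≤ q y) (x : Y) : outm μ q A A' s x ≤ 1 := by
  refine (outm_le hδ hs h x).trans ?_
  rw [← ENNReal.ofReal_one]
  exact ENNReal.ofReal_le_ofReal ((div_le_one hδ).2 hsδ)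

lemma outm_eq_zero {x : Y} (hx : x ∉ A) : outm μ q A A' s x = 0 := by
  unfold outm
  have : ∀ y, kap q A A' s (x, y) = 0 := by
    intro y
    unfold kap
    rw [indicator_of_notMem]
    rintro ⟨h1, _⟩
    exact hx h1
  simp [this]

lemma one_le_dens {δ : ℝ} (hδ : 0 < δ) (h : ∀ x ∈ A, ∀ y ∈ A', q x + δ ≤ q y) {x : Y}
    (hx : x ∈ A') : 1 ≤ dens μ q A A' s x := by
  have : x ∉ A := by
    intro hxA
    have := h x hxA x hx
    linarith
  unfold dens
  rw [outm_eq_zero this]
  simp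

lemma pim_map_fst [IsProbabilityMeasure μ] {δ : ℝ} (hδ : 0 < δ) (hs : 0 ≤ s) (hsδ : s ≤ δ)
    (hq : Measurable q) (hA : MeasurableSet A) (hA' : MeasurableSet A')
    (h : ∀ x ∈ A, ∀ y ∈ A', q x + δ ≤ q y) : (pim μ q A A' s).map Prod.fst = μ := by
  unfold pim
  rw [Measure.map_add _ _ measurable_fst, Measure.map_map measurable_fst (by fun_prop)]
  have h1 : (Prod.fst ∘ fun x : Y => (x, x)) = id := rfl
  rw [h1, Measure.map_id]
  have h2 : ((μ.prod μ).withDensity (kap q A A' s)).map Prod.fst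
      = μ.withDensity (outm μ q A A' s) := by
    ext S hS
    rw [Measure.map_apply measurable_fst hS, withDensity_apply _ (measurable_fst hS),
      withDensity_apply _ hS]
    have : Prod.fst ⁻¹' S = S ×ˢ (univ : Set Y) := by ext; simp
    rw [this, ← Measure.prod_restrict, Measure.restrict_univ,
      lintegral_prod _ (measurable_kap hq hA hA').aemeasurable]
    rfl
  rw [h2]
  rw [← withDensity_add_right _ (measurable_outm hq hA hA')]
  have : (fun x => 1 - outm μ q A A' s x) + outm μ q A A' s = 1 := by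
    funext x
    exact tsub_add_cancel_of_le (outm_le_one hδ hs hsδ h x)
  rw [this, withDensity_one]

lemma pim_map_snd [IsProbabilityMeasure μ]
    (hq : Measurable q) (hA : MeasurableSet A) (hA' : MeasurableSet A') :
    (pim μ q A A' s).map Prod.snd = μ.withDensity (dens μ q A A' s) := by
  unfold pim
  rw [Measure.map_add _ _ measurable_snd, Measure.map_map measurable_snd (by fun_prop)]
  have h1 : (Prod.snd ∘ fun x : Y => (x, x)) = id := rfl
  rw [h1, Measure.map_id]
  have h2 : ((μ.prod μ).withDensity (kap q A A' s)).map Prod.snd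
      = μ.withDensity (inm μ q A A' s) := by
    ext S hS
    rw [Measure.map_apply measurable_snd hS, withDensity_apply _ (measurable_snd hS),
      withDensity_apply _ hS]
    have : Prod.snd ⁻¹' S = (univ : Set Y) ×ˢ S := by ext; simp
    rw [this, ← Measure.prod_restrict, Measure.restrict_univ,
      lintegral_prod_symm _ (measurable_kap hq hA hA').aemeasurable]
    rfl
  rw [h2, ← withDensity_add_right _ (measurable_inm hq hA hA')]
  rfl

lemma pim_weight [IsProbabilityMeasure μ] {δ : ℝ} (hδ : 0 < δ) (hs : 0 ≤ s)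
    (hq : Measurable q) (hA : MeasurableSet A) (hA' : MeasurableSet A')
    (h : ∀ x ∈ A, ∀ y ∈ A', q x + δ ≤ q y) :
    (pim μ q A A' s).withDensity (fun p => ENNReal.ofReal (q p.2 - q p.1))
      = ENNReal.ofReal s • (μ.restrict A).prod (μ.restrict A') := by
  have hw : Measurable (fun p : Y × Y => ENNReal.ofReal (q p.2 - q p.1)) := by fun_prop
  unfold pim
  ext S hS
  rw [withDensity_apply _ hS, Measure.restrict_add, lintegral_add_measure]
  have h1 : ∫⁻ p in S, ENNReal.ofReal (q p.2 - q p.1)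
      ∂((μ.withDensity (fun x => 1 - outm μ q A A' s x)).map (fun x => (x, x))) = 0 := by
    rw [setLIntegral_map hS hw (by fun_prop)]
    simp
  rw [h1, zero_add, restrict_withDensity hS,
    lintegral_withDensity_eq_lintegral_mul _ (measurable_kap hq hA hA') hw]
  have h2 : (kap q A A' s * fun p : Y × Y => ENNReal.ofReal (q p.2 - q p.1))
      = (A ×ˢ A').indicator (fun _ => ENNReal.ofReal s) := by
    funext p
    rw [Pi.mul_apply]
    unfold kap
    by_cases hp : p ∈ A ×ˢ A'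
    · rw [indicator_of_mem hp, indicator_of_mem hp]
      have := h p.1 hp.1 p.2 hp.2
      have hpos : 0 < q p.2 - q p.1 := by linarith
      rw [← ENNReal.ofReal_mul (by positivity)]
      congr 1
      field_simp
    · rw [indicator_of_notMem hp, indicator_of_notMem hp, zero_mul]
  rw [h2, lintegral_indicator_const (hA.prod hA'), Measure.smul_apply, Measure.prod_restrict,
    smul_eq_mul, Measure.restrict_apply (hA.prod hA'), Measure.restrict_apply hS, inter_comm]

lemma pim_prob [IsProbabilityMeasure μ] {δ : ℝ} (hδ : 0 < δ) (hs : 0 ≤ s) (hsδ : s ≤ δ)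
    (hq : Measurable q) (hA : MeasurableSet A) (hA' : MeasurableSet A')
    (h : ∀ x ∈ A, ∀ y ∈ A', q x + δ ≤ q y) : IsProbabilityMeasure (pim μ q A A' s) := by
  constructor
  have h1 := pim_map_fst (μ := μ) hδ hs hsδ hq hA hA' h
  have h2 : (pim μ q A A' s).map Prod.fst univ = 1 := by rw [h1]; exact measure_univ
  rwa [Measure.map_apply measurable_fst MeasurableSet.univ, preimage_univ] at h2

lemma pim_ae [MeasurableEq Y] [IsProbabilityMeasure μ] (hq : Measurable q) (hA : MeasurableSet A) (hA' : MeasurableSet A') :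
    ∀ᵐ p ∂(pim μ q A A' s), p.1 = p.2 ∨ (p.1 ∈ A ∧ p.2 ∈ A') := by
  have hm : MeasurableSet {p : Y × Y | p.1 = p.2 ∨ (p.1 ∈ A ∧ p.2 ∈ A')} := by
    apply MeasurableSet.union
    · exact measurableSet_eq_fun measurable_fst measurable_snd
    · exact (measurable_fst hA).inter (measurable_snd hA')
  unfold pim
  rw [ae_add_measure_iff]
  constructor
  · rw [ae_map_iff (by fun_prop) hm]
    filter_upwards with x
    exact Or.inl rfl
  · rw [ae_withDensity_iff (measurable_kap hq hA hA')]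
    filter_upwards with p hp
    right
    by_contra hcon
    apply hp
    unfold kap
    rw [indicator_of_notMem]
    exact hcon

lemma lintegral_outm_eq_inm [IsProbabilityMeasure μ] (hq : Measurable q) (hA : MeasurableSet A)
    (hA' : MeasurableSet A') :
    ∫⁻ x, outm μ q A A' s x ∂μ = ∫⁻ x, inm μ q A A' s x ∂μ := by
  unfold outm inm
  exact lintegral_lintegral_swap (measurable_kap hq hA hA').aemeasurable

lemma lintegral_dens [IsProbabilityMeasure μ] {δ : ℝ} (hδ : 0 < δ) (hs : 0 ≤ s) (hsδ : s ≤ δ)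
    (hq : Measurable q) (hA : MeasurableSet A) (hA' : MeasurableSet A')
    (h : ∀ x ∈ A, ∀ y ∈ A', q x + δ ≤ q y) : ∫⁻ x, dens μ q A A' s x ∂μ = 1 := by
  have := pim_prob (μ := μ) hδ hs hsδ hq hA hA' h
  have h1 := pim_map_snd (μ := μ) (s := s) hq hA hA'
  have h2 : (pim μ q A A' s).map Prod.snd univ = 1 := by
    rw [Measure.map_apply measurable_snd MeasurableSet.univ, preimage_univ]
    exact measure_univ
  rw [h1, withDensity_apply _ MeasurableSet.univ, Measure.restrict_univ] at h2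
  exact h2

lemma dens_sq_le [IsProbabilityMeasure μ] {δ : ℝ} (hδ : 0 < δ) (hs : 0 ≤ s) (hsδ : s ≤ δ)
    (h : ∀ x ∈ A, ∀ y ∈ A', q x + δ ≤ q y) (x : Y) :
    dens μ q A A' s x ^ 2 + 2 * outm μ q A A' s x
      ≤ 1 + 2 * inm μ q A A' s x + ENNReal.ofReal ((s / δ) ^ 2) := by
  have ho := outm_le (μ := μ) hδ hs h x
  have hi := inm_le (μ := μ) hδ hs h x
  have ho1 := outm_le_one (μ := μ) hδ hs hsδ h x
  have hot : outm μ q A A' s x ≠ ⊤ := ne_top_of_le_ne_top ENNReal.ofReal_ne_top ho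
  have hit : inm μ q A A' s x ≠ ⊤ := ne_top_of_le_ne_top ENNReal.ofReal_ne_top hi
  unfold dens
  obtain ⟨o, ho0, hoe⟩ : ∃ o : ℝ, 0 ≤ o ∧ outm μ q A A' s x = ENNReal.ofReal o :=
    ⟨_, ENNReal.toReal_nonneg, (ENNReal.ofReal_toReal hot).symm⟩
  obtain ⟨i, hi0, hie⟩ : ∃ i : ℝ, 0 ≤ i ∧ inm μ q A A' s x = ENNReal.ofReal i :=
    ⟨_, ENNReal.toReal_nonneg, (ENNReal.ofReal_toReal hit).symm⟩
  rw [hoe] at ho ho1 ⊢
  rw [hie] at hi ⊢
  have hsδ0 : 0 ≤ s / δ := by positivity
  rw [ENNReal.ofReal_le_ofReal_iff hsδ0] at ho hi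
  rw [← ENNReal.ofReal_one, ENNReal.ofReal_le_ofReal_iff (by norm_num)] at ho1
  have e2 : (2 : ℝ≥0∞) = ENNReal.ofReal 2 := by norm_num
  rw [← ENNReal.ofReal_one, ← ENNReal.ofReal_sub _ ho0,
    ← ENNReal.ofReal_add (by linarith) hi0, ← ENNReal.ofReal_pow (by linarith), e2,
    ← ENNReal.ofReal_mul (by norm_num), ← ENNReal.ofReal_mul (by norm_num),
    ← ENNReal.ofReal_add (by positivity) (by positivity),
    ← ENNReal.ofReal_add (by norm_num) (by positivity),
    ← ENNReal.ofReal_add (by positivity) (by positivity)]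
  apply ENNReal.ofReal_le_ofReal
  have h3 : (i - o) ^ 2 ≤ (s / δ) ^ 2 := by
    apply sq_le_sq'
    · linarith
    · linarith
  nlinarith

lemma lintegral_dens_sq_le [IsProbabilityMeasure μ] {δ : ℝ} (hδ : 0 < δ) (hs : 0 ≤ s)
    (hsδ : s ≤ δ) (hq : Measurable q) (hA : MeasurableSet A) (hA' : MeasurableSet A')
    (h : ∀ x ∈ A, ∀ y ∈ A', q x + δ ≤ q y) :
    ∫⁻ x, dens μ q A A' s x ^ 2 ∂μ ≤ ENNReal.ofReal (1 + (s / δ) ^ 2) := by
  have h1 : ∫⁻ x, (dens μ q A A' s x ^ 2 + 2 * outm μ q A A' s x) ∂μ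
      ≤ ∫⁻ x, (1 + 2 * inm μ q A A' s x + ENNReal.ofReal ((s / δ) ^ 2)) ∂μ :=
    lintegral_mono (fun x => dens_sq_le hδ hs hsδ h x)
  rw [lintegral_add_right _ ((measurable_outm hq hA hA').const_mul 2),
    lintegral_add_right _ measurable_const,
    lintegral_add_right _ ((measurable_inm hq hA hA').const_mul 2),
    lintegral_const_mul _ (measurable_outm hq hA hA'),
    lintegral_const_mul _ (measurable_inm hq hA hA'),
    lintegral_outm_eq_inm hq hA hA'] at h1
  simp only [lintegral_const, measure_univ, mul_one] at h1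
  have hfin : 2 * ∫⁻ x, inm μ q A A' s x ∂μ ≠ ⊤ := by
    apply ENNReal.mul_ne_top (by norm_num)
    apply ne_top_of_le_ne_top (ENNReal.ofReal_ne_top (r := s / δ))
    calc ∫⁻ x, inm μ q A A' s x ∂μ ≤ ∫⁻ x, ENNReal.ofReal (s / δ) ∂μ :=
          lintegral_mono (fun x => inm_le hδ hs h x)
      _ = ENNReal.ofReal (s / δ) := by simp
  have h2 : 1 + 2 * ∫⁻ x, inm μ q A A' s x ∂μ + ENNReal.ofReal ((s / δ) ^ 2)
      = (1 + ENNReal.ofReal ((s / δ) ^ 2)) + 2 * ∫⁻ x, inm μ q A A' s x ∂μ := by ring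
  rw [h2] at h1
  have h3 := (ENNReal.add_le_add_iff_right hfin).1 h1
  rw [ENNReal.ofReal_add (by norm_num) (by positivity), ENNReal.ofReal_one]
  exact h3

end One

end Pool.H66.EAM
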