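import Pool.Agent.Helper66.EAM.Tilt

set_option autoImplicit false
set_option linter.unusedSectionVars false

/-! The tilt on a finite product. -/

namespace Pool.H66.EAM

open MeasureTheory Set ProbabilityTheory
open scoped ENNReal

section Fin

variable {κ : Type*} [Fintype κ] {Y : Type*} [MeasurableSpace Y]

lemma pi_withDensity {X : κ → Type*} [∀ i, MeasurableSpace (X i)] (ν : ∀ i, Measure (X i))
    [∀ i, IsProbabilityMeasure (ν i)] (g : ∀ i, X i → ℝ≥0∞) (hg : ∀ i, Measurable (g i))
    [∀ i, IsFiniteMeasure ((ν i).withDensity (g i))] :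
    (Measure.pi ν).withDensity (fun x => ∏ i, g i (x i))
      = Measure.pi (fun i => (ν i).withDensity (g i)) := by
  classical
  symm
  apply Measure.pi_eq
  intro s hs
  rw [withDensity_apply _ (MeasurableSet.univ_pi hs), ← lintegral_indicator (MeasurableSet.univ_pi hs)]
  have h1 : (fun x : ∀ i, X i => (univ.pi s).indicator (fun x => ∏ i, g i (x i)) x)
      = fun x => ∏ i, (s i).indicator (g i) (x i) := by
    funext x
    by_cases hx : x ∈ univ.pi s
    · rw [indicator_of_mem hx]
      apply Finset.prod_congr rfl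
      intro i _
      rw [indicator_of_mem (hx i (mem_univ i))]
    · rw [indicator_of_notMem hx]
      symm
      simp only [mem_pi, mem_univ, forall_const, not_forall] at hx
      obtain ⟨i, hi⟩ := hx
      exact Finset.prod_eq_zero (Finset.mem_univ i) (indicator_of_notMem hi _)
  rw [h1]
  have hind : iIndepFun (fun i (x : ∀ i, X i) => (s i).indicator (g i) (x i)) (Measure.pi ν) :=
    iIndepFun_pi (X := fun i => (s i).indicator (g i))
      (fun i => ((hg i).indicator (hs i)).aemeasurable)
  rw [lintegral_prod_eq_prod_lintegral_of_indepFun Finset.univ _ hind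
    (fun i => ((hg i).indicator (hs i)).comp (measurable_pi_apply i))]
  apply Finset.prod_congr rfl
  intro i _
  rw [withDensity_apply _ (hs i), ← lintegral_indicator (hs i)]
  exact (measurePreserving_eval ν i).lintegral_comp ((hg i).indicator (hs i))

lemma wd_const (μ : Measure Y) (c : ℝ≥0∞) {S : Set Y} (hS : MeasurableSet S) :
    μ.withDensity (fun x => c * S.indicator 1 x) = c • μ.restrict S := by
  have h : (fun x => c * S.indicator (1 : Y → ℝ≥0∞) x) = c • S.indicator 1 := by
    funext x; rfl
  rw [h, withDensity_smul _ (measurable_one.indicator hS), withDensity_indicator_one hS]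

lemma transfer {μ : Measure Y} [IsProbabilityMeasure μ] (P : κ → Measure (Y × Y))
    [∀ w, IsProbabilityMeasure (P w)] (G : κ → Y × Y → ℝ≥0∞) (hG : ∀ w, Measurable (G w))
    [∀ w, IsFiniteMeasure ((P w).withDensity (G w))]
    (T : Y × Y → Y) (hT : Measurable T) (G' : κ → Y → ℝ≥0∞) (hG' : ∀ w, Measurable (G' w))
    (h : ∀ w, ((P w).withDensity (G w)).map T = μ.withDensity (G' w))
    (φ : (κ → Y) → ℝ≥0∞) (hφ : Measurable φ) :
    ∫⁻ p, (∏ w, G w (p w)) * φ (fun w => T (p w)) ∂(Measure.pi P)
      = ∫⁻ x, (∏ w, G' w (x w)) * φ x ∂(Measure.pi fun _ => μ) := by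
  have hfin : ∀ w, IsFiniteMeasure (μ.withDensity (G' w)) := by
    intro w; rw [← h w]; infer_instance
  have hTm : Measurable (fun (p : κ → Y × Y) w => T (p w)) :=
    measurable_pi_lambda _ (fun w => hT.comp (measurable_pi_apply w))
  have hGm : Measurable (fun p : κ → Y × Y => ∏ w, G w (p w)) :=
    Finset.measurable_prod _ (fun w _ => (hG w).comp (measurable_pi_apply w))
  have hGm' : Measurable (fun p : κ → Y => ∏ w, G' w (p w)) :=
    Finset.measurable_prod _ (fun w _ => (hG' w).comp (measurable_pi_apply w))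
  have e1 : ∫⁻ p, (∏ w, G w (p w)) * φ (fun w => T (p w)) ∂(Measure.pi P)
      = ∫⁻ p, φ (fun w => T (p w)) ∂((Measure.pi P).withDensity (fun p => ∏ w, G w (p w))) := by
    exact (lintegral_withDensity_eq_lintegral_mul _ hGm (hφ.comp hTm)).symm
  have e2 : ∫⁻ x, (∏ w, G' w (x w)) * φ x ∂(Measure.pi fun _ => μ)
      = ∫⁻ x, φ x ∂((Measure.pi fun _ : κ => μ).withDensity (fun p => ∏ w, G' w (p w))) := by
    exact (lintegral_withDensity_eq_lintegral_mul _ hGm' hφ).symm
  rw [e1, e2, pi_withDensity P G hG, pi_withDensity (fun _ : κ => μ) G' hG']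
  have e3 : Measure.pi (fun i => μ.withDensity (G' i))
      = (Measure.pi (fun i => (P i).withDensity (G i))).map (fun p w => T (p w)) := by
    have : ∀ i, SigmaFinite (((P i).withDensity (G i)).map T) := by
      intro i; infer_instance
    rw [Measure.pi_map_pi (fun i => hT.aemeasurable)]
    congr 1
    funext i
    exact (h i).symm
  rw [e3, lintegral_map hφ hTm]

variable {μ : Measure Y} {q : Y → ℝ} {A A' : Set Y} {s : ℝ}

/-- The coupling of two product laws on `κ → ℝ`. -/
noncomputable def pairM (μ : Measure Y) (q : Y → ℝ) (A A' : Set Y) (s : ℝ) (H : Finset κ) (e : κ) :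
    Measure (Y × Y) := by
  classical exact if e ∈ H then pim μ q A A' s else μ.map (fun x => (x, x))

theorem tilt_fin [DecidableEq κ] [MeasurableEq Y] [IsProbabilityMeasure μ] {δ : ℝ} (hδ : 0 < δ) (hs : 0 ≤ s)
    (hsδ : s ≤ δ) (hq : Measurable q) (hA : MeasurableSet A) (hA' : MeasurableSet A')
    (h : ∀ x ∈ A, ∀ y ∈ A', q x + δ ≤ q y) (H : Finset κ) (f g : κ → (κ → Y) → ℝ≥0∞)
    (C : (κ → Y) → ℝ≥0∞) (hf : ∀ e, Measurable (f e)) (hg : ∀ e, Measurable (g e))
    (hC : Measurable C)
    (hineq : ∀ x x' : κ → Y, (∀ e, x e = x' e ∨ (e ∈ H ∧ x e ∈ A ∧ x' e ∈ A')) →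
      ∑ e ∈ H, ENNReal.ofReal (q (x' e) - q (x e)) * f e x
        ≤ ∑ e ∈ H, ENNReal.ofReal (q (x' e) - q (x e)) * g e x' + C x) :
    ENNReal.ofReal s * μ A' * ∑ e ∈ H, ∫⁻ x, A.indicator 1 (x e) * f e x
        ∂(Measure.pi fun _ => μ)
      ≤ ENNReal.ofReal s * μ A * ∑ e ∈ H, ∫⁻ x, (∏ w ∈ H, dens μ q A A' s (x w)) *
          (A'.indicator 1 (x e) * g e x) ∂(Measure.pi fun _ => μ)
        + ∫⁻ x, C x ∂(Measure.pi fun _ => μ) := by
  have hw : Measurable (fun p : Y × Y => ENNReal.ofReal (q p.2 - q p.1)) := by fun_prop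
  have hpp := pim_prob (μ := μ) hδ hs hsδ hq hA hA' h
  have hdp : IsProbabilityMeasure (μ.map (fun x : Y => (x, x))) :=
    Measure.isProbabilityMeasure_map (by fun_prop)
  have hPp : ∀ e, IsProbabilityMeasure (pairM μ q A A' s H e) := by
    intro e; unfold pairM; split_ifs <;> assumption
  set PP := Measure.pi (pairM μ q A A' s H) with hPP
  -- marginals
  have hfst : ∀ e, (pairM μ q A A' s H e).map Prod.fst = μ := by
    intro e
    unfold pairM
    split_ifs
    · exact pim_map_fst hδ hs hsδ hq hA hA' h
    · rw [Measure.map_map measurable_fst (by fun_prop)]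
      exact Measure.map_id
  have hsnd : ∀ e ∈ H, (pairM μ q A A' s H e).map Prod.snd = μ.withDensity (dens μ q A A' s) := by
    intro e he
    unfold pairM
    rw [if_pos he]
    exact pim_map_snd hq hA hA'
  have hsnd' : ∀ e ∉ H, (pairM μ q A A' s H e).map Prod.snd = μ := by
    intro e he
    unfold pairM
    rw [if_neg he, Measure.map_map measurable_snd (by fun_prop)]
    exact Measure.map_id
  have hwt : ∀ e ∈ H, (pairM μ q A A' s H e).withDensity (fun p => ENNReal.ofReal (q p.2 - q p.1))
      = ENNReal.ofReal s • (μ.restrict A).prod (μ.restrict A') := by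
    intro e he
    unfold pairM
    rw [if_pos he]
    exact pim_weight hδ hs hq hA hA' h
  -- ae
  have hae : ∀ᵐ p ∂PP, ∀ e, (p e).1 = (p e).2 ∨ (e ∈ H ∧ (p e).1 ∈ A ∧ (p e).2 ∈ A') := by
    rw [ae_all_iff]
    intro e
    have h0 : ∀ᵐ r ∂(pairM μ q A A' s H e), r.1 = r.2 ∨ (e ∈ H ∧ r.1 ∈ A ∧ r.2 ∈ A') := by
      unfold pairM
      split_ifs with he
      · filter_upwards [pim_ae (μ := μ) (s := s) hq hA hA'] with r hr
        tauto
      · have hm : MeasurableSet {q' : Y × Y | q'.1 = q'.2 ∨ (e ∈ H ∧ q'.1 ∈ A ∧ q'.2 ∈ A')} := by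
          apply MeasurableSet.union
          · exact measurableSet_eq_fun measurable_fst measurable_snd
          · exact MeasurableSet.inter (MeasurableSet.const _)
              ((measurable_fst hA).inter (measurable_snd hA'))
        rw [ae_map_iff (by fun_prop) hm]
        filter_upwards with x
        exact Or.inl rfl
    exact (measurePreserving_eval (pairM μ q A A' s H) e).quasiMeasurePreserving.ae h0
  have hF1 : Measurable (fun (p : κ → Y × Y) w => (p w).1) :=
    measurable_pi_lambda _ (fun w => measurable_fst.comp (measurable_pi_apply w))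
  have hF2 : Measurable (fun (p : κ → Y × Y) w => (p w).2) :=
    measurable_pi_lambda _ (fun w => measurable_snd.comp (measurable_pi_apply w))
  have hwe : ∀ e : κ, Measurable (fun p : κ → Y × Y => ENNReal.ofReal (q (p e).2 - q (p e).1)) :=
    fun e => hw.comp (measurable_pi_apply e)
  have main : ∫⁻ p, ∑ e ∈ H, ENNReal.ofReal (q (p e).2 - q (p e).1) * f e (fun w => (p w).1) ∂PP
      ≤ ∫⁻ p, (∑ e ∈ H, ENNReal.ofReal (q (p e).2 - q (p e).1) * g e (fun w => (p w).2)
          + C (fun w => (p w).1)) ∂PP := by
    apply lintegral_mono_ae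
    filter_upwards [hae] with p hp
    exact hineq (fun w => (p w).1) (fun w => (p w).2) hp
  have hCm : Measurable (fun p : κ → Y × Y => C (fun w => (p w).1)) := hC.comp hF1
  have hfm : ∀ e ∈ H, Measurable (fun p : κ → Y × Y =>
      ENNReal.ofReal (q (p e).2 - q (p e).1) * f e (fun w => (p w).1)) :=
    fun e _ => (hwe e).mul ((hf e).comp hF1)
  have hgm : ∀ e ∈ H, Measurable (fun p : κ → Y × Y =>
      ENNReal.ofReal (q (p e).2 - q (p e).1) * g e (fun w => (p w).2)) :=
    fun e _ => (hwe e).mul ((hg e).comp hF2)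
  rw [lintegral_add_right _ hCm, lintegral_finsetSum _ hfm, lintegral_finsetSum _ hgm] at main
  -- C
  have hCe : ∫⁻ p, C (fun w => (p w).1) ∂PP = ∫⁻ x, C x ∂(Measure.pi fun _ => μ) := by
    have : (Measure.pi fun _ : κ => μ) = PP.map (fun (p : κ → Y × Y) w => (p w).1) := by
      have : ∀ i, SigmaFinite ((pairM μ q A A' s H i).map Prod.fst) := by
        intro i; rw [hfst i]; infer_instance
      rw [hPP, Measure.pi_map_pi (fun i => measurable_fst.aemeasurable)]
      congr 1
      funext i
      exact (hfst i).symm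
    rw [this, lintegral_map hC hF1]
  rw [hCe] at main
  -- densities
  have hind1 : ∀ S : Set Y, MeasurableSet S → Measurable (S.indicator (1 : Y → ℝ≥0∞)) :=
    fun S hS => measurable_one.indicator hS
  have prodG : ∀ (e : κ) (p : κ → Y × Y),
      ∏ w, (if w = e then (fun r : Y × Y => ENNReal.ofReal (q r.2 - q r.1)) else 1) (p w)
        = ENNReal.ofReal (q (p e).2 - q (p e).1) := by
    intro e p
    rw [Finset.prod_eq_single e]
    · rw [if_pos rfl]
    · intro w _ hw; rw [if_neg hw]; rfl
    · intro h; exact absurd (Finset.mem_univ e) h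
  have hGmeas : ∀ e w : κ, Measurable
      (if w = e then (fun r : Y × Y => ENNReal.ofReal (q r.2 - q r.1)) else 1) := by
    intro e w; split_ifs
    · exact hw
    · exact measurable_one
  have hGfin : ∀ e ∈ H, ∀ w, IsFiniteMeasure ((pairM μ q A A' s H w).withDensity
      (if w = e then (fun r : Y × Y => ENNReal.ofReal (q r.2 - q r.1)) else 1)) := by
    intro e he w
    by_cases hwe : w = e
    · subst hwe
      rw [if_pos rfl, hwt w he]
      constructor
      rw [Measure.smul_apply, smul_eq_mul]
      exact ENNReal.mul_lt_top ENNReal.ofReal_lt_top (measure_lt_top _ _)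
    · rw [if_neg hwe, withDensity_one]
      infer_instance
  have L : ∀ e ∈ H, ∫⁻ p, ENNReal.ofReal (q (p e).2 - q (p e).1) * f e (fun w => (p w).1) ∂PP
      = ENNReal.ofReal s * μ A' * ∫⁻ x, A.indicator 1 (x e) * f e x
        ∂(Measure.pi fun _ => μ) := by
    intro e he
    have := hGfin e he
    have key := transfer (μ := μ) (pairM μ q A A' s H)
      (fun w => if w = e then (fun r : Y × Y => ENNReal.ofReal (q r.2 - q r.1)) else 1)
      (hGmeas e) Prod.fst measurable_fst
      (fun w => if w = e then (fun x => ENNReal.ofReal s * μ A' * A.indicator 1 x) else 1)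
      (by
        intro w; split_ifs
        · exact (hind1 A hA).const_mul _
        · exact measurable_one)
      (by
        intro w
        by_cases hwe : w = e
        · subst hwe
          rw [if_pos rfl, if_pos rfl, hwt w he, Measure.map_smul, Measure.map_fst_prod]
          rw [wd_const _ _ hA, Measure.restrict_apply_univ, smul_smul]
        · rw [if_neg hwe, if_neg hwe, withDensity_one, withDensity_one, hfst])
      (f e) (hf e)
    simp_rw [prodG] at key
    have hm1 : Measurable (fun x : κ → Y => A.indicator 1 (x e) * f e x) :=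
      ((hind1 A hA).comp (measurable_pi_apply e)).mul (hf e)
    rw [key, ← lintegral_const_mul _ hm1]
    apply lintegral_congr
    intro x
    rw [Finset.prod_eq_single e]
    · rw [if_pos rfl]; ring
    · intro w _ hw; rw [if_neg hw]; rfl
    · intro h; exact absurd (Finset.mem_univ e) h
  have R : ∀ e ∈ H, ∫⁻ p, ENNReal.ofReal (q (p e).2 - q (p e).1) * g e (fun w => (p w).2) ∂PP
      ≤ ENNReal.ofReal s * μ A * ∫⁻ x, (∏ w ∈ H, dens μ q A A' s (x w)) *
          (A'.indicator 1 (x e) * g e x) ∂(Measure.pi fun _ => μ) := by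
    intro e he
    have := hGfin e he
    have key := transfer (μ := μ) (pairM μ q A A' s H)
      (fun w => if w = e then (fun r : Y × Y => ENNReal.ofReal (q r.2 - q r.1)) else 1)
      (hGmeas e) Prod.snd measurable_snd
      (fun w => if w = e then (fun x => ENNReal.ofReal s * μ A * A'.indicator 1 x) else
        if w ∈ H then dens μ q A A' s else 1)
      (by
        intro w; split_ifs
        · exact (hind1 A' hA').const_mul _
        · exact measurable_dens hq hA hA'
        · exact measurable_one)
      (by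
        intro w
        by_cases hwe : w = e
        · subst hwe
          rw [if_pos rfl, if_pos rfl, hwt w he, Measure.map_smul, Measure.map_snd_prod]
          rw [wd_const _ _ hA', Measure.restrict_apply_univ, smul_smul]
        · rw [if_neg hwe, if_neg hwe, withDensity_one]
          split_ifs with hwH
          · exact hsnd w hwH
          · rw [withDensity_one]; exact hsnd' w hwH)
      (g e) (hg e)
    simp_rw [prodG] at key
    have hmD : Measurable (fun x : κ → Y => ∏ w ∈ H, dens μ q A A' s (x w)) :=
      Finset.measurable_prod _ (fun w _ => (measurable_dens hq hA hA').comp (measurable_pi_apply w))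
    have hm1 : Measurable (fun x : κ → Y => (∏ w ∈ H, dens μ q A A' s (x w)) *
        (A'.indicator 1 (x e) * g e x)) := hmD.mul
      (((hind1 A' hA').comp (measurable_pi_apply e)).mul (hg e))
    rw [key, ← lintegral_const_mul _ hm1]
    apply lintegral_mono
    intro x
    have hprod : ∏ w, (if w = e then (fun x => ENNReal.ofReal s * μ A * A'.indicator 1 x) else
        if w ∈ H then dens μ q A A' s else 1) (x w)
        = (ENNReal.ofReal s * μ A * A'.indicator 1 (x e)) *
          ∏ w ∈ H.erase e, dens μ q A A' s (x w) := by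
      rw [← Finset.mul_prod_erase Finset.univ _ (Finset.mem_univ e), if_pos rfl]
      congr 1
      have hsub : H.erase e ⊆ Finset.univ.erase e := Finset.erase_subset_erase _ (Finset.subset_univ _)
      rw [← Finset.prod_subset hsub]
      · apply Finset.prod_congr rfl
        intro w hw
        rw [if_neg (Finset.ne_of_mem_erase hw), if_pos (Finset.mem_of_mem_erase hw)]
      · intro w hw hw'
        have hne := Finset.ne_of_mem_erase hw
        rw [if_neg hne, if_neg]
        · rfl
        · intro hwH
          exact hw' (Finset.mem_erase.2 ⟨hne, hwH⟩)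
    show (∏ w, (if w = e then (fun x => ENNReal.ofReal s * μ A * A'.indicator 1 x) else
        if w ∈ H then dens μ q A A' s else 1) (x w)) * g e x ≤
        ENNReal.ofReal s * μ A * ((∏ w ∈ H, dens μ q A A' s (x w)) *
          (A'.indicator 1 (x e) * g e x))
    rw [hprod]
    by_cases hx : x e ∈ A'
    · have h1 : (1 : ℝ≥0∞) ≤ dens μ q A A' s (x e) := one_le_dens hδ h hx
      rw [← Finset.mul_prod_erase H _ he, indicator_of_mem hx]
      calc ENNReal.ofReal s * μ A * (1 : Y → ℝ≥0∞) (x e) *
            (∏ w ∈ H.erase e, dens μ q A A' s (x w)) * g e x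
          = (ENNReal.ofReal s * μ A) * (1 * (∏ w ∈ H.erase e, dens μ q A A' s (x w))
            * ((1 : Y → ℝ≥0∞) (x e) * g e x)) := by
              simp only [Pi.one_apply]; ring
        _ ≤ (ENNReal.ofReal s * μ A) * (dens μ q A A' s (x e) *
            (∏ w ∈ H.erase e, dens μ q A A' s (x w))
            * ((1 : Y → ℝ≥0∞) (x e) * g e x)) := by gcongr
    · rw [indicator_of_notMem hx]
      simp
  calc ENNReal.ofReal s * μ A' * ∑ e ∈ H, ∫⁻ x, A.indicator 1 (x e) * f e x
        ∂(Measure.pi fun _ => μ)
      = ∑ e ∈ H, ∫⁻ p, ENNReal.ofReal (q (p e).2 - q (p e).1) * f e (fun w => (p w).1) ∂PP := by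
        rw [Finset.mul_sum]
        exact Finset.sum_congr rfl (fun e he => (L e he).symm)
    _ ≤ _ := main
    _ ≤ _ := by
        gcongr
        rw [Finset.mul_sum]
        exact Finset.sum_le_sum (fun e he => R e he)

end Fin

end Pool.H66.EAM
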