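import Pool.Agent.Helper66.EAM.Main

set_option autoImplicit false
set_option linter.unusedSectionVars false

/-! Uniform almost sure bounds. -/

namespace Pool.H66.EAM

open MeasureTheory Set ProbabilityTheory Filter Topology
open scoped ENNReal

variable {Y : Type*} [MeasurableSpace Y]

/-- Uniform almost sure upper bound `u` for the statistic of `φ` per site. -/
def UB (μ : Measure Y) [IsProbabilityMeasure μ] (q : Y → ℝ) (n : ℕ) (i : Fin 2) (ρ : ℕ → ℕ)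
    (φ : (E → Y) → ℝ) (u : ℝ) : Prop :=
  ∀ᵐ J ∂(PJ μ), ∀ ε > 0, ∃ N0 : ℕ, ∀ N ≥ N0, ∀ σ, IsSpin σ → LG (box (ρ N)) (cpl q J) σ →
    St n i φ N J σ ≤ (u + ε) * ((box N).card : ℝ)

/-- The statistic of `φ` per site converges to `c`, uniformly. -/
def Uni (μ : Measure Y) [IsProbabilityMeasure μ] (q : Y → ℝ) (n : ℕ) (i : Fin 2) (ρ : ℕ → ℕ)
    (φ : (E → Y) → ℝ) (c : ℝ) : Prop :=
  UB μ q n i ρ φ c ∧ UB μ q n i ρ (fun J => - φ J) (-c)

section

variable {μ : Measure Y} [IsProbabilityMeasure μ] {q : Y → ℝ} {n : ℕ} {i : Fin 2} {φ φ' ψ : (E → Y) → ℝ}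
  {ρ : ℕ → ℕ} {S : Finset E} {u u' l : ℝ}

lemma St_add (N : ℕ) (J : E → Y) (σ : V → ℝ) :
    St n i (fun J => φ J + φ' J) N J σ = St n i φ N J σ + St n i φ' N J σ := by
  unfold St cnt
  rw [← Finset.sum_add_distrib]
  exact Finset.sum_congr rfl (fun z _ => by ring)

lemma St_smul (c : ℝ) (N : ℕ) (J : E → Y) (σ : V → ℝ) :
    St n i (fun J => c * φ J) N J σ = c * St n i φ N J σ := by
  unfold St cnt
  rw [Finset.mul_sum]
  exact Finset.sum_congr rfl (fun z _ => by ring)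

lemma St_neg (N : ℕ) (J : E → Y) (σ : V → ℝ) :
    St n i (fun J => - φ J) N J σ = - St n i φ N J σ := by
  unfold St cnt
  rw [← Finset.sum_neg_distrib]
  exact Finset.sum_congr rfl (fun z _ => by ring)

lemma UB.mono (h : UB μ q n i ρ φ u) (huu : u ≤ u') : UB μ q n i ρ φ u' := by
  filter_upwards [h] with J hJ ε hε
  obtain ⟨N0, hN0⟩ := hJ ε hε
  refine ⟨N0, fun N hN σ hσ hLG => (hN0 N hN σ hσ hLG).trans ?_⟩
  have := box_pos N
  gcongr

lemma UB_of_forall (h : ∀ η > 0, UB μ q n i ρ φ (u + η)) : UB μ q n i ρ φ u := by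
  have h1 : ∀ k : ℕ, UB μ q n i ρ φ (u + 1 / ((k : ℝ) + 1)) := fun k => h _ (by positivity)
  unfold UB at h1
  rw [← ae_all_iff] at h1
  filter_upwards [h1] with J hJ ε hε
  obtain ⟨k, hk⟩ := exists_nat_one_div_lt (half_pos hε)
  obtain ⟨N0, hN0⟩ := hJ k (ε / 2) (half_pos hε)
  refine ⟨N0, fun N hN σ hσ hLG => (hN0 N hN σ hσ hLG).trans ?_⟩
  have := box_pos N
  apply mul_le_mul_of_nonneg_right _ this.le
  linarith

lemma UB.add (h : UB μ q n i ρ φ u) (h' : UB μ q n i ρ φ' u') :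
    UB μ q n i ρ (fun J => φ J + φ' J) (u + u') := by
  filter_upwards [h, h'] with J hJ hJ' ε hε
  obtain ⟨N0, hN0⟩ := hJ (ε / 2) (half_pos hε)
  obtain ⟨N1, hN1⟩ := hJ' (ε / 2) (half_pos hε)
  refine ⟨max N0 N1, fun N hN σ hσ hLG => ?_⟩
  rw [St_add]
  have h1 := hN0 N ((le_max_left _ _).trans hN) σ hσ hLG
  have h2 := hN1 N ((le_max_right _ _).trans hN) σ hσ hLG
  calc St n i φ N J σ + St n i φ' N J σ
      ≤ (u + ε / 2) * ((box N).card : ℝ) + (u' + ε / 2) * ((box N).card : ℝ) := add_le_add h1 h2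
    _ = (u + u' + ε) * ((box N).card : ℝ) := by ring

lemma UB_zero : UB μ q n i ρ (fun _ => 0) 0 := by
  filter_upwards with J ε hε
  refine ⟨0, fun N _ σ _ _ => ?_⟩
  have : St n i (fun _ => 0) N J σ = 0 := by
    unfold St cnt; simp
  rw [this]
  have := box_pos N
  positivity

lemma UB_sum {ι : Type*} (s : Finset ι) (f : ι → (E → Y) → ℝ) (v : ι → ℝ)
    (h : ∀ j ∈ s, UB μ q n i ρ (f j) (v j)) :
    UB μ q n i ρ (fun J => ∑ j ∈ s, f j J) (∑ j ∈ s, v j) := by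
  classical
  induction s using Finset.induction_on with
  | empty => simpa using (UB_zero (μ := μ) (q := q) (n := n) (i := i) (ρ := ρ))
  | insert a s ha ih =>
    simp only [Finset.sum_insert ha]
    exact (h a (Finset.mem_insert_self a s)).add
      (ih (fun j hj => h j (Finset.mem_insert_of_mem hj)))

lemma UB.smul (h : UB μ q n i ρ φ u) {c : ℝ} (hc : 0 ≤ c) :
    UB μ q n i ρ (fun J => c * φ J) (c * u) := by
  rcases hc.eq_or_lt with rfl | hc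
  · simpa using (UB_zero (μ := μ) (q := q) (n := n) (i := i) (ρ := ρ))
  filter_upwards [h] with J hJ ε hε
  obtain ⟨N0, hN0⟩ := hJ (ε / c) (div_pos hε hc)
  refine ⟨N0, fun N hN σ hσ hLG => ?_⟩
  rw [St_smul]
  calc c * St n i φ N J σ ≤ c * ((u + ε / c) * ((box N).card : ℝ)) :=
        mul_le_mul_of_nonneg_left (hN0 N hN σ hσ hLG) hc.le
    _ = (c * u + ε) * ((box N).card : ℝ) := by field_simp

lemma UB_xbar (hq : Measurable q) (hφ : Measurable φ) (h0 : ∀ J, 0 ≤ φ J) (h1 : ∀ J, φ J ≤ 1) (hloc : Loc S φ)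
    (hn : 0 < n) (hρ : ∀ L N, L ≤ N → ρ L + n * (N - L) ≤ ρ N) (L : ℕ) :
    UB μ q n i ρ φ (xbar μ q n i φ ρ L) := by
  filter_upwards [ub_ae (i := i) hq hφ h0 h1 hloc hn hρ L] with J hJ ε hε
  obtain ⟨U, hU, hU2⟩ := hJ
  rw [Metric.tendsto_atTop] at hU
  obtain ⟨N0, hN0⟩ := hU ε hε
  refine ⟨max N0 (2 * L), fun N hN σ hσ hLG => ?_⟩
  have h2 := hU2 N ((le_max_right _ _).trans hN) σ hσ hLG
  have h3 := hN0 N ((le_max_left _ _).trans hN)
  rw [Real.dist_eq, abs_lt] at h3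
  refine h2.trans ?_
  have := box_pos N
  gcongr
  linarith [h3.2]

lemma UB_neg_ybar (hq : Measurable q) (hφ : Measurable φ) (h0 : ∀ J, 0 ≤ φ J) (h1 : ∀ J, φ J ≤ 1) (hloc : Loc S φ)
    (hn : 0 < n) (hρ : ∀ L N, L ≤ N → ρ L + n * (N - L) ≤ ρ N) (L : ℕ) :
    UB μ q n i ρ (fun J => - φ J) (- ybar μ q n i φ ρ L) := by
  filter_upwards [ZZ_tendsto (i := i) (ρ := ρ) hq hφ h0 h1 hloc hn L] with J hJ ε hε
  rw [Metric.tendsto_atTop] at hJ
  obtain ⟨N0, hN0⟩ := hJ ε hε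
  refine ⟨max N0 L, fun N hN σ hσ hLG => ?_⟩
  have h2 := ZZ_le (i := i) hq hφ h0 hρ ((le_max_right _ _).trans hN) hσ hLG
  have h3 := hN0 N ((le_max_left _ _).trans hN)
  rw [Real.dist_eq, abs_lt] at h3
  rw [St_neg]
  have := box_pos N
  have h4 : (ybar μ q n i φ ρ L - ε) * ((box N).card : ℝ)
      ≤ ZZ q n i φ ρ L N J * ((box N).card : ℝ) := by
    gcongr
    linarith [h3.1]
  linarith

lemma UB.approx (h : UB μ q n i ρ φ u) (hψ : Measurable ψ) {C : ℝ} (hb : ∀ J, |ψ J| ≤ C)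
    (hloc : Loc S ψ) (hn : 0 < n) (hle : ∀ J, φ' J ≤ φ J + ψ J) (hψ0 : ∀ J, 0 ≤ ψ J) :
    UB μ q n i ρ φ' (u + ∫ J, ψ J ∂(PJ μ)) := by
  filter_upwards [h, lln μ n hn S ψ hψ C hb hloc] with J hJ hJ' ε hε
  obtain ⟨N0, hN0⟩ := hJ (ε / 2) (half_pos hε)
  rw [Metric.tendsto_atTop] at hJ'
  obtain ⟨N1, hN1⟩ := hJ' (ε / 2) (half_pos hε)
  refine ⟨max N0 N1, fun N hN σ hσ hLG => ?_⟩
  have h1 := hN0 N ((le_max_left _ _).trans hN) σ hσ hLG
  have h2 := hN1 N ((le_max_right _ _).trans hN)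
  have hc := box_pos N
  rw [Real.dist_eq, abs_lt, sub_lt_iff_lt_add', div_lt_iff₀ hc] at h2
  have h3 : St n i φ' N J σ ≤ St n i φ N J σ + ∑ z ∈ box N, ψ (shJ ((n : ℤ) • z) J) := by
    unfold St cnt
    rw [← Finset.sum_add_distrib]
    apply Finset.sum_le_sum
    intro z _
    have a1 := hle (shJ ((n : ℤ) • z) J)
    have a2 := hψ0 (shJ ((n : ℤ) • z) J)
    have a3 := av_nonneg hσ (sub n i z)
    have a4 := av_le_one hσ (sub n i z)
    calc φ' (shJ ((n : ℤ) • z) J) * av σ (sub n i z)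
        ≤ (φ (shJ ((n : ℤ) • z) J) + ψ (shJ ((n : ℤ) • z) J)) * av σ (sub n i z) :=
          mul_le_mul_of_nonneg_right a1 a3
      _ ≤ φ (shJ ((n : ℤ) • z) J) * av σ (sub n i z) + ψ (shJ ((n : ℤ) • z) J) := by
          rw [add_mul]
          gcongr
          exact mul_le_of_le_one_right a2 a4
  calc St n i φ' N J σ ≤ St n i φ N J σ + ∑ z ∈ box N, ψ (shJ ((n : ℤ) • z) J) := h3
    _ ≤ (u + ε / 2) * ((box N).card : ℝ) + (∫ J, ψ J ∂(PJ μ) + ε / 2) * ((box N).card : ℝ) :=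
        add_le_add h1 h2.2.le
    _ = _ := by ring

lemma UB_le (h : UB μ q n i ρ φ u) (h' : UB μ q n i ρ (fun J => - φ J) (-l)) : l ≤ u := by
  obtain ⟨J, hJ, hJ'⟩ := (h.and h').exists
  apply le_of_forall_pos_le_add
  intro ε hε
  obtain ⟨N0, hN0⟩ := hJ (ε / 2) (half_pos hε)
  obtain ⟨N1, hN1⟩ := hJ' (ε / 2) (half_pos hε)
  obtain ⟨s, _, hs⟩ := exists_LG (box (ρ (max N0 N1))) (cpl q J)
  have h1 := hN0 _ (le_max_left _ _) _ (pat_spin s) hs
  have h2 := hN1 _ (le_max_right _ _) _ (pat_spin s) hs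
  rw [St_neg] at h2
  have hc := box_pos (max N0 N1)
  have h3 : 0 ≤ (u - l + ε) * ((box (max N0 N1)).card : ℝ) := by linarith
  have h4 := nonneg_of_mul_nonneg_left h3 hc
  linarith

lemma exists_Uni (h : ∀ η > 0, ∃ u l, UB μ q n i ρ φ u ∧ UB μ q n i ρ (fun J => - φ J) (-l) ∧
    u - l ≤ η) : ∃ c, Uni μ q n i ρ φ c := by
  obtain ⟨u0, l0, hu0, hl0, _⟩ := h 1 one_pos
  have hbdd : BddBelow {u | UB μ q n i ρ φ u} := ⟨l0, fun u hu => UB_le hu hl0⟩
  refine ⟨sInf {u | UB μ q n i ρ φ u}, ?_, ?_⟩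
  · apply UB_of_forall
    intro η hη
    obtain ⟨u, l, hu, hl, hul⟩ := h η hη
    have h1 : l ≤ sInf {u | UB μ q n i ρ φ u} := le_csInf ⟨u0, hu0⟩ (fun u' hu' => UB_le hu' hl)
    exact hu.mono (by linarith)
  · apply UB_of_forall
    intro η hη
    obtain ⟨u, l, hu, hl, hul⟩ := h η hη
    have h1 : sInf {u | UB μ q n i ρ φ u} ≤ u := csInf_le hbdd hu
    exact hl.mono (by linarith)

lemma Uni.neg {c : ℝ} (h : Uni μ q n i ρ φ c) : Uni μ q n i ρ (fun J => - φ J) (-c) := by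
  refine ⟨h.2, ?_⟩
  simp only [neg_neg]
  exact h.1

lemma Uni.add {c c' : ℝ} (h : Uni μ q n i ρ φ c) (h' : Uni μ q n i ρ φ' c') :
    Uni μ q n i ρ (fun J => φ J + φ' J) (c + c') := by
  refine ⟨h.1.add h'.1, ?_⟩
  have := h.2.add h'.2
  simp only [neg_add]
  exact this

lemma Uni.smul {c : ℝ} (h : Uni μ q n i ρ φ c) (a : ℝ) :
    Uni μ q n i ρ (fun J => a * φ J) (a * c) := by
  rcases le_total 0 a with ha | ha
  · refine ⟨h.1.smul ha, ?_⟩
    have := h.2.smul ha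
    simp only [mul_neg] at this
    exact this
  · have ha' : 0 ≤ -a := by linarith
    constructor
    · have := h.2.smul ha'
      simpa using this
    · have := h.1.smul ha'
      simpa using this

lemma Uni_zero : Uni μ q n i ρ (fun _ => 0) 0 := by
  constructor
  · exact UB_zero
  · simpa using (UB_zero (μ := μ) (q := q) (n := n) (i := i) (ρ := ρ))

lemma Uni_sum {ι : Type*} (s : Finset ι) (f : ι → (E → Y) → ℝ) (v : ι → ℝ)
    (h : ∀ j ∈ s, Uni μ q n i ρ (f j) (v j)) :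
    Uni μ q n i ρ (fun J => ∑ j ∈ s, f j J) (∑ j ∈ s, v j) := by
  classical
  induction s using Finset.induction_on with
  | empty => simpa using (Uni_zero (μ := μ) (q := q) (n := n) (i := i) (ρ := ρ))
  | insert a s ha ih =>
    simp only [Finset.sum_insert ha]
    exact (h a (Finset.mem_insert_self a s)).add
      (ih (fun j hj => h j (Finset.mem_insert_of_mem hj)))

/-- Closure under approximation. -/
lemma exists_Uni_of_approx (hn : 0 < n)
    (h : ∀ η > 0, ∃ (φ' ψ : (E → Y) → ℝ) (c C : ℝ) (S : Finset E), Uni μ q n i ρ φ' c ∧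
      Measurable ψ ∧ (∀ J, |ψ J| ≤ C) ∧ Loc S ψ ∧ (∀ J, |φ J - φ' J| ≤ ψ J) ∧
      ∫ J, ψ J ∂(PJ μ) ≤ η) : ∃ c, Uni μ q n i ρ φ c := by
  apply exists_Uni
  intro η hη
  obtain ⟨φ', ψ, c, C, S, hU, hm, hb, hl, hd, hint⟩ := h (η / 2) (half_pos hη)
  have h0 : ∀ J, 0 ≤ ψ J := fun J => (abs_nonneg _).trans (hd J)
  refine ⟨c + ∫ J, ψ J ∂(PJ μ), c - ∫ J, ψ J ∂(PJ μ), ?_, ?_, by linarith⟩
  · apply hU.1.approx hm hb hl hn _ h0
    intro J
    have := (abs_le.1 (hd J)).2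
    linarith
  · have e : -(c - ∫ J, ψ J ∂(PJ μ)) = -c + ∫ J, ψ J ∂(PJ μ) := by ring
    rw [e]
    apply hU.2.approx hm hb hl hn _ h0
    intro J
    have := (abs_le.1 (hd J)).1
    linarith

end

end Pool.H66.EAM
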